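import Pool.Agent.Lib.MP_b685ef_ag.AST.Spec

section
/-!
# MP_b685ef_ag, theorem AST: module EDGELU, the edges of `det (1 - X B)` from the LU decomposition
-/
set_option linter.all false

namespace AST

open Finset ASur Matrix Polynomial

namespace EDGELUAux

open ASur.EDGEMAux

/-- A unitriangular matrix with respect to a level function. -/
theorem det_uni {R I : Type} [CommRing R] [Fintype I] [DecidableEq I] (e : I → ℕ)
    (T : Matrix I I R) (h : ∀ i j, T i j ≠ 0 → i = j ∨ e j < e i) (hd : ∀ i, T i i = 1) :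
    T.det = 1 := by
  classical
  have h1 : T.transpose.BlockTriangular e := by
    intro i j hij
    by_contra hne
    rcases h j i hne with h2 | h2
    · subst h2; exact lt_irrefl _ hij
    · exact lt_asymm h2 hij
  rw [← Matrix.det_transpose, h1.det]
  refine Finset.prod_eq_one fun a _ => ?_
  have : T.transpose.toSquareBlock e a = 1 := by
    refine Matrix.ext fun i j => ?_
    show T j.1 i.1 = _
    rw [Matrix.one_apply]
    by_cases hij : i = j
    · rw [if_pos hij, hij]; exact hd _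
    · rw [if_neg hij]
      by_contra hne
      rcases h j.1 i.1 hne with h2 | h2
      · exact hij (Subtype.ext h2.symm)
      · rw [i.2, j.2] at h2; exact lt_irrefl _ h2
  rw [this, Matrix.det_one]

theorem det_uni' {R I : Type} [CommRing R] [Fintype I] [DecidableEq I] (e : I → ℕ)
    (T : Matrix I I R) (h : ∀ i j, T i j ≠ 0 → i = j ∨ e i < e j) (hd : ∀ i, T i i = 1) :
    T.det = 1 := by
  rw [← Matrix.det_transpose]
  refine det_uni e _ (fun i j hij => ?_) hd
  rcases h j i hij with h1 | h1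
  · exact Or.inl h1.symm
  · exact Or.inr h1

section blocks
variable {R J : Type} [CommRing R] [Fintype J] [DecidableEq J]

/-- Block diagonal matrices. -/
def bd (h : ℕ) (T : Fin h → Matrix J J R) : Matrix (Fin h × J) (Fin h × J) R :=
  Matrix.of fun x y => if x.1 = y.1 then T x.1 x.2 y.2 else 0

theorem bd_apply (h : ℕ) (T : Fin h → Matrix J J R) (x y : Fin h × J) :
    bd h T x y = if x.1 = y.1 then T x.1 x.2 y.2 else 0 := rfl

theorem bd_mul (h : ℕ) (T : Fin h → Matrix J J R) (N : Matrix (Fin h × J) (Fin h × J) R)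
    (i : Fin h) (u : J) (y : Fin h × J) :
    (bd h T * N) (i, u) y = ∑ w, T i u w * N (i, w) y := by
  rw [Matrix.mul_apply, Fintype.sum_prod_type, Finset.sum_eq_single i]
  · refine Finset.sum_congr rfl fun w _ => ?_
    rw [bd_apply, if_pos rfl]
  · intro k _ hk
    refine Finset.sum_eq_zero fun w _ => ?_
    rw [bd_apply, if_neg (fun h' => hk h'.symm), zero_mul]
  · intro h
    exact absurd (Finset.mem_univ i) h

theorem mul_bd (h : ℕ) (T : Fin h → Matrix J J R) (N : Matrix (Fin h × J) (Fin h × J) R)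
    (x : Fin h × J) (j : Fin h) (v : J) :
    (N * bd h T) x (j, v) = ∑ w, N x (j, w) * T j w v := by
  rw [Matrix.mul_apply, Fintype.sum_prod_type, Finset.sum_eq_single j]
  · refine Finset.sum_congr rfl fun w _ => ?_
    rw [bd_apply, if_pos rfl]
  · intro k _ hk
    refine Finset.sum_eq_zero fun w _ => ?_
    rw [bd_apply, if_neg hk, mul_zero]
  · intro h
    exact absurd (Finset.mem_univ j) h

theorem sandwich (h : ℕ) (P Q : Fin h → Matrix J J R) (S S' : Matrix J J R)
    (E E' : ℕ → Matrix J J R) (hS : ∀ i, P i * S * Q i = S')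
    (hE : ∀ i j : Fin h, (i : ℕ) = ((j : ℕ) + 1) % h → P i * E j * Q j = E' j) :
    bd h P * cyc h S E * bd h Q = cyc h S' E' := by
  refine Matrix.ext fun x y => ?_
  obtain ⟨i, u⟩ := x
  obtain ⟨j, v⟩ := y
  rw [mul_bd]
  set B : Matrix J J R := Matrix.of fun z w => cyc h S E (i, z) (j, w) with hB
  have h1 : ∀ w, (bd h P * cyc h S E) (i, u) (j, w) = (P i * B) u w := by
    intro w
    rw [bd_mul, Matrix.mul_apply]
    rfl
  rw [Finset.sum_congr rfl fun w _ => by rw [h1 w], ← Matrix.mul_apply]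
  have h2 : B = (if i = j then S else 0) -
      (if (i : ℕ) = ((j : ℕ) + 1) % h then E j else 0) := by
    refine Matrix.ext fun z w => ?_
    show (if i = j then S z w else 0) - (if (i : ℕ) = ((j : ℕ) + 1) % h then E j z w else 0) = _
    rw [Matrix.sub_apply]
    congr 1 <;> split_ifs <;> rfl
  have h3 : P i * B * Q j = (if i = j then S' else 0) -
      (if (i : ℕ) = ((j : ℕ) + 1) % h then E' j else 0) := by
    rw [h2, Matrix.mul_sub, Matrix.sub_mul]
    congr 1
    · by_cases hij : i = j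
      · rw [if_pos hij, if_pos hij, ← hij]; exact hS i
      · rw [if_neg hij, if_neg hij, Matrix.mul_zero, Matrix.zero_mul]
    · by_cases hij : (i : ℕ) = ((j : ℕ) + 1) % h
      · rw [if_pos hij, if_pos hij]; exact hE i j hij
      · rw [if_neg hij, if_neg hij, Matrix.mul_zero, Matrix.zero_mul]
  rw [h3, Matrix.sub_apply]
  show _ = (if i = j then S' u v else 0) - (if (i : ℕ) = ((j : ℕ) + 1) % h then E' j u v else 0)
  congr 1 <;> split_ifs <;> rfl

theorem Eb_eq (Ct : ℕ → Matrix J J R) (j : ℕ) :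
    Eb Ct j = (if j = 0 then (X : R[X]) else 1) • (Ct j).map C := by
  refine Matrix.ext fun u v => ?_
  rw [Eb_apply, Matrix.smul_apply, Matrix.map_apply, smul_eq_mul]

theorem Pmat_diag (f : ℕ → J → R) (n : ℕ) :
    Pmat (fun i => Matrix.diagonal (f i)) n = Matrix.diagonal (fun u => ∏ i ∈ range n, f i u) := by
  induction n with
  | zero =>
    simp only [Pmat, Finset.range_zero, Finset.prod_empty]
    exact (Matrix.diagonal_one).symm
  | succ n ih =>
    show Matrix.diagonal (f n) * Pmat (fun i => Matrix.diagonal (f i)) n = _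
    rw [ih, Matrix.diagonal_mul_diagonal]
    congr 1
    funext u
    rw [Finset.prod_range_succ, mul_comm]

theorem charpolyRev_diag (f : J → R) :
    (Matrix.diagonal f).charpolyRev = ∏ u, (1 - C (f u) * X) := by
  have h1 : (1 : Matrix J J R[X]) - (X : R[X]) • (Matrix.diagonal f).map C =
      Matrix.diagonal fun u => 1 - C (f u) * X := by
    refine Matrix.ext fun u v => ?_
    rw [Matrix.sub_apply, Matrix.smul_apply, Matrix.map_apply, smul_eq_mul]
    by_cases h : u = v
    · subst h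
      rw [Matrix.one_apply_eq, Matrix.diagonal_apply_eq, Matrix.diagonal_apply_eq, mul_comm]
    · rw [Matrix.one_apply_ne h, Matrix.diagonal_apply_ne _ h, Matrix.diagonal_apply_ne _ h,
        map_zero, mul_zero, sub_zero]
  show ((1 : Matrix J J R[X]) - (X : R[X]) • (Matrix.diagonal f).map C).det = _
  rw [h1, Matrix.det_diagonal]

end blocks

/-- Restriction to the levels at most `m`. -/
theorem restrict {κ I : Type} [Field κ] [Fintype I] [DecidableEq I] (e : I → ℕ) (m n : ℕ)
    (Ct : ℕ → Matrix I I κ) (h0 : ∀ i, i < n + 1 → ∀ u v, m < e u → Ct i u v = 0) :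
    (cyc (n + 1) (Sb e m κ[X]) (Eb Ct)).det =
      (cyc (n + 1) (Sb (fun u : {u // e u ≤ m} => e u.1) m κ[X])
        (Eb fun i => rs (fun u => e u ≤ m) (Ct i))).det := by
  classical
  set M := cyc (n + 1) (Sb e m κ[X]) (Eb Ct) with hM
  have hMa : ∀ x y, M x y = (if x.1 = y.1 then Sb e m κ[X] x.2 y.2 else 0) -
    (if x.1.val = (y.1.val + 1) % (n + 1) then Eb Ct y.1 x.2 y.2 else 0) := fun x y => rfl
  have hrow : ∀ x y, m < e x.2 → M x y = if x = y then 1 else 0 := by
    intro x y hx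
    rw [hMa, Eb_apply, h0 _ y.1.2 _ _ hx, map_zero, mul_zero, ite_self, sub_zero]
    by_cases h : x = y
    · rw [if_pos h, h, if_pos rfl, Sb, Matrix.diagonal_apply_eq, if_neg]
      rw [← h]; omega
    · rw [if_neg h]
      by_cases h' : x.1 = y.1
      · rw [if_pos h', Sb, Matrix.diagonal_apply_ne]
        intro h2
        exact h (Prod.ext h' h2)
      · rw [if_neg h']
  rw [Matrix.twoBlockTriangular_det M (fun x => e x.2 ≤ m)]
  swap
  · intro x hx y hy
    rw [hrow x y (not_le.mp hx), if_neg]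
    rintro rfl
    exact hx hy
  have hone : (M.toSquareBlockProp fun x => ¬ e x.2 ≤ m) = 1 := by
    refine Matrix.ext fun x y => ?_
    show M x.1 y.1 = _
    rw [hrow _ _ (not_le.mp x.2), Matrix.one_apply]
    by_cases h : x = y
    · rw [if_pos h, if_pos (congrArg _ h)]
    · rw [if_neg h, if_neg (fun h' => h (Subtype.ext h'))]
  rw [hone, Matrix.det_one, mul_one]
  let e1 : Fin (n + 1) × {u // e u ≤ m} ≃ {x : Fin (n + 1) × I // e x.2 ≤ m} :=
    ⟨fun x => ⟨(x.1, x.2.1), x.2.2⟩, fun x => (x.1.1, ⟨x.1.2, x.2⟩),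
      fun x => rfl, fun x => rfl⟩
  rw [← Matrix.det_submatrix_equiv_self e1]
  congr 1
  refine Matrix.ext fun x y => ?_
  show M (x.1, x.2.1) (y.1, y.2.1) = _
  rw [hMa]
  show _ = (if x.1 = y.1 then Sb (fun u : {u // e u ≤ m} => e u.1) m κ[X] x.2 y.2 else 0) -
    (if x.1.val = (y.1.val + 1) % (n + 1) then
      Eb (fun i => rs (fun u => e u ≤ m) (Ct i)) y.1 x.2 y.2 else 0)
  congr 1
  by_cases h : x.1 = y.1
  · rw [if_pos h, if_pos h, Sb, Sb]
    by_cases h' : x.2 = y.2
    · rw [h', Matrix.diagonal_apply_eq, Matrix.diagonal_apply_eq]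
    · rw [Matrix.diagonal_apply_ne _ h', Matrix.diagonal_apply_ne]
      exact fun h2 => h' (Subtype.ext h2)
  · rw [if_neg h, if_neg h]

/-- The reduction of the characteristic polynomial, from the `LU` decomposition. -/
theorem edge_barLU (hCYC1 : StmtCYC1) (hCYC3 : StmtCYC3) {κ I : Type} [Field κ] [Fintype I]
    [DecidableEq I] (e : I → ℕ) (m n : ℕ) (Ct : ℕ → Matrix I I κ) (L U : ℕ → I → I → κ)
    (h0 : ∀ i, i < n + 1 → ∀ u v, m < e u → Ct i u v = 0)
    (hLU : ∀ i, i < n + 1 → ∀ u v, e u ≤ m → e v ≤ m →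
      Ct i u v = ∑ w ∈ univ.filter (fun w => e w ≤ m), L i u w * U i w v)
    (hL : ∀ i u w, L i u w ≠ 0 → w = u ∨ e w < e u)
    (hU : ∀ i w v, U i w v ≠ 0 → w = v ∨ e w < e v)
    (hU1 : ∀ i u, U i u u = 1) (hL1 : ∀ i, i < n + 1 → ∀ u, e u ≤ m → L i u u ≠ 0) :
    ∃ c : κ, c ≠ 0 ∧ (cyc (n + 1) (Sb e m κ[X]) (Eb Ct)).det =
      C c * (X ^ Fintype.card {u // e u < m} *
        ∏ u ∈ univ.filter (fun u => e u = m),
          (1 - C (∏ i ∈ Finset.range (n + 1), L i u u) * X)) := by
  classical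
  set eJ : {u // e u ≤ m} → ℕ := fun u => e u.1 with heJ
  have heJm : ∀ u : {u // e u ≤ m}, eJ u ≤ m := fun u => u.2
  set d : ℕ → {u // e u ≤ m} → κ := fun i u => L i u.1 u.1 with hd
  set Lt : ℕ → Matrix {u // e u ≤ m} {u // e u ≤ m} κ := fun i =>
    Matrix.of fun u w => L i u.1 w.1 * (d i w)⁻¹ with hLt
  set UJ : ℕ → Matrix {u // e u ≤ m} {u // e u ≤ m} κ := fun i =>
    Matrix.of fun u w => U i u.1 w.1 with hUJ
  have hLt0 : ∀ i u w, Lt i u w ≠ 0 → u = w ∨ eJ w < eJ u := by
    intro i u w h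
    have h1 : L i u.1 w.1 ≠ 0 := left_ne_zero_of_mul (b := (d i w)⁻¹) h
    rcases hL i _ _ h1 with h2 | h2
    · exact Or.inl (Subtype.ext h2.symm)
    · exact Or.inr h2
  have hUJ0 : ∀ i u w, UJ i u w ≠ 0 → u = w ∨ eJ u < eJ w := by
    intro i u w h
    rcases hU i _ _ h with h2 | h2
    · exact Or.inl (Subtype.ext h2)
    · exact Or.inr h2
  have hLt1 : ∀ i, i < n + 1 → ∀ u, Lt i u u = 1 := by
    intro i hi u
    show L i u.1 u.1 * (L i u.1 u.1)⁻¹ = 1
    exact mul_inv_cancel₀ (hL1 i hi u.1 u.2)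
  have hUJ1 : ∀ i u, UJ i u u = 1 := fun i u => hU1 i u.1
  have hfac : ∀ i, i < n + 1 →
      Lt i * Matrix.diagonal (d i) * UJ i = rs (fun u => e u ≤ m) (Ct i) := by
    intro i hi
    refine Matrix.ext fun u v => ?_
    rw [Matrix.mul_apply]
    have h1 : ∀ w : {u // e u ≤ m}, (Lt i * Matrix.diagonal (d i)) u w * UJ i w v =
        L i u.1 w.1 * U i w.1 v.1 := by
      intro w
      rw [Matrix.mul_diagonal]
      show L i u.1 w.1 * (L i w.1 w.1)⁻¹ * L i w.1 w.1 * U i w.1 v.1 = _
      rw [mul_assoc (L i u.1 w.1), inv_mul_cancel₀ (hL1 i hi w.1 w.2), mul_one]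
    rw [Finset.sum_congr rfl fun w _ => h1 w]
    show _ = Ct i u.1 v.1
    rw [hLU i hi u.1 v.1 u.2 v.2]
    exact (Finset.sum_subtype (univ.filter fun w => e w ≤ m) (by simp)
      (fun w => L i u.1 w * U i w v.1)).symm
  -- the conjugation
  have hsand : bd (n + 1) (fun k : Fin (n + 1) => (Lt ((k.1 + n) % (n + 1))).map (C : κ →+* κ[X])) *
      cyc (n + 1) (Sb eJ m κ[X]) (Eb fun i => Matrix.diagonal (d i)) *
      bd (n + 1) (fun k : Fin (n + 1) => (UJ k.1).map (C : κ →+* κ[X])) =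
      cyc (n + 1) (Sb eJ m κ[X]) (fun j => if j < n + 1 then
        Eb (fun i => rs (fun u => e u ≤ m) (Ct i)) j else 0) := by
    refine sandwich (n + 1) _ _ _ _ _ _ ?_ ?_
    · intro i
      refine Matrix.ext fun u v => ?_
      rw [Matrix.mul_apply, Finset.sum_eq_single u]
      · rw [Sb, Matrix.mul_diagonal, Matrix.map_apply, Matrix.map_apply,
          hLt1 _ (Nat.mod_lt _ (Nat.succ_pos n)), map_one, one_mul]
        by_cases huv : u = v
        · rw [← huv, hUJ1, map_one, mul_one, Matrix.diagonal_apply_eq]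
        · rw [Matrix.diagonal_apply_ne _ huv]
          by_cases hu : eJ u < m
          · rw [if_pos hu, zero_mul]
          · have h1 : UJ i.1 u v = 0 := by
              by_contra hne
              rcases hUJ0 _ _ _ hne with h2 | h2
              · exact huv h2
              · have := heJm v
                omega
            rw [h1, map_zero, mul_zero]
      · intro w _ hw
        rw [Sb, Matrix.mul_diagonal, Matrix.map_apply]
        by_cases hwm : eJ w < m
        · rw [if_pos hwm, mul_zero, zero_mul]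
        · have h1 : Lt ((i.1 + n) % (n + 1)) u w = 0 := by
            by_contra hne
            rcases hLt0 _ _ _ hne with h2 | h2
            · exact hw h2.symm
            · have := heJm u
              omega
          rw [h1, map_zero, zero_mul, zero_mul]
      · intro h
        exact absurd (Finset.mem_univ u) h
    · intro i j hij
      have hj : (i.1 + n) % (n + 1) = j.1 := by
        rw [hij, Nat.mod_add_mod, add_assoc, add_comm 1 n, Nat.add_mod_right,
          Nat.mod_eq_of_lt j.2]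
      simp only [hj]
      rw [if_pos j.2, Eb_eq, Eb_eq, ← hfac j.1 j.2, Matrix.mul_smul, Matrix.smul_mul]
      congr 1
      rw [← RingHom.mapMatrix_apply, ← RingHom.mapMatrix_apply, ← RingHom.mapMatrix_apply,
        ← RingHom.mapMatrix_apply, map_mul, map_mul]
  have hcyc : cyc (n + 1) (Sb eJ m κ[X]) (fun j => if j < n + 1 then
        Eb (fun i => rs (fun u => e u ≤ m) (Ct i)) j else 0) =
      cyc (n + 1) (Sb eJ m κ[X]) (Eb fun i => rs (fun u => e u ≤ m) (Ct i)) := by
    refine Matrix.ext fun x y => ?_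
    rw [cyc_apply, cyc_apply, if_pos y.1.2]
  have hP : (bd (n + 1) (fun k : Fin (n + 1) =>
      (Lt ((k.1 + n) % (n + 1))).map (C : κ →+* κ[X]))).det = 1 := by
    refine det_uni (fun x => eJ x.2) _ ?_ ?_
    · intro x y hxy
      rw [bd_apply] at hxy
      by_cases h1 : x.1 = y.1
      · rw [if_pos h1, Matrix.map_apply] at hxy
        have h2 : Lt ((x.1.1 + n) % (n + 1)) x.2 y.2 ≠ 0 := fun h => hxy (by rw [h, map_zero])
        rcases hLt0 _ _ _ h2 with h3 | h3
        · exact Or.inl (Prod.ext h1 h3)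
        · exact Or.inr h3
      · rw [if_neg h1] at hxy
        exact absurd rfl hxy
    · intro x
      rw [bd_apply, if_pos rfl, Matrix.map_apply, hLt1 _ (Nat.mod_lt _ (Nat.succ_pos n)), map_one]
  have hQ : (bd (n + 1) (fun k : Fin (n + 1) => (UJ k.1).map (C : κ →+* κ[X]))).det = 1 := by
    refine det_uni' (fun x => eJ x.2) _ ?_ ?_
    · intro x y hxy
      rw [bd_apply] at hxy
      by_cases h1 : x.1 = y.1
      · rw [if_pos h1, Matrix.map_apply] at hxy
        have h2 : UJ x.1.1 x.2 y.2 ≠ 0 := fun h => hxy (by rw [h, map_zero])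
        rcases hUJ0 _ _ _ h2 with h3 | h3
        · exact Or.inl (Prod.ext h1 h3)
        · exact Or.inr h3
      · rw [if_neg h1] at hxy
        exact absurd rfl hxy
    · intro x
      rw [bd_apply, if_pos rfl, Matrix.map_apply, hUJ1, map_one]
  have hdet := congrArg Matrix.det hsand
  rw [Matrix.det_mul, Matrix.det_mul, hP, hQ, one_mul, mul_one, hcyc] at hdet
  rw [restrict e m n Ct h0, ← hdet]
  obtain ⟨c, hc, hbar⟩ := edge_bar hCYC1 hCYC3 eJ m n (fun i => Matrix.diagonal (d i))
    (fun i _ u v hu => absurd (heJm u) (not_le.2 hu))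
    (fun i _ u v _ _ huv => Matrix.diagonal_apply_ne _ (fun h => huv (congrArg eJ h)))
  rw [hbar]
  have hrs : ∀ (q : {u // e u ≤ m} → Prop) (i : ℕ),
      rs q (Matrix.diagonal (d i)) = Matrix.diagonal fun u => d i u.1 := by
    intro q i
    refine Matrix.ext fun u v => ?_
    show Matrix.diagonal (d i) u.1 v.1 = _
    by_cases h : u = v
    · rw [h, Matrix.diagonal_apply_eq, Matrix.diagonal_apply_eq]
    · rw [Matrix.diagonal_apply_ne _ h, Matrix.diagonal_apply_ne]
      exact fun h2 => h (Subtype.ext h2)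
  have hD0 : ∏ i ∈ Finset.range (n + 1),
      (rs (fun u => eJ u < m) (Matrix.diagonal (d i))).det ≠ 0 := by
    rw [Finset.prod_ne_zero_iff]
    intro i hi
    rw [hrs, Matrix.det_diagonal, Finset.prod_ne_zero_iff]
    intro u _
    exact hL1 i (Finset.mem_range.1 hi) u.1.1 u.1.2
  refine ⟨_, mul_ne_zero hc hD0, ?_⟩
  rw [mul_assoc (C _)]
  congr 1
  congr 1
  · congr 1
    let e2 : {u : {u // e u ≤ m} // eJ u < m} ≃ {u // e u < m} :=
      ⟨fun u => ⟨u.1.1, u.2⟩, fun u => ⟨⟨u.1, u.2.le⟩, u.2⟩, fun u => rfl, fun u => rfl⟩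
    exact Fintype.card_congr e2
  · have h1 : (fun i => rs (fun u => eJ u = m) (Matrix.diagonal (d i))) = fun i =>
        Matrix.diagonal fun u : {u : {u // e u ≤ m} // eJ u = m} => d i u.1 := by
      funext i
      exact hrs _ i
    rw [h1, Pmat_diag, charpolyRev_diag]
    let e3 : {u : {u // e u ≤ m} // eJ u = m} ≃ {u // e u = m} :=
      ⟨fun u => ⟨u.1.1, u.2⟩, fun u => ⟨⟨u.1, u.2.le⟩, u.2⟩, fun u => rfl, fun u => rfl⟩
    rw [Finset.prod_subtype (univ.filter fun u => e u = m) (p := fun u => e u = m) (by simp)]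
    exact Fintype.prod_equiv e3 _ _ (fun u => rfl)

end EDGELUAux

open ASur.EDGEMAux EDGELUAux in
theorem edgelu_thm : StmtEDGELU := by
  have hCYC1 : StmtCYC1 := CYC1_thm
  have hCYC3 : StmtCYC3 := CYC3_thm
  intro C _ _ ι _ _ e p h m ρ A Cm L U hp hh hρ hρ1 hC hA hLU hL hU hU1 hL1 m0
  classical
  obtain ⟨n, rfl⟩ : ∃ n, h = n + 1 := ⟨h - 1, by omega⟩
  set π : C := ρ ^ ((p - 1) * m) with hπ
  have hπ0 : π ≠ 0 := pow_ne_zero _ hρ
  -- integral lifts
  let s : ι → OO C := fun u => ⟨if e u < m then ρ ^ ((p - 1) * (m - e u)) else 1, by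
    rw [mem_OO]
    split_ifs
    · rw [norm_pow]; exact pow_le_one₀ (norm_nonneg _) hρ1.le
    · simp⟩
  have hs : ∀ u, ((s u : OO C) : C) = if e u < m then ρ ^ ((p - 1) * (m - e u)) else 1 :=
    fun u => rfl
  let EO : ℕ → Matrix ι ι (OO C) := fun i u v =>
    ⟨(if e u ≤ m then 1 else ρ ^ ((p - 1) * (e u - m))) * Cm i u v, by
      rw [mem_OO, norm_mul]
      refine mul_le_one₀ ?_ (norm_nonneg _) (hC i u v)
      split_ifs
      · simp
      · rw [norm_pow]; exact pow_le_one₀ (norm_nonneg _) hρ1.le⟩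
  have hEO : ∀ i u v, ((EO i u v : OO C) : C) =
      (if e u ≤ m then 1 else ρ ^ ((p - 1) * (e u - m))) * Cm i u v := fun i u v => rfl
  let Es : ℕ → Matrix ι ι C := fun i => Matrix.of fun u v => ρ ^ ((p - 1) * e u) * Cm i u v / π
  have hEs : ∀ i u v, Es i u v = ρ ^ ((p - 1) * e u) * Cm i u v / π := fun i u v => rfl
  have hsE : ∀ i u v, ((EO i u v : OO C) : C) = (s u : C) * Es i u v := by
    intro i u v
    rw [hEO, hs, hEs]
    rcases lt_trichotomy (e u) m with hlt | heq | hgt
    · rw [if_pos hlt.le, if_pos hlt]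
      have : ρ ^ ((p - 1) * (m - e u)) * ρ ^ ((p - 1) * e u) = π := by
        rw [hπ, ← pow_add, ← mul_add]
        congr 2
        omega
      field_simp
      rw [← this]
      ring
    · rw [if_pos heq.le, if_neg (by omega), heq, ← hπ]
      field_simp
    · rw [if_neg (by omega), if_neg (by omega)]
      have : ρ ^ ((p - 1) * (e u - m)) * π = ρ ^ ((p - 1) * e u) := by
        rw [hπ, ← pow_add, ← mul_add]
        congr 2
        omega
      rw [← this]
      field_simp
  -- the determinant over `O[X]`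
  set MO : Matrix (Fin (n + 1) × ι) (Fin (n + 1) × ι) (OO C)[X] :=
    cyc (n + 1) (Matrix.diagonal fun u => Polynomial.C (s u)) (Eb EO) with hMO
  -- (a) in `C[X]`
  have hsub : MO.det.map (OO C).subtype =
      Polynomial.C ((∏ u, (s u : C)) ^ (n + 1)) * (Pmat Es (n + 1)).charpolyRev := by
    have h1 := RingHom.map_det (Polynomial.mapRingHom (OO C).subtype) MO
    rw [Polynomial.coe_mapRingHom] at h1
    rw [h1, RingHom.mapMatrix_apply, hMO, cyc_map]
    have h2 : (fun i => (Eb EO i).map (Polynomial.mapRingHom (OO C).subtype)) = fun i =>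
        (Matrix.diagonal fun u => (Polynomial.C ((s u : OO C) : C) : C[X])) * Eb Es i := by
      funext i
      ext1 u v
      rw [Matrix.map_apply, Matrix.diagonal_mul, Eb_apply, Eb_apply, map_mul]
      have h3 : (Polynomial.mapRingHom (OO C).subtype) (Polynomial.C (EO i u v)) =
          Polynomial.C ((s u : C) * Es i u v) := by
        rw [Polynomial.coe_mapRingHom, Polynomial.map_C, ← hsE i u v]
        rfl
      rw [h3, map_mul]
      split_ifs
      · rw [Polynomial.coe_mapRingHom, Polynomial.map_X]; ring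
      · rw [map_one]; ring
    have h4 : (Matrix.diagonal fun u => (Polynomial.C (s u) : (OO C)[X])).map
        (Polynomial.mapRingHom (OO C).subtype) =
        Matrix.diagonal fun u => (Polynomial.C ((s u : OO C) : C) : C[X]) := by
      rw [Matrix.diagonal_map (map_zero _)]
      congr 1
      funext u
      rw [Polynomial.coe_mapRingHom, Polynomial.map_C]
      rfl
    rw [h2, h4, det_cyc_mul hCYC1 (n + 1) (by omega), Matrix.det_diagonal, Pmat_Eb,
      ← map_prod, ← map_pow]
    rfl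
  -- (b) the reduction
  set r : OO C →+* KK C := IsLocalRing.residue (OO C) with hr
  have hrc : ∀ x : OO C, r x = rd (x : C) := fun x => (rd_coe x).symm
  set Ct : ℕ → Matrix ι ι (KK C) := fun i => (EO i).map r with hCt
  have hCtle : ∀ i u v, e u ≤ m → Ct i u v = rd (Cm i u v) := by
    intro i u v hu
    show r (EO i u v) = _
    rw [hrc, hEO, if_pos hu, one_mul]
  have hCt0 : ∀ i, i < n + 1 → ∀ u v, m < e u → Ct i u v = 0 := by
    intro i _ u v hu
    show r (EO i u v) = _
    rw [hrc, hEO, if_neg (by omega)]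
    apply rd_of_lt
    rw [norm_mul, norm_pow]
    have h1 : ‖ρ‖ ^ ((p - 1) * (e u - m)) < 1 := by
      apply pow_lt_one₀ (norm_nonneg _) hρ1
      have : 0 < (p - 1) * (e u - m) := Nat.mul_pos (by omega) (by omega)
      omega
    calc ‖ρ‖ ^ ((p - 1) * (e u - m)) * ‖Cm i u v‖
        ≤ ‖ρ‖ ^ ((p - 1) * (e u - m)) * 1 :=
          mul_le_mul_of_nonneg_left (hC i u v) (by positivity)
      _ < 1 := by rw [mul_one]; exact h1
  have hred : MO.det.map r = (cyc (n + 1) (Sb e m (KK C)[X]) (Eb Ct)).det := by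
    have h1 := RingHom.map_det (Polynomial.mapRingHom r) MO
    rw [Polynomial.coe_mapRingHom] at h1
    rw [h1, RingHom.mapMatrix_apply, hMO, cyc_map]
    congr 1
    congr 1
    · rw [Matrix.diagonal_map (map_zero _), Sb]
      congr 1
      funext u
      rw [Polynomial.coe_mapRingHom, Polynomial.map_C, hrc, hs]
      split_ifs with hu
      · rw [rd_of_lt, Polynomial.C_0]
        rw [norm_pow]
        apply pow_lt_one₀ (norm_nonneg _) hρ1
        have : 0 < (p - 1) * (m - e u) := Nat.mul_pos (by omega) (by omega)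
        omega
      · rw [rd_one, Polynomial.C_1]
    · funext i
      ext1 u v
      rw [Matrix.map_apply, Eb_apply, Eb_apply, map_mul, Polynomial.coe_mapRingHom,
        Polynomial.map_C]
      congr 1
      split_ifs
      · rw [Polynomial.map_X]
      · rw [Polynomial.map_one]
  obtain ⟨c0, hc00, hbar⟩ := edge_barLU hCYC1 hCYC3 e m n Ct L U hCt0 (fun i hi u v hu hv => by
    rw [hCtle i u v hu]
    exact hLU i hi u v hu hv) hL hU hU1 hL1
  -- (c) conjugation
  have hconj : ∀ k, (Pmat A (n + 1)).charpolyRev.coeff k =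
      (π ^ (n + 1)) ^ k * (Pmat Es (n + 1)).charpolyRev.coeff k := by
    intro k
    let W : Matrix ι ι C := Matrix.diagonal fun u => ρ ^ e u
    have hW : IsUnit W.det := by
      rw [Matrix.det_diagonal, isUnit_iff_ne_zero, Finset.prod_ne_zero_iff]
      intro u _
      exact pow_ne_zero _ hρ
    have hstep : ∀ i, A i * W = W * (π • Es i) := by
      intro i
      ext1 u v
      rw [Matrix.mul_diagonal, Matrix.diagonal_mul, hA, Matrix.smul_apply, hEs, smul_eq_mul,
        mul_div_cancel₀ _ hπ0, ← mul_assoc, ← pow_add]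
      congr 2
      have : p * e u = e u + (p - 1) * e u := by
        obtain ⟨q, rfl⟩ : ∃ q, p = q + 1 := ⟨p - 1, by omega⟩
        rw [Nat.add_sub_cancel]
        ring
      exact this
    have hP : ∀ j, Pmat A j * W = W * (π ^ j • Pmat Es j) := by
      intro j
      induction j with
      | zero =>
        show 1 * W = W * (π ^ 0 • (1 : Matrix ι ι C))
        rw [pow_zero, one_smul, one_mul, mul_one]
      | succ j ih =>
        show A j * Pmat A j * W = W * (π ^ (j + 1) • (Es j * Pmat Es j))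
        rw [mul_assoc, ih, ← mul_assoc, hstep, mul_assoc]
        simp only [Matrix.smul_mul, Matrix.mul_smul, smul_smul, pow_succ]
    rw [charpolyRev_conj W _ _ hW (hP (n + 1)), coeff_charpolyRev_smul]
  -- (d) the end
  obtain ⟨γ, hγ⟩ := IsLocalRing.residue_surjective (R := OO C) c0⁻¹
  have hγ' : r γ = c0⁻¹ := hγ
  have hγ0 : (γ : C) ≠ 0 := by
    intro h0
    have : γ = 0 := Subtype.ext h0
    rw [this, map_zero] at hγ'
    exact inv_ne_zero hc00 hγ'.symm
  have hprod0 : (∏ u, (s u : C)) ≠ 0 := by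
    rw [Finset.prod_ne_zero_iff]
    intro u _
    rw [hs]
    split_ifs
    · exact pow_ne_zero _ hρ
    · exact one_ne_zero
  have hϖ : ρ ^ ((p - 1) * m * (n + 1)) = π ^ (n + 1) := by rw [hπ, ← pow_mul]
  have hkey : ∀ k, (γ : C) * (∏ u, (s u : C)) ^ (n + 1) *
      PowerSeries.coeff k ((Pmat A (n + 1)).charpolyRev : PowerSeries C) /
        (ρ ^ ((p - 1) * m * (n + 1))) ^ k = ((γ * MO.det.coeff k : OO C) : C) := by
    intro k
    rw [Polynomial.coeff_coe, hconj, hϖ]
    have h1 := congrArg (fun q => Polynomial.coeff q k) hsub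
    simp only [Polynomial.coeff_map, Polynomial.coeff_C_mul] at h1
    have h2 : ((MO.det.coeff k : OO C) : C) =
        (∏ u, (s u : C)) ^ (n + 1) * (Pmat Es (n + 1)).charpolyRev.coeff k := h1
    show _ = (γ : C) * ((MO.det.coeff k : OO C) : C)
    rw [h2]
    have h3 : (π ^ (n + 1)) ^ k ≠ 0 := pow_ne_zero _ (pow_ne_zero _ hπ0)
    field_simp
  refine ⟨(γ : C) * (∏ u, (s u : C)) ^ (n + 1), mul_ne_zero hγ0 (pow_ne_zero _ hprod0), ?_, ?_⟩
  · have : (γ : C) * (∏ u, (s u : C)) ^ (n + 1) = ((γ * (∏ u, s u) ^ (n + 1) : OO C) : C) := by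
      push_cast
      rfl
    rw [this]
    exact norm_coe_le _
  · intro k _
    rw [hkey k]
    refine ⟨norm_coe_le _, ?_⟩
    rw [rd_coe]
    show r (γ * MO.det.coeff k) = _
    rw [map_mul, hγ']
    have h1 := congrArg (fun q => Polynomial.coeff q k) (hred.trans hbar)
    simp only [Polynomial.coeff_map] at h1
    rw [h1, Polynomial.coeff_C_mul, ← mul_assoc, inv_mul_cancel₀ hc00, one_mul]

end AST
end

section
set_option linter.all false

namespace AST

open Finset ASur

private theorem yy_mul {n : ℕ} (D : ℕ) (W W' : Matrix (Fin n) (Fin n) ℤ)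
    (h : W' * W = (D : ℤ) • (1 : Matrix (Fin n) (Fin n) ℤ)) (u : Fin n → ℤ) (i : Fin n) :
    (D : ℤ) * u i = ∑ j, W' i j * yy W u j := by
  have h1 : W'.mulVec (W.mulVec u) = (D : ℤ) • u := by
    rw [Matrix.mulVec_mulVec, h, Matrix.smul_mulVec, Matrix.one_mulVec]
  have h2 := congrFun h1 i
  simp only [Pi.smul_apply, smul_eq_mul] at h2
  rw [← h2]
  rfl

theorem boxs_thm : StmtBOXS := by
  intro n D W W' hD h N
  have hinj : Function.Injective (fun u : Fin n → ℤ => fun j => yy W u j) := by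
    intro u v huv
    funext i
    have h1 := yy_mul D W W' h u i
    have h2 := yy_mul D W W' h v i
    have h3 : ∀ j, yy W u j = yy W v j := fun j => congrFun huv j
    simp only [h3] at h1
    rw [← h2] at h1
    have hD' : (D : ℤ) ≠ 0 := by omega
    exact mul_left_cancel₀ hD' h1
  have hfin : {u : Fin n → ℤ | InBox W N u}.Finite := by
    have h1 : ({y : Fin n → ℤ | ∀ j, y j ∈ Set.Ico (0 : ℤ) N}).Finite := by
      have := Set.Finite.pi' (ι := Fin n) (κ := fun _ => ℤ) (t := fun _ => Set.Ico (0 : ℤ) N)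
        (fun _ => Set.finite_Ico _ _)
      exact this
    refine (h1.preimage (hinj.injOn)).subset ?_
    intro u hu j
    exact ⟨(hu j).1, (hu j).2⟩
  exact ⟨hfin.toFinset, fun u => by rw [Set.Finite.mem_toFinset]; rfl⟩

end AST
end

section
/-!
# MP_b685ef_ag, theorem AST: module CHST

The exponential sum over the points of the torus, by the splitting polynomial.
-/
set_option linter.all false

namespace AST

open Finset ASur

section
variable {C : Type} [NormedField C] [IsUltrametricDist C]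

private theorem cht_sub_le {x y : C} {ε : ℝ} (hx : ‖x‖ ≤ ε) (hy : ‖y‖ ≤ ε) : ‖x - y‖ ≤ ε := by
  rw [sub_eq_add_neg]
  exact (IsUltrametricDist.norm_add_le_max x (-y)).trans (max_le hx (by simpa using hy))

private theorem cht_prod {ι : Type} (S : Finset ι) (a b : ι → C) {ε : ℝ} (hε : 0 ≤ ε)
    (ha : ∀ i ∈ S, ‖a i‖ ≤ 1) (hb : ∀ i ∈ S, ‖b i‖ ≤ 1) (hab : ∀ i ∈ S, ‖a i - b i‖ ≤ ε) :
    ‖∏ i ∈ S, a i - ∏ i ∈ S, b i‖ ≤ ε := by
  classical
  induction S using Finset.induction_on with
  | empty => simpa using hε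
  | insert m S hm ih =>
    rw [Finset.prod_insert hm, Finset.prod_insert hm]
    have h1 := ih (fun i hi => ha i (by simp [hi])) (fun i hi => hb i (by simp [hi]))
      (fun i hi => hab i (by simp [hi]))
    have h2 : ‖∏ i ∈ S, a i‖ ≤ 1 := norm_prod_le_one S fun i hi => ha i (by simp [hi])
    have e : a m * ∏ i ∈ S, a i - b m * ∏ i ∈ S, b i =
        (a m - b m) * ∏ i ∈ S, a i + b m * (∏ i ∈ S, a i - ∏ i ∈ S, b i) := by ring
    rw [e]
    refine (IsUltrametricDist.norm_add_le_max _ _).trans (max_le ?_ ?_)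
    · rw [norm_mul]
      calc ‖a m - b m‖ * ‖∏ i ∈ S, a i‖ ≤ ε * 1 :=
            mul_le_mul (hab m (by simp)) h2 (norm_nonneg _) hε
        _ = ε := mul_one ε
    · rw [norm_mul]
      calc ‖b m‖ * ‖∏ i ∈ S, a i - ∏ i ∈ S, b i‖ ≤ 1 * ε :=
            mul_le_mul (hb m (by simp)) h1 (norm_nonneg _) zero_le_one
        _ = ε := one_mul ε

private theorem cht_psi {p : ℕ} [Fact p.Prime] (ψ : AddChar (ZMod p) C) (a : ZMod p) :
    ‖ψ a‖ = 1 := by
  have h : ψ a ^ p = 1 := by
    rw [← AddChar.map_nsmul_eq_pow]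
    simp
  have h2 : ‖ψ a‖ ^ p = 1 := by rw [← norm_pow, h, norm_one]
  exact (pow_eq_one_iff_of_nonneg (norm_nonneg _) (Fact.out : p.Prime).ne_zero).1 h2

private theorem cht_theta {p : ℕ} [Fact p.Prime] (ψ : AddChar (ZMod p) C) {ε : ℝ}
    {Θ : Polynomial C} (h : IsSplit p (ψ 1) ε Θ) {t : C} (ht : ‖t‖ ≤ 1) : ‖Θ.eval t‖ ≤ 1 := by
  rw [Polynomial.eval_eq_sum_range]
  apply norm_sum_le_one
  intro m _
  rw [norm_mul, norm_pow]
  have h1 : ‖ψ 1 - 1‖ ≤ 1 := cht_sub_le (cht_psi ψ 1).le (by simp)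
  exact mul_le_one₀ ((h.bound m).trans (pow_le_one₀ (norm_nonneg _) h1))
    (pow_nonneg (norm_nonneg _) _) (pow_le_one₀ (norm_nonneg _) ht)

end

private theorem cht_psi_sum {A M ι : Type} [AddCommGroup A] [CommMonoid M] (ψ : AddChar A M)
    (S : Finset ι) (g : ι → A) : ψ (∑ i ∈ S, g i) = ∏ i ∈ S, ψ (g i) := by
  classical
  induction S using Finset.induction_on with
  | empty => simp
  | insert m S hm ih =>
    rw [Finset.sum_insert hm, Finset.prod_insert hm, AddChar.map_add_eq_mul, ih]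

/-! ## The evaluation as a ring homomorphism -/

theorem mono_zero {n : ℕ} {E : Type} [Field E] (x : Fin n → Eˣ) : mono x 0 = 1 := by
  simp [mono]

theorem mono_add {n : ℕ} {E : Type} [Field E] (x : Fin n → Eˣ) (u v : Fin n → ℤ) :
    mono x (u + v) = mono x u * mono x v := by
  simp [mono, zpow_add, Finset.prod_mul_distrib]

theorem mono_nsmul {n : ℕ} {E : Type} [Field E] (x : Fin n → Eˣ) (m : ℕ) (u : Fin n → ℤ) :
    mono x (m • u) = mono x u ^ m := by
  induction m with
  | zero => simp [mono_zero]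
  | succ m ih => rw [succ_nsmul, mono_add, ih, pow_succ]

/-- The monoid homomorphism `u ↦ τ(x^u)`. -/
noncomputable def monoHom {n : ℕ} {C E : Type} [Field C] [Field E] (τ : E →*₀ C)
    (x : Fin n → Eˣ) : Multiplicative (Fin n → ℤ) →* C where
  toFun u := τ ((mono x (Multiplicative.toAdd u) : Eˣ) : E)
  map_one' := by simp [mono_zero]
  map_mul' u v := by simp [mono_add]

/-- The evaluation as an algebra homomorphism. -/
noncomputable def evHom {n : ℕ} {C E : Type} [Field C] [Field E] (τ : E →*₀ C)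
    (x : Fin n → Eˣ) : AddMonoidAlgebra C (Fin n → ℤ) →ₐ[C] C :=
  AddMonoidAlgebra.lift C C (Fin n → ℤ) (monoHom τ x)

theorem evC_eq {n : ℕ} {C E : Type} [Field C] [Field E] (τ : E →*₀ C)
    (x : Fin n → Eˣ) (G : AddMonoidAlgebra C (Fin n → ℤ)) : evC τ x G = evHom τ x G := by
  rw [evHom, AddMonoidAlgebra.lift_apply]
  rfl

theorem evHom_single {n : ℕ} {C E : Type} [Field C] [Field E] (τ : E →*₀ C)
    (x : Fin n → Eˣ) (u : Fin n → ℤ) (c : C) :
    evHom τ x (AddMonoidAlgebra.single u c) = c * τ ((mono x u : Eˣ) : E) := by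
  rw [evHom, AddMonoidAlgebra.lift_single]
  rfl

theorem evHom_FT {p n : ℕ} {k C E : Type} [Field k] [Field C] [Field E] (τ : k → C) (τE : E →*₀ C)
    (Θ : Polynomial C) (f : (Fin n → ℤ) →₀ k) (x : Fin n → Eˣ) (i m : ℕ) :
    evHom τE x (AddMonoidAlgebra.mapDomainRingHom C
      (nsmulAddMonoidHom (α := Fin n → ℤ) m) (FT p τ Θ f i)) =
    ∏ u ∈ f.support, Θ.eval (τ (f u) ^ (p ^ i) * τE ((mono x u : Eˣ) : E) ^ m) := by
  unfold FT
  rw [map_prod, map_prod]
  apply Finset.prod_congr rfl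
  intro u _
  have e1 : evHom τE x (AddMonoidAlgebra.mapDomainRingHom C
      (nsmulAddMonoidHom (α := Fin n → ℤ) m)
      (AddMonoidAlgebra.single u (τ (f u) ^ (p ^ i)) : AddMonoidAlgebra C (Fin n → ℤ))) =
      τ (f u) ^ (p ^ i) * τE ((mono x u : Eˣ) : E) ^ m := by
    have e0 : AddMonoidAlgebra.mapDomainRingHom C
      (nsmulAddMonoidHom (α := Fin n → ℤ) m)
      (AddMonoidAlgebra.single u (τ (f u) ^ (p ^ i)) : AddMonoidAlgebra C (Fin n → ℤ)) =
      AddMonoidAlgebra.single (m • u) (τ (f u) ^ (p ^ i)) := by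
      rw [AddMonoidAlgebra.mapDomainRingHom_apply, AddMonoidAlgebra.mapDomain_single]
      rfl
    rw [e0, evHom_single, mono_nsmul]
    simp
  have e2 : ∀ g : AddMonoidAlgebra C (Fin n → ℤ),
      evHom τE x (AddMonoidAlgebra.mapDomainRingHom C
        (nsmulAddMonoidHom (α := Fin n → ℤ) m) (Polynomial.aeval g Θ)) =
      Θ.eval (evHom τE x (AddMonoidAlgebra.mapDomainRingHom C
        (nsmulAddMonoidHom (α := Fin n → ℤ) m) g)) := by
    intro g
    set Φ : AddMonoidAlgebra C (Fin n → ℤ) →+* C := (evHom τE x).toRingHom.comp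
      (AddMonoidAlgebra.mapDomainRingHom C (nsmulAddMonoidHom (α := Fin n → ℤ) m)) with hΦ
    have e3 : Φ.comp (algebraMap C (AddMonoidAlgebra C (Fin n → ℤ))) = RingHom.id C := by
      ext a
      have e4 : algebraMap C (AddMonoidAlgebra C (Fin n → ℤ)) a =
          AddMonoidAlgebra.single (0 : Fin n → ℤ) a := by
        simp [AddMonoidAlgebra.coe_algebraMap]
      have e5 := evHom_single τE x (0 : Fin n → ℤ) a
      rw [mono_zero] at e5
      simp only [RingHom.comp_apply, hΦ, e4, RingHom.id_apply]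
      rw [AddMonoidAlgebra.mapDomainRingHom_apply, AddMonoidAlgebra.mapDomain_single]
      simpa using e5
    show Φ (Polynomial.aeval g Θ) = Θ.eval (Φ g)
    rw [Polynomial.aeval_def, Polynomial.hom_eval₂, e3, Polynomial.eval₂_id]
  rw [e2, e1]

theorem chst_thm (h1 : StmtTTR) : StmtCHST := by
  intro p _ C _ _ hp ψ ε Θ hε hΘ k _ _ τ E _ _ _ _ ιE τE hτE hcomp n f
  have httr := h1 p C hp E ιE τE hτE
  haveI := charP_KK (C := C) hp
  generalize Module.finrank (ZMod p) E = N at httr ⊢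
  -- one monomial
  have hA : ∀ z : E, ‖∏ i ∈ range N, Θ.eval (τE z ^ (p ^ i)) -
      ψ (Algebra.trace (ZMod p) E z)‖ ≤ ε := by
    intro z
    obtain ⟨hz1, hz2⟩ := httr z
    obtain ⟨c, hc, hc1, hc2⟩ := hΘ.split N (τE z) hz1
    have hs : ‖∑ i ∈ range N, τE z ^ (p ^ i)‖ ≤ 1 := by
      apply norm_sum_le_one
      intro i _
      rw [norm_pow]
      exact pow_le_one₀ (norm_nonneg _) (hτE.norm_le z)
    have h3 := (rd_eq_iff hs (norm_natCast_le c)).2 hc1
    rw [hz2, rd_natCast] at h3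
    have h4 : ((Algebra.trace (ZMod p) E z).val : ZMod p) = (c : ZMod p) := by
      rw [ZMod.natCast_eq_natCast_iff]
      exact (CharP.natCast_eq_natCast (KK C) p).1 h3
    rw [ZMod.natCast_zmod_val] at h4
    have h5 : ψ (Algebra.trace (ZMod p) E z) = ψ 1 ^ c := by
      rw [h4, ← AddChar.map_nsmul_eq_pow]
      simp
    rw [h5]
    exact hc2
  -- the two products
  have hB : ∀ x : Fin n → Eˣ, evC τE x (GT p (FT p τ Θ f) N) =
      ∏ u ∈ f.support, ∏ i ∈ range N,
        Θ.eval (τE (algebraMap k E (f u) * (mono x u : Eˣ)) ^ (p ^ i)) := by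
    intro x
    rw [evC_eq]
    unfold GT
    rw [map_prod, Finset.prod_comm]
    apply Finset.prod_congr rfl
    intro i _
    rw [evHom_FT]
    apply Finset.prod_congr rfl
    intro u _
    rw [map_mul, hcomp, mul_pow]
  have hC : ∀ x : Fin n → Eˣ, ψ (Algebra.trace (ZMod p) E (lval f x)) =
      ∏ u ∈ f.support, ψ (Algebra.trace (ZMod p) E
        (algebraMap k E (f u) * (mono x u : Eˣ))) := by
    intro x
    rw [lval, map_sum, cht_psi_sum]
  unfold ST sumT
  rw [← Finset.sum_sub_distrib]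
  apply IsUltrametricDist.norm_sum_le_of_forall_le_of_nonneg hε.le
  intro x _
  rw [hB, hC]
  refine cht_prod _ _ _ hε.le (fun m _ => (cht_psi ψ _).le) (fun m _ => ?_) (fun m _ => ?_)
  · apply norm_prod_le_one
    intro i _
    apply cht_theta ψ hΘ
    rw [norm_pow]
    exact pow_le_one₀ (norm_nonneg _) (hτE.norm_le _)
  · rw [norm_sub_rev]
    exact hA _

end AST
end

section
set_option linter.all false

namespace AST

open Finset ASur

private theorem fact_pow (p : ℕ) [Fact p.Prime] {k : Type} [Field k] [Algebra (ZMod p) k] (h N : ℕ)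
    (hN : N < p) (hh : p - 1 ∣ h) : (((N.factorial : k))⁻¹) ^ h = 1 := by
  have hp : p.Prime := Fact.out
  have h1 : ((N.factorial : ZMod p)) ≠ 0 := by
    rw [Ne, ZMod.natCast_eq_zero_iff]
    intro hd
    have := (hp.dvd_factorial).1 hd
    omega
  have h2 : ((N.factorial : ZMod p)) ^ (p - 1) = 1 := ZMod.pow_card_sub_one_eq_one h1
  have h3 : ((N.factorial : k)) ^ (p - 1) = 1 := by
    have := congrArg (algebraMap (ZMod p) k) h2
    simpa using this
  obtain ⟨m, rfl⟩ := hh
  rw [inv_pow, pow_mul, h3, one_pow, inv_one]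

theorem cyclic_thm : StmtCYCLIC := by
  intro p _ D hD k _ _ n h W α Pi hPi hh u hu
  have hp : p.Prime := Fact.out
  unfold RR
  refine Finset.prod_congr rfl fun j _ => ?_
  have hb := (hPi u).1 hu j
  have hy : (yy W u j).toNat < D := by omega
  rw [Nat.mod_eq_of_lt hy, fact_pow p h _ _ hh, one_mul]
  have h1 : (p - 1) / D * (yy W u j).toNat ≤ (p - 1) / D * D := Nat.mul_le_mul_left _ hy.le
  have h2 : (p - 1) / D * D ≤ p - 1 := Nat.div_mul_le_self _ _
  have := hp.one_lt
  omega

end AST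
end

section
set_option linter.all false

namespace AST

open Finset ASur

private theorem dgt_yy_add {n : ℕ} (W : Matrix (Fin n) (Fin n) ℤ) (u v : Fin n → ℤ) (j : Fin n) :
    yy W (u + v) j = yy W u j + yy W v j := by
  unfold yy
  rw [← Finset.sum_add_distrib]
  exact Finset.sum_congr rfl fun i _ => by rw [Pi.add_apply]; ring

private theorem dgt_yy_smul {n : ℕ} (W : Matrix (Fin n) (Fin n) ℤ) (l : ℕ) (v : Fin n → ℤ)
    (j : Fin n) : yy W (l • v) j = l * yy W v j := by
  unfold yy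
  rw [Finset.mul_sum]
  exact Finset.sum_congr rfl fun i _ => by rw [Pi.smul_apply]; simp; ring

private theorem dgt_mono {n : ℕ} {C : Type} [Semiring C] {W : Matrix (Fin n) (Fin n) ℤ}
    {B B' : ℕ} {F : AddMonoidAlgebra C (Fin n → ℤ)} (h : InCone W B F) (hB : B ≤ B') :
    InCone W B' F := by
  intro u hu j
  have := h u hu j
  exact ⟨this.1, this.2.trans (by exact_mod_cast hB)⟩

private theorem dgt_mul {n : ℕ} {C : Type} [Semiring C] {W : Matrix (Fin n) (Fin n) ℤ}
    {B B' : ℕ} {F G : AddMonoidAlgebra C (Fin n → ℤ)} (hF : InCone W B F) (hG : InCone W B' G) :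
    InCone W (B + B') (F * G) := by
  classical
  intro u hu j
  rw [AddMonoidAlgebra.coeff_mul] at hu
  obtain ⟨a, ha, hu⟩ := Finset.exists_ne_zero_of_sum_ne_zero hu
  obtain ⟨b, hb, hu⟩ := Finset.exists_ne_zero_of_sum_ne_zero hu
  have hab : a + b = u := by
    by_contra hne
    exact hu (if_neg hne)
  have h1 := hF a (Finsupp.mem_support_iff.1 ha) j
  have h2 := hG b (Finsupp.mem_support_iff.1 hb) j
  rw [← hab, dgt_yy_add]
  constructor
  · linarith [h1.1, h2.1]
  · push_cast
    linarith [h1.2, h2.2]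

private theorem dgt_one {n : ℕ} {C : Type} [Semiring C] (W : Matrix (Fin n) (Fin n) ℤ) :
    InCone W 0 (1 : AddMonoidAlgebra C (Fin n → ℤ)) := by
  classical
  intro u hu j
  have : u = 0 := by
    by_contra hne
    apply hu
    rw [AddMonoidAlgebra.one_def, AddMonoidAlgebra.coeff_single_apply, if_neg (Ne.symm hne)]
  subst this
  simp [yy]

private theorem dgt_prod {n : ℕ} {C : Type} [CommSemiring C] {W : Matrix (Fin n) (Fin n) ℤ}
    {ι : Type} (S : Finset ι) (B : ι → ℕ) (F : ι → AddMonoidAlgebra C (Fin n → ℤ))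
    (h : ∀ i ∈ S, InCone W (B i) (F i)) : InCone W (∑ i ∈ S, B i) (∏ i ∈ S, F i) := by
  classical
  induction S using Finset.induction_on with
  | empty => simpa using dgt_one W
  | insert a s ha ih =>
    rw [Finset.sum_insert ha, Finset.prod_insert ha]
    exact dgt_mul (h a (Finset.mem_insert_self _ _))
      (ih fun i hi => h i (Finset.mem_insert_of_mem hi))

private theorem dgt_sum {n : ℕ} {C : Type} [Semiring C] {W : Matrix (Fin n) (Fin n) ℤ}
    {ι : Type} (S : Finset ι) (B : ℕ) (F : ι → AddMonoidAlgebra C (Fin n → ℤ))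
    (h : ∀ i ∈ S, InCone W B (F i)) : InCone W B (∑ i ∈ S, F i) := by
  classical
  intro u hu j
  rw [AddMonoidAlgebra.coeff_sum, Finsupp.finsetSum_apply] at hu
  obtain ⟨i, hi, hu⟩ := Finset.exists_ne_zero_of_sum_ne_zero hu
  exact h i hi u hu j

theorem degt_thm : StmtDEGT := by
  classical
  intro p hp C _ k _ τ Θ n W f hf
  set B : (Fin n → ℤ) → ℕ := fun u => Θ.natDegree * ∑ j, (yy W u j).toNat with hB
  have key : ∀ u ∈ f.support, ∀ c : C, InCone W (B u)
      (Polynomial.aeval (AddMonoidAlgebra.single u c : AddMonoidAlgebra C (Fin n → ℤ)) Θ) := by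
    intro u hu c
    rw [Polynomial.aeval_eq_sum_range]
    refine dgt_sum _ _ _ fun l hl => ?_
    intro v hv j
    rw [AddMonoidAlgebra.coeff_smul_apply, AddMonoidAlgebra.single_pow,
      AddMonoidAlgebra.coeff_single_apply] at hv
    have hvl : l • u = v := by
      by_contra hne
      rw [if_neg hne, smul_zero] at hv
      exact hv rfl
    rw [← hvl, dgt_yy_smul]
    have h0 := hf u hu j
    have hl' : l ≤ Θ.natDegree := Nat.lt_succ_iff.1 (Finset.mem_range.1 hl)
    refine ⟨mul_nonneg (by positivity) h0, ?_⟩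
    have h1 : (yy W u j).toNat ≤ ∑ j, (yy W u j).toNat :=
      Finset.single_le_sum (f := fun j => (yy W u j).toNat) (fun _ _ => Nat.zero_le _)
        (Finset.mem_univ j)
    have h2 : l * (yy W u j).toNat ≤ B u := Nat.mul_le_mul hl' h1
    calc (l : ℤ) * yy W u j = ((l * (yy W u j).toNat : ℕ) : ℤ) := by
          push_cast
          rw [Int.toNat_of_nonneg h0]
      _ ≤ ((B u : ℕ) : ℤ) := by exact_mod_cast h2
  refine ⟨1 + ∑ u ∈ f.support, B u, by omega, fun N hN i => ?_⟩
  refine dgt_mono (B := ∑ u ∈ f.support, B u) ?_ ?_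
  · exact dgt_prod _ _ _ fun u hu => key u hu _
  · have h1 : ∑ u ∈ f.support, B u ≤ N - 1 := by omega
    calc ∑ u ∈ f.support, B u ≤ 1 * (N - 1) := by rw [one_mul]; exact h1
      _ ≤ (p - 1) * (N - 1) := Nat.mul_le_mul_right _ (by omega)

end AST
end

section
/-!
# AST/ECANC: cancellation of edges
-/
set_option linter.all false

namespace AST

open Finset ASur

section
variable {C : Type} [NormedField C] [IsUltrametricDist C]

/-- coefficientwise reduction -/
private noncomputable def rS (F : PowerSeries C) : PowerSeries (KK C) :=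
  PowerSeries.mk fun n => rd (PowerSeries.coeff n F)

private theorem rS_coeff (F : PowerSeries C) (n : ℕ) :
    PowerSeries.coeff n (rS F) = rd (PowerSeries.coeff n F) := by
  simp [rS]

private theorem mul_red (F G : PowerSeries C) (n : ℕ)
    (hF : ∀ i, i ≤ n → ‖PowerSeries.coeff i F‖ ≤ 1)
    (hG : ∀ i, i ≤ n → ‖PowerSeries.coeff i G‖ ≤ 1) :
    ‖PowerSeries.coeff n (F * G)‖ ≤ 1 ∧
      rd (PowerSeries.coeff n (F * G)) = PowerSeries.coeff n (rS F * rS G) := by
  have hb : ∀ x ∈ antidiagonal n,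
      ‖PowerSeries.coeff x.1 F * PowerSeries.coeff x.2 G‖ ≤ 1 := by
    rintro ⟨i, j⟩ hij
    rw [Finset.HasAntidiagonal.mem_antidiagonal] at hij
    simp only at hij ⊢
    rw [norm_mul]
    exact mul_le_one₀ (hF i (by omega)) (norm_nonneg _) (hG j (by omega))
  constructor
  · rw [PowerSeries.coeff_mul]
    exact norm_sum_le_one _ hb
  · rw [PowerSeries.coeff_mul, PowerSeries.coeff_mul, rd_sum _ hb]
    refine Finset.sum_congr rfl ?_
    rintro ⟨i, j⟩ hij
    rw [Finset.HasAntidiagonal.mem_antidiagonal] at hij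
    simp only at hij ⊢
    rw [rS_coeff, rS_coeff, rd_mul (hF i (by omega)) (hG j (by omega))]

end

theorem ecanc_thm : StmtECANC := by
  intro C _ _ P A w MP MA χP χA m0 hw hP0 hχP hχA h1 h2 hE hEA
  obtain ⟨c', hc'0, hc'1, hc'⟩ := hE
  obtain ⟨cA, hcA0, hcA1, hcA⟩ := hEA
  -- the scaled coefficients of `P`
  obtain ⟨ns, hns, hmax⟩ := Finset.exists_max_image (range (P.natDegree + 1))
    (fun n => ‖P.coeff n / w ^ n‖) ⟨0, by simp⟩
  have hmax' : ∀ n, ‖P.coeff n / w ^ n‖ ≤ ‖P.coeff ns / w ^ ns‖ := by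
    intro n
    by_cases hn : n ≤ P.natDegree
    · exact hmax n (by simp; omega)
    · rw [Polynomial.coeff_eq_zero_of_natDegree_lt (by omega), zero_div, norm_zero]
      exact norm_nonneg _
  have hge : 1 ≤ ‖P.coeff ns / w ^ ns‖ := by
    have := hmax' 0
    rwa [hP0, pow_zero, div_one, norm_one] at this
  set pm : C := P.coeff ns / w ^ ns with hpm
  have hpm0 : pm ≠ 0 := by
    intro h
    rw [h, norm_zero] at hge
    linarith
  set cP : C := pm⁻¹ with hcP
  have hcP0 : cP ≠ 0 := inv_ne_zero hpm0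
  have hcP1 : ‖cP‖ ≤ 1 := by
    rw [hcP, norm_inv]
    exact inv_le_one_of_one_le₀ hge
  have hnsd : ns ≤ P.natDegree := by
    have := Finset.mem_range.1 hns
    omega
  -- the three series
  set Fp : PowerSeries C := PowerSeries.C cP * PowerSeries.rescale w⁻¹ (P : PowerSeries C) with hFp
  set Fa : PowerSeries C := PowerSeries.C cA * PowerSeries.rescale w⁻¹ A with hFa
  have cFp : ∀ n, PowerSeries.coeff n Fp = cP * P.coeff n / w ^ n := by
    intro n
    rw [hFp, PowerSeries.coeff_C_mul, PowerSeries.coeff_rescale, Polynomial.coeff_coe, inv_pow]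
    field_simp
  have cFa : ∀ n, PowerSeries.coeff n Fa = cA * PowerSeries.coeff n A / w ^ n := by
    intro n
    rw [hFa, PowerSeries.coeff_C_mul, PowerSeries.coeff_rescale, inv_pow]
    field_simp
  have cPA : ∀ n, PowerSeries.coeff n (Fp * Fa) =
      (cP * cA / c') * (c' * PowerSeries.coeff n ((P : PowerSeries C) * A) / w ^ n) := by
    intro n
    have : Fp * Fa = PowerSeries.C (cP * cA) *
        PowerSeries.rescale w⁻¹ ((P : PowerSeries C) * A) := by
      rw [hFp, hFa, map_mul (PowerSeries.rescale w⁻¹), map_mul (PowerSeries.C)]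
      ring
    rw [this, PowerSeries.coeff_C_mul, PowerSeries.coeff_rescale, inv_pow]
    field_simp
  have nFp : ∀ n, ‖PowerSeries.coeff n Fp‖ ≤ 1 := by
    intro n
    rw [cFp, mul_div_assoc, norm_mul, hcP, norm_inv]
    have h3 := hmax' n
    have h4 : 0 < ‖pm‖ := norm_pos_iff.2 hpm0
    rw [inv_mul_le_iff₀ h4, mul_one]
    exact h3
  have nFa : ∀ n, n ≤ m0 → ‖PowerSeries.coeff n Fa‖ ≤ 1 := by
    intro n hn
    rw [cFa]
    exact (hcA n hn).1
  have rFa : ∀ n, n ≤ m0 → PowerSeries.coeff n (rS Fa) = (Polynomial.X ^ MA * χA).coeff n := by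
    intro n hn
    rw [rS_coeff, cFa]
    exact (hcA n hn).2
  set π : PowerSeries (KK C) := rS Fp with hπ
  have hπns : PowerSeries.coeff ns π = 1 := by
    rw [hπ, rS_coeff, cFp, mul_div_assoc, ← hpm, hcP, inv_mul_cancel₀ hpm0, rd_one]
  -- the least index with a nonzero coefficient
  classical
  have hex : ∃ n, PowerSeries.coeff n π ≠ 0 := ⟨ns, by rw [hπns]; exact one_ne_zero⟩
  set v := Nat.find hex with hv
  have hv0 : PowerSeries.coeff v π ≠ 0 := Nat.find_spec hex
  have hvlt : ∀ n, n < v → PowerSeries.coeff n π = 0 := fun n hn => by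
    have := Nat.find_min hex hn
    simpa using this
  have hvle : v ≤ P.natDegree := (Nat.find_min' hex (by rw [hπns]; exact one_ne_zero)).trans hnsd
  -- the reduction of the product
  have hprod : ∀ n, n ≤ m0 → ‖PowerSeries.coeff n (Fp * Fa)‖ ≤ 1 ∧
      rd (PowerSeries.coeff n (Fp * Fa)) =
        PowerSeries.coeff n (π * ((Polynomial.X ^ MA * χA : Polynomial (KK C)) :
          PowerSeries (KK C))) := by
    intro n hn
    obtain ⟨h3, h4⟩ := mul_red Fp Fa n (fun i _ => nFp i) (fun i hi => nFa i (by omega))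
    refine ⟨h3, ?_⟩
    rw [h4, PowerSeries.coeff_mul, PowerSeries.coeff_mul]
    refine Finset.sum_congr rfl ?_
    rintro ⟨i, j⟩ hij
    rw [Finset.HasAntidiagonal.mem_antidiagonal] at hij
    simp only at hij ⊢
    rw [rFa j (by omega), Polynomial.coeff_coe]
  -- nonzero coefficients
  set s : C := cP * cA / c' with hs
  have hs0 : s ≠ 0 := div_ne_zero (mul_ne_zero hcP0 hcA0) hc'0
  have hXA : ∀ (F : PowerSeries (KK C)) (n : ℕ),
      PowerSeries.coeff (n + MA) (F * ((Polynomial.X ^ MA * χA : Polynomial (KK C)) :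
          PowerSeries (KK C))) =
        PowerSeries.coeff n (F * (χA : PowerSeries (KK C))) := by
    intro F n
    have : F * ((Polynomial.X ^ MA * χA : Polynomial (KK C)) : PowerSeries (KK C)) =
        (F * (χA : PowerSeries (KK C))) * PowerSeries.X ^ MA := by
      rw [Polynomial.coe_mul, Polynomial.coe_pow, Polynomial.coe_X]
      ring
    rw [this, PowerSeries.coeff_mul_X_pow]
  have hχA' : PowerSeries.coeff 0 (χA : PowerSeries (KK C)) = 1 := by
    rw [Polynomial.coeff_coe, hχA]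
  have hcv : PowerSeries.coeff v (π * (χA : PowerSeries (KK C))) = PowerSeries.coeff v π := by
    rw [PowerSeries.coeff_mul, Finset.sum_eq_single (v, 0)]
    · rw [hχA', mul_one]
    · rintro ⟨i, j⟩ hij hne
      rw [Finset.HasAntidiagonal.mem_antidiagonal] at hij
      simp only at hij ⊢
      have : i < v := by
        rcases lt_or_eq_of_le (show i ≤ v by omega) with h | h
        · exact h
        · exfalso
          apply hne
          have : j = 0 := by omega
          simp [h, this]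
      rw [hvlt i this, zero_mul]
    · intro h
      exact absurd (by simp) h
  have hz2 : ‖PowerSeries.coeff (v + MA) (Fp * Fa)‖ = 1 := by
    obtain ⟨h3, h4⟩ := hprod (v + MA) (by omega)
    rw [hXA, hcv] at h4
    rcases lt_or_eq_of_le h3 with h5 | h5
    · rw [rd_of_lt h5] at h4
      exact absurd h4.symm hv0
    · exact h5
  have hs1 : 1 ≤ ‖s‖ := by
    rw [cPA, norm_mul] at hz2
    have h3 := (hc' (v + MA) (by omega)).1
    have h4 := norm_nonneg s
    nlinarith
  have hY : ((Polynomial.X ^ (MP + MA) * (χP * χA) : Polynomial (KK C)) :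
      PowerSeries (KK C)) = ((Polynomial.X ^ MP * χP : Polynomial (KK C)) :
        PowerSeries (KK C)) * ((Polynomial.X ^ MA * χA : Polynomial (KK C)) :
          PowerSeries (KK C)) := by
    rw [← Polynomial.coe_mul]
    congr 1
    rw [pow_add]
    ring
  have hy1 : ‖c' * PowerSeries.coeff (MP + MA) ((P : PowerSeries C) * A) / w ^ (MP + MA)‖ = 1 := by
    obtain ⟨h3, h4⟩ := hc' (MP + MA) (by omega)
    have h5 : (Polynomial.X ^ (MP + MA) * (χP * χA) : Polynomial (KK C)).coeff (MP + MA) = 1 := by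
      have h6 := Polynomial.coeff_X_pow_mul (χP * χA) (MP + MA) 0
      rw [zero_add] at h6
      rw [h6, Polynomial.mul_coeff_zero, hχP, hχA, one_mul]
    rw [h5] at h4
    rcases lt_or_eq_of_le h3 with h7 | h7
    · rw [rd_of_lt h7] at h4
      exact absurd h4.symm one_ne_zero
    · exact h7
  have hs2 : ‖s‖ = 1 := by
    refine le_antisymm ?_ hs1
    have h3 := (hprod (MP + MA) (by omega)).1
    rw [cPA, norm_mul, hy1, mul_one] at h3
    exact h3
  -- comparison
  have hcomp : ∀ n, n ≤ m0 →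
      PowerSeries.coeff n (π * ((Polynomial.X ^ MA * χA : Polynomial (KK C)) :
          PowerSeries (KK C))) =
      rd s * PowerSeries.coeff n (((Polynomial.X ^ MP * χP : Polynomial (KK C)) :
        PowerSeries (KK C)) * ((Polynomial.X ^ MA * χA : Polynomial (KK C)) :
          PowerSeries (KK C))) := by
    intro n hn
    rw [← (hprod n hn).2, cPA, rd_mul hs2.le (hc' n hn).1, (hc' n hn).2, ← hY,
      Polynomial.coeff_coe]
  set Dd : PowerSeries (KK C) := π - PowerSeries.C (rd s) *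
    ((Polynomial.X ^ MP * χP : Polynomial (KK C)) : PowerSeries (KK C)) with hDd
  have hD1 : ∀ n, n < m0 - MA + 1 →
      PowerSeries.coeff n (Dd * (χA : PowerSeries (KK C))) = 0 := by
    intro n hn
    have h3 := hcomp (n + MA) (by omega)
    rw [hXA, hXA] at h3
    rw [hDd, sub_mul, map_sub, h3, mul_assoc, PowerSeries.coeff_C_mul, sub_self]
  have hD2 : ∀ n, n < m0 - MA + 1 → PowerSeries.coeff n Dd = 0 := by
    have hu : IsUnit (χA : PowerSeries (KK C)) := by
      rw [PowerSeries.isUnit_iff_constantCoeff, ← PowerSeries.coeff_zero_eq_constantCoeff_apply,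
        hχA']
      exact isUnit_one
    have h3 : (PowerSeries.X ^ (m0 - MA + 1) : PowerSeries (KK C)) ∣
        Dd * (χA : PowerSeries (KK C)) := PowerSeries.X_pow_dvd_iff.2 hD1
    rw [hu.dvd_mul_right] at h3
    exact PowerSeries.X_pow_dvd_iff.1 h3
  -- the edge
  have hrs0 : rd s ≠ 0 := by
    intro h
    rw [rd_eq_zero_iff hs2.le] at h
    linarith
  refine ⟨cP * s⁻¹, mul_ne_zero hcP0 (inv_ne_zero hs0), ?_, fun n hn => ?_⟩
  · rw [norm_mul, norm_inv s, hs2, inv_one, mul_one]
    exact hcP1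
  · have h3 : cP * s⁻¹ * PowerSeries.coeff n (P : PowerSeries C) / w ^ n =
        s⁻¹ * PowerSeries.coeff n Fp := by
      rw [cFp, Polynomial.coeff_coe]
      ring
    have h4 : ‖s⁻¹‖ ≤ 1 := by rw [norm_inv s, hs2, inv_one]
    rw [h3]
    refine ⟨?_, ?_⟩
    · rw [norm_mul]
      exact mul_le_one₀ h4 (norm_nonneg _) (nFp n)
    · rw [rd_mul h4 (nFp n), rd_inv hs2, ← rS_coeff, ← hπ]
      have h5 := hD2 n (by omega)
      rw [hDd, map_sub, PowerSeries.coeff_C_mul, sub_eq_zero, Polynomial.coeff_coe] at h5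
      rw [h5, ← mul_assoc, inv_mul_cancel₀ hrs0, one_mul]

end AST
end

section
/-!
# MP_b685ef_ag, theorem AST: module EDGE4 (assembly of formula (4))
-/
set_option linter.all false

namespace AST

open Finset ASur

section aux
variable {C : Type} [NormedField C] [IsUltrametricDist C]

private theorem e4_map_charpolyRev {R S ι : Type} [CommRing R] [CommRing S] [Fintype ι]
    [DecidableEq ι] (f : R →+* S) (M : Matrix ι ι R) :
    (M.charpolyRev).map f = (M.map f).charpolyRev := by
  rw [Matrix.charpolyRev, Matrix.charpolyRev, ← Polynomial.coe_mapRingHom, RingHom.map_det]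
  congr 1
  ext i j : 2
  by_cases h : i = j
  · subst h
    simp
  · simp [Matrix.one_apply_ne h]

private theorem e4_lift {ι : Type} (M : Matrix ι ι C) (h : ∀ u v, ‖M u v‖ ≤ 1) :
    ∃ M' : Matrix ι ι (OO C), M'.map (OO C).subtype = M :=
  ⟨Matrix.of fun u v => ⟨M u v, mem_OO.2 (h u v)⟩, by ext u v; rfl⟩

private theorem e4_coeff_rev {ι : Type} [Fintype ι] [DecidableEq ι] (M : Matrix ι ι C)
    (h : ∀ u v, ‖M u v‖ ≤ 1) (n : ℕ) : ‖(M.charpolyRev).coeff n‖ ≤ 1 := by
  obtain ⟨M', rfl⟩ := e4_lift M h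
  rw [← e4_map_charpolyRev, Polynomial.coeff_map]
  exact norm_coe_le _

private theorem e4_trace {ι : Type} [Fintype ι] [DecidableEq ι] (M : Matrix ι ι C)
    (h : ∀ u v, ‖M u v‖ ≤ 1) (n : ℕ) : ‖Matrix.trace (M ^ n)‖ ≤ 1 := by
  obtain ⟨M', rfl⟩ := e4_lift M h
  have h1 : (M'.map (OO C).subtype) ^ n = (M' ^ n).map (OO C).subtype := by
    have := map_pow (RingHom.mapMatrix (OO C).subtype) M' n
    exact this.symm
  rw [h1]
  have h2 : Matrix.trace ((M' ^ n).map (OO C).subtype) = ((Matrix.trace (M' ^ n) : OO C) : C) := by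
    simp [Matrix.trace, Matrix.diag]
  rw [h2]
  exact norm_coe_le _

private theorem e4_pmat_norm {ι : Type} [Fintype ι]
    [DecidableEq ι] (A : ℕ → Matrix ι ι C) (hA : ∀ i u v, ‖A i u v‖ ≤ 1) (n : ℕ) :
    ∀ u v, ‖Pmat A n u v‖ ≤ 1 := by
  induction n with
  | zero =>
    intro u v
    simp only [Pmat, Matrix.one_apply]
    split_ifs <;> simp
  | succ n ih =>
    intro u v
    simp only [Pmat, Matrix.mul_apply]
    refine norm_sum_le_one _ fun w _ => ?_
    rw [norm_mul]
    exact mul_le_one₀ (hA _ _ _) (norm_nonneg _) (ih _ _)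

private theorem e4_psi_norm {p : ℕ} [Fact p.Prime]
    (ψ : AddChar (ZMod p) C) (x : ZMod p) : ‖ψ x‖ = 1 := by
  have h1 : (ψ x) ^ p = 1 := by
    rw [← AddChar.map_nsmul_eq_pow]
    have : p • x = 0 := by simp
    rw [this, AddChar.map_zero_eq_one]
  have h2 : ‖ψ x‖ ^ p = 1 := by rw [← norm_pow, h1, norm_one]
  exact (pow_eq_one_iff_of_nonneg (norm_nonneg _) (Fact.out : p.Prime).ne_zero).1 h2

private theorem e4_ST_norm {p : ℕ} [Fact p.Prime] (ψ : AddChar (ZMod p) C) {n : ℕ} {k : Type}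
    [Field k] (f : (Fin n → ℤ) →₀ k) (E : Type) [Field E] [Fintype E] [Algebra (ZMod p) E]
    [Algebra k E] : ‖ST ψ f E‖ ≤ 1 := by
  unfold ST sumT
  exact norm_sum_le_one _ fun x _ => (e4_psi_norm ψ _).le

private theorem e4_revP_coeff (s : Multiset C) (hs : ∀ x ∈ s, ‖x‖ ≤ 1) :
    ∀ n, ‖(revP s).coeff n‖ ≤ 1 := by
  induction s using Multiset.induction_on with
  | empty =>
    intro n
    simp only [revP, Multiset.map_zero, Multiset.prod_zero, Polynomial.coeff_one]
    split_ifs <;> simp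
  | cons a s ih =>
    intro n
    have ih' := ih (fun x hx => hs x (Multiset.mem_cons_of_mem hx))
    have ha : ‖a‖ ≤ 1 := hs a (Multiset.mem_cons_self a s)
    have : revP (a ::ₘ s) = (1 - Polynomial.C a * Polynomial.X) * revP s := by
      simp [revP]
    rw [this, sub_mul, one_mul, sub_eq_add_neg, Polynomial.coeff_add]
    refine (IsUltrametricDist.norm_add_le_max _ _).trans (max_le (ih' n) ?_)
    rw [Polynomial.coeff_neg, norm_neg, mul_assoc, Polynomial.coeff_C_mul, norm_mul]
    refine mul_le_one₀ ha (norm_nonneg _) ?_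
    cases n with
    | zero => simp
    | succ n => rw [Polynomial.coeff_X_mul]; exact ih' n

private theorem e4_revP_zero {C : Type} [Field C] (s : Multiset C) : (revP s).coeff 0 = 1 := by
  rw [Polynomial.coeff_zero_eq_eval_zero, revP, Polynomial.eval_multiset_prod, Multiset.map_map]
  rw [show (Polynomial.eval (0:C) ∘ fun x => 1 - Polynomial.C x * Polynomial.X) = fun _ => 1 by
    funext x; simp]
  simp

private theorem e4_revP_natDegree {C : Type} [Field C] (s : Multiset C) :
    (revP s).natDegree ≤ Multiset.card s := by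
  induction s using Multiset.induction_on with
  | empty => simp [revP]
  | cons a s ih =>
    have : revP (a ::ₘ s) = (1 - Polynomial.C a * Polynomial.X) * revP s := by
      simp [revP]
    rw [this, Multiset.card_cons]
    refine Polynomial.natDegree_mul_le.trans ?_
    have : (1 - Polynomial.C a * Polynomial.X : Polynomial C).natDegree ≤ 1 := by
      refine (Polynomial.natDegree_sub_le _ _).trans ?_
      simp only [Polynomial.natDegree_one]
      refine max_le (by omega) ?_
      exact (Polynomial.natDegree_C_mul_le _ _).trans Polynomial.natDegree_X_le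
    omega

private theorem e4_prod_zero {K ι : Type} [Field K] (s : Finset ι) (c : ι → K) :
    (∏ u ∈ s, (1 - Polynomial.C (c u) * Polynomial.X)).coeff 0 = 1 := by
  rw [Polynomial.coeff_zero_eq_eval_zero, Polynomial.eval_prod]
  simp

private theorem e4_comp_zero {K : Type} [Field K] (χ : Polynomial K) (c : K) :
    (χ.comp (Polynomial.C c * Polynomial.X)).coeff 0 = χ.coeff 0 := by
  rw [Polynomial.coeff_zero_eq_eval_zero, Polynomial.eval_comp, Polynomial.coeff_zero_eq_eval_zero]
  simp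

private theorem e4_edge_mono {P : PowerSeries C} {w : C} {M : ℕ} {χ : Polynomial (KK C)}
    {m0 m1 : ℕ} (h : m0 ≤ m1) (hE : Edge P w M χ m1) : Edge P w M χ m0 := by
  obtain ⟨c, h1, h2, h3⟩ := hE
  exact ⟨c, h1, h2, fun n hn => h3 n (hn.trans h)⟩

private theorem e4_edge_one (w : C) (m0 : ℕ) : Edge (1 : PowerSeries C) w 0 1 m0 := by
  refine ⟨1, one_ne_zero, by simp, fun n _ => ?_⟩
  rw [PowerSeries.coeff_one]
  cases n with
  | zero => simp
  | succ n => simp [Polynomial.coeff_one]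

private theorem e4_edge_prod (hEPROD : StmtEPROD) {ι : Type} (s : Finset ι)
    (P : ι → PowerSeries C) (w : C) (hw : w ≠ 0) (M : ι → ℕ) (χ : ι → Polynomial (KK C))
    (m0 : ℕ) (h : ∀ z ∈ s, Edge (P z) w (M z) (χ z) m0) :
    Edge (∏ z ∈ s, P z) w (∑ z ∈ s, M z) (∏ z ∈ s, χ z) m0 := by
  classical
  induction s using Finset.induction_on with
  | empty => simpa using e4_edge_one w m0
  | insert a s ha ih =>
    rw [Finset.prod_insert ha, Finset.prod_insert ha, Finset.sum_insert ha]
    exact (hEPROD C (P a) _ w (M a) _ (χ a) _ m0 hw).1 (h a (by simp))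
      (ih fun z hz => h z (by simp [hz]))

end aux

private theorem e4_yy_le {n : ℕ} (W : Matrix (Fin n) (Fin n) ℤ) (u : Fin n → ℤ)
    (h : ∀ j, 0 ≤ yy W u j) (j : Fin n) : yy W u j ≤ wt W u :=
  Finset.single_le_sum (f := fun j => yy W u j) (fun i _ => h i) (Finset.mem_univ j)

private theorem e4_wt_nonneg {n : ℕ} (W : Matrix (Fin n) (Fin n) ℤ) (u : Fin n → ℤ)
    (h : ∀ j, 0 ≤ yy W u j) : 0 ≤ wt W u :=
  Finset.sum_nonneg fun j _ => h j

private theorem e4_box {n : ℕ} (W : Matrix (Fin n) (Fin n) ℤ) (m N : ℕ) (S S1 : Finset (Fin n → ℤ))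
    (hS : IsBox W N S) (hS1 : IsBox W (m + 1) S1) (hN : m < N) (m' : ℕ) (hm' : m' ≤ m) :
    S.filter (fun u => wt W u < m') = S1.filter (fun u => wt W u < m') ∧
    S.filter (fun u => wt W u = m') = S1.filter (fun u => wt W u = m') := by
  have key : ∀ u, wt W u ≤ m → (u ∈ S ↔ u ∈ S1) := by
    intro u hu
    rw [hS u, hS1 u]
    constructor
    · intro h j
      have h1 := e4_yy_le W u (fun j => (h j).1) j
      exact ⟨(h j).1, by push_cast; omega⟩
    · intro h j
      have h1 := (h j).2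
      push_cast at h1
      exact ⟨(h j).1, by omega⟩
  constructor
  · ext u
    simp only [Finset.mem_filter]
    constructor
    · rintro ⟨h1, h2⟩
      exact ⟨(key u (by omega)).1 h1, h2⟩
    · rintro ⟨h1, h2⟩
      exact ⟨(key u (by omega)).2 h1, h2⟩
  · ext u
    simp only [Finset.mem_filter]
    constructor
    · rintro ⟨h1, h2⟩
      exact ⟨(key u (by omega)).1 h1, h2⟩
    · rintro ⟨h1, h2⟩
      exact ⟨(key u (by omega)).2 h1, h2⟩

/-- The edges of the model polynomial of a finite set. -/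
private theorem e4_model_edge (hEMULT : StmtEMULT) {C : Type} [NormedField C]
    [IsUltrametricDist C] {n : ℕ} (W : Matrix (Fin n) (Fin n) ℤ) (ρ : C) (hρ0 : ρ ≠ 0)
    (hρ1 : ‖ρ‖ < 1) (c : ℕ) (hc : 1 ≤ c) (γ : (Fin n → ℤ) → C) (l : (Fin n → ℤ) → KK C)
    (Q : Finset (Fin n → ℤ)) (hQ : ∀ u ∈ Q, ∀ j, 0 ≤ yy W u j)
    (h1 : ∀ u ∈ Q, ‖γ u‖ = ‖ρ‖ ^ (c * (wt W u).toNat))
    (h2 : ∀ u ∈ Q, rd (γ u / ρ ^ (c * (wt W u).toNat)) = l u) (m' m0 : ℕ) :
    Edge (revP (Q.val.map γ) : PowerSeries C) (ρ ^ (c * m'))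
      (Q.filter (fun u => wt W u < m')).card
      (∏ u ∈ Q.filter (fun u => wt W u = m'), (1 - Polynomial.C (l u) * Polynomial.X)) m0 := by
  classical
  have hρpos : 0 < ‖ρ‖ := norm_pos_iff.2 hρ0
  have hw0 : ρ ^ (c * m') ≠ 0 := pow_ne_zero _ hρ0
  have hw1 : ‖ρ ^ (c * m')‖ ≤ 1 := by
    rw [norm_pow]; exact pow_le_one₀ (norm_nonneg _) hρ1.le
  have hE := hEMULT C (Q.val.map γ) (ρ ^ (c * m')) hw0 hw1 m0
  have hlt : ∀ u ∈ Q, (‖ρ ^ (c * m')‖ < ‖γ u‖ ↔ wt W u < m') := by
    intro u hu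
    have hnn := e4_wt_nonneg W u (hQ u hu)
    rw [h1 u hu, norm_pow, pow_lt_pow_iff_right_of_lt_one₀ hρpos hρ1]
    constructor
    · intro h
      have h' : (wt W u).toNat < m' := Nat.lt_of_mul_lt_mul_left h
      omega
    · intro h
      have : (wt W u).toNat < m' := by omega
      exact Nat.mul_lt_mul_of_pos_left this (by omega)
  have heq : ∀ u ∈ Q, (‖γ u‖ = ‖ρ ^ (c * m')‖ ↔ wt W u = m') := by
    intro u hu
    have hnn := e4_wt_nonneg W u (hQ u hu)
    rw [h1 u hu, norm_pow]
    constructor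
    · intro h
      have h' := pow_right_injective₀ hρpos hρ1.ne h
      have h'' : (wt W u).toNat = m' := Nat.eq_of_mul_eq_mul_left (by omega) h'
      omega
    · intro h
      rw [h]
      simp
  have e1 : Multiset.card ((Q.val.map γ).filter fun x => ‖ρ ^ (c * m')‖ < ‖x‖) =
      (Q.filter (fun u => wt W u < m')).card := by
    rw [Multiset.filter_map, Multiset.card_map]
    rw [Finset.card_def, Finset.filter_val]
    congr 1
    exact Multiset.filter_congr fun u hu => by
      simpa using hlt u hu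
  have e2 : (((Q.val.map γ).filter fun x => ‖x‖ = ‖ρ ^ (c * m')‖).map fun x =>
      (1 - Polynomial.C (rd (x / ρ ^ (c * m'))) * Polynomial.X : Polynomial (KK C))).prod =
      ∏ u ∈ Q.filter (fun u => wt W u = m'), (1 - Polynomial.C (l u) * Polynomial.X) := by
    rw [Multiset.filter_map, Multiset.map_map]
    have e3 : Q.val.filter ((fun x => ‖x‖ = ‖ρ ^ (c * m')‖) ∘ γ) =
        (Q.filter (fun u => wt W u = m')).val := by
      rw [Finset.filter_val]
      exact Multiset.filter_congr fun u hu => by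
        simpa using heq u hu
    rw [e3]
    show (Multiset.map _ (Q.filter (fun u => wt W u = m')).val).prod = _
    rw [Finset.prod]
    congr 1
    refine Multiset.map_congr rfl fun u hu => ?_
    have hu' : u ∈ Q.filter (fun u => wt W u = m') := hu
    rw [Finset.mem_filter] at hu'
    simp only [Function.comp]
    have h3 := h2 u hu'.1
    rw [hu'.2] at h3
    simp only [Int.toNat_natCast] at h3
    rw [h3]
  rw [e1, e2] at hE
  exact hE

/-- The order of the edge of `T(q^z X)`. -/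
private def e4M (D m : ℕ) (Ms : ℕ → ℕ) (z : ℕ) : ℕ := if m < z * D then 0 else Ms (m - z * D)

/-- The residual polynomial of the edge of `T(q^z X)`. -/
private noncomputable def e4X {C : Type} [NormedField C] [IsUltrametricDist C] (D m c : ℕ)
    (ρ q : C) (χs : ℕ → Polynomial (KK C)) (z : ℕ) : Polynomial (KK C) :=
  if m < z * D then 1 else (χs (m - z * D)).comp
    (Polynomial.C (rd (ρ ^ (c * m) / (q ^ z * ρ ^ (c * (m - z * D)))))⁻¹ * Polynomial.X)

private theorem e4_scaled (hESCAL : StmtESCAL) {C : Type} [NormedField C] [IsUltrametricDist C]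
    (D m c : ℕ) (hc : 1 ≤ c) (ρ q : C) (hρ0 : ρ ≠ 0) (hρ1 : ‖ρ‖ < 1)
    (hq : ‖q‖ = ‖ρ‖ ^ (c * D)) (T : PowerSeries C) (hT0 : PowerSeries.constantCoeff T = 1)
    (hT1 : ∀ n, ‖PowerSeries.coeff n T‖ ≤ 1) (Ms : ℕ → ℕ) (χs : ℕ → Polynomial (KK C)) (m0 : ℕ)
    (hT : ∀ m', m' ≤ m → Edge T (ρ ^ (c * m')) (Ms m') (χs m') m0) (z : ℕ) :
    Edge (PowerSeries.rescale (q ^ z) T) (ρ ^ (c * m)) (e4M D m Ms z) (e4X D m c ρ q χs z) m0 := by
  have hρpos : 0 < ‖ρ‖ := norm_pos_iff.2 hρ0
  have hq0 : q ≠ 0 := by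
    rw [← norm_pos_iff, hq]; positivity
  obtain ⟨E1, E2⟩ := hESCAL C T m0
  unfold e4M e4X
  by_cases hz : m < z * D
  · rw [if_pos hz, if_pos hz]
    refine E1 (q ^ z) (ρ ^ (c * m)) (pow_ne_zero _ hρ0) ?_ hT0 hT1
    rw [norm_pow, norm_pow, hq, ← pow_mul]
    apply pow_lt_pow_right_of_lt_one₀ hρpos hρ1
    calc c * m < c * (z * D) := Nat.mul_lt_mul_of_pos_left hz (by omega)
      _ = c * D * z := by ring
  · rw [if_neg hz, if_neg hz]
    push Not at hz
    have hden : q ^ z * ρ ^ (c * (m - z * D)) ≠ 0 := mul_ne_zero (pow_ne_zero _ hq0)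
      (pow_ne_zero _ hρ0)
    have hη : ‖ρ ^ (c * m) / (q ^ z * ρ ^ (c * (m - z * D)))‖ = 1 := by
      rw [norm_div, norm_mul, norm_pow, norm_pow, norm_pow, hq, ← pow_mul, ← pow_add]
      have : c * D * z + c * (m - z * D) = c * m := by
        calc c * D * z + c * (m - z * D) = c * (z * D + (m - z * D)) := by ring
          _ = c * m := by rw [Nat.add_sub_cancel' hz]
      rw [this]
      exact div_self (by positivity)
    have h3 := E2 (q ^ z) (ρ ^ (c * (m - z * D))) (ρ ^ (c * m) / (q ^ z * ρ ^ (c * (m - z * D))))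
      (Ms (m - z * D)) (χs (m - z * D)) (pow_ne_zero _ hq0) (pow_ne_zero _ hρ0) hη
      (hT (m - z * D) (by omega))
    rw [mul_div_cancel₀ _ hden] at h3
    exact h3

private theorem e4X_zero {C : Type} [NormedField C] [IsUltrametricDist C] (D m c : ℕ)
    (ρ q : C) (χs : ℕ → Polynomial (KK C)) (h : ∀ m', (χs m').coeff 0 = 1) (z : ℕ) :
    (e4X D m c ρ q χs z).coeff 0 = 1 := by
  unfold e4X
  split_ifs
  · simp
  · rw [e4_comp_zero, h]

private theorem e4_prod_coeff_zero {K ι : Type} [Field K] (s : Finset ι) (χ : ι → Polynomial K)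
    (h : ∀ z ∈ s, (χ z).coeff 0 = 1) : (∏ z ∈ s, χ z).coeff 0 = 1 := by
  simp only [Polynomial.coeff_zero_eq_eval_zero] at h ⊢
  rw [Polynomial.eval_prod]
  exact Finset.prod_eq_one h

private theorem e4_mapsum {C : Type} [Field C] {n : ℕ} (Q : Finset (Fin n → ℤ))
    (γ : (Fin n → ℤ) → C) (i : ℕ) :
    ((Q.val.map γ).map fun x => x ^ i).sum = ∑ u ∈ Q, γ u ^ i := by
  rw [Multiset.map_map]
  rfl

theorem edge4_thm (hTHETA2 : StmtTHETA2) (hTRFT : StmtTRFT) (hDEGT : StmtDEGT)
    (hBOXS : StmtBOXS) (hEDGET : StmtEDGET) (hEPROD : StmtEPROD) (hECANC : StmtECANC)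
    (hESCAL : StmtESCAL) (hEMULT : StmtEMULT) (hNEWT : StmtNEWT) (hMODEL : StmtMODEL)
    (hWGTT : StmtWGTT) : StmtEDGE4 := by
  classical
  intro p hpF D hD C _ _ _ _ hpC j hj k _ _ _ ι n W W' f α hdata Pi hPi ψ hψ β hβ ρ hρ m m0
  have hp2 : 2 ≤ p := hpF.out.two_le
  have hDpos : 0 < D := Nat.pos_of_dvd_of_pos hD (by omega)
  set h := Module.finrank (ZMod p) k with hh
  have hh1 : 1 ≤ h := Module.finrank_pos
  have hprim := prim_of_char ψ hψ
  obtain ⟨hz0, hz1, hz2, -⟩ := zeta_thm p C hpC (ψ 1) hprim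
  have hρ0 : ρ ≠ 0 := by
    rintro rfl
    rw [zero_pow hDpos.ne'] at hρ
    exact hz0 hρ.symm
  have hρ1 : ‖ρ‖ < 1 := by
    by_contra hc
    have : 1 ≤ ‖ρ‖ ^ D := one_le_pow₀ (not_lt.1 hc)
    rw [← norm_pow, hρ] at this
    linarith
  have hρpos : 0 < ‖ρ‖ := norm_pos_iff.2 hρ0
  set c := (p - 1) * h with hcdef
  have hc : 1 ≤ c := Nat.mul_pos (by omega) (by omega)
  set q : C := (Fintype.card k : C) with hqdef
  have hcard : Fintype.card k = p ^ h := by
    rw [Module.card_eq_pow_finrank (K := ZMod p), ZMod.card]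
  have hqn : ‖q‖ = ‖ρ‖ ^ (c * D) := by
    rw [hqdef, hcard]
    push_cast
    rw [norm_pow, ← hz2, ← hρ, norm_pow, ← pow_mul, ← pow_mul]
    congr 1
    rw [hcdef]; ring
  have hq1 : ‖q‖ < 1 := by
    rw [hqn]
    exact pow_lt_one₀ (norm_nonneg _) hρ1 (Nat.mul_pos hc hDpos).ne'
  obtain ⟨τ, hτ⟩ := TEX_thm TUN_thm p C hpC k ι
  obtain ⟨γ, hγ1, hγ2⟩ := hMODEL p D hD C hpC (ψ 1) ρ hprim hρ hρ0 hρ1 k ι n W W' f α hdata
  obtain ⟨S1, hS1⟩ := hBOXS n D W W' hDpos hdata.mul' (m + 1)
  set l : (Fin n → ℤ) → KK C := ll ι p D h W α with hl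
  set Ms : ℕ → ℕ := fun m' => (S1.filter (fun u => wt W u < m')).card with hMs
  set χs : ℕ → Polynomial (KK C) := fun m' => ∏ u ∈ S1.filter (fun u => wt W u = m'),
    (1 - Polynomial.C (l u) * Polynomial.X) with hχs
  set MA := ∑ Z ∈ (univ : Finset (Finset (Fin n))).filter (fun Z => Z.card % 2 = 1),
    e4M D m Ms Z.card with hMA
  set χA := ∏ Z ∈ (univ : Finset (Finset (Fin n))).filter (fun Z => Z.card % 2 = 1),
    e4X D m c ρ q χs Z.card with hχA
  set MB := ∑ Z ∈ (univ : Finset (Finset (Fin n))).filter (fun Z => Z.card % 2 = 0),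
    e4M D m Ms Z.card with hMB
  set χB := ∏ Z ∈ (univ : Finset (Finset (Fin n))).filter (fun Z => Z.card % 2 = 0),
    e4X D m c ρ q χs Z.card with hχB
  set MP := (Pi.filter (fun u => wt W u < m)).card with hMP
  set χP := ∏ u ∈ Pi.filter (fun u => wt W u = m), (1 - Polynomial.C
        (ι (RR p D h W α u)) * Polynomial.X) with hχP
  have hχs0 : ∀ m', (χs m').coeff 0 = 1 := fun m' => e4_prod_zero _ _
  have hχA0 : χA.coeff 0 = 1 := e4_prod_coeff_zero _ _ fun Z _ => e4X_zero D m c ρ q χs hχs0 _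
  have hχB0 : χB.coeff 0 = 1 := e4_prod_coeff_zero _ _ fun Z _ => e4X_zero D m c ρ q χs hχs0 _
  have hχP0 : χP.coeff 0 = 1 := e4_prod_zero _ _
  set m1 := m0 + MA + Multiset.card β + Pi.card + MP + χP.natDegree + MB + χB.natDegree +
    (χP * χA).natDegree with hm1
  set w : C := ρ ^ (c * m) with hw
  have hw0 : w ≠ 0 := pow_ne_zero _ hρ0
  have hwpos : 0 < ‖w‖ := norm_pos_iff.2 hw0
  have hw1 : ‖w‖ ≤ 1 := by
    rw [hw, norm_pow]; exact pow_le_one₀ (norm_nonneg _) hρ1.le
  have hfac : (m1.factorial : C) ≠ 0 := by exact_mod_cast Nat.factorial_ne_zero m1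
  have hfacpos : 0 < ‖(m1.factorial : C)‖ := norm_pos_iff.2 hfac
  set ε : ℝ := ‖w‖ ^ m1 * ‖(m1.factorial : C)‖ / 2 with hε
  have hεpos : 0 < ε := by positivity
  have hεi : ∀ i, i ≤ m1 → ε / ‖(i.factorial : C)‖ < ‖w‖ ^ m1 := by
    intro i hi
    have hi0 : (i.factorial : C) ≠ 0 := by exact_mod_cast Nat.factorial_ne_zero i
    have hipos : 0 < ‖(i.factorial : C)‖ := norm_pos_iff.2 hi0
    have hle : ‖(m1.factorial : C)‖ ≤ ‖(i.factorial : C)‖ := by
      obtain ⟨t, ht⟩ := Nat.factorial_dvd_factorial hi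
      rw [ht]
      push_cast
      rw [norm_mul]
      exact mul_le_of_le_one_right (norm_nonneg _) (norm_natCast_le t)
    rw [div_lt_iff₀ hipos, hε]
    have hwm : 0 < ‖w‖ ^ m1 := by positivity
    nlinarith [mul_le_mul_of_nonneg_left hle hwm.le, mul_pos hwm hipos]
  obtain ⟨Θ, hΘ, hAH⟩ := hTHETA2 p C hpC j hj (ψ 1) hprim ε hεpos (p * (m + 2) + 1)
  obtain ⟨N0, hN0, hcone⟩ := hDEGT p hp2 C k (τ : k → C) Θ n W f hdata.nonneg
  obtain ⟨N1, hN1⟩ := exists_pow_lt_of_lt_one hεpos hq1
  set N' := max N0 (max (m + 1) N1) with hN'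
  have hN'0 : N0 ≤ N' := le_max_left _ _
  have hN'm : m + 1 ≤ N' := (le_max_left _ _).trans (le_max_right _ _)
  have hN'1 : N1 ≤ N' := (le_max_right _ _).trans (le_max_right _ _)
  have hNN : N' ≤ D * N' := Nat.le_mul_of_pos_left _ hDpos
  obtain ⟨S, hS⟩ := hBOXS n D W W' hDpos hdata.mul' (D * N')
  have hεq : ‖q‖ ^ N' ≤ ε :=
    (pow_le_pow_of_le_one (norm_nonneg _) hq1.le hN'1).trans hN1.le
  set B := Pmat (fun i => AT p S (FT p (τ : k → C) Θ f i)) h with hB
  -- the edges of det(1 - XB)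
  have hTf : ∀ m', m' ≤ m → Edge (B.charpolyRev : PowerSeries C) (ρ ^ (c * m')) (Ms m')
      (χs m') m1 := by
    intro m' hm'
    have := hEDGET p D hD C hpC (ψ 1) ρ ε Θ (p * (m + 2) + 1) hΘ hAH hρ hρ0 hρ1 k ι τ hτ
      n W W' f α hdata m' (D * N') S hS (by omega)
      (by
        have : p * (m' + 2) ≤ p * (m + 2) := Nat.mul_le_mul_left _ (by omega)
        omega) m1
    obtain ⟨b1, b2⟩ := e4_box W m (D * N') S S1 hS hS1 (by omega) m' hm'
    rw [b1, b2] at this
    rw [show c * m' = (p - 1) * m' * h by rw [hcdef]; ring]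
    exact this
  -- the edges of the model
  have hSnn : ∀ u ∈ S, ∀ j, 0 ≤ yy W u j := fun u hu j => ((hS u).1 hu j).1
  have hPnn : ∀ u ∈ Pi, ∀ j, 0 ≤ yy W u j := fun u hu j => ((hPi u).1 hu j).1
  have hγn : ∀ u, (∀ j, 0 ≤ yy W u j) → ‖γ u‖ = ‖ρ‖ ^ (c * (wt W u).toNat) := by
    intro u hu
    rw [(hγ1 u hu).1]
    congr 1
    rw [hcdef]; ring
  have hγr : ∀ u, (∀ j, 0 ≤ yy W u j) → rd (γ u / ρ ^ (c * (wt W u).toNat)) = l u := by
    intro u hu
    rw [← (hγ1 u hu).2]
    congr 3
    rw [hcdef]; ring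
  have hTm : ∀ m', m' ≤ m → Edge (revP (S.val.map γ) : PowerSeries C) (ρ ^ (c * m')) (Ms m')
      (χs m') m1 := by
    intro m' hm'
    have := e4_model_edge hEMULT W ρ hρ0 hρ1 c hc γ l S hSnn (fun u hu => hγn u (hSnn u hu))
      (fun u hu => hγr u (hSnn u hu)) m' m1
    obtain ⟨b1, b2⟩ := e4_box W m (D * N') S S1 hS hS1 (by omega) m' hm'
    rw [b1, b2] at this
    exact this
  have hPm : Edge (revP (Pi.val.map γ) : PowerSeries C) w MP χP m1 := by
    have := e4_model_edge hEMULT W ρ hρ0 hρ1 c hc γ l Pi hPnn (fun u hu => hγn u (hPnn u hu))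
      (fun u hu => hγr u (hPnn u hu)) m m1
    have e : ∏ u ∈ Pi.filter (fun u => wt W u = m), (1 - Polynomial.C (l u) * Polynomial.X) =
        χP := by
      rw [hχP]
      refine Finset.prod_congr rfl fun u hu => ?_
      rw [Finset.mem_filter] at hu
      have hq' : l u = ι (RR p D h W α u) := by
        rw [hl]
        unfold ll
        have : ∏ j, (((-1 : KK C) ^ h) ^ ((yy W u j).toNat / D)) = 1 := by
          refine Finset.prod_eq_one fun j _ => ?_
          have h5 := (hPi u).1 hu.1 j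
          have : (yy W u j).toNat / D = 0 := Nat.div_eq_of_lt (by omega)
          rw [this, pow_zero]
        rw [this, mul_one]
      rw [hq']
    rw [e] at this
    exact this
  -- integrality
  have hAint : ∀ i u v, ‖AT p S (FT p (τ : k → C) Θ f i) u v‖ ≤ 1 := by
    intro i u v
    refine (hWGTT p D hDpos C (ψ 1) ρ ε Θ hΘ hρ hρ0 hρ1 k ι τ hτ n W f hdata.nonneg hdata.le i
      _).trans ?_
    exact pow_le_one₀ (norm_nonneg _) hρ1.le
  have hBint : ∀ u v, ‖B u v‖ ≤ 1 := e4_pmat_norm _ hAint h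
  have hγle : ∀ u, (∀ j, 0 ≤ yy W u j) → ‖γ u‖ ≤ 1 := by
    intro u hu
    rw [hγn u hu]
    exact pow_le_one₀ (norm_nonneg _) hρ1.le
  have hSint : ∀ x ∈ S.val.map γ, ‖x‖ ≤ 1 := by
    intro x hx
    obtain ⟨u, hu, rfl⟩ := Multiset.mem_map.1 hx
    exact hγle u (hSnn u hu)
  have hPint : ∀ x ∈ Pi.val.map γ, ‖x‖ ≤ 1 := by
    intro x hx
    obtain ⟨u, hu, rfl⟩ := Multiset.mem_map.1 hx
    exact hγle u (hPnn u hu)
  have hTf0 : PowerSeries.constantCoeff (B.charpolyRev : PowerSeries C) = 1 := by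
    rw [← PowerSeries.coeff_zero_eq_constantCoeff_apply, Polynomial.coeff_coe,
      Polynomial.coeff_zero_eq_eval_zero, Matrix.eval_charpolyRev]
  have hTf1 : ∀ i, ‖PowerSeries.coeff i (B.charpolyRev : PowerSeries C)‖ ≤ 1 := by
    intro i
    rw [Polynomial.coeff_coe]
    exact e4_coeff_rev B hBint i
  have hTm0 : PowerSeries.constantCoeff (revP (S.val.map γ) : PowerSeries C) = 1 := by
    rw [← PowerSeries.coeff_zero_eq_constantCoeff_apply, Polynomial.coeff_coe, e4_revP_zero]
  have hTm1 : ∀ i, ‖PowerSeries.coeff i (revP (S.val.map γ) : PowerSeries C)‖ ≤ 1 := by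
    intro i
    rw [Polynomial.coeff_coe]
    exact e4_revP_coeff _ hSint i
  -- edges of the products
  have hOf : Edge (Odd' n q (B.charpolyRev : PowerSeries C)) w MA χA m1 :=
    e4_edge_prod hEPROD _ (fun Z : Finset (Fin n) => PowerSeries.rescale (q ^ Z.card)
      (B.charpolyRev : PowerSeries C)) w hw0 _ _ m1 fun Z _ =>
      e4_scaled hESCAL D m c hc ρ q hρ0 hρ1 hqn _ hTf0 hTf1 Ms χs m1 hTf Z.card
  have hEf : Edge (Even' n q (B.charpolyRev : PowerSeries C)) w MB χB m1 :=
    e4_edge_prod hEPROD _ (fun Z : Finset (Fin n) => PowerSeries.rescale (q ^ Z.card)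
      (B.charpolyRev : PowerSeries C)) w hw0 _ _ m1 fun Z _ =>
      e4_scaled hESCAL D m c hc ρ q hρ0 hρ1 hqn _ hTf0 hTf1 Ms χs m1 hTf Z.card
  have hOm : Edge (Odd' n q (revP (S.val.map γ) : PowerSeries C)) w MA χA m1 :=
    e4_edge_prod hEPROD _ (fun Z : Finset (Fin n) => PowerSeries.rescale (q ^ Z.card)
      (revP (S.val.map γ) : PowerSeries C)) w hw0 _ _ m1 fun Z _ =>
      e4_scaled hESCAL D m c hc ρ q hρ0 hρ1 hqn _ hTm0 hTm1 Ms χs m1 hTm Z.card
  have hEm : Edge (Even' n q (revP (S.val.map γ) : PowerSeries C)) w MB χB m1 :=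
    e4_edge_prod hEPROD _ (fun Z : Finset (Fin n) => PowerSeries.rescale (q ^ Z.card)
      (revP (S.val.map γ) : PowerSeries C)) w hw0 _ _ m1 fun Z _ =>
      e4_scaled hESCAL D m c hc ρ q hρ0 hρ1 hqn _ hTm0 hTm1 Ms χs m1 hTm Z.card
  -- power sums of β
  have hsign : ((-1 : C) ^ n) * ((-1 : C) ^ n) = 1 := by
    rw [← pow_add, ← two_mul, pow_mul]; simp
  have hsn : ‖((-1 : C) ^ n)‖ = 1 := by simp
  have hβs : ∀ i, 1 ≤ i → ‖(β.map fun x => x ^ i).sum‖ ≤ 1 ∧
      ‖(β.map fun x => x ^ i).sum - (1 - q ^ i) ^ n * Matrix.trace (B ^ i)‖ ≤ ε := by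
    intro i hi
    obtain ⟨E, _, _, _, _, hE⟩ := ext_thm p k i hi
    have h1 := hβ E
    rw [hE] at h1
    have h2 : (β.map fun x => x ^ i).sum = (-1) ^ n * ST ψ f E := by
      rw [← h1, ← mul_assoc, hsign, one_mul]
    constructor
    · rw [h2, norm_mul, hsn, one_mul]
      exact e4_ST_norm ψ f E
    · have h3 := hTRFT p C hpC ψ ε Θ hεpos hΘ k ι τ hτ n f W (D * N') S (by omega) hS
        (fun i' => hcone (D * N') (by omega) i') E
      rw [hE] at h3
      have h4 : (β.map fun x => x ^ i).sum - (1 - q ^ i) ^ n * Matrix.trace (B ^ i) =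
          (-1) ^ n * (ST ψ f E - (q ^ i - 1) ^ n * Matrix.trace (B ^ i)) := by
        rw [h2, mul_sub, ← mul_assoc ((-1 : C) ^ n), ← mul_pow]
        congr 3
        ring
      rw [h4, norm_mul, hsn, one_mul]
      exact h3
  have hNRβ : NR (fun i => (β.map fun x => x ^ i).sum) (revP β : PowerSeries C) :=
    (nrb_thm C).1 β
  have hNRf : NR (fun i => Matrix.trace (B ^ i)) (B.charpolyRev : PowerSeries C) :=
    (nrb_thm C).2 _ B
  have hcl := hNEWT C n q _ _ (revP β : PowerSeries C) (B.charpolyRev : PowerSeries C) ε hεpos.le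
    hq1.le hNRβ hNRf hTf1 (fun i hi => (hβs i hi).1) (fun i _ => e4_trace B hBint i)
    (fun i hi => (hβs i hi).2)
  -- the model
  have hNRP : NR (fun i => ((Pi.val.map γ).map fun x => x ^ i).sum)
      (revP (Pi.val.map γ) : PowerSeries C) := (nrb_thm C).1 _
  have hNRS : NR (fun i => ((S.val.map γ).map fun x => x ^ i).sum)
      (revP (S.val.map γ) : PowerSeries C) := (nrb_thm C).1 _
  have hsumle : ∀ (Q : Finset (Fin n → ℤ)), (∀ u ∈ Q, ∀ j, 0 ≤ yy W u j) → ∀ i : ℕ,
      ‖((Q.val.map γ).map fun x => x ^ i).sum‖ ≤ 1 := by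
    intro Q hQ i
    rw [e4_mapsum]
    refine norm_sum_le_one _ fun u hu => ?_
    rw [norm_pow]
    exact pow_le_one₀ (norm_nonneg _) (hγle u (hQ u hu))
  have hclm := hNEWT C n q _ _ (revP (Pi.val.map γ) : PowerSeries C)
    (revP (S.val.map γ) : PowerSeries C) ε hεpos.le hq1.le hNRP hNRS hTm1
    (fun i _ => hsumle Pi hPnn i) (fun i _ => hsumle S hSnn i)
    (fun i hi => by
      show ‖((Pi.val.map γ).map fun x => x ^ i).sum - (1 - q ^ i) ^ n *
        ((S.val.map γ).map fun x => x ^ i).sum‖ ≤ ε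
      rw [e4_mapsum, e4_mapsum]
      exact (hγ2 N' S Pi (by omega) hS hPi i hi).trans hεq)
  -- the model gives the relation between the data
  have hE1 : Edge ((revP (Pi.val.map γ) : PowerSeries C) *
      Odd' n q (revP (S.val.map γ) : PowerSeries C)) w MB χB m1 :=
    ECL_thm C _ _ w MB χB m1 hw0 hw1
      (fun i hi => (hclm i).trans_lt (hεi i hi)) hEm
  have hE2 : Edge ((revP (Pi.val.map γ) : PowerSeries C) *
      Odd' n q (revP (S.val.map γ) : PowerSeries C)) w (MP + MA) (χP * χA) m1 :=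
    (hEPROD C _ _ w MP MA χP χA m1 hw0).1 hPm hOm
  obtain ⟨hM, hχ⟩ := (hEPROD C _ ((revP (Pi.val.map γ) : PowerSeries C) *
      Odd' n q (revP (S.val.map γ) : PowerSeries C)) w MB (MP + MA) χB (χP * χA) m1 hw0).2
      hE1 hE2 hχB0 (by rw [Polynomial.mul_coeff_zero, hχP0, hχA0, one_mul]) (by omega) (by omega)
  -- the edge of P
  have hE3 : Edge ((revP β : PowerSeries C) * Odd' n q (B.charpolyRev : PowerSeries C)) w
      (MP + MA) (χP * χA) m1 := by
    rw [← hM, ← hχ]
    exact ECL_thm C _ _ w MB χB m1 hw0 hw1 (fun i hi => (hcl i).trans_lt (hεi i hi)) hEf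
  have hdeg := e4_revP_natDegree β
  have hE4 := hECANC C (revP β) (Odd' n q (B.charpolyRev : PowerSeries C)) w MP MA χP χA m1 hw0
    (e4_revP_zero β) hχP0 hχA0 (by omega) (by omega) hE3 hOf
  have hE5 := e4_edge_mono (m0 := m0) (by omega) hE4
  rw [show (p - 1) * m * h = c * m by rw [hcdef]; ring]
  exact hE5

end AST
end

section
/-!
# AST/EDGET: the edges of `det(1 - XB)`
-/
set_option linter.all false

namespace AST

open Finset ASur

/-! ## The cone -/

private theorem yy_add {n : ℕ} (W : Matrix (Fin n) (Fin n) ℤ) (u v : Fin n → ℤ) (j : Fin n) :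
    yy W (u + v) j = yy W u j + yy W v j := by
  simp [yy, mul_add, Finset.sum_add_distrib]

private theorem yy_sub {n : ℕ} (W : Matrix (Fin n) (Fin n) ℤ) (u v : Fin n → ℤ) (j : Fin n) :
    yy W (u - v) j = yy W u j - yy W v j := by
  simp [yy, mul_sub, Finset.sum_sub_distrib]

private theorem yy_nsmul {n : ℕ} (W : Matrix (Fin n) (Fin n) ℤ) (a : ℕ) (u : Fin n → ℤ)
    (j : Fin n) : yy W (a • u) j = a * yy W u j := by
  simp only [yy, Pi.smul_apply, nsmul_eq_mul, Finset.mul_sum]
  exact Finset.sum_congr rfl fun i _ => by ring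

private theorem yy_zero {n : ℕ} (W : Matrix (Fin n) (Fin n) ℤ) (j : Fin n) :
    yy W (0 : Fin n → ℤ) j = 0 := by
  simp [yy]

private def Cone {n : ℕ} {C : Type} [Semiring C] (W : Matrix (Fin n) (Fin n) ℤ)
    (F : AddMonoidAlgebra C (Fin n → ℤ)) : Prop :=
  ∀ u, F.coeff u ≠ 0 → ∀ j, 0 ≤ yy W u j

private theorem cone_mul {n : ℕ} {C : Type} [Semiring C] {W : Matrix (Fin n) (Fin n) ℤ}
    {F G : AddMonoidAlgebra C (Fin n → ℤ)} (hF : Cone W F) (hG : Cone W G) : Cone W (F * G) := by
  classical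
  intro u hu j
  have h1 : u ∈ (F * G).coeff.support := Finsupp.mem_support_iff.2 hu
  have h2 := AddMonoidAlgebra.support_coeff_mul_subset F G h1
  obtain ⟨a, ha, b, hb, rfl⟩ := Finset.mem_add.1 h2
  rw [yy_add]
  exact add_nonneg (hF a (Finsupp.mem_support_iff.1 ha) j) (hG b (Finsupp.mem_support_iff.1 hb) j)

private theorem cone_single {n : ℕ} {C : Type} [Semiring C] {W : Matrix (Fin n) (Fin n) ℤ}
    {u : Fin n → ℤ} (hu : ∀ j, 0 ≤ yy W u j) (c : C) :
    Cone W (AddMonoidAlgebra.single u c : AddMonoidAlgebra C (Fin n → ℤ)) := by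
  classical
  intro v hv j
  rw [AddMonoidAlgebra.coeff_single, Finsupp.single_apply] at hv
  split_ifs at hv with h
  · rw [← h]; exact hu j
  · exact absurd rfl hv

private theorem cone_one {n : ℕ} {C : Type} [Semiring C] {W : Matrix (Fin n) (Fin n) ℤ} :
    Cone W (1 : AddMonoidAlgebra C (Fin n → ℤ)) := by
  rw [AddMonoidAlgebra.one_def]
  exact cone_single (fun j => (yy_zero W j).ge) 1

private theorem cone_pow {n : ℕ} {C : Type} [Semiring C] {W : Matrix (Fin n) (Fin n) ℤ}
    {F : AddMonoidAlgebra C (Fin n → ℤ)} (hF : Cone W F) (i : ℕ) : Cone W (F ^ i) := by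
  induction i with
  | zero => rw [pow_zero]; exact cone_one
  | succ i ih => rw [pow_succ]; exact cone_mul ih hF

private theorem cone_FT {n : ℕ} {C k : Type} [Field C] [Field k] {W : Matrix (Fin n) (Fin n) ℤ}
    (p : ℕ) (τ : k → C) (Θ : Polynomial C) (f : (Fin n → ℤ) →₀ k)
    (hf : ∀ u ∈ f.support, ∀ j, 0 ≤ yy W u j) (i : ℕ) : Cone W (FT p τ Θ f i) := by
  classical
  unfold FT
  refine Finset.prod_induction _ (Cone W) (fun _ _ => cone_mul) cone_one fun u hu => ?_
  rw [Polynomial.aeval_eq_sum_range]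
  intro v hv j
  rw [AddMonoidAlgebra.coeff_sum, Finsupp.finset_sum_apply] at hv
  obtain ⟨l, -, hl⟩ := Finset.exists_ne_zero_of_sum_ne_zero hv
  rw [AddMonoidAlgebra.coeff_smul_apply] at hl
  exact cone_pow (cone_single (hf u hu) _) l v (fun h => hl (by rw [h, smul_zero])) j

/-! ## Pivots -/

private theorem geom_nat (p h : ℕ) (hp : 2 ≤ p) :
    ∑ i ∈ range h, p ^ i * (p - 1) = p ^ h - 1 := by
  induction h with
  | zero => simp
  | succ h ih =>
    rw [Finset.sum_range_succ, ih, pow_succ]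
    have h1 : 1 ≤ p ^ h := Nat.one_le_pow _ _ (by omega)
    obtain ⟨c, rfl⟩ : ∃ c, p = c + 1 := ⟨p - 1, by omega⟩
    have : (c + 1) ^ h * (c + 1) = (c + 1) ^ h * c + (c + 1) ^ h := by ring
    rw [this, Nat.add_sub_cancel]
    omega

theorem edget_thm (hWGTT : StmtWGTT) (hLEADT : StmtLEADT) (hTLU : StmtTLU)
    (hEDGELU : StmtEDGELU) : StmtEDGET := by
  intro p hp D hD C _ _ hpC ζ ρ ε Θ J0 hΘ hAH hρ hρ0 hρ1 k _ _ _ ι τ hτ n W W' f α hdata m N S
    hS hmN hJ0 m0
  classical
  have hpp : p.Prime := hp.out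
  have hp2 : 2 ≤ p := hpp.two_le
  have hD1 : 1 ≤ D := Nat.pos_of_dvd_of_pos hD (by omega)
  set h := Module.finrank (ZMod p) k with hh
  have hh1 : 1 ≤ h := Module.finrank_pos
  haveI : CharP (KK C) p := charP_KK hpC
  set F := fun i => FT p (τ : k → C) Θ f i with hF
  have hcone : ∀ i w, (F i).coeff w ≠ 0 → ∀ j, 0 ≤ yy W w j :=
    fun i w hw => cone_FT p τ Θ f hdata.nonneg i w hw
  have hW : ∀ i w, ‖(F i).coeff w‖ ≤ ‖ρ‖ ^ (wt W w).toNat := fun i w =>
    hWGTT p D hD1 C ζ ρ ε Θ hΘ hρ hρ0 hρ1 k ι τ hτ n W f hdata.nonneg hdata.le i w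
  have hSn : ∀ u : S, ∀ j, 0 ≤ yy W u.1 j := fun u j => (((hS u.1).1 u.2) j).1
  have hwtn : ∀ u : S, 0 ≤ wt W u.1 := fun u => Finset.sum_nonneg fun j _ => hSn u j
  have hιne : ∀ j, ι (α j) ≠ 0 := fun j => by
    rw [Ne, map_eq_zero]
    exact hdata.ne j
  -- the matrices L, U
  choose L U hLU1 hLU2 hLU3 hLU4 hLU5 using fun i : ℕ =>
    hTLU (KK C) p J0 (EE ζ Θ) hAH D hD n W W' hdata.mul hdata.mul' (fun j => ι (α j) ^ (p ^ i))
      (fun j => pow_ne_zero _ (hιne j)) m N S hS hmN hJ0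
  have hwts : ∀ u v : Fin n → ℤ, wt W (p • u - v) = p * wt W u - wt W v := by
    intro u v
    simp only [wt, yy_sub, yy_nsmul, Finset.sum_sub_distrib, Finset.mul_sum]
  -- the scaled matrices
  have hC1 : ∀ i (u v : S), ‖CT p W ρ S (F i) u v‖ ≤ 1 := by
    intro i u v
    simp only [CT, Matrix.of_apply]
    rw [norm_div, norm_pow]
    exact div_le_one_of_le₀ (hW i _) (by positivity)
  have hC2 : ∀ i (u v : S), AT p S (F i) u v * ρ ^ (wt W v.1).toNat =
      ρ ^ (p * (wt W u.1).toNat) * CT p W ρ S (F i) u v := by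
    intro i u v
    simp only [AT, CT, Matrix.of_apply]
    by_cases h0 : (F i).coeff (p • u.1 - v.1) = 0
    · rw [h0]; simp
    · have h1 : 0 ≤ wt W (p • u.1 - v.1) :=
        Finset.sum_nonneg fun j _ => hcone i _ h0 j
      have h2 : p * (wt W u.1).toNat = (wt W (p • u.1 - v.1)).toNat + (wt W v.1).toNat := by
        rw [hwts] at h1 ⊢
        have h3 := hwtn u
        have h4 := hwtn v
        zify
        rw [Int.toNat_of_nonneg h3, Int.toNat_of_nonneg h4, Int.toNat_of_nonneg h1]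
        ring
      rw [h2, pow_add]
      have h3 : ρ ^ (wt W (p • u.1 - v.1)).toNat ≠ 0 := pow_ne_zero _ hρ0
      field_simp
  have hle_iff : ∀ u : S, (wt W u.1).toNat ≤ m ↔ wt W u.1 ≤ m := by
    intro u
    rw [Int.toNat_le]
  have hC3 : ∀ i, i < h → ∀ u v : S, (wt W u.1).toNat ≤ m → (wt W v.1).toNat ≤ m →
      rd (CT p W ρ S (F i) u v) =
        ∑ w ∈ univ.filter (fun w : S => (wt W w.1).toNat ≤ m), L i u w * U i w v := by
    intro i _ u v hu hv
    have h1 := hLU1 i u v ((hle_iff u).1 hu) ((hle_iff v).1 hv)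
    have h2 : (univ.filter fun w : S => (wt W w.1).toNat ≤ m) =
        univ.filter (fun w : S => wt W w.1 ≤ m) := Finset.filter_congr fun w _ => hle_iff w
    rw [h2, ← h1]
    simp only [CT, Matrix.of_apply]
    rw [hLEADT p D hD1 C ζ ρ ε Θ hΘ hρ hρ0 hρ1 k ι τ hτ n W W' f α hdata i]
    unfold MM M1
    have hcond : ∀ j, (0 ≤ yy W (p • u.1 - v.1) j ∧ (D : ℤ) ∣ yy W (p • u.1 - v.1) j) ↔
        ((yy W v.1 j).toNat ≤ p * (yy W u.1 j).toNat ∧
          D ∣ p * (yy W u.1 j).toNat - (yy W v.1 j).toNat) := by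
      intro j
      have a1 := hSn u j
      have a2 := hSn v j
      obtain ⟨s, hs⟩ := Int.eq_ofNat_of_zero_le a1
      obtain ⟨t, ht⟩ := Int.eq_ofNat_of_zero_le a2
      rw [yy_sub, yy_nsmul, hs, ht, Int.toNat_natCast, Int.toNat_natCast]
      constructor
      · rintro ⟨b1, b2⟩
        have b3 : t ≤ p * s := by
          have : (t : ℤ) ≤ p * s := by linarith
          exact_mod_cast this
        refine ⟨b3, ?_⟩
        have b4 : ((p * s - t : ℕ) : ℤ) = (p : ℤ) * s - t := by
          rw [Nat.cast_sub b3]; push_cast; ring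
        rw [← b4] at b2
        exact_mod_cast b2
      · rintro ⟨b1, b2⟩
        have b4 : ((p * s - t : ℕ) : ℤ) = (p : ℤ) * s - t := by
          rw [Nat.cast_sub b1]; push_cast; ring
        rw [← b4]
        exact ⟨by positivity, by exact_mod_cast b2⟩
    have hval : ∀ j, (yy W (p • u.1 - v.1) j).toNat =
        p * (yy W u.1 j).toNat - (yy W v.1 j).toNat := by
      intro j
      have a1 := hSn u j
      have a2 := hSn v j
      obtain ⟨s, hs⟩ := Int.eq_ofNat_of_zero_le a1
      obtain ⟨t, ht⟩ := Int.eq_ofNat_of_zero_le a2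
      rw [yy_sub, yy_nsmul, hs, ht, Int.toNat_natCast, Int.toNat_natCast]
      omega
    rw [Fintype.prod_ite_zero]
    simp only [hcond, hval]
  have hne : ∀ (u : S) (j : Fin n),
      (((p - 1) / D * ((yy W u.1 j).toNat % D)).factorial : KK C) ≠ 0 := by
    intro u j h0
    rw [CharP.cast_eq_zero_iff (KK C) p, hpp.dvd_factorial] at h0
    have h1 : (yy W u.1 j).toNat % D < D := Nat.mod_lt _ (by omega)
    have h2 : (p - 1) / D * ((yy W u.1 j).toNat % D) ≤ (p - 1) / D * D :=
      Nat.mul_le_mul_left _ h1.le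
    rw [Nat.div_mul_cancel hD] at h2
    omega
  have hL5 : ∀ i (u : S), (wt W u.1).toNat ≤ m → L i u u ≠ 0 := by
    intro i u hu h0
    have h1 := hLU5 i u ((hle_iff u).1 hu)
    rw [h0, zero_mul] at h1
    refine (Finset.prod_ne_zero_iff.2 fun j _ => ?_) h1.symm
    exact mul_ne_zero (pow_ne_zero _ (pow_ne_zero _ (hιne j)))
      (pow_ne_zero _ (neg_ne_zero.2 one_ne_zero))
  have hedge := hEDGELU C S (fun u => (wt W u.1).toNat) p h m ρ (fun i => AT p S (F i))
    (fun i => CT p W ρ S (F i)) L U hp2 hh1 hρ0 hρ1 hC1 hC2 hC3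
    (fun i u w hw => (hLU2 i u w hw).imp id fun h1 =>
      (Int.toNat_lt_toNat (lt_of_le_of_lt (hwtn w) h1)).2 h1)
    (fun i w v hw => (hLU3 i w v hw).imp id fun h1 =>
      (Int.toNat_lt_toNat (lt_of_le_of_lt (hwtn w) h1)).2 h1)
    hLU4 (fun i _ u hu => hL5 i u hu) m0
  -- the pivots
  have hcard : Fintype.card k = p ^ h := by
    rw [Module.card_eq_pow_finrank (K := ZMod p), ZMod.card]
  have hpow : ∀ j, ι (α j) ^ (p ^ h - 1) = 1 := by
    intro j
    rw [← map_pow, ← hcard, FiniteField.pow_card_sub_one_eq_one _ (hdata.ne j), map_one]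
  have hpiv : ∀ u : S, (wt W u.1).toNat = m →
      ∏ i ∈ range h, L i u u = ll ι p D h W α u.1 := by
    intro u hu
    set r : Fin n → ℕ := fun j => (yy W u.1 j).toNat % D with hr
    set s : Fin n → ℕ := fun j => (yy W u.1 j).toNat / D with hs
    set c : ℕ := (p - 1) / D with hc
    have hcD : c * D = p - 1 := Nat.div_mul_cancel hD
    have h1 : ∀ i, L i u u * ∏ j, ((c * r j).factorial : KK C) =
        ∏ j, ((ι (α j) ^ (p ^ i)) ^ (c * r j + (p - 1) * s j) * (-1) ^ s j) := fun i =>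
      hLU5 i u ((hle_iff u).1 hu.le)
    have hfac : (∏ j, ((c * r j).factorial : KK C)) ^ h ≠ 0 :=
      pow_ne_zero _ (Finset.prod_ne_zero_iff.2 fun j _ => hne u j)
    refine mul_right_cancel₀ hfac ?_
    have h2 : (∏ i ∈ range h, L i u u) * (∏ j, ((c * r j).factorial : KK C)) ^ h =
        ∏ i ∈ range h, (L i u u * ∏ j, ((c * r j).factorial : KK C)) := by
      rw [Finset.prod_mul_distrib, Finset.prod_const, Finset.card_range]
    rw [h2, Finset.prod_congr rfl fun i _ => h1 i, Finset.prod_comm]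
    unfold ll RR
    rw [map_prod, ← Finset.prod_pow, ← Finset.prod_mul_distrib, ← Finset.prod_mul_distrib]
    refine Finset.prod_congr rfl fun j _ => ?_
    rw [Finset.prod_mul_distrib, Finset.prod_const, Finset.card_range]
    have h3 : ∏ i ∈ range h, (ι (α j) ^ (p ^ i)) ^ (c * r j + (p - 1) * s j) =
        ι (α j) ^ ((p ^ h - 1) / D * r j) := by
      have h4 : ∀ i, (ι (α j) ^ (p ^ i)) ^ (c * r j + (p - 1) * s j) =
          ι (α j) ^ (p ^ i * (c * r j + (p - 1) * s j)) := fun i => by rw [← pow_mul]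
      rw [Finset.prod_congr rfl fun i _ => h4 i, Finset.prod_pow_eq_pow_sum]
      have h5 : ∑ i ∈ range h, p ^ i * (c * r j + (p - 1) * s j) =
          (p ^ h - 1) / D * r j + (p ^ h - 1) * s j := by
        have h6 : ∑ i ∈ range h, p ^ i * c = (p ^ h - 1) / D := by
          symm
          apply Nat.div_eq_of_eq_mul_left (by omega)
          rw [← geom_nat p h hp2, Finset.sum_mul]
          refine Finset.sum_congr rfl fun i _ => ?_
          rw [← hcD]; ring
        rw [← h6, ← geom_nat p h hp2, Finset.sum_mul, Finset.sum_mul, ← Finset.sum_add_distrib]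
        exact Finset.sum_congr rfl fun i _ => by ring
      rw [h5, pow_add, pow_mul (ι (α j)) (p ^ h - 1) (s j), hpow, one_pow, mul_one]
    rw [h3]
    simp only [map_mul, map_pow, map_inv₀, map_natCast]
    have hne' := hne u j
    have h7 : ((((c * r j).factorial : KK C))⁻¹) ^ h * ((c * r j).factorial : KK C) ^ h = 1 := by
      rw [← mul_pow, inv_mul_cancel₀ hne', one_pow]
    change ι (α j) ^ ((p ^ h - 1) / D * r j) * ((-1) ^ s j) ^ h =
      ((((c * r j).factorial : KK C))⁻¹) ^ h * (ι (α j) ^ ((p ^ h - 1) / D)) ^ r j *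
        ((-1) ^ h) ^ s j * ((c * r j).factorial : KK C) ^ h
    rw [← pow_mul (ι (α j)), ← pow_mul (-1 : KK C) (s j) h, ← pow_mul (-1 : KK C) h (s j),
      mul_comm h (s j)]
    calc ι (α j) ^ ((p ^ h - 1) / D * r j) * (-1) ^ (s j * h)
        = 1 * (ι (α j) ^ ((p ^ h - 1) / D * r j) * (-1) ^ (s j * h)) := (one_mul _).symm
      _ = _ := by rw [← h7]; ring
  -- conversion
  have hcardS : Fintype.card {u : S // (wt W u.1).toNat < m} =
      (S.filter (fun u => wt W u < m)).card := by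
    rw [Fintype.card_subtype]
    have h1 : (univ.filter fun u : S => (wt W u.1).toNat < m) =
        univ.filter (fun u : S => wt W u.1 < m) := by
      refine Finset.filter_congr fun u _ => ?_
      have := hwtn u
      omega
    rw [h1]
    refine Finset.card_bij (fun u _ => u.1) ?_ ?_ ?_
    · intro u hu
      rw [Finset.mem_filter] at hu ⊢
      exact ⟨u.2, hu.2⟩
    · intro u _ v _ huv
      exact Subtype.ext huv
    · intro u hu
      rw [Finset.mem_filter] at hu
      exact ⟨⟨u, hu.1⟩, by rw [Finset.mem_filter]; exact ⟨Finset.mem_univ _, hu.2⟩, rfl⟩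
  have hprodS : (∏ u ∈ univ.filter (fun u : S => (wt W u.1).toNat = m),
        (1 - Polynomial.C (∏ i ∈ range h, L i u u) * Polynomial.X)) =
      ∏ u ∈ S.filter (fun u => wt W u = m), (1 - Polynomial.C
        (ll ι p D h W α u) * Polynomial.X) := by
    refine Finset.prod_bij (fun u _ => u.1) ?_ ?_ ?_ ?_
    · intro u hu
      rw [Finset.mem_filter] at hu ⊢
      refine ⟨u.2, ?_⟩
      have := hwtn u
      omega
    · intro u _ v _ huv
      exact Subtype.ext huv
    · intro u hu
      rw [Finset.mem_filter] at hu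
      refine ⟨⟨u, hu.1⟩, ?_, rfl⟩
      rw [Finset.mem_filter]
      refine ⟨Finset.mem_univ _, ?_⟩
      simp only
      omega
    · intro u hu
      rw [Finset.mem_filter] at hu
      rw [hpiv u hu.2]
  rw [hcardS, hprodS] at hedge
  exact hedge

end AST
end

section
/-!
# MP_b685ef_ag, theorem AST: the edge of `∏ (1 - x X)`
-/
set_option linter.all false

namespace AST

open Finset ASur

section emult

variable {C : Type} [NormedField C] [IsUltrametricDist C]

private theorem em_scale (β : Multiset C) (ϖ : C) (n : ℕ) :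
    ((β.map fun x => 1 - Polynomial.C (x / ϖ) * Polynomial.X).prod).coeff n =
      (revP β).coeff n / ϖ ^ n := by
  have h : (β.map fun x => 1 - Polynomial.C (x / ϖ) * Polynomial.X).prod =
      (revP β).comp (Polynomial.C ϖ⁻¹ * Polynomial.X) := by
    unfold revP
    rw [Polynomial.multiset_prod_comp, Multiset.map_map]
    congr 1
    refine Multiset.map_congr rfl fun x _ => ?_
    simp only [Function.comp_apply, Polynomial.sub_comp, Polynomial.one_comp, Polynomial.mul_comp,
      Polynomial.C_comp, Polynomial.X_comp]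
    rw [div_eq_mul_inv, Polynomial.C_mul, mul_assoc]
  rw [h, Polynomial.comp_C_mul_X_coeff, inv_pow, div_eq_mul_inv]

open Classical in
private theorem em_step (w : C) (hw : w ≠ 0) (β : Multiset C) :
    ∃ (c : C) (R : Polynomial (OO C)), c ≠ 0 ∧ ‖c‖ ≤ 1 ∧
      R.map (OO C).subtype =
        Polynomial.C c * (β.map fun x => 1 - Polynomial.C (x / w) * Polynomial.X).prod ∧
      R.map (IsLocalRing.residue (OO C)) =
        Polynomial.X ^ (Multiset.card (β.filter fun x => ‖w‖ < ‖x‖)) *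
          ((β.filter fun x => ‖x‖ = ‖w‖).map fun x =>
            (1 - Polynomial.C (rd (x / w)) * Polynomial.X : Polynomial (KK C))).prod := by
  have hwn : 0 < ‖w‖ := norm_pos_iff.2 hw
  induction β using Multiset.induction_on with
  | empty => exact ⟨1, 1, one_ne_zero, by simp, by simp, by simp⟩
  | cons x β ih =>
    obtain ⟨c, R, hc0, hc1, h1, h2⟩ := ih
    rcases lt_or_ge ‖w‖ ‖x‖ with h | h
    · have hx : x ≠ 0 := norm_pos_iff.1 (hwn.trans h)
      have hi : ‖w / x‖ < 1 := by
        rw [norm_div]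
        exact (div_lt_one (hwn.trans h)).2 h
      refine ⟨-(w / x) * c, (Polynomial.X - Polynomial.C ⟨w / x, mem_OO.2 hi.le⟩) * R,
        mul_ne_zero (neg_ne_zero.2 (div_ne_zero hw hx)) hc0, ?_, ?_, ?_⟩
      · rw [norm_mul, norm_neg]
        exact mul_le_one₀ hi.le (norm_nonneg _) hc1
      · rw [Polynomial.map_mul, h1, Multiset.map_cons, Multiset.prod_cons, Polynomial.map_sub,
          Polynomial.map_X, Polynomial.map_C]
        have e : (Polynomial.X - Polynomial.C ((OO C).subtype ⟨w / x, mem_OO.2 hi.le⟩) :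
            Polynomial C) =
            Polynomial.C (-(w / x)) * (1 - Polynomial.C (x / w) * Polynomial.X) := by
          have e1 : ((OO C).subtype ⟨w / x, mem_OO.2 hi.le⟩ : C) = w / x := rfl
          rw [e1, mul_sub, mul_one, ← mul_assoc, ← Polynomial.C_mul]
          have e2 : -(w / x) * (x / w) = -1 := by
            field_simp
          rw [e2, Polynomial.C_neg, Polynomial.C_neg, Polynomial.C_1]
          ring
        rw [e, Polynomial.C_mul]
        ring
      · rw [Polynomial.map_mul, h2, Multiset.filter_cons_of_pos (p := fun x : C => ‖w‖ < ‖x‖) _ h,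
          Multiset.filter_cons_of_neg (p := fun x : C => ‖x‖ = ‖w‖) _ h.ne', Multiset.card_cons,
          Polynomial.map_sub, Polynomial.map_X, Polynomial.map_C, ← rd_of_le hi.le, rd_of_lt hi,
          Polynomial.C_0, sub_zero]
        ring
    · have hi : ‖x / w‖ ≤ 1 := by
        rw [norm_div]
        exact (div_le_one hwn).2 h
      refine ⟨c, (1 - Polynomial.C ⟨x / w, mem_OO.2 hi⟩ * Polynomial.X) * R, hc0, hc1, ?_, ?_⟩
      · rw [Polynomial.map_mul, h1, Multiset.map_cons, Multiset.prod_cons, Polynomial.map_sub,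
          Polynomial.map_mul, Polynomial.map_X, Polynomial.map_C, Polynomial.map_one]
        have e1 : ((OO C).subtype ⟨x / w, mem_OO.2 hi⟩ : C) = x / w := rfl
        rw [e1]
        ring
      · rw [Polynomial.map_mul, h2,
          Multiset.filter_cons_of_neg (p := fun x : C => ‖w‖ < ‖x‖) _ (not_lt.2 h),
          Polynomial.map_sub, Polynomial.map_mul, Polynomial.map_X, Polynomial.map_C,
          Polynomial.map_one, ← rd_of_le hi]
        rcases h.lt_or_eq with h' | h'
        · rw [Multiset.filter_cons_of_neg (p := fun x : C => ‖x‖ = ‖w‖) _ h'.ne,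
            rd_of_lt (by rw [norm_div]; exact (div_lt_one hwn).2 h'), Polynomial.C_0, zero_mul,
            sub_zero, one_mul]
        · rw [Multiset.filter_cons_of_pos (p := fun x : C => ‖x‖ = ‖w‖) _ h', Multiset.map_cons,
            Multiset.prod_cons]
          ring

end emult

theorem emult_thm : StmtEMULT := by
  classical
  intro C _ _ β w hw hw1 m0
  obtain ⟨c, R, hc0, hc1, h1, h2⟩ := em_step w hw β
  refine ⟨c, hc0, hc1, fun n _ => ?_⟩
  have h3 : c * (revP β).coeff n / w ^ n = ((R.coeff n : OO C) : C) := by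
    have e1 : ((R.coeff n : OO C) : C) = (R.map (OO C).subtype).coeff n := by
      rw [Polynomial.coeff_map]; rfl
    rw [e1, h1, Polynomial.coeff_C_mul, em_scale, mul_div_assoc]
  rw [Polynomial.coeff_coe, h3]
  refine ⟨norm_coe_le _, ?_⟩
  rw [rd_coe, ← Polynomial.coeff_map, h2]

end AST
end

section
/-!
# MP_b685ef_ag, theorem AST: module SUMT

The sum of `G(τ x)` over the points of the torus.
-/
set_option linter.all false

namespace AST

open Finset ASur

private theorem st_inj {C : Type} [NormedField C] [IsUltrametricDist C] {E : Type} [Field E]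
    {ι : E →+* KK C} {τ : E →*₀ C} (h : IsTeich ι τ) {x y : E} (hxy : τ x = τ y) : x = y := by
  apply ι.injective
  rw [← h.rd_eq, ← h.rd_eq, hxy]

open Classical in
private theorem st_one {C : Type} [NormedField C] [IsUltrametricDist C] {E : Type} [Field E]
    [Fintype E] {ι : E →+* KK C} {τ : E →*₀ C} (h : IsTeich ι τ) (k : ℤ) :
    ∑ y : Eˣ, τ ((y ^ k : Eˣ) : E) =
      if ((Fintype.card E - 1 : ℕ) : ℤ) ∣ k then (Fintype.card E : C) - 1 else 0 := by
  have hcard : Fintype.card Eˣ = Fintype.card E - 1 := Fintype.card_units (α := E)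
  have hQ : 1 < Fintype.card E := Fintype.one_lt_card
  have key := sum_hom_units (((τ : E →* C).comp (Units.coeHom E)).comp (zpowGroupHom (α := Eˣ) k))
  have e1 : ∀ y : Eˣ, (((τ : E →* C).comp (Units.coeHom E)).comp (zpowGroupHom (α := Eˣ) k)) y =
      τ ((y ^ k : Eˣ) : E) := fun y => rfl
  simp only [e1] at key
  rw [key]
  have e2 : (((τ : E →* C).comp (Units.coeHom E)).comp (zpowGroupHom (α := Eˣ) k) = 1) ↔
      ((Fintype.card E - 1 : ℕ) : ℤ) ∣ k := by
    constructor
    · intro h1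
      obtain ⟨g, hg⟩ := IsCyclic.exists_generator (α := Eˣ)
      have h2 : orderOf g = Fintype.card E - 1 := by
        rw [orderOf_eq_card_of_forall_mem_zpowers hg, Nat.card_eq_fintype_card, hcard]
      rw [← h2, orderOf_dvd_iff_zpow_eq_one]
      have h3 : τ ((g ^ k : Eˣ) : E) = 1 := by
        rw [← e1, h1]
        rfl
      have h4 : ((g ^ k : Eˣ) : E) = 1 := st_inj h (by rw [h3, map_one])
      exact Units.ext h4
    · rintro ⟨m, rfl⟩
      ext y
      rw [e1, zpow_mul, zpow_natCast, ← hcard, pow_card_eq_one, one_zpow]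
      simp
  by_cases hk : ((Fintype.card E - 1 : ℕ) : ℤ) ∣ k
  · rw [if_pos (e2.2 hk), if_pos hk, hcard, Nat.cast_sub hQ.le, Nat.cast_one]
  · rw [if_neg (fun h' => hk (e2.1 h')), if_neg hk, Nat.cast_zero]

open Classical in
private theorem st_mono {C : Type} [NormedField C] [IsUltrametricDist C] {E : Type} [Field E]
    [Fintype E] {ι : E →+* KK C} {τ : E →*₀ C} (h : IsTeich ι τ) (n : ℕ) (u : Fin n → ℤ) :
    ∑ x : Fin n → Eˣ, τ ((mono x u : Eˣ) : E) =
      if ∀ i, ((Fintype.card E - 1 : ℕ) : ℤ) ∣ u i then ((Fintype.card E : C) - 1) ^ n else 0 := by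
  have e1 : ∀ x : Fin n → Eˣ, τ ((mono x u : Eˣ) : E) = ∏ i, τ ((x i ^ u i : Eˣ) : E) := by
    intro x
    unfold mono
    rw [Units.coe_prod, map_prod]
  simp only [e1]
  have e2 := Finset.prod_univ_sum (fun _ : Fin n => (Finset.univ : Finset Eˣ))
    (fun i y => τ ((y ^ u i : Eˣ) : E))
  rw [Fintype.piFinset_univ] at e2
  rw [← e2]
  simp only [st_one h]
  split_ifs with hu
  · rw [Finset.prod_congr rfl fun i _ => if_pos (hu i)]
    simp
  · push Not at hu
    obtain ⟨i, hi⟩ := hu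
    exact Finset.prod_eq_zero (Finset.mem_univ i) (if_neg hi)

private theorem st_yy {n : ℕ} (W : Matrix (Fin n) (Fin n) ℤ) (m : ℕ) (u : Fin n → ℤ) (j : Fin n) :
    yy W (m • u) j = m * yy W u j := by
  unfold yy
  rw [Finset.mul_sum]
  apply Finset.sum_congr rfl
  intro i _
  simp only [Pi.smul_apply, nsmul_eq_mul]
  ring

open Classical in
theorem sumt_thm : StmtSUMT := by
  intro C _ _ E _ _ ι τ hτ n W N S hN hS G hG
  have hQ : 1 < Fintype.card E := Fintype.one_lt_card
  obtain ⟨Q, hQ1⟩ : ∃ Q : ℕ, Q = Fintype.card E - 1 := ⟨_, rfl⟩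
  have hQ0 : 1 ≤ Q := by omega
  have hinj : Function.Injective fun u : Fin n → ℤ => Q • u := by
    intro u v huv
    funext i
    have h1 := congrFun huv i
    simp only [Pi.smul_apply, nsmul_eq_mul] at h1
    exact mul_left_cancel₀ (by exact_mod_cast (by omega : Q ≠ 0)) h1
  unfold sumT evC
  rw [Finset.sum_comm]
  have e1 : ∀ u ∈ G.coeff.support, ∑ x : Fin n → Eˣ, G.coeff u * τ ((mono x u : Eˣ) : E) =
      if ∀ i, (Q : ℤ) ∣ u i then ((Fintype.card E : C) - 1) ^ n * G.coeff u else 0 := by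
    intro u _
    rw [← Finset.mul_sum, st_mono hτ, hQ1]
    split_ifs with hu
    · ring
    · ring
  rw [Finset.sum_congr rfl e1, ← Finset.sum_filter, ← Finset.mul_sum, ← hQ1]
  congr 1
  rw [← Finset.sum_image (s := S) (g := fun u : Fin n → ℤ => Q • u) (f := fun v => G.coeff v)
    (fun u _ v _ h => hinj h)]
  apply Finset.sum_subset
  · intro u hu
    obtain ⟨hu1, hu2⟩ := Finset.mem_filter.1 hu
    choose w hw using hu2
    have hw' : u = Q • w := by
      funext i
      rw [hw i]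
      simp
    rw [Finset.mem_image]
    refine ⟨w, (hS w).2 fun j => ?_, hw'.symm⟩
    have h1 := hG u (Finsupp.mem_support_iff.1 hu1) j
    rw [hw', st_yy, ← hQ1] at h1
    have hQz : (1 : ℤ) ≤ (Q : ℤ) := by exact_mod_cast hQ0
    constructor
    · by_contra hneg
      push Not at hneg
      nlinarith [h1.1]
    · have h2 := h1.2
      push_cast [Nat.cast_sub hN] at h2
      have h3 : yy W w j ≤ (N : ℤ) - 1 := le_of_mul_le_mul_left h2 (by linarith)
      linarith
  · intro u hu hu'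
    obtain ⟨w, hw, rfl⟩ := Finset.mem_image.1 hu
    by_contra hne
    apply hu'
    rw [Finset.mem_filter]
    refine ⟨Finsupp.mem_support_iff.2 hne, fun i => ?_⟩
    simp only [Pi.smul_apply, nsmul_eq_mul]
    exact Dvd.intro _ rfl

end AST
end
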