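import Pool.Agent.Lib.MP_b685ef_ag.AST.Spec

section
set_option linter.all false

namespace AST

open Finset ASur

namespace ENUMAux

theorem lift_enum {α γ κ : Type*} [DecidableEq α] [Inhabited γ] (f : α → κ) (g : γ → κ)
    (s : Finset α) : ∀ t : Multiset γ, s.val.map f = t.map g →
    ∃ b : α → γ, s.val.map b = t ∧ ∀ u ∈ s, g (b u) = f u := by
  induction s using Finset.induction_on with
  | empty =>
    intro t ht
    have h1 : t = 0 := by
      have h := congrArg Multiset.card ht
      rw [Multiset.card_map, Multiset.card_map] at h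
      exact Multiset.card_eq_zero.mp (by simpa using h.symm)
    exact ⟨fun _ => default, by simp [h1], by simp⟩
  | insert a s ha ih =>
    intro t ht
    rw [Finset.insert_val_of_notMem ha, Multiset.map_cons] at ht
    have hmem : f a ∈ t.map g := by rw [← ht]; exact Multiset.mem_cons_self _ _
    obtain ⟨c, hc, hgc⟩ := Multiset.mem_map.mp hmem
    obtain ⟨t', rfl⟩ := Multiset.exists_cons_of_mem hc
    rw [Multiset.map_cons, hgc] at ht
    have ht' := (Multiset.cons_inj_right (f a)).mp ht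
    obtain ⟨b, hb, hb'⟩ := ih t' ht'
    refine ⟨Function.update b a c, ?_, ?_⟩
    · rw [Finset.insert_val_of_notMem ha, Multiset.map_cons, Function.update_self, ← hb]
      congr 1
      refine Multiset.map_congr rfl fun u hu => ?_
      rw [Function.update_of_ne]
      rintro rfl
      exact ha hu
    · intro u hu
      rcases Finset.mem_insert.mp hu with h0 | h0
      · rw [h0, Function.update_self, hgc]
      · have : u ≠ a := fun h => ha (h ▸ h0)
        rw [Function.update_of_ne this]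
        exact hb' u h0

theorem classes {C : Type} [NormedField C] [IsUltrametricDist C] (β : Multiset C)
    (hβ : ∀ x ∈ β, x ≠ 0) {α : Type*} (s : Finset α) (wf : α → ℕ) (Rf : α → KK C) (w : ℕ → C)
    (hanti : StrictAnti fun m => ‖w m‖)
    (hlim : ∀ ε : ℝ, 0 < ε → ∃ m, ‖w m‖ < ε)
    (h1 : ∀ m, Multiset.card (β.filter fun x => ‖w m‖ < ‖x‖) = (s.filter fun u => wf u < m).card)
    (h2 : ∀ m, (β.filter fun x => ‖x‖ = ‖w m‖).map (fun x => rd (x / w m)) =
      (s.filter fun u => wf u = m).val.map Rf) :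
    ∃ b : α → C, s.val.map b = β ∧ ∀ u ∈ s, ∀ v ∈ s, b u = b v → wf u = wf v ∧ Rf u = Rf v := by
  classical
  have hex : ∀ x ∈ β, ∃ m, ‖x‖ = ‖w m‖ := by
    intro x hx
    have hxpos : 0 < ‖x‖ := norm_pos_iff.2 (hβ x hx)
    have hE : ∃ m, ‖w m‖ < ‖x‖ := hlim _ hxpos
    have hspec := Nat.find_spec hE
    have hmin := fun m => Nat.find_min hE (m := m)
    generalize hN : Nat.find hE = N at hspec hmin
    cases N with
    | zero =>
      exfalso
      have h3 : Multiset.card (β.filter fun x => ‖w 0‖ < ‖x‖) = 0 := by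
        rw [h1 0]; simp
      have h4 : x ∈ β.filter fun x => ‖w 0‖ < ‖x‖ := Multiset.mem_filter.mpr ⟨hx, hspec⟩
      rw [Multiset.card_eq_zero.mp h3] at h4
      exact absurd h4 (Multiset.notMem_zero x)
    | succ m =>
      refine ⟨m, ?_⟩
      have hle : ‖x‖ ≤ ‖w m‖ := not_lt.mp (hmin m (Nat.lt_succ_self m))
      by_contra hne
      have hlt : ‖x‖ < ‖w m‖ := lt_of_le_of_ne hle hne
      have hww : ‖w (m + 1)‖ < ‖w m‖ := hanti (Nat.lt_succ_self m)
      have e1 : Multiset.card (β.filter fun x => ‖w (m + 1)‖ < ‖x‖) =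
          Multiset.card (β.filter fun x => ‖w m‖ < ‖x‖) +
          Multiset.card (β.filter fun x => ‖x‖ = ‖w m‖) +
          Multiset.card (β.filter fun x => ‖w (m + 1)‖ < ‖x‖ ∧ ‖x‖ < ‖w m‖) := by
        rw [← Multiset.card_add, ← Multiset.card_add]
        congr 1
        ext y
        rw [Multiset.count_add, Multiset.count_add, Multiset.count_filter, Multiset.count_filter,
          Multiset.count_filter, Multiset.count_filter]
        by_cases a1 : ‖w (m + 1)‖ < ‖y‖
        · rcases lt_trichotomy ‖y‖ ‖w m‖ with h | h | h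
          · rw [if_pos a1, if_neg (by linarith), if_neg h.ne, if_pos ⟨a1, h⟩]; omega
          · rw [if_pos a1, if_neg (by linarith), if_pos h, if_neg (fun hh => by linarith [hh.2])]
            omega
          · rw [if_pos a1, if_pos h, if_neg h.ne', if_neg (fun hh => by linarith [hh.2])]
            omega
        · rw [if_neg a1, if_neg (by linarith), if_neg (fun hh => a1 (by linarith)),
            if_neg (fun hh => a1 hh.1)]
      have e2 : Multiset.card (β.filter fun x => ‖x‖ = ‖w m‖) =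
          (s.filter fun u => wf u = m).card := by
        have := congrArg Multiset.card (h2 m)
        rwa [Multiset.card_map, Multiset.card_map] at this
      have e3 : (s.filter fun u => wf u < m + 1).card = (s.filter fun u => wf u < m).card +
          (s.filter fun u => wf u = m).card := by
        rw [← Finset.card_union_of_disjoint]
        · congr 1
          ext u
          simp only [Finset.mem_union, Finset.mem_filter]
          constructor
          · rintro ⟨hu, hh⟩
            rcases Nat.lt_succ_iff_lt_or_eq.mp hh with hh | hh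
            · exact Or.inl ⟨hu, hh⟩
            · exact Or.inr ⟨hu, hh⟩
          · rintro (⟨hu, hh⟩ | ⟨hu, hh⟩)
            · exact ⟨hu, by omega⟩
            · exact ⟨hu, by omega⟩
        · rw [Finset.disjoint_left]
          intro u hu hu'
          rw [Finset.mem_filter] at hu hu'
          omega
      rw [h1 (m + 1), h1 m, e2, e3] at e1
      have e4 : Multiset.card (β.filter fun x => ‖w (m + 1)‖ < ‖x‖ ∧ ‖x‖ < ‖w m‖) = 0 := by
        omega
      have e5 : x ∈ β.filter fun x => ‖w (m + 1)‖ < ‖x‖ ∧ ‖x‖ < ‖w m‖ :=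
        Multiset.mem_filter.mpr ⟨hx, hspec, hlt⟩
      rw [Multiset.card_eq_zero.mp e4] at e5
      exact absurd e5 (Multiset.notMem_zero x)
  have hinj : ∀ m m', ‖w m‖ = ‖w m'‖ → m = m' := fun m m' hh => hanti.injective hh
  let μ : C → ℕ := fun x => if hh : ∃ m, ‖x‖ = ‖w m‖ then Classical.choose hh else 0
  have hμ : ∀ x ∈ β, ‖x‖ = ‖w (μ x)‖ := by
    intro x hx
    have hh := hex x hx
    have : μ x = Classical.choose hh := dif_pos hh
    rw [this]
    exact Classical.choose_spec hh
  let g : C → ℕ × KK C := fun x => (μ x, rd (x / w (μ x)))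
  let f : α → ℕ × KK C := fun u => (wf u, Rf u)
  have key : s.val.map f = β.map g := by
    ext ⟨m, v⟩
    rw [Multiset.count_map, Multiset.count_map]
    have c1 := congrArg (Multiset.count v) (h2 m)
    rw [Multiset.count_map, Multiset.count_map, Multiset.filter_filter, Finset.filter_val,
      Multiset.filter_filter] at c1
    have d1 : β.filter (fun x => (m, v) = g x) =
        β.filter (fun x => v = rd (x / w m) ∧ ‖x‖ = ‖w m‖) := by
      refine Multiset.filter_congr fun x hx => ?_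
      constructor
      · intro hh
        have q1 : m = μ x := congrArg Prod.fst hh
        have q2 : v = rd (x / w (μ x)) := congrArg Prod.snd hh
        rw [← q1] at q2
        refine ⟨q2, ?_⟩
        rw [q1]
        exact hμ x hx
      · rintro ⟨q1, q2⟩
        have q3 : m = μ x := hinj _ _ (q2.symm.trans (hμ x hx))
        show (m, v) = (μ x, rd (x / w (μ x)))
        rw [← q3, q1]
    have d2 : s.val.filter (fun u => (m, v) = f u) =
        s.val.filter (fun u => v = Rf u ∧ wf u = m) := by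
      refine Multiset.filter_congr fun u hu => ?_
      constructor
      · intro hh
        exact ⟨congrArg Prod.snd hh, (congrArg Prod.fst hh).symm⟩
      · rintro ⟨q1, q2⟩
        show (m, v) = (wf u, Rf u)
        rw [q1, q2]
    rw [d1, d2]
    exact c1.symm
  haveI : Inhabited C := ⟨0⟩
  obtain ⟨b, hb, hb'⟩ := lift_enum f g s β key
  refine ⟨b, hb, fun u hu v hv huv => ?_⟩
  have e : f u = f v := by rw [← hb' u hu, ← hb' v hv, huv]
  exact ⟨congrArg Prod.fst e, congrArg Prod.snd e⟩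

end ENUMAux

theorem ENUM_thm (hEDGE4 : StmtEDGE4) (hERES : StmtERES) : StmtENUM := by
  classical
  intro p _ D hD C _ _ _ _ hp j hj k _ _ _ n W W' f α hdata Pi hPi ψ hψ β hβ hT
  have hp2 : 2 ≤ p := (Fact.out : p.Prime).two_le
  have hDpos : 0 < D := by
    rcases Nat.eq_zero_or_pos D with h | h
    · rw [h] at hD
      have := Nat.eq_zero_of_zero_dvd hD
      omega
    · exact h
  obtain ⟨ρ, hρ⟩ := IsAlgClosed.exists_pow_nat_eq (ψ 1 - 1) hDpos
  obtain ⟨hz0, hz1, hz2, -⟩ := zeta_thm p C hp (ψ 1) (prim_of_char ψ hψ)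
  have hρ0 : ρ ≠ 0 := by
    rintro rfl
    apply hz0
    rw [← hρ, zero_pow hDpos.ne']
  have hρ1 : ‖ρ‖ < 1 := by
    by_contra h
    push Not at h
    have : 1 ≤ ‖ρ ^ D‖ := by
      rw [norm_pow]; exact one_le_pow₀ h
    rw [hρ] at this
    linarith
  have hρpos : 0 < ‖ρ‖ := norm_pos_iff.2 hρ0
  obtain ⟨ι⟩ := TEMB_thm KAC_thm p C hp k
  set h := Module.finrank (ZMod p) k with hh
  have hhpos : 1 ≤ h := Module.finrank_pos
  have hcpos : 1 ≤ (p - 1) * h := Nat.mul_pos (by omega) (by omega)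
  haveI : CharP k p := (Algebra.charP_iff (ZMod p) k p).1 inferInstance
  -- the residues are not zero
  have hRR : ∀ u, RR p D h W α u ≠ 0 := by
    intro u
    unfold RR
    refine Finset.prod_ne_zero_iff.mpr fun i _ => mul_ne_zero ?_ ?_
    · refine pow_ne_zero _ (inv_ne_zero ?_)
      intro h0
      rw [CharP.cast_eq_zero_iff k p, (Fact.out : p.Prime).dvd_factorial] at h0
      have hmod : (yy W u i).toNat % D < D := Nat.mod_lt _ hDpos
      have h1 : (p - 1) / D * ((yy W u i).toNat % D) ≤ (p - 1) / D * D :=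
        Nat.mul_le_mul_left _ hmod.le
      rw [Nat.div_mul_cancel hD] at h1
      omega
    · exact pow_ne_zero _ (pow_ne_zero _ (hdata.ne i))
  have hwt : ∀ u ∈ Pi, 0 ≤ wt W u := fun u hu =>
    Finset.sum_nonneg fun i _ => (((hPi u).mp hu) i).1
  -- the conclusions of ERES
  have key : ∀ m : ℕ,
      Multiset.card (β.filter fun x => ‖ρ ^ ((p - 1) * m * h)‖ < ‖x‖) =
        (Pi.filter (fun u => wt W u < m)).card ∧
      (β.filter fun x => ‖x‖ = ‖ρ ^ ((p - 1) * m * h)‖).map
          (fun x => rd (x / ρ ^ ((p - 1) * m * h))) =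
        (Pi.filter (fun u => wt W u = m)).val.map fun u => ι (RR p D h W α u) := by
    intro m
    have hE := hEDGE4 p D hD C hp j hj k ι n W W' f α hdata Pi hPi ψ hψ β hT ρ hρ m
      (max (Multiset.card β) ((Pi.filter (fun u => wt W u < m)).card +
        Multiset.card ((Pi.filter (fun u => wt W u = m)).val.map fun u => ι (RR p D h W α u))))
    have hprod : (∏ u ∈ Pi.filter (fun u => wt W u = m), (1 - Polynomial.C
        (ι (RR p D (Module.finrank (ZMod p) k) W α u)) * Polynomial.X)) =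
        ((((Pi.filter (fun u => wt W u = m)).val.map fun u => ι (RR p D h W α u))).map
          fun r => 1 - Polynomial.C r * Polynomial.X).prod := by
      rw [Multiset.map_map]
      rfl
    rw [hprod] at hE
    refine hERES C β (ρ ^ ((p - 1) * m * h)) _ _ _ (pow_ne_zero _ hρ0) ?_ ?_
      (le_max_left _ _) (le_max_right _ _) hE
    · rw [norm_pow]
      exact pow_le_one₀ (norm_nonneg _) hρ1.le
    · intro r hr
      obtain ⟨u, -, rfl⟩ := Multiset.mem_map.mp hr
      exact (map_ne_zero ι).mpr (hRR u)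
  obtain ⟨b, hb, hb'⟩ := ENUMAux.classes β hβ Pi (fun u => (wt W u).toNat)
    (fun u => ι (RR p D h W α u)) (fun m => ρ ^ ((p - 1) * m * h))
    (by
      refine strictAnti_nat_of_succ_lt fun m => ?_
      show ‖ρ ^ ((p - 1) * (m + 1) * h)‖ < ‖ρ ^ ((p - 1) * m * h)‖
      rw [norm_pow, norm_pow]
      apply pow_lt_pow_right_of_lt_one₀ hρpos hρ1
      nlinarith)
    (by
      intro ε hε
      obtain ⟨m, hm⟩ := exists_pow_lt_of_lt_one hε hρ1
      refine ⟨m, ?_⟩
      show ‖ρ ^ ((p - 1) * m * h)‖ < ε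
      rw [norm_pow]
      refine lt_of_le_of_lt (pow_le_pow_of_le_one (norm_nonneg _) hρ1.le ?_) hm
      nlinarith)
    (by
      intro m
      rw [(key m).1]
      congr 1
      refine Finset.filter_congr fun u hu => ?_
      have := hwt u hu
      omega)
    (by
      intro m
      rw [(key m).2]
      congr 2
      refine Finset.filter_congr fun u hu => ?_
      have := hwt u hu
      omega)
  refine ⟨b, hb, fun u hu v hv huv => ?_⟩
  obtain ⟨c1, c2⟩ := hb' u hu v hv huv
  refine ⟨?_, ι.injective c2⟩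
  have := hwt u hu
  have := hwt v hv
  have c1' : (wt W u).toNat = (wt W v).toNat := c1
  omega

end AST
end

section
/-!
# MP_b685ef_ag, theorem AST: products and uniqueness of edges (EPROD)
-/
set_option linter.all false

namespace AST

open Finset ASur

section eprod

variable {C : Type} [NormedField C] [IsUltrametricDist C]

private theorem eprod_term (c c' w a b : C) (i j n : ℕ) (hw : w ≠ 0) (hij : i + j = n) :
    c * c' * (a * b) / w ^ n = (c * a / w ^ i) * (c' * b / w ^ j) := by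
  rw [← hij, pow_add]
  have h1 : w ^ i ≠ 0 := pow_ne_zero _ hw
  have h2 : w ^ j ≠ 0 := pow_ne_zero _ hw
  field_simp

private theorem eprod_mul (P P' : PowerSeries C) (w : C) (M M' : ℕ) (χ χ' : Polynomial (KK C))
    (m0 : ℕ) (hw : w ≠ 0) (h : Edge P w M χ m0) (h' : Edge P' w M' χ' m0) :
    Edge (P * P') w (M + M') (χ * χ') m0 := by
  obtain ⟨c, hc, hc1, H⟩ := h
  obtain ⟨c', hc', hc1', H'⟩ := h'
  refine ⟨c * c', mul_ne_zero hc hc', ?_, ?_⟩
  · rw [norm_mul]
    exact mul_le_one₀ hc1 (norm_nonneg _) hc1'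
  · intro n hn
    have hsum : c * c' * PowerSeries.coeff n (P * P') / w ^ n =
        ∑ x ∈ antidiagonal n, (c * PowerSeries.coeff x.1 P / w ^ x.1) *
          (c' * PowerSeries.coeff x.2 P' / w ^ x.2) := by
      rw [PowerSeries.coeff_mul, Finset.mul_sum, Finset.sum_div]
      refine Finset.sum_congr rfl fun x hx => ?_
      exact eprod_term c c' w _ _ x.1 x.2 n hw (mem_antidiagonal.1 hx)
    have hle : ∀ x ∈ antidiagonal n, x.1 ≤ m0 ∧ x.2 ≤ m0 := by
      intro x hx
      have := mem_antidiagonal.1 hx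
      constructor <;> omega
    have hb : ∀ x ∈ antidiagonal n, ‖(c * PowerSeries.coeff x.1 P / w ^ x.1) *
          (c' * PowerSeries.coeff x.2 P' / w ^ x.2)‖ ≤ 1 := by
      intro x hx
      rw [norm_mul]
      exact mul_le_one₀ (H x.1 (hle x hx).1).1 (norm_nonneg _) (H' x.2 (hle x hx).2).1
    rw [hsum]
    refine ⟨norm_sum_le_one _ hb, ?_⟩
    rw [rd_sum _ hb]
    have hpoly : (Polynomial.X ^ (M + M') * (χ * χ') : Polynomial (KK C)) =
        (Polynomial.X ^ M * χ) * (Polynomial.X ^ M' * χ') := by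
      rw [pow_add]; ring
    rw [hpoly, Polynomial.coeff_mul]
    refine Finset.sum_congr rfl fun x hx => ?_
    rw [rd_mul (H x.1 (hle x hx).1).1 (H' x.2 (hle x hx).2).1, (H x.1 (hle x hx).1).2,
      (H' x.2 (hle x hx).2).2]

private theorem coeff_XM_self (M : ℕ) (χ : Polynomial (KK C)) (h0 : χ.coeff 0 = 1) :
    (Polynomial.X ^ M * χ).coeff M = 1 := by
  have := Polynomial.coeff_X_pow_mul χ M 0
  rw [zero_add] at this
  rw [this, h0]

private theorem coeff_XM_lt (M n : ℕ) (χ : Polynomial (KK C)) (h : n < M) :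
    (Polynomial.X ^ M * χ).coeff n = 0 := by
  rw [Polynomial.coeff_X_pow_mul', if_neg (by omega)]

private theorem eprod_uni (P : PowerSeries C) (w : C) (M M' : ℕ) (χ χ' : Polynomial (KK C))
    (m0 : ℕ) (hw : w ≠ 0) (h : Edge P w M χ m0) (h' : Edge P w M' χ' m0)
    (h0 : χ.coeff 0 = 1) (h0' : χ'.coeff 0 = 1) (hM : M + χ.natDegree ≤ m0)
    (hM' : M' + χ'.natDegree ≤ m0) : M = M' ∧ χ = χ' := by
  obtain ⟨c, hc, hc1, H⟩ := h
  obtain ⟨c', hc', hc1', H'⟩ := h'
  have hrel : ∀ n, c' * PowerSeries.coeff n P / w ^ n =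
      (c' / c) * (c * PowerSeries.coeff n P / w ^ n) := by
    intro n
    field_simp
  have hrel' : ∀ n, c * PowerSeries.coeff n P / w ^ n =
      (c / c') * (c' * PowerSeries.coeff n P / w ^ n) := by
    intro n
    field_simp
  have ha : ‖c * PowerSeries.coeff M P / w ^ M‖ = 1 := by
    have hM1 : M ≤ m0 := by omega
    rcases lt_or_eq_of_le (H M hM1).1 with hl | he
    · exfalso
      have := (H M hM1).2
      rw [rd_of_lt hl, coeff_XM_self M χ h0] at this
      exact zero_ne_one this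
    · exact he
  have hb : ‖c' * PowerSeries.coeff M' P / w ^ M'‖ = 1 := by
    have hM1 : M' ≤ m0 := by omega
    rcases lt_or_eq_of_le (H' M' hM1).1 with hl | he
    · exfalso
      have := (H' M' hM1).2
      rw [rd_of_lt hl, coeff_XM_self M' χ' h0'] at this
      exact zero_ne_one this
    · exact he
  have hu1 : ‖c' / c‖ ≤ 1 := by
    have := (H' M (by omega)).1
    rw [hrel M, norm_mul, ha, mul_one] at this
    exact this
  have hu2 : ‖c / c'‖ ≤ 1 := by
    have := (H M' (by omega)).1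
    rw [hrel' M', norm_mul, hb, mul_one] at this
    exact this
  have hr : ∀ n, n ≤ m0 → (Polynomial.X ^ M' * χ').coeff n =
      rd (c' / c) * (Polynomial.X ^ M * χ).coeff n := by
    intro n hn
    rw [← (H' n hn).2, hrel n, rd_mul hu1 (H n hn).1, (H n hn).2]
  have hune : rd (c' / c) ≠ 0 := by
    intro h
    have := hr M' (by omega)
    rw [coeff_XM_self M' χ' h0', h, zero_mul] at this
    exact one_ne_zero this
  have hMM : M = M' := by
    apply le_antisymm
    · by_contra hlt
      have := hr M' (by omega)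
      rw [coeff_XM_self M' χ' h0', coeff_XM_lt M M' χ (by omega), mul_zero] at this
      exact one_ne_zero this
    · by_contra hlt
      have := hr M (by omega)
      rw [coeff_XM_self M χ h0, coeff_XM_lt M' M χ' (by omega), mul_one] at this
      exact hune this.symm
  subst hMM
  have hu : rd (c' / c) = 1 := by
    have := hr M (by omega)
    rw [coeff_XM_self M χ' h0', coeff_XM_self M χ h0, mul_one] at this
    exact this.symm
  refine ⟨rfl, ?_⟩
  ext n
  by_cases hn : M + n ≤ m0
  · have := hr (M + n) hn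
    rw [hu, one_mul, Nat.add_comm M n, Polynomial.coeff_X_pow_mul, Polynomial.coeff_X_pow_mul]
      at this
    exact this.symm
  · rw [Polynomial.coeff_eq_zero_of_natDegree_lt (by omega),
      Polynomial.coeff_eq_zero_of_natDegree_lt (by omega)]

end eprod

theorem eprod_thm : StmtEPROD := by
  intro C _ _ P P' w M M' χ χ' m0 hw
  exact ⟨fun h h' => eprod_mul P P' w M M' χ χ' m0 hw h h',
    fun h h' h0 h0' hM hM' => eprod_uni P w M M' χ χ' m0 hw h h' h0 h0' hM hM'⟩

end AST
end

section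
/-!
# MP_b685ef_ag, theorem AST: the edge gives the residues
-/
set_option linter.all false

namespace AST

open Finset ASur

section eres

variable {κ : Type} [Field κ]

private theorem eres_lin (r : κ) (hr : r ≠ 0) :
    (1 - Polynomial.C r * Polynomial.X : Polynomial κ).roots = {r⁻¹} := by
  have h : (1 - Polynomial.C r * Polynomial.X : Polynomial κ) =
      Polynomial.C (-r) * (Polynomial.X - Polynomial.C r⁻¹) := by
    rw [mul_sub, ← Polynomial.C_mul, neg_mul, mul_inv_cancel₀ hr, Polynomial.C_neg,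
      Polynomial.C_neg, Polynomial.C_1]
    ring
  rw [h, Polynomial.roots_C_mul _ (neg_ne_zero.2 hr), Polynomial.roots_X_sub_C]

private theorem eres_ne (r : κ) : (1 - Polynomial.C r * Polynomial.X : Polynomial κ) ≠ 0 := by
  intro h
  have h2 := congrArg (Polynomial.eval 0) h
  simp at h2

private theorem eres_roots (R : Multiset κ) (hR : ∀ r ∈ R, r ≠ 0) :
    ((R.map fun r => (1 - Polynomial.C r * Polynomial.X : Polynomial κ)).prod).roots =
      R.map fun r => r⁻¹ := by
  induction R using Multiset.induction_on with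
  | empty => simp
  | cons r R ih =>
    have h1 : (R.map fun r => (1 - Polynomial.C r * Polynomial.X : Polynomial κ)).prod ≠ 0 := by
      intro h0
      rw [Multiset.prod_eq_zero_iff, Multiset.mem_map] at h0
      obtain ⟨x, _, hx⟩ := h0
      exact eres_ne x hx
    rw [Multiset.map_cons, Multiset.prod_cons, Polynomial.roots_mul (mul_ne_zero (eres_ne r) h1),
      ih (fun x hx => hR x (Multiset.mem_cons_of_mem hx)),
      eres_lin r (hR r (Multiset.mem_cons_self r R)), Multiset.map_cons, Multiset.singleton_add]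

private theorem eres_inj (R T : Multiset κ) (hR : ∀ r ∈ R, r ≠ 0) (hT : ∀ r ∈ T, r ≠ 0)
    (h : (R.map fun r => (1 - Polynomial.C r * Polynomial.X : Polynomial κ)).prod =
      (T.map fun r => (1 - Polynomial.C r * Polynomial.X : Polynomial κ)).prod) : R = T := by
  have h2 := congrArg Polynomial.roots h
  rw [eres_roots R hR, eres_roots T hT] at h2
  exact Multiset.map_injective inv_injective h2

private theorem eres_deg (R : Multiset κ) :
    ((R.map fun r => (1 - Polynomial.C r * Polynomial.X : Polynomial κ)).prod).natDegree ≤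
      Multiset.card R := by
  refine (Polynomial.natDegree_multiset_prod_le _).trans ?_
  rw [Multiset.map_map]
  have : ∀ x ∈ R, (Polynomial.natDegree ∘ fun x : κ =>
      (1 - Polynomial.C x * Polynomial.X : Polynomial κ)) x ≤ 1 := by
    intro x _
    simp only [Function.comp_apply]
    refine (Polynomial.natDegree_sub_le _ _).trans ?_
    rw [Polynomial.natDegree_one]
    exact max_le (by norm_num) ((Polynomial.natDegree_C_mul_le _ _).trans Polynomial.natDegree_X_le)
  calc (R.map (Polynomial.natDegree ∘ fun x : κ =>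
      (1 - Polynomial.C x * Polynomial.X : Polynomial κ))).sum ≤ (R.map fun _ => 1).sum :=
        Multiset.sum_map_le_sum_map _ _ this
    _ = Multiset.card R := by simp

private theorem eres_zero (R : Multiset κ) :
    ((R.map fun r => (1 - Polynomial.C r * Polynomial.X : Polynomial κ)).prod).coeff 0 = 1 := by
  rw [Polynomial.coeff_zero_eq_eval_zero, Polynomial.eval_multiset_prod, Multiset.map_map]
  apply Multiset.prod_eq_one
  intro x hx
  rw [Multiset.mem_map] at hx
  obtain ⟨y, _, rfl⟩ := hx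
  simp

end eres

private theorem eres_card {C : Type} [NormedField C] (β : Multiset C) (w : C) :
    Multiset.card (β.filter fun x => ‖w‖ < ‖x‖) + Multiset.card (β.filter fun x => ‖x‖ = ‖w‖) ≤
      Multiset.card β := by
  induction β using Multiset.induction_on with
  | empty => simp
  | cons b β ih =>
    rcases lt_trichotomy ‖b‖ ‖w‖ with h | h | h
    · rw [Multiset.filter_cons_of_neg (p := fun x : C => ‖w‖ < ‖x‖) _ (not_lt.2 h.le),
        Multiset.filter_cons_of_neg (p := fun x : C => ‖x‖ = ‖w‖) _ h.ne, Multiset.card_cons]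
      omega
    · rw [Multiset.filter_cons_of_neg (p := fun x : C => ‖w‖ < ‖x‖) _ (not_lt.2 h.le),
        Multiset.filter_cons_of_pos (p := fun x : C => ‖x‖ = ‖w‖) _ h, Multiset.card_cons,
        Multiset.card_cons]
      omega
    · rw [Multiset.filter_cons_of_pos (p := fun x : C => ‖w‖ < ‖x‖) _ h,
        Multiset.filter_cons_of_neg (p := fun x : C => ‖x‖ = ‖w‖) _ h.ne', Multiset.card_cons,
        Multiset.card_cons]
      omega

theorem eres_thm (hEMULT : StmtEMULT) (hEPROD : StmtEPROD) : StmtERES := by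
  intro C _ _ β w M R m0 hw hw1 hR hβ hM hE
  have h1 := hEMULT C β w hw hw1 m0
  set T : Multiset (KK C) := (β.filter fun x => ‖x‖ = ‖w‖).map fun x => rd (x / w) with hT
  have hprod : ((β.filter fun x => ‖x‖ = ‖w‖).map fun x =>
      (1 - Polynomial.C (rd (x / w)) * Polynomial.X : Polynomial (KK C))) =
      T.map fun r => (1 - Polynomial.C r * Polynomial.X : Polynomial (KK C)) := by
    rw [hT, Multiset.map_map]
    rfl
  rw [hprod] at h1
  have hTne : ∀ r ∈ T, r ≠ 0 := by
    intro r hr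
    rw [hT, Multiset.mem_map] at hr
    obtain ⟨x, hx, rfl⟩ := hr
    rw [Multiset.mem_filter] at hx
    have hn : ‖x / w‖ = 1 := by
      rw [norm_div, hx.2, div_self (norm_ne_zero_iff.2 hw)]
    rw [Ne, rd_eq_zero_iff hn.le]
    intro h; linarith
  have hTcard : Multiset.card T = Multiset.card (β.filter fun x => ‖x‖ = ‖w‖) := by
    rw [hT, Multiset.card_map]
  have hcard := eres_card β w
  obtain ⟨e1, e2⟩ := (hEPROD C (revP β : PowerSeries C) (revP β : PowerSeries C) w
    (Multiset.card (β.filter fun x => ‖w‖ < ‖x‖)) M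
    (T.map fun r => (1 - Polynomial.C r * Polynomial.X : Polynomial (KK C))).prod
    (R.map fun r => (1 - Polynomial.C r * Polynomial.X : Polynomial (KK C))).prod m0 hw).2
    h1 hE (eres_zero T) (eres_zero R)
    (by
      have := eres_deg T
      omega)
    (by
      have := eres_deg R
      omega)
  exact ⟨e1, eres_inj T R hTne hR e2⟩

end AST
end

section
/-! # MP_b685ef_ag, theorem AST: module ESCAL (scaling of edges) -/
set_option linter.all false

namespace AST

open Finset ASur

theorem escal_thm : StmtESCAL := by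
  intro C _ _ P m0
  refine ⟨?_, ?_⟩
  · intro t w hw htw hP hint
    have hw0 : 0 < ‖w‖ := norm_pos_iff.2 hw
    have hr0 : 0 ≤ ‖t‖ / ‖w‖ := by positivity
    have hr1 : ‖t‖ / ‖w‖ < 1 := (div_lt_one hw0).2 htw
    refine ⟨1, one_ne_zero, by simp, ?_⟩
    intro n _
    have hval : (1 : C) * PowerSeries.coeff n (PowerSeries.rescale t P) / w ^ n
        = (t / w) ^ n * PowerSeries.coeff n P := by
      rw [PowerSeries.coeff_rescale, one_mul, div_pow]
      ring
    have hnorm : ‖(1 : C) * PowerSeries.coeff n (PowerSeries.rescale t P) / w ^ n‖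
        ≤ (‖t‖ / ‖w‖) ^ n := by
      rw [hval, norm_mul, norm_pow, norm_div]
      calc (‖t‖ / ‖w‖) ^ n * ‖PowerSeries.coeff n P‖ ≤ (‖t‖ / ‖w‖) ^ n * 1 :=
            mul_le_mul_of_nonneg_left (hint n) (pow_nonneg hr0 n)
        _ = _ := mul_one _
    refine ⟨hnorm.trans (pow_le_one₀ hr0 hr1.le), ?_⟩
    rcases Nat.eq_zero_or_pos n with rfl | hn
    · rw [hval, pow_zero, one_mul]
      have : PowerSeries.coeff 0 P = 1 := by
        simpa using hP
      rw [this]
      simp
    · rw [rd_of_lt (hnorm.trans_lt (pow_lt_one₀ hr0 hr1 hn.ne'))]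
      simp [Polynomial.coeff_one, hn.ne']
  · intro t w' η M χ ht hw' hη hE
    obtain ⟨c, hc0, hc1, hc⟩ := hE
    have hη0 : η ≠ 0 := by
      rintro rfl
      simp at hη
    have hrη : rd η ≠ 0 := by
      intro h
      rw [rd_eq_zero_iff hη.le] at h
      exact absurd h (by rw [hη]; exact lt_irrefl _)
    have hηi : ‖η⁻¹‖ = 1 := by rw [norm_inv, hη, inv_one]
    refine ⟨c * η ^ M, mul_ne_zero hc0 (pow_ne_zero _ hη0), ?_, ?_⟩
    · rw [norm_mul, norm_pow, hη, one_pow, mul_one]
      exact hc1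
    · intro n hn
      obtain ⟨h1, h2⟩ := hc n hn
      have hval : c * η ^ M * PowerSeries.coeff n (PowerSeries.rescale t P) / (t * w' * η) ^ n
          = (c * PowerSeries.coeff n P / w' ^ n) * (η ^ M * η⁻¹ ^ n) := by
        rw [PowerSeries.coeff_rescale, mul_pow, mul_pow, inv_pow]
        have h1 : t ^ n ≠ 0 := pow_ne_zero _ ht
        have h2 : w' ^ n ≠ 0 := pow_ne_zero _ hw'
        have h3 : η ^ n ≠ 0 := pow_ne_zero _ hη0
        field_simp
      have hu : ‖η ^ M * η⁻¹ ^ n‖ = 1 := by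
        rw [norm_mul, norm_pow, norm_pow, hη, hηi, one_pow, one_pow, mul_one]
      have hM1 : ‖η ^ M‖ ≤ 1 := by rw [norm_pow, hη, one_pow]
      have hN1 : ‖η⁻¹ ^ n‖ ≤ 1 := by rw [norm_pow, hηi, one_pow]
      refine ⟨?_, ?_⟩
      · rw [hval, norm_mul, hu, mul_one]
        exact h1
      · rw [hval, rd_mul h1 hu.le, h2, rd_mul hM1 hN1, rd_pow hη.le, rd_pow hηi.le, rd_inv hη]
        rw [Polynomial.coeff_X_pow_mul', Polynomial.coeff_X_pow_mul']
        by_cases hMn : M ≤ n
        · rw [if_pos hMn, if_pos hMn, Polynomial.comp_C_mul_X_coeff]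
          obtain ⟨k, rfl⟩ := Nat.exists_eq_add_of_le hMn
          rw [Nat.add_sub_cancel_left, pow_add, ← mul_assoc (rd η ^ M), ← mul_pow,
            mul_inv_cancel₀ hrη, one_pow, one_mul]
        · rw [if_neg hMn, if_neg hMn, zero_mul]

end AST
end

section
/-! # MP_b685ef_ag, AST, module FINT -/
set_option linter.all false

namespace AST

open Finset ASur

universe u v

private theorem fint_alg {p : ℕ} [Fact p.Prime] {K : Type*} [Field K] [CharZero K]
    (ψ : AddChar (ZMod p) K) (x : ZMod p) : IsIntegral ℚ (ψ x) := by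
  have h1 : (ψ x) ^ p = 1 := by
    rw [← AddChar.map_nsmul_eq_pow]
    simp
  refine IsIntegral.of_pow (Fact.out : p.Prime).pos ?_
  rw [h1]
  exact isIntegral_one

private theorem fint_alg_ST {p : ℕ} [Fact p.Prime] {K : Type*} [Field K] [CharZero K]
    (ψ : AddChar (ZMod p) K) {k : Type} [Field k] {n : ℕ} (f : (Fin n → ℤ) →₀ k)
    (E : Type) [Field E] [Fintype E] [Algebra (ZMod p) E] [Algebra k E] :
    IsIntegral ℚ (ST ψ f E) := by
  unfold ST sumT
  exact IsIntegral.sum _ fun x _ => fint_alg ψ _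

private theorem fint_sign {K : Type*} [Field K] (n : ℕ) (a b : K) (h : (-1) ^ n * a = b) :
    a = (-1) ^ n * b := by
  rw [← h, ← mul_assoc, ← mul_pow]
  simp

/-- The theorem over an algebraically closed field `K`, for multisets. -/
private theorem fint_multiset (hENUM : StmtENUM) (hK2C : StmtK2C.{u}) (hEXT : StmtEXT)
    (p : ℕ) [Fact p.Prime] (D : ℕ) (hD : D ∣ p - 1)
    (k : Type) [Field k] [Fintype k] [Algebra (ZMod p) k]
    (n : ℕ) (W W' : Matrix (Fin n) (Fin n) ℤ) (f : (Fin n → ℤ) →₀ k) (α : Fin n → k)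
    (hdat : Data D W W' f α) (Pi : Finset (Fin n → ℤ)) (hPi : IsBox W D Pi)
    (K : Type u) [Field K] [IsAlgClosed K] [CharZero K] (ψ : AddChar (ZMod p) K) (hψ : ψ ≠ 1)
    (β : Multiset K) (hβ0 : ∀ x ∈ β, x ≠ 0)
    (hT : ∀ (E : Type) [Field E] [Fintype E] [Algebra (ZMod p) E] [Algebra k E],
      (-1) ^ n * (β.map fun x => x ^ Module.finrank k E).sum = ST ψ f E) :
    ∃ b : (Fin n → ℤ) → K, Pi.val.map b = β ∧ ∀ u ∈ Pi, ∀ v ∈ Pi, b u = b v →
      wt W u = wt W v ∧ RR p D (Module.finrank (ZMod p) k) W α u =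
        RR p D (Module.finrank (ZMod p) k) W α v := by
  classical
  let C := PadicAlgCl p
  obtain ⟨A, g, hA, hβA⟩ := hK2C K C β (by
    intro j hj
    obtain ⟨E, _, _, _, _, hE⟩ := hEXT p k j hj
    have h1 := hT E
    rw [hE] at h1
    rw [fint_sign n _ _ h1]
    exact (((isIntegral_one (R := ℚ) (B := K)).neg.pow n).mul
      (fint_alg_ST ψ f E)).isAlgebraic)
  let tr : AddChar (ZMod p) K → AddChar (ZMod p) C := fun χ =>
    { toFun := fun x => g ⟨χ x, hA _ (fint_alg χ x).isAlgebraic⟩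
      map_zero_eq_one' := by
        rw [← map_one g]
        congr 1
        apply Subtype.ext
        simp
      map_add_eq_mul' := by
        intro x y
        rw [← map_mul g]
        congr 1
        apply Subtype.ext
        simp [AddChar.map_add_eq_mul] }
  have htr : ∀ χ : AddChar (ZMod p) K, ∀ x,
      (tr χ) x = g ⟨χ x, hA _ (fint_alg χ x).isAlgebraic⟩ := fun _ _ => rfl
  have hginj : Function.Injective g := g.injective
  have hψ' : tr ψ ≠ 1 := by
    intro h
    apply hψ
    ext x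
    have h1 : (tr ψ) x = 1 := by rw [h]; rfl
    rw [htr, ← map_one g] at h1
    have := congrArg Subtype.val (hginj h1)
    simpa using this
  obtain ⟨βA, hβA'⟩ : ∃ βA : Multiset A, βA.map (fun x : A => (x : K)) = β := by
    refine ⟨β.attach.map fun x => ⟨x.1, hβA x.1 x.2⟩, ?_⟩
    simp only [Multiset.map_map, Function.comp]
    exact Multiset.attach_map_val β
  have hSf : ∀ (χ : AddChar (ZMod p) K) (E : Type) [Field E] [Fintype E] [Algebra (ZMod p) E]
      [Algebra k E], ∃ s : A, (s : K) = ST χ f E ∧ g s = ST (tr χ) f E := by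
    intro χ E _ _ _ _
    refine ⟨sumT fun x : Fin n → Eˣ => ⟨χ (Algebra.trace (ZMod p) E (lval f x)),
      hA _ (fint_alg χ _).isAlgebraic⟩, ?_, ?_⟩
    · unfold ST sumT
      push_cast
      rfl
    · unfold ST sumT
      rw [map_sum]
      rfl
  have hp : ‖(p : C)‖ < 1 := by
    have h2 := PadicAlgCl.norm_extends p (p : ℚ_[p])
    have h3 : ‖(p : PadicAlgCl p)‖ = ‖(p : ℚ_[p])‖ := by
      rw [← h2]
      congr 1
    show ‖(p : PadicAlgCl p)‖ < 1
    rw [h3]
    exact Padic.norm_p_lt_one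
  let j : ℤ_[p] →+* C := (algebraMap ℚ_[p] (PadicAlgCl p)).comp PadicInt.Coe.ringHom
  have hj : ∀ x, ‖j x‖ ≤ 1 := by
    intro x
    have h2 := PadicAlgCl.norm_extends p (x : ℚ_[p])
    exact h2.trans_le x.norm_le_one
  have hA0 : ∀ x ∈ βA, x ≠ 0 := by
    intro x hx h0
    have : (x : K) ∈ β := by
      rw [← hβA']
      exact Multiset.mem_map_of_mem _ hx
    exact hβ0 _ this (by rw [h0]; rfl)
  obtain ⟨bC, hbC, hres⟩ := hENUM p D hD C hp j hj k n W W' f α hdat Pi hPi (tr ψ) hψ'
    (βA.map g)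
    (by
      intro y hy
      obtain ⟨x, hx, rfl⟩ := Multiset.mem_map.1 hy
      exact (map_ne_zero g).2 (hA0 x hx))
    (by
      intro E _ _ _ _
      have t1 := hT E
      obtain ⟨s, hs1, hs2⟩ := hSf ψ E
      have hsumA : ∀ m : Multiset A, ((m.sum : A) : K) = (m.map fun x : A => (x : K)).sum :=
        fun m => map_multiset_sum (A.subtype) m
      have e1 : (-1) ^ n * (βA.map fun x => x ^ Module.finrank k E).sum = s := by
        apply Subtype.ext
        rw [hs1, ← t1, ← hβA', Multiset.map_map]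
        rw [Subfield.coe_mul, hsumA, Multiset.map_map]
        push_cast
        rfl
      rw [← hs2, ← e1, map_mul, map_pow, map_neg, map_one, map_multiset_sum, Multiset.map_map,
        Multiset.map_map]
      congr 2
      refine Multiset.map_congr rfl fun x _ => ?_
      simp only [Function.comp, map_pow])
  -- lift the enumeration to `A`
  have hlift : ∀ u ∈ Pi, ∃ x : A, g x = bC u := by
    intro u hu
    have h1 : bC u ∈ Pi.val.map bC := Multiset.mem_map_of_mem _ hu
    rw [hbC] at h1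
    obtain ⟨x, -, hx⟩ := Multiset.mem_map.1 h1
    exact ⟨x, hx⟩
  let bA : (Fin n → ℤ) → A := fun u => if h : u ∈ Pi then (hlift u h).choose else 0
  have hbA : ∀ u ∈ Pi, g (bA u) = bC u := by
    intro u hu
    show g (if h : u ∈ Pi then (hlift u h).choose else 0) = bC u
    rw [dif_pos hu]
    exact (hlift u hu).choose_spec
  have hmapA : Pi.val.map bA = βA := by
    apply Multiset.map_injective hginj
    rw [← hbC, Multiset.map_map]
    exact Multiset.map_congr rfl fun u hu => hbA u hu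
  refine ⟨fun u => (bA u : K), ?_, ?_⟩
  · rw [← hβA', ← hmapA, Multiset.map_map]
    rfl
  · intro u hu v hv huv
    apply hres u hu v hv
    rw [← hbA u hu, ← hbA v hv]
    congr 1
    exact Subtype.ext huv

theorem fint_thm (hENUM : StmtENUM) (hK2C : StmtK2C.{u}) (hLINALG : StmtLINALG.{u, v})
    (hEXT : StmtEXT) : StmtFINT.{u, v} := by
  intro p _ D hD k _ _ _ n W W' f α hdat Pi hPi K _ _ _ ψ hψ V _ _ _ φ hT
  obtain ⟨L0, L1, L2, L3, L4⟩ := hLINALG K V φ
  refine fint_multiset hENUM hK2C hEXT p D hD k n W W' f α hdat Pi hPi K ψ hψ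
    (LinearMap.charpoly (φ : V →ₗ[K] V)).roots L0 ?_
  intro E _ _ _ _
  rw [← L2]
  exact hT E

end AST
end

section
/-!
# MP_b685ef_ag, theorem AST, module LEADT: the reduction of the scaled `F_i` on the torus

`Rel W ρ F G`: all coefficients of `F`, divided by `ρ ^ |W d|`, are integral, with reductions the
coefficients of `G`, and `F` is supported in `|W d| ≥ 0`.
-/
set_option linter.all false

namespace AST

open Finset ASur

namespace LEADTM

theorem yy_add {n : ℕ} (W : Matrix (Fin n) (Fin n) ℤ) (x y : Fin n → ℤ) (j : Fin n) :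
    yy W (x + y) j = yy W x j + yy W y j := by
  unfold yy
  rw [← Finset.sum_add_distrib]
  refine Finset.sum_congr rfl fun i _ => ?_
  rw [Pi.add_apply, mul_add]

theorem yy_smul {n : ℕ} (W : Matrix (Fin n) (Fin n) ℤ) (l : ℕ) (x : Fin n → ℤ) (j : Fin n) :
    yy W (l • x) j = l * yy W x j := by
  unfold yy
  rw [Finset.mul_sum]
  refine Finset.sum_congr rfl fun i _ => ?_
  rw [Pi.smul_apply, nsmul_eq_mul]
  ring

theorem wt_add {n : ℕ} (W : Matrix (Fin n) (Fin n) ℤ) (x y : Fin n → ℤ) :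
    wt W (x + y) = wt W x + wt W y := by
  unfold wt
  rw [← Finset.sum_add_distrib]
  exact Finset.sum_congr rfl fun j _ => yy_add W x y j

theorem wt_smul {n : ℕ} (W : Matrix (Fin n) (Fin n) ℤ) (l : ℕ) (x : Fin n → ℤ) :
    wt W (l • x) = l * wt W x := by
  unfold wt
  rw [Finset.mul_sum]
  exact Finset.sum_congr rfl fun j _ => yy_smul W l x j

theorem wt_zero {n : ℕ} (W : Matrix (Fin n) (Fin n) ℤ) : wt W 0 = 0 := by
  unfold wt yy
  simp

variable {C : Type} [NormedField C] [IsUltrametricDist C]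

/-- The scaled coefficients of `F` are integral and reduce to the coefficients of `G`. -/
def Rel {n : ℕ} (W : Matrix (Fin n) (Fin n) ℤ) (ρ : C) (F : AddMonoidAlgebra C (Fin n → ℤ))
    (G : AddMonoidAlgebra (KK C) (Fin n → ℤ)) : Prop :=
  ∀ d : Fin n → ℤ, (F.coeff d ≠ 0 → 0 ≤ wt W d) ∧ ‖F.coeff d / ρ ^ (wt W d).toNat‖ ≤ 1 ∧
    rd (F.coeff d / ρ ^ (wt W d).toNat) = G.coeff d

theorem coeff_mul_big {R M : Type} [Semiring R] [AddMonoid M] [DecidableEq M]
    (F F' : AddMonoidAlgebra R M) (S S' : Finset M) (hS : F.coeff.support ⊆ S)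
    (hS' : F'.coeff.support ⊆ S') (d : M) :
    (F * F').coeff d = ∑ x ∈ S, ∑ y ∈ S', if x + y = d then F.coeff x * F'.coeff y else 0 := by
  rw [AddMonoidAlgebra.coeff_mul]
  rw [Finsupp.sum_of_support_subset _ hS _ (by
    intro i _
    simp only [zero_mul, ite_self]
    exact Finset.sum_const_zero)]
  refine Finset.sum_congr rfl fun x _ => ?_
  rw [Finsupp.sum_of_support_subset _ hS' _ (by
    intro i _
    rw [mul_zero, ite_self])]

theorem Rel.supp {n : ℕ} {W : Matrix (Fin n) (Fin n) ℤ} {ρ : C}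
    {F : AddMonoidAlgebra C (Fin n → ℤ)} {G : AddMonoidAlgebra (KK C) (Fin n → ℤ)}
    (h : Rel W ρ F G) : G.coeff.support ⊆ F.coeff.support := by
  intro d hd
  rw [Finsupp.mem_support_iff] at hd ⊢
  intro h0
  apply hd
  rw [← (h d).2.2, h0, zero_div, rd_zero]

theorem Rel.mul {n : ℕ} {W : Matrix (Fin n) (Fin n) ℤ} {ρ : C}
    {F F' : AddMonoidAlgebra C (Fin n → ℤ)} {G G' : AddMonoidAlgebra (KK C) (Fin n → ℤ)}
    (h : Rel W ρ F G) (h' : Rel W ρ F' G') : Rel W ρ (F * F') (G * G') := by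
  classical
  intro d
  have e0 := coeff_mul_big F F' _ _ (Finset.Subset.refl F.coeff.support)
    (Finset.Subset.refl F'.coeff.support) d
  have e0' := coeff_mul_big G G' _ _ h.supp h'.supp d
  have e : (F * F').coeff d / ρ ^ (wt W d).toNat = ∑ x ∈ F.coeff.support,
      ∑ y ∈ F'.coeff.support, if x + y = d then (F.coeff x / ρ ^ (wt W x).toNat) *
        (F'.coeff y / ρ ^ (wt W y).toNat) else 0 := by
    rw [e0, Finset.sum_div]
    refine Finset.sum_congr rfl fun x hx => ?_
    rw [Finset.sum_div]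
    refine Finset.sum_congr rfl fun y hy => ?_
    split_ifs with h1
    · have hx1 := (h x).1 (Finsupp.mem_support_iff.1 hx)
      have hy1 := (h' y).1 (Finsupp.mem_support_iff.1 hy)
      rw [← h1, wt_add, Int.toNat_add hx1 hy1, pow_add, div_mul_div_comm]
    · rw [zero_div]
  have hn : ∀ x y, ‖if x + y = d then (F.coeff x / ρ ^ (wt W x).toNat) *
        (F'.coeff y / ρ ^ (wt W y).toNat) else 0‖ ≤ 1 := by
    intro x y
    split_ifs
    · rw [norm_mul]
      exact mul_le_one₀ (h x).2.1 (norm_nonneg _) (h' y).2.1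
    · simp
  refine ⟨fun hne => ?_, ?_, ?_⟩
  · by_contra hw
    apply hne
    rw [e0]
    refine Finset.sum_eq_zero fun x hx => Finset.sum_eq_zero fun y hy => ?_
    rw [if_neg]
    intro h1
    apply hw
    rw [← h1, wt_add]
    exact add_nonneg ((h x).1 (Finsupp.mem_support_iff.1 hx))
      ((h' y).1 (Finsupp.mem_support_iff.1 hy))
  · rw [e]
    exact norm_sum_le_one _ fun x _ => norm_sum_le_one _ fun y _ => hn x y
  · rw [e, rd_sum _ fun x _ => norm_sum_le_one _ fun y _ => hn x y, e0']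
    refine Finset.sum_congr rfl fun x _ => ?_
    rw [rd_sum _ fun y _ => hn x y]
    refine Finset.sum_congr rfl fun y _ => ?_
    split_ifs
    · rw [rd_mul (h x).2.1 (h' y).2.1, (h x).2.2, (h' y).2.2]
    · exact rd_zero

theorem Rel.add {n : ℕ} {W : Matrix (Fin n) (Fin n) ℤ} {ρ : C}
    {F F' : AddMonoidAlgebra C (Fin n → ℤ)} {G G' : AddMonoidAlgebra (KK C) (Fin n → ℤ)}
    (h : Rel W ρ F G) (h' : Rel W ρ F' G') : Rel W ρ (F + F') (G + G') := by
  intro d
  rw [AddMonoidAlgebra.coeff_add, AddMonoidAlgebra.coeff_add, Finsupp.add_apply,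
    Finsupp.add_apply]
  refine ⟨fun hne => ?_, ?_, ?_⟩
  · by_contra hw
    apply hne
    have h1 : F.coeff d = 0 := by
      by_contra h2
      exact hw ((h d).1 h2)
    have h2 : F'.coeff d = 0 := by
      by_contra h2
      exact hw ((h' d).1 h2)
    rw [h1, h2, add_zero]
  · rw [add_div]
    exact (IsUltrametricDist.norm_add_le_max _ _).trans (max_le (h d).2.1 (h' d).2.1)
  · rw [add_div, rd_add (h d).2.1 (h' d).2.1, (h d).2.2, (h' d).2.2]

theorem Rel.zero {n : ℕ} (W : Matrix (Fin n) (Fin n) ℤ) (ρ : C) : Rel W ρ 0 0 := by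
  intro d
  simp

theorem Rel.mono {n : ℕ} {W : Matrix (Fin n) (Fin n) ℤ} {ρ : C} (d0 : Fin n → ℤ) (x : C)
    (h0 : 0 ≤ wt W d0) (hx : ‖x / ρ ^ (wt W d0).toNat‖ ≤ 1) :
    Rel W ρ (AddMonoidAlgebra.single d0 x)
      (AddMonoidAlgebra.single d0 (rd (x / ρ ^ (wt W d0).toNat))) := by
  classical
  intro d
  rw [AddMonoidAlgebra.coeff_single, AddMonoidAlgebra.coeff_single, Finsupp.single_apply,
    Finsupp.single_apply]
  split_ifs with h
  · rw [← h]
    exact ⟨fun _ => h0, hx, rfl⟩
  · simp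

theorem Rel.one {n : ℕ} (W : Matrix (Fin n) (Fin n) ℤ) (ρ : C) : Rel W ρ 1 1 := by
  have h := Rel.mono (W := W) (ρ := ρ) 0 1 (by rw [wt_zero]) (by rw [wt_zero]; simp)
  rw [wt_zero, Int.toNat_zero, pow_zero, div_one, rd_one] at h
  exact h

theorem Rel.sum {n : ℕ} {W : Matrix (Fin n) (Fin n) ℤ} {ρ : C} {ι : Type*} (s : Finset ι)
    {F : ι → AddMonoidAlgebra C (Fin n → ℤ)} {G : ι → AddMonoidAlgebra (KK C) (Fin n → ℤ)}
    (h : ∀ i ∈ s, Rel W ρ (F i) (G i)) : Rel W ρ (∑ i ∈ s, F i) (∑ i ∈ s, G i) := by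
  classical
  induction s using Finset.induction_on with
  | empty => simpa using Rel.zero W ρ
  | insert x s hx ih =>
    rw [Finset.sum_insert hx, Finset.sum_insert hx]
    exact (h x (by simp)).add (ih fun i hi => h i (by simp [hi]))

theorem Rel.prod {n : ℕ} {W : Matrix (Fin n) (Fin n) ℤ} {ρ : C} {ι : Type*} (s : Finset ι)
    {F : ι → AddMonoidAlgebra C (Fin n → ℤ)} {G : ι → AddMonoidAlgebra (KK C) (Fin n → ℤ)}
    (h : ∀ i ∈ s, Rel W ρ (F i) (G i)) : Rel W ρ (∏ i ∈ s, F i) (∏ i ∈ s, G i) := by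
  classical
  induction s using Finset.induction_on with
  | empty => simpa using Rel.one W ρ
  | insert x s hx ih =>
    rw [Finset.prod_insert hx, Finset.prod_insert hx]
    exact (h x (by simp)).mul (ih fun i hi => h i (by simp [hi]))

/-- A factor `Θ(c x^u)` is the sum of its monomials. -/
theorem aeval_mono {n : ℕ} {R : Type} [Field R] (P : Polynomial R) (u : Fin n → ℤ) (c : R)
    (N : ℕ) (hN : P.natDegree < N) :
    Polynomial.aeval (AddMonoidAlgebra.single u c : AddMonoidAlgebra R (Fin n → ℤ)) P =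
      ∑ l ∈ range N, AddMonoidAlgebra.single (l • u) (P.coeff l * c ^ l) := by
  rw [Polynomial.aeval_eq_sum_range' hN]
  refine Finset.sum_congr rfl fun l _ => ?_
  rw [AddMonoidAlgebra.single_pow, AddMonoidAlgebra.smul_single, smul_eq_mul]

theorem term_norm {D e l : ℕ} {ρ c θ lam : C} (hρ : ρ ≠ 0) (hρ1 : ‖ρ‖ < 1)
    (hlam : ρ ^ D = lam) (hθ : ‖θ‖ ≤ ‖lam‖ ^ l) (hc : ‖c‖ ≤ 1) (he : e ≤ D) :
    ‖θ * c ^ l / ρ ^ (l * e)‖ ≤ ‖ρ‖ ^ (l * (D - e)) := by
  have hρ0 : 0 < ‖ρ‖ := norm_pos_iff.2 hρ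
  have e0 : ‖θ * c ^ l / ρ ^ (l * e)‖ = ‖θ‖ * ‖c‖ ^ l / ‖ρ‖ ^ (l * e) := by
    rw [norm_div, norm_mul, norm_pow, norm_pow]
  have e1 : l * (D - e) + l * e = D * l := by
    rw [← Nat.mul_add, Nat.sub_add_cancel he, Nat.mul_comm]
  rw [e0, div_le_iff₀ (pow_pos hρ0 _), ← pow_add, e1, pow_mul, ← norm_pow ρ D, hlam]
  calc ‖θ‖ * ‖c‖ ^ l ≤ ‖lam‖ ^ l * 1 :=
        mul_le_mul hθ (pow_le_one₀ (norm_nonneg _) hc) (by positivity) (by positivity)
    _ = ‖lam‖ ^ l := mul_one _

theorem toNat_smul {n : ℕ} (W : Matrix (Fin n) (Fin n) ℤ) (l : ℕ) (u : Fin n → ℤ)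
    (h0 : 0 ≤ wt W u) : (wt W (l • u)).toNat = l * (wt W u).toNat := by
  rw [wt_smul]
  obtain ⟨m, hm⟩ := Int.eq_ofNat_of_zero_le h0
  rw [hm, ← Nat.cast_mul, Int.toNat_natCast, Int.toNat_natCast]

/-- The relation for one factor, general form. -/
theorem factor {n D : ℕ} {W : Matrix (Fin n) (Fin n) ℤ} {ρ ζ : C} {p : ℕ} {ε : ℝ}
    {Θ : Polynomial C} (hΘ : IsSplit p ζ ε Θ) (hρ : ρ ≠ 0) (hρ1 : ‖ρ‖ < 1)
    (hlam : ρ ^ D = ζ - 1) (u : Fin n → ℤ) (c : C) (hc : ‖c‖ ≤ 1) (h0 : 0 ≤ wt W u)
    (he : wt W u ≤ D) (N : ℕ) (hN : Θ.natDegree < N) :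
    Rel W ρ (Polynomial.aeval (AddMonoidAlgebra.single u c : AddMonoidAlgebra C (Fin n → ℤ)) Θ)
      (∑ l ∈ range N, AddMonoidAlgebra.single (l • u)
        (rd (Θ.coeff l * c ^ l / ρ ^ (l * (wt W u).toNat)))) := by
  rw [aeval_mono Θ u c N hN]
  refine Rel.sum _ fun l _ => ?_
  have h := Rel.mono (W := W) (ρ := ρ) (l • u) (Θ.coeff l * c ^ l)
    (by rw [wt_smul]; positivity) (by
    rw [toNat_smul W l u h0]
    refine (term_norm hρ hρ1 hlam (hΘ.bound l) hc (by omega)).trans ?_
    exact pow_le_one₀ (norm_nonneg _) hρ1.le)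
  rw [toNat_smul W l u h0] at h
  exact h

/-- The reduced factor is `1` if `|W u| < D`. -/
theorem factor_lt {n D : ℕ} {W : Matrix (Fin n) (Fin n) ℤ} {ρ ζ : C} {p : ℕ} {ε : ℝ}
    {Θ : Polynomial C} (hΘ : IsSplit p ζ ε Θ) (hρ : ρ ≠ 0) (hρ1 : ‖ρ‖ < 1)
    (hlam : ρ ^ D = ζ - 1) (u : Fin n → ℤ) (c : C) (hc : ‖c‖ ≤ 1) (h0 : 0 ≤ wt W u)
    (he : wt W u < D) (N : ℕ) (hN : 0 < N) :
    ∑ l ∈ range N, AddMonoidAlgebra.single (l • u)
        (rd (Θ.coeff l * c ^ l / ρ ^ (l * (wt W u).toNat))) =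
      (1 : AddMonoidAlgebra (KK C) (Fin n → ℤ)) := by
  rw [Finset.sum_eq_single 0]
  · rw [zero_smul, Nat.zero_mul, pow_zero, pow_zero, div_one, mul_one, hΘ.zero, rd_one]
    rfl
  · intro l _ hl
    rw [rd_of_lt, AddMonoidAlgebra.single_zero]
    refine (term_norm hρ hρ1 hlam (hΘ.bound l) hc (show (wt W u).toNat ≤ D by omega)).trans_lt ?_
    exact pow_lt_one₀ (norm_nonneg _) hρ1
      (Nat.mul_ne_zero hl (by omega))
  · intro h
    exact absurd (Finset.mem_range.2 hN) h

/-- The reduced factor of a monomial of weight `D`. -/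
theorem factor_eq {n D : ℕ} {W : Matrix (Fin n) (Fin n) ℤ} {ρ ζ : C} {p : ℕ} {ε : ℝ}
    {Θ : Polynomial C} (hΘ : IsSplit p ζ ε Θ) (hρ : ρ ≠ 0) (hlam : ρ ^ D = ζ - 1)
    (u : Fin n → ℤ) (c : C) (hc : ‖c‖ ≤ 1) (he : wt W u = D) (N : ℕ) :
    ∑ l ∈ range N, (AddMonoidAlgebra.single (l • u)
        (rd (Θ.coeff l * c ^ l / ρ ^ (l * (wt W u).toNat))) :
          AddMonoidAlgebra (KK C) (Fin n → ℤ)) =
      ∑ l ∈ range N, AddMonoidAlgebra.single (l • u) (EE ζ Θ l * rd c ^ l) := by
  refine Finset.sum_congr rfl fun l _ => ?_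
  have hlam0 : ζ - 1 ≠ 0 := by rw [← hlam]; exact pow_ne_zero _ hρ
  have hlp : 0 < ‖ζ - 1‖ := norm_pos_iff.2 hlam0
  have e1 : ρ ^ (l * (wt W u).toNat) = (ζ - 1) ^ l := by
    rw [he, Int.toNat_natCast, Nat.mul_comm, pow_mul, hlam]
  have e2 : Θ.coeff l * c ^ l / ρ ^ (l * (wt W u).toNat) =
      (Θ.coeff l / (ζ - 1) ^ l) * c ^ l := by
    rw [e1]
    ring
  have hn : ‖Θ.coeff l / (ζ - 1) ^ l‖ ≤ 1 := by
    rw [norm_div, norm_pow, div_le_one (pow_pos hlp _)]
    exact hΘ.bound l
  rw [e2, rd_mul hn (by rw [norm_pow]; exact pow_le_one₀ (norm_nonneg _) hc), rd_pow hc]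
  rfl

theorem single_prod {n : ℕ} {R : Type} [CommRing R] {ι : Type*} (s : Finset ι)
    (u : ι → Fin n → ℤ) (c : ι → R) :
    ∏ j ∈ s, (AddMonoidAlgebra.single (u j) (c j) : AddMonoidAlgebra R (Fin n → ℤ)) =
      AddMonoidAlgebra.single (∑ j ∈ s, u j) (∏ j ∈ s, c j) := by
  classical
  induction s using Finset.induction_on with
  | empty => simp [AddMonoidAlgebra.one_def]
  | insert x s hx ih =>
    rw [Finset.prod_insert hx, Finset.sum_insert hx, Finset.prod_insert hx, ih,
      AddMonoidAlgebra.single_mul_single]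

/-- `W V_j = D e_j`. -/
theorem yy_V {n D : ℕ} {W W' : Matrix (Fin n) (Fin n) ℤ}
    (h : W * W' = (D : ℤ) • (1 : Matrix (Fin n) (Fin n) ℤ)) (j i : Fin n) :
    yy W (fun s => W' s j) i = if i = j then (D : ℤ) else 0 := by
  have h1 : (W * W') i j = ((D : ℤ) • (1 : Matrix (Fin n) (Fin n) ℤ)) i j := by rw [h]
  rw [Matrix.mul_apply, Matrix.smul_apply, Matrix.one_apply, smul_eq_mul, mul_ite, mul_one,
    mul_zero] at h1
  exact h1

theorem wt_V {n D : ℕ} {W W' : Matrix (Fin n) (Fin n) ℤ}
    (h : W * W' = (D : ℤ) • (1 : Matrix (Fin n) (Fin n) ℤ)) (j : Fin n) :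
    wt W (fun s => W' s j) = D := by
  unfold wt
  rw [Finset.sum_congr rfl fun i _ => yy_V h j i, Finset.sum_ite_eq' univ j]
  simp

theorem yy_sum {n : ℕ} (W : Matrix (Fin n) (Fin n) ℤ) {ι : Type*} (s : Finset ι)
    (u : ι → Fin n → ℤ) (j : Fin n) : yy W (∑ i ∈ s, u i) j = ∑ i ∈ s, yy W (u i) j := by
  classical
  induction s using Finset.induction_on with
  | empty => simp [yy]
  | insert x s hx ih => rw [Finset.sum_insert hx, Finset.sum_insert hx, yy_add, ih]

/-- `W` is injective. -/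
theorem yy_inj {n D : ℕ} {W W' : Matrix (Fin n) (Fin n) ℤ} (hD : 1 ≤ D)
    (h : W' * W = (D : ℤ) • (1 : Matrix (Fin n) (Fin n) ℤ)) {u v : Fin n → ℤ}
    (huv : ∀ j, yy W u j = yy W v j) : u = v := by
  have h1 : W.mulVec u = W.mulVec v := by
    funext j
    exact huv j
  have h2 : (W' * W).mulVec u = (W' * W).mulVec v := by
    rw [← Matrix.mulVec_mulVec, ← Matrix.mulVec_mulVec, h1]
  rw [h, Matrix.smul_mulVec, Matrix.smul_mulVec, Matrix.one_mulVec, Matrix.one_mulVec] at h2
  funext i
  have h3 := congrFun h2 i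
  rw [Pi.smul_apply, Pi.smul_apply, smul_eq_mul, smul_eq_mul] at h3
  exact mul_left_cancel₀ (by positivity) h3

/-- The coefficients of the product of the leading factors. -/
theorem prod_coeff {n D : ℕ} {W W' : Matrix (Fin n) (Fin n) ℤ} (hD : 1 ≤ D)
    (hm : W * W' = (D : ℤ) • (1 : Matrix (Fin n) (Fin n) ℤ))
    (hm' : W' * W = (D : ℤ) • (1 : Matrix (Fin n) (Fin n) ℤ)) {R : Type} [CommRing R]
    (E : ℕ → R) (a : Fin n → R) (N : ℕ) (w : Fin n → ℤ)
    (hN : ∀ j, (yy W w j).toNat / D < N) :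
    (∏ j, ∑ l ∈ range N, (AddMonoidAlgebra.single (l • fun s => W' s j) (E l * a j ^ l) :
        AddMonoidAlgebra R (Fin n → ℤ))).coeff w =
      if ∀ j, 0 ≤ yy W w j ∧ (D : ℤ) ∣ yy W w j then
        ∏ j, E ((yy W w j).toNat / D) * a j ^ ((yy W w j).toNat / D) else 0 := by
  classical
  rw [Finset.prod_univ_sum]
  have e1 : ∀ l ∈ Fintype.piFinset (fun _ : Fin n => range N),
      (∏ j, (AddMonoidAlgebra.single (l j • fun s => W' s j) (E (l j) * a j ^ l j) :
        AddMonoidAlgebra R (Fin n → ℤ))) =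
      AddMonoidAlgebra.single (∑ j, l j • fun s => W' s j) (∏ j, E (l j) * a j ^ l j) := by
    intro l _
    exact single_prod univ (fun j => l j • fun s => W' s j) (fun j => E (l j) * a j ^ l j)
  rw [Finset.sum_congr rfl e1, AddMonoidAlgebra.coeff_sum, Finsupp.finset_sum_apply]
  have e2 : ∀ l : Fin n → ℕ, ∀ i, yy W (∑ j, l j • fun s => W' s j) i = D * l i := by
    intro l i
    rw [yy_sum]
    have e3 : ∀ j, yy W (l j • fun s => W' s j) i = if i = j then (D : ℤ) * l i else 0 := by
      intro j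
      rw [yy_smul, yy_V hm]
      split_ifs with h1
      · rw [h1]
        ring
      · rw [mul_zero]
    rw [Finset.sum_congr rfl fun j _ => e3 j, Finset.sum_ite_eq univ i]
    simp
  have e4 : ∀ l : Fin n → ℕ, (∑ j, l j • fun s => W' s j) = w ↔
      ∀ i, yy W w i = D * l i := by
    intro l
    constructor
    · intro h i
      rw [← h]
      exact e2 l i
    · intro h
      refine yy_inj hD hm' fun i => ?_
      rw [e2, h i]
  have hD0 : 0 < D := hD
  split_ifs with hw
  · rw [Finset.sum_eq_single (fun j => (yy W w j).toNat / D)]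
    · rw [AddMonoidAlgebra.coeff_single, (e4 _).2, Finsupp.single_eq_same]
      intro i
      obtain ⟨h1, c, h2⟩ := hw i
      have h3 : 0 ≤ c := by
        rw [h2] at h1
        exact nonneg_of_mul_nonneg_right h1 (by exact_mod_cast hD0)
      obtain ⟨m, rfl⟩ := Int.eq_ofNat_of_zero_le h3
      rw [h2, ← Nat.cast_mul, Int.toNat_natCast, Nat.mul_div_cancel_left _ hD0, Nat.cast_mul]
    · intro l _ hl
      rw [AddMonoidAlgebra.coeff_single, Finsupp.single_apply, if_neg]
      intro h
      apply hl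
      funext i
      rw [(e4 l).1 h i, ← Nat.cast_mul, Int.toNat_natCast, Nat.mul_div_cancel_left _ hD0]
    · intro h
      exact absurd (Fintype.mem_piFinset.2 fun j => Finset.mem_range.2 (hN j)) h
  · refine Finset.sum_eq_zero fun l _ => ?_
    rw [AddMonoidAlgebra.coeff_single, Finsupp.single_apply, if_neg]
    intro h
    apply hw
    intro i
    rw [(e4 l).1 h i]
    exact ⟨by positivity, dvd_mul_right _ _⟩

end LEADTM

open LEADTM

theorem leadt_thm : StmtLEADT := by
  classical
  intro p hp D hD C _ _ ζ ρ ε Θ hΘ hlam hρ hρ1 k _ ι τ hτ n W W' f α hdat i w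
  have hp0 : p ≠ 0 := hp.out.ne_zero
  have hc : ∀ u, ‖τ (f u) ^ (p ^ i)‖ ≤ 1 := by
    intro u
    rw [norm_pow]
    exact pow_le_one₀ (norm_nonneg _) (hτ.norm_le _)
  have h0 : ∀ u ∈ f.support, 0 ≤ wt W u := fun u hu =>
    Finset.sum_nonneg fun j _ => hdat.nonneg u hu j
  obtain ⟨N, hN⟩ : ∃ N, N = Θ.natDegree + 1 + ∑ j, (yy W w j).toNat / D := ⟨_, rfl⟩
  have hN1 : Θ.natDegree < N := by omega
  have hN2 : ∀ j, (yy W w j).toNat / D < N := by
    intro j
    have h1 : (yy W w j).toNat / D ≤ ∑ j, (yy W w j).toNat / D :=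
      Finset.single_le_sum (f := fun j => (yy W w j).toNat / D)
        (fun i _ => Nat.zero_le _) (Finset.mem_univ j)
    omega
  have h := Rel.prod f.support (W := W) (ρ := ρ) fun u hu =>
    factor hΘ hρ hρ1 hlam u (τ (f u) ^ (p ^ i)) (hc u) (h0 u hu) (hdat.le u hu) N hN1
  have h2 := (h w).2.2
  rw [show (∏ u ∈ f.support, Polynomial.aeval (AddMonoidAlgebra.single u (τ (f u) ^ (p ^ i)) :
    AddMonoidAlgebra C (Fin n → ℤ)) Θ) = FT p τ Θ f i from rfl] at h2
  rw [h2]
  -- the product of the reduced factors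
  have hVs : ∀ j, (fun s => W' s j) ∈ f.support := by
    intro j
    rw [Finsupp.mem_support_iff, hdat.lead j]
    exact hdat.ne j
  have hVinj : ∀ j j' : Fin n, (fun s => W' s j) = (fun s => W' s j') → j = j' := by
    intro j j' hjj
    by_contra hne
    have h3 := yy_V hdat.mul j j
    rw [hjj, yy_V hdat.mul j' j, if_neg hne, if_pos rfl] at h3
    omega
  have hsplit : f.support = (f.support.filter fun u => wt W u < D) ∪
      (univ.image fun j : Fin n => (fun s => W' s j)) := by
    ext u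
    rw [Finset.mem_union, Finset.mem_filter, Finset.mem_image]
    constructor
    · intro hu
      rcases lt_or_eq_of_le (hdat.le u hu) with h3 | h3
      · exact Or.inl ⟨hu, h3⟩
      · obtain ⟨j, hj⟩ := hdat.eq u hu h3
        exact Or.inr ⟨j, Finset.mem_univ _, hj.symm⟩
    · rintro (h3 | ⟨j, _, rfl⟩)
      · exact h3.1
      · exact hVs j
  have hdisj : Disjoint (f.support.filter fun u => wt W u < D)
      (univ.image fun j : Fin n => (fun s => W' s j)) := by
    rw [Finset.disjoint_left]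
    intro u hu hu'
    obtain ⟨j, _, rfl⟩ := Finset.mem_image.1 hu'
    have h3 := (Finset.mem_filter.1 hu).2
    rw [wt_V hdat.mul j] at h3
    omega
  have h3 : ∏ u ∈ f.support, ∑ l ∈ range N, (AddMonoidAlgebra.single (l • u)
        (rd (Θ.coeff l * (τ (f u) ^ (p ^ i)) ^ l / ρ ^ (l * (wt W u).toNat))) :
          AddMonoidAlgebra (KK C) (Fin n → ℤ)) =
      ∏ j, ∑ l ∈ range N, (AddMonoidAlgebra.single (l • fun s => W' s j)
        (EE ζ Θ l * (ι (α j) ^ (p ^ i)) ^ l) : AddMonoidAlgebra (KK C) (Fin n → ℤ)) := by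
    rw [hsplit, Finset.prod_union hdisj, Finset.prod_image fun j _ j' _ hjj => hVinj j j' hjj]
    rw [Finset.prod_eq_one, one_mul]
    · refine Finset.prod_congr rfl fun j _ => ?_
      rw [factor_eq hΘ hρ hlam _ _ (hc _) (wt_V hdat.mul j) N, rd_pow (hτ.norm_le _),
        hτ.rd_eq, hdat.lead j]
    · intro u hu
      have hu' := Finset.mem_filter.1 hu
      exact factor_lt hΘ hρ hρ1 hlam u _ (hc u) (h0 u hu'.1) hu'.2 N (by omega)
  rw [h3, prod_coeff hD hdat.mul hdat.mul' (EE ζ Θ) (fun j => ι (α j) ^ (p ^ i)) N w hN2]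

end AST
end

section
/-! # AST, module MODEL: the diagonal model (section 7). -/
set_option linter.all false

namespace AST

open Finset ASur

private theorem model_yy {n : ℕ} {D : ℕ} {W W' : Matrix (Fin n) (Fin n) ℤ}
    (h : W * W' = (D : ℤ) • (1 : Matrix (Fin n) (Fin n) ℤ)) (u s : Fin n → ℤ) (j : Fin n) :
    yy W (u + W'.mulVec s) j = yy W u j + D * s j := by
  have h1 : ∀ v, yy W v j = W.mulVec v j := fun v => rfl
  rw [h1, h1, Matrix.mulVec_add, Matrix.mulVec_mulVec, h, Matrix.smul_mulVec, Matrix.one_mulVec]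
  simp

private theorem model_inj {n : ℕ} {D : ℕ} (hD : 1 ≤ D) {W W' : Matrix (Fin n) (Fin n) ℤ}
    (h : W' * W = (D : ℤ) • (1 : Matrix (Fin n) (Fin n) ℤ)) (u v : Fin n → ℤ)
    (huv : ∀ j, yy W u j = yy W v j) : u = v := by
  have h1 : W.mulVec u = W.mulVec v := funext huv
  have h2 : W'.mulVec (W.mulVec u) = W'.mulVec (W.mulVec v) := by rw [h1]
  rw [Matrix.mulVec_mulVec, Matrix.mulVec_mulVec, h, Matrix.smul_mulVec, Matrix.smul_mulVec,
    Matrix.one_mulVec, Matrix.one_mulVec] at h2
  funext i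
  have h3 := congrFun h2 i
  simp only [Pi.smul_apply, smul_eq_mul] at h3
  have hD' : (D : ℤ) ≠ 0 := by
    have : 0 < D := hD
    exact_mod_cast this.ne'
  exact mul_left_cancel₀ hD' h3

private theorem model_wt {n : ℕ} {W : Matrix (Fin n) (Fin n) ℤ} {u : Fin n → ℤ}
    (hu : ∀ j, 0 ≤ yy W u j) : (wt W u).toNat = ∑ j, (yy W u j).toNat := by
  have h1 : ((∑ j, (yy W u j).toNat : ℕ) : ℤ) = wt W u := by
    rw [wt]
    push_cast
    exact sum_congr rfl fun j _ => Int.toNat_of_nonneg (hu j)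
  rw [← h1, Int.toNat_natCast]

section
variable {C : Type} [NormedField C] [IsUltrametricDist C]

private theorem model_pow {x : C} (hx : ‖x‖ ≤ 1) (n : ℕ) : ‖1 - (1 - x) ^ n‖ ≤ ‖x‖ := by
  have h1 : ‖1 - x‖ ≤ 1 := by
    rw [sub_eq_add_neg]
    exact (IsUltrametricDist.norm_add_le_max _ _).trans (max_le (by simp) (by simpa using hx))
  have h2 : 1 - (1 - x) ^ n = x * ∑ i ∈ range n, (1 - x) ^ i := by
    rw [← mul_neg_geom_sum]
    ring
  rw [h2, norm_mul]
  refine mul_le_of_le_one_right (norm_nonneg _) (norm_sum_le_one _ fun i _ => ?_)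
  rw [norm_pow]
  exact pow_le_one₀ (norm_nonneg _) h1

end

theorem model_thm (h1 : StmtPLAM) : StmtMODEL := by
  intro p _ D hDp C _ _ _ hp ζ ρ hζ hρ hρ0 hρ1 k _ _ _ ι n W W' f α hdat
  have hpp : p.Prime := Fact.out
  have hD : 1 ≤ D := by
    rcases Nat.eq_zero_or_pos D with h | h
    · rw [h, zero_dvd_iff] at hDp
      have := hpp.two_le
      omega
    · exact h
  obtain ⟨hP0, hP1⟩ := h1 p C hp ζ hζ
  set h := Module.finrank (ZMod p) k with hh
  have hcard : (Fintype.card k : C) = (p : C) ^ h := by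
    have e := Module.card_eq_pow_finrank (K := ZMod p) (V := k)
    rw [ZMod.card] at e
    rw [e]
    push_cast
    rfl
  haveI : CharP k p := by
    rw [← Algebra.charP_iff (ZMod p) k p]
    exact ZMod.charP p
  -- the lifts
  have hG : ∀ (j : Fin n) (r : ℕ), ∃ x : C, r < D → ‖x‖ = 1 ∧
      rd x = ι (((((p - 1) / D * r).factorial : k)⁻¹) ^ h * (α j ^ ((p ^ h - 1) / D)) ^ r) := by
    intro j r
    obtain ⟨x, hx, hxr⟩ := rd_surj (C := C)
      (ι (((((p - 1) / D * r).factorial : k)⁻¹) ^ h * (α j ^ ((p ^ h - 1) / D)) ^ r))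
    refine ⟨x, fun hr => ⟨?_, hxr⟩⟩
    by_contra hne
    have hlt : ‖x‖ < 1 := lt_of_le_of_ne hx hne
    rw [rd_of_lt hlt] at hxr
    have h2 := (map_eq_zero ι).1 hxr.symm
    have hfac : ((((p - 1) / D * r).factorial : ℕ) : k) ≠ 0 := by
      rw [Ne, CharP.cast_eq_zero_iff k p, hpp.dvd_factorial]
      have h3 : (p - 1) / D * r ≤ (p - 1) / D * D := Nat.mul_le_mul_left _ hr.le
      have h4 : (p - 1) / D * D = p - 1 := Nat.div_mul_cancel hDp
      have := hpp.two_le
      omega
    refine absurd h2 (mul_ne_zero (pow_ne_zero _ (inv_ne_zero hfac))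
      (pow_ne_zero _ (pow_ne_zero _ (hdat.ne j))))
  choose G hG using hG
  set q : C := (Fintype.card k : C) with hq
  have hqle : ‖q‖ ≤ 1 := norm_natCast_le _
  -- `Q0 = q / ρ ^ (D (p-1) h)`
  set P0 : C := (p : C) / (ζ - 1) ^ (p - 1) with hP0d
  have hζρ : (ζ - 1) = ρ ^ D := hρ.symm
  have hqQ : q = P0 ^ h * ρ ^ (D * (p - 1) * h) := by
    have e0 : D * (p - 1) * h = D * ((p - 1) * h) := Nat.mul_assoc _ _ _
    rw [hcard, hP0d, div_pow, hζρ, ← pow_mul, ← pow_mul, e0,
      div_mul_cancel₀ _ (pow_ne_zero _ hρ0)]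
  have hQ0 : ‖P0 ^ h‖ = 1 := by rw [norm_pow, hP0, one_pow]
  have hQ1 : rd (P0 ^ h) = (-1) ^ h := by rw [rd_pow hP0.le, hP1]
  set γ : (Fin n → ℤ) → C := fun u => ∏ j, (G j ((yy W u j).toNat % D) *
    ρ ^ ((p - 1) * ((yy W u j).toNat % D) * h)) * q ^ ((yy W u j).toNat / D) with hγ
  have hform : ∀ u, (∀ j, 0 ≤ yy W u j) → γ u =
      (∏ j, G j ((yy W u j).toNat % D) * (P0 ^ h) ^ ((yy W u j).toNat / D)) *
        ρ ^ ((p - 1) * (wt W u).toNat * h) := by
    intro u hu
    have e1 : (p - 1) * (wt W u).toNat * h = ∑ j, (p - 1) * (yy W u j).toNat * h := by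
      rw [model_wt hu, mul_sum, sum_mul]
    rw [e1, ← Finset.prod_pow_eq_pow_sum, ← Finset.prod_mul_distrib]
    refine Finset.prod_congr rfl fun j _ => ?_
    have e2 : (p - 1) * (yy W u j).toNat * h = (p - 1) * ((yy W u j).toNat % D) * h +
        D * (p - 1) * h * ((yy W u j).toNat / D) := by
      conv_lhs => rw [← Nat.mod_add_div (yy W u j).toNat D]
      ring
    rw [e2, pow_add, pow_mul ρ (D * (p - 1) * h), hqQ, mul_pow]
    ring
  have hA : ∀ (u : Fin n → ℤ) (j : Fin n), ‖G j ((yy W u j).toNat % D) *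
      (P0 ^ h) ^ ((yy W u j).toNat / D)‖ = 1 := by
    intro u j
    rw [norm_mul, (hG j _ (Nat.mod_lt _ hD)).1, norm_pow, hQ0, one_pow, one_mul]
  have hnorm : ∀ u, (∀ j, 0 ≤ yy W u j) →
      ‖γ u‖ = ‖ρ‖ ^ ((p - 1) * (wt W u).toNat * h) := by
    intro u hu
    rw [hform u hu, norm_mul, norm_prod, Finset.prod_congr rfl fun j _ => hA u j, norm_pow]
    simp
  refine ⟨γ, fun u hu => ⟨hnorm u hu, ?_⟩, ?_⟩
  · rw [hform u hu, mul_div_cancel_right₀ _ (pow_ne_zero _ hρ0), rd_prod _ fun j _ => (hA u j).le,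
      ll, RR, map_prod, ← Finset.prod_mul_distrib]
    refine Finset.prod_congr rfl fun j _ => ?_
    have hlt := Nat.mod_lt (yy W u j).toNat hD
    rw [rd_mul (hG j _ hlt).1.le (by rw [norm_pow, hQ0, one_pow]), (hG j _ hlt).2,
      rd_pow hQ0.le, hQ1]
  · intro N' S Pi hN' hS hPi i hi
    -- the sum over the large box
    have hshift : ∀ (u : Fin n → ℤ) (s : Fin n → ℕ), (∀ j, 0 ≤ yy W u j) →
        γ (u + W'.mulVec fun j => (s j : ℤ)) = γ u * ∏ j, q ^ s j := by
      intro u s hu
      rw [hγ]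
      beta_reduce
      rw [← Finset.prod_mul_distrib]
      refine Finset.prod_congr rfl fun j _ => ?_
      have e1 : (yy W (u + W'.mulVec fun j => (s j : ℤ)) j).toNat =
          (yy W u j).toNat + D * s j := by
        rw [model_yy hdat.mul]
        have := hu j
        have h2 : ((D : ℤ) * (s j : ℤ)) = ((D * s j : ℕ) : ℤ) := by push_cast; ring
        rw [h2]
        omega
      rw [e1, Nat.add_mul_mod_self_left, Nat.add_mul_div_left _ _ hD, pow_add]
      ring
    have hsum : ∑ u ∈ S, γ u ^ i = (∑ u ∈ Pi, γ u ^ i) *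
        ∏ j : Fin n, ∑ s ∈ range N', (q ^ i) ^ s := by
      rw [Finset.prod_univ_sum, Finset.sum_mul_sum, ← Finset.sum_product']
      symm
      refine Finset.sum_bij' (fun x _ => x.1 + W'.mulVec fun j => (x.2 j : ℤ))
        (fun u _ => (u - W'.mulVec fun j => (((yy W u j).toNat / D : ℕ) : ℤ),
          fun j => (yy W u j).toNat / D)) ?_ ?_ ?_ ?_ ?_
      · rintro ⟨u, s⟩ hx
        rw [Finset.mem_product, Fintype.mem_piFinset] at hx
        rw [hS]
        intro j
        have h2 := (hPi u).1 hx.1 j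
        have h3 := mem_range.1 (hx.2 j)
        rw [model_yy hdat.mul]
        dsimp only at h3 ⊢
        have h4 : (D : ℤ) * (s j : ℤ) ≤ D * (N' - 1) := by
          refine mul_le_mul_of_nonneg_left ?_ (by positivity)
          omega
        have h5 : (0 : ℤ) ≤ (D : ℤ) * (s j : ℤ) := by positivity
        push_cast
        constructor
        · linarith [h2.1]
        · nlinarith [h2.2]
      · intro u hu
        rw [Finset.mem_product, Fintype.mem_piFinset]
        have hu' := (hS u).1 hu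
        refine ⟨(hPi _).2 fun j => ?_, fun j => mem_range.2 ?_⟩
        · have h2 := model_yy hdat.mul (u - W'.mulVec fun j => (((yy W u j).toNat / D : ℕ) : ℤ))
            (fun j => (((yy W u j).toNat / D : ℕ) : ℤ)) j
          rw [sub_add_cancel] at h2
          have h3 := Nat.mod_add_div (yy W u j).toNat D
          have h4 := Nat.mod_lt (yy W u j).toNat hD
          have h5 : (((yy W u j).toNat : ℕ) : ℤ) = yy W u j := Int.toNat_of_nonneg (hu' j).1
          have h6 : (((yy W u j).toNat % D : ℕ) : ℤ) +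
              (D : ℤ) * (((yy W u j).toNat / D : ℕ) : ℤ) = yy W u j := by
            rw [← h5]
            exact_mod_cast h3
          have h7 : ((((yy W u j).toNat % D : ℕ) : ℤ)) < D := by exact_mod_cast h4
          have h8 : (0 : ℤ) ≤ (((yy W u j).toNat % D : ℕ) : ℤ) := by positivity
          dsimp only at h2 ⊢
          constructor
          · linarith
          · linarith
        · have h2 := hu' j
          rw [Nat.div_lt_iff_lt_mul hD]
          have h3 : (yy W u j) < ((D * N' : ℕ) : ℤ) := h2.2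
          rw [mul_comm]
          omega
      · rintro ⟨u, s⟩ hx
        rw [Finset.mem_product, Fintype.mem_piFinset] at hx
        have h2 := (hPi u).1 hx.1
        have h3 : (fun j => (yy W (u + W'.mulVec fun j => (s j : ℤ)) j).toNat / D) = s := by
          funext j
          have h4 := h2 j
          have e1 : (yy W (u + W'.mulVec fun j => (s j : ℤ)) j).toNat =
              (yy W u j).toNat + D * s j := by
            rw [model_yy hdat.mul]
            have h2' : ((D : ℤ) * (s j : ℤ)) = ((D * s j : ℕ) : ℤ) := by push_cast; ring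
            rw [h2']
            omega
          rw [e1, Nat.add_mul_div_left _ _ hD, Nat.div_eq_of_lt (by omega), zero_add]
        have h4 : (fun j => (((yy W (u + W'.mulVec fun j => (s j : ℤ)) j).toNat / D : ℕ) : ℤ)) =
            fun j => (s j : ℤ) := by
          funext j
          exact congrArg _ (congrFun h3 j)
        dsimp only
        rw [h3, h4, add_sub_cancel_right]
      · intro u hu
        dsimp only
        rw [sub_add_cancel]
      · rintro ⟨u, s⟩ hx
        rw [Finset.mem_product, Fintype.mem_piFinset] at hx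
        have h2 := (hPi u).1 hx.1
        dsimp only
        rw [hshift u s fun j => (h2 j).1, mul_pow]
        refine congrArg (γ u ^ i * ·) ?_
        rw [← Finset.prod_pow]
        refine Finset.prod_congr rfl fun j _ => ?_
        rw [← pow_mul, ← pow_mul, mul_comm]
    have hone : (1 - q ^ i) ^ n * ∑ u ∈ S, γ u ^ i =
        (∑ u ∈ Pi, γ u ^ i) * (1 - (q ^ i) ^ N') ^ n := by
      rw [hsum]
      have e : (1 - q ^ i) ^ n * ∏ j : Fin n, ∑ s ∈ range N', (q ^ i) ^ s =
          (1 - (q ^ i) ^ N') ^ n := by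
        rw [Finset.prod_const, Finset.card_univ, Fintype.card_fin, ← mul_pow, mul_neg_geom_sum]
      rw [← e]
      ring
    rw [hone]
    have e2 : ∑ u ∈ Pi, γ u ^ i - (∑ u ∈ Pi, γ u ^ i) * (1 - (q ^ i) ^ N') ^ n =
        (∑ u ∈ Pi, γ u ^ i) * (1 - (1 - (q ^ i) ^ N') ^ n) := by ring
    rw [e2, norm_mul]
    have e3 : ‖∑ u ∈ Pi, γ u ^ i‖ ≤ 1 := by
      refine norm_sum_le_one _ fun u hu => ?_
      rw [norm_pow, hnorm u fun j => ((hPi u).1 hu j).1]
      exact pow_le_one₀ (by positivity) (pow_le_one₀ (norm_nonneg _) hρ1.le)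
    have e4 : ‖(q ^ i) ^ N'‖ ≤ ‖q‖ ^ N' := by
      rw [norm_pow, norm_pow]
      refine pow_le_pow_left₀ (by positivity) ?_ _
      exact pow_le_of_le_one (norm_nonneg _) hqle (by omega)
    have e5 : ‖(q ^ i) ^ N'‖ ≤ 1 := e4.trans (pow_le_one₀ (norm_nonneg _) hqle)
    calc ‖∑ u ∈ Pi, γ u ^ i‖ * ‖1 - (1 - (q ^ i) ^ N') ^ n‖
        ≤ 1 * ‖(q ^ i) ^ N'‖ := mul_le_mul e3 (model_pow e5 n) (norm_nonneg _) zero_le_one
      _ ≤ ‖q‖ ^ N' := by rw [one_mul]; exact e4

end AST
end

section
/-! # AST, module NEWT: formula (3). -/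
set_option linter.all false

namespace AST

open Finset ASur

private theorem newt_one {C : Type} [Field C] :
    NR (fun _ => (0 : C)) (1 : PowerSeries C) := by
  refine ⟨by simp, fun n => ?_⟩
  simp [PowerSeries.coeff_one]

private theorem newt_rescale {C : Type} [Field C] (a : C) {t : ℕ → C} {T : PowerSeries C}
    (h : NR t T) : NR (fun i => a ^ i * t i) (PowerSeries.rescale a T) := by
  refine ⟨?_, fun n => ?_⟩
  · rw [← PowerSeries.coeff_zero_eq_constantCoeff_apply, PowerSeries.coeff_rescale]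
    simpa using h.1
  · rw [PowerSeries.coeff_rescale]
    have h2 := h.2 n
    have e1 : ((n : C) + 1) * (a ^ (n + 1) * PowerSeries.coeff (n + 1) T) =
        a ^ (n + 1) * (((n : C) + 1) * PowerSeries.coeff (n + 1) T) := by ring
    rw [e1, h2, mul_neg, mul_sum]
    congr 1
    refine sum_congr rfl fun i hi => ?_
    have hi' := mem_range.1 hi
    have e : a ^ (n + 1) = a ^ (i + 1) * a ^ (n - i) := by
      rw [← pow_add]
      congr 1
      omega
    rw [PowerSeries.coeff_rescale, e]
    ring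

private theorem newt_prod {C ι : Type} [Field C] (S : Finset ι) (t : ι → ℕ → C)
    (T : ι → PowerSeries C) (h : ∀ Z ∈ S, NR (t Z) (T Z)) :
    NR (fun i => ∑ Z ∈ S, t Z i) (∏ Z ∈ S, T Z) := by
  classical
  induction S using Finset.induction_on with
  | empty => simpa using newt_one
  | insert a S ha ih =>
    have h1 := nrm_thm C _ _ _ _ (h a (mem_insert_self a S))
      (ih fun Z hZ => h Z (mem_insert_of_mem hZ))
    rw [Finset.prod_insert ha]
    simpa only [Finset.sum_insert ha] using h1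

section
variable {C : Type} [NormedField C] [IsUltrametricDist C]

private theorem newt_mul {P Q : PowerSeries C} (hP : ∀ n, ‖PowerSeries.coeff n P‖ ≤ 1)
    (hQ : ∀ n, ‖PowerSeries.coeff n Q‖ ≤ 1) (n : ℕ) : ‖PowerSeries.coeff n (P * Q)‖ ≤ 1 := by
  rw [PowerSeries.coeff_mul]
  refine norm_sum_le_one _ fun i _ => ?_
  rw [norm_mul]
  exact mul_le_one₀ (hP _) (norm_nonneg _) (hQ _)

private theorem newt_int_prod {ι : Type} (S : Finset ι) (T : ι → PowerSeries C)
    (h : ∀ Z ∈ S, ∀ n, ‖PowerSeries.coeff n (T Z)‖ ≤ 1) (n : ℕ) :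
    ‖PowerSeries.coeff n (∏ Z ∈ S, T Z)‖ ≤ 1 := by
  classical
  induction S using Finset.induction_on generalizing n with
  | empty =>
    rw [Finset.prod_empty, PowerSeries.coeff_one]
    split_ifs <;> simp
  | insert a S ha ih =>
    rw [Finset.prod_insert ha]
    exact newt_mul (h a (mem_insert_self a S)) (ih fun Z hZ => h Z (mem_insert_of_mem hZ)) n

end

private theorem newt_sum {C : Type} [Field C] (n : ℕ) (x : C) :
    ∑ Z ∈ (univ : Finset (Finset (Fin n))).filter (fun Z => Z.card % 2 = 1), x ^ Z.card =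
      ∑ Z ∈ (univ : Finset (Finset (Fin n))).filter (fun Z => Z.card % 2 = 0), x ^ Z.card -
        (1 - x) ^ n := by
  have h1 := Fintype.sum_pow_mul_eq_add_pow (Fin n) (-x) (1 : C)
  simp only [one_pow, mul_one, Fintype.card_fin] at h1
  have h2 : (1 - x) ^ n = (-x + 1) ^ n := by congr 1; ring
  rw [h2, ← h1, ← Finset.sum_filter_add_sum_filter_not (univ : Finset (Finset (Fin n)))
    (fun Z => Z.card % 2 = 0) (fun Z => (-x) ^ Z.card)]
  have h3 : ∑ Z ∈ (univ : Finset (Finset (Fin n))).filter (fun Z => Z.card % 2 = 0),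
      (-x) ^ Z.card = ∑ Z ∈ (univ : Finset (Finset (Fin n))).filter (fun Z => Z.card % 2 = 0),
      x ^ Z.card := by
    refine sum_congr rfl fun Z hZ => ?_
    rw [Even.neg_pow (Nat.even_iff.2 (mem_filter.1 hZ).2)]
  have h4 : ∑ Z ∈ (univ : Finset (Finset (Fin n))).filter (fun Z => ¬ Z.card % 2 = 0),
      (-x) ^ Z.card = - ∑ Z ∈ (univ : Finset (Finset (Fin n))).filter (fun Z => Z.card % 2 = 1),
      x ^ Z.card := by
    rw [← Finset.sum_neg_distrib]
    refine sum_congr ?_ fun Z hZ => ?_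
    · ext Z
      simp only [mem_filter, mem_univ, true_and]
      omega
    · rw [Odd.neg_pow (Nat.odd_iff.2 (mem_filter.1 hZ).2)]
  rw [h3, h4]
  ring

theorem newt_thm : StmtNEWT := by
  intro C _ _ _ n q s t P T ε hε hq hP hT hT1 hs ht hst m
  have hqk : ∀ k : ℕ, ‖q ^ k‖ ≤ 1 := fun k => by
    rw [norm_pow]
    exact pow_le_one₀ (norm_nonneg _) hq
  have hO : NR (fun i => ∑ Z ∈ (univ : Finset (Finset (Fin n))).filter
      (fun Z => Z.card % 2 = 1), (q ^ Z.card) ^ i * t i) (Odd' n q T) :=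
    newt_prod _ (fun (Z : Finset (Fin n)) i => (q ^ Z.card) ^ i * t i)
      (fun Z => PowerSeries.rescale (q ^ Z.card) T) fun Z _ => newt_rescale _ hT
  have hE : NR (fun i => ∑ Z ∈ (univ : Finset (Finset (Fin n))).filter
      (fun Z => Z.card % 2 = 0), (q ^ Z.card) ^ i * t i) (Even' n q T) :=
    newt_prod _ (fun (Z : Finset (Fin n)) i => (q ^ Z.card) ^ i * t i)
      (fun Z => PowerSeries.rescale (q ^ Z.card) T) fun Z _ => newt_rescale _ hT
  have hPO := nrm_thm C _ _ _ _ hP hO
  refine ncl_thm C _ _ _ _ ε hε hPO hE ?_ ?_ ?_ m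
  · intro k
    refine newt_int_prod _ _ (fun Z _ j => ?_) k
    rw [PowerSeries.coeff_rescale, norm_mul, norm_pow]
    exact mul_le_one₀ (pow_le_one₀ (norm_nonneg _) (hqk _)) (norm_nonneg _) (hT1 _)
  · intro i hi
    refine (IsUltrametricDist.norm_add_le_max _ _).trans (max_le (hs i hi) ?_)
    refine norm_sum_le_one _ fun Z _ => ?_
    rw [norm_mul, norm_pow]
    exact mul_le_one₀ (pow_le_one₀ (norm_nonneg _) (hqk _)) (norm_nonneg _) (ht i hi)
  · intro i hi
    refine le_trans (le_of_eq ?_) (hst i hi)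
    congr 1
    have h1 : ∀ Z : Finset (Fin n), (q ^ Z.card) ^ i * t i = (q ^ i) ^ Z.card * t i := fun Z => by
      rw [← pow_mul, ← pow_mul, mul_comm i]
    simp only [h1, ← Finset.sum_mul]
    rw [newt_sum n (q ^ i)]
    ring

end AST
end

section
/-!
# MP_b685ef_ag, theorem AST, module ONEV: the factorization in one variable
-/
set_option linter.all false

namespace AST

open Finset ASur

theorem onev_fact {κ : Type} [Field κ] {p J0 : ℕ} {E : ℕ → κ} (hE : IsAH p J0 E) (hp : 2 ≤ p) :
    ∀ d, d < p → d < J0 → (d.factorial : κ) * E d = 1 := by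
  intro d
  induction d with
  | zero =>
    intro _ _
    rw [hE.1]
    simp
  | succ d ih =>
    intro h1 h2
    have h3 := hE.2 (d + 1) (by omega) h2
    rw [Finset.sum_eq_single 0] at h3
    · rw [if_pos (by simp), pow_zero, Nat.add_sub_cancel] at h3
      rw [Nat.factorial_succ, Nat.cast_mul, mul_comm ((d + 1 : ℕ) : κ), mul_assoc, h3]
      exact ih (by omega) (by omega)
    · intro i _ hi
      rw [if_neg]
      intro h4
      have h5 : p ^ 1 ≤ p ^ i := Nat.pow_le_pow_right (by omega) (Nat.one_le_iff_ne_zero.2 hi)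
      rw [pow_one] at h5
      omega
    · intro h4
      exact absurd (Finset.mem_range.2 (by omega)) h4

theorem onev_thm (hPM : StmtPM) : StmtONEV := by
  classical
  intro κ _ p _ _ J0 E hE D hD a ha B hJ
  have hp2 : 2 ≤ p := (Fact.out : p.Prime).two_le
  have hDpos : 0 < D := by
    rcases Nat.eq_zero_or_pos D with h | h
    · rw [h] at hD
      have := Nat.eq_zero_of_zero_dvd hD
      omega
    · exact h
  obtain ⟨c, hc⟩ := hD
  have hcD : (p - 1) / D = c := by rw [hc, Nat.mul_div_cancel_left _ hDpos]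
  have hpc : p = 1 + D * c := by omega
  rw [hcD]
  obtain ⟨N, hN⟩ : ∃ N, N = B / D + 1 := ⟨_, rfl⟩
  have hNB : N ≤ B + 1 := by
    rw [hN]
    have := Nat.div_le_self B D
    omega
  have hcr : ∀ r, r < D → c * r < p := by
    intro r hr
    have : c * r ≤ c * D := Nat.mul_le_mul_left _ hr.le
    rw [hpc]
    rw [Nat.mul_comm c D] at this
    omega
  have hcJ : ∀ r, r < D → c * r + p * N < J0 := by
    intro r hr
    have h1 := hcr r hr
    have h2 : p * N ≤ p * (B + 1) := Nat.mul_le_mul_left _ hNB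
    have h3 : p * (B + 2) = p * (B + 1) + p := by ring
    omega
  have key : ∀ r : ℕ, ∃ L U : ℕ → ℕ → κ, r < D →
      ((∀ s t, s < N → t < N →
        (if t ≤ c * r + p * s then E (c * r + p * s - t) else 0) =
          ∑ w ∈ range N, L s w * U w t) ∧
      (∀ s w, s < w → L s w = 0) ∧ (∀ w t, t < w → U w t = 0) ∧ (∀ t, U t t = 1) ∧
      (∀ t, t < N → L t t = (-1) ^ t * E (c * r))) := by
    intro r
    by_cases hr : r < D
    · obtain ⟨L, U, h⟩ := hPM κ p J0 E hE (c * r) N (hcr r hr) (hcJ r hr)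
      exact ⟨L, U, fun _ => h⟩
    · exact ⟨0, 0, fun h => absurd h hr⟩
  choose L U hLU using key
  have hmod : ∀ s, s % D < D := fun s => Nat.mod_lt _ hDpos
  refine ⟨fun s w => if w ≤ s ∧ s % D = w % D then
      a ^ (c * (s % D) + p * (s / D)) * L (s % D) (s / D) (w / D) * (a⁻¹) ^ (w / D) else 0,
    fun w t => if w ≤ t ∧ t % D = w % D then
      a ^ (w / D) * U (t % D) (w / D) (t / D) * (a⁻¹) ^ (t / D) else 0, ?_, ?_, ?_, ?_, ?_⟩
  · intro s t hs ht
    by_cases hst : s % D = t % D
    · -- same class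
      obtain ⟨r, hr⟩ : ∃ r, r = s % D := ⟨_, rfl⟩
      have hrD : r < D := by rw [hr]; exact hmod s
      have hs1 : s = r + D * (s / D) := by rw [hr]; exact (Nat.mod_add_div s D).symm
      have ht1 : t = r + D * (t / D) := by rw [hr, hst]; exact (Nat.mod_add_div t D).symm
      obtain ⟨s', hs'⟩ : ∃ s', s' = s / D := ⟨_, rfl⟩
      obtain ⟨t', ht'⟩ : ∃ t', t' = t / D := ⟨_, rfl⟩
      rw [← hs'] at hs1
      rw [← ht'] at ht1
      have hsN : s' < N := by
        rw [hs', hN]
        exact Nat.lt_succ_of_le (Nat.div_le_div_right hs)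
      have htN : t' < N := by
        rw [ht', hN]
        exact Nat.lt_succ_of_le (Nat.div_le_div_right ht)
      obtain ⟨h1, h2, h3, h4, h5⟩ := hLU r hrD
      have e1 : p * s = r + D * (c * r + p * s') := by
        rw [hs1, hpc]
        ring
      have e2 : M1 p D E a s t = a ^ (c * r + p * s') * (a⁻¹) ^ t' *
          (if t' ≤ c * r + p * s' then E (c * r + p * s' - t') else 0) := by
        unfold M1
        by_cases h6 : t' ≤ c * r + p * s'
        · have h7 : t ≤ p * s := by
            rw [e1, ht1]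
            exact Nat.add_le_add_left (Nat.mul_le_mul_left _ h6) _
          have h8 : p * s - t = D * (c * r + p * s' - t') := by
            rw [e1, ht1, Nat.add_sub_add_left, Nat.mul_sub]
          rw [if_pos h6, if_pos ⟨h7, by rw [h8]; exact dvd_mul_right _ _⟩, h8,
            Nat.mul_div_cancel_left _ hDpos]
          have h9 : a ^ (c * r + p * s') * (a⁻¹) ^ t' = a ^ (c * r + p * s' - t') := by
            rw [inv_pow, ← div_eq_mul_inv, div_eq_iff (pow_ne_zero _ ha), ← pow_add,
              Nat.sub_add_cancel h6]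
          rw [h9]
          ring
        · rw [if_neg h6, mul_zero, if_neg]
          rintro ⟨h7, _⟩
          rw [e1, ht1] at h7
          have h8 : D * t' ≤ D * (c * r + p * s') := by omega
          exact h6 (Nat.le_of_mul_le_mul_left h8 hDpos)
      rw [e2, h1 s' t' hsN htN, Finset.mul_sum]
      -- the sum over the class of `r`
      obtain ⟨g, hg⟩ : ∃ g : ℕ → κ, g = fun w =>
        (if w ≤ s ∧ s % D = w % D then
          a ^ (c * (s % D) + p * (s / D)) * L (s % D) (s / D) (w / D) * (a⁻¹) ^ (w / D) else 0) *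
        (if w ≤ t ∧ t % D = w % D then
          a ^ (w / D) * U (t % D) (w / D) (t / D) * (a⁻¹) ^ (t / D) else 0) := ⟨_, rfl⟩
      have hg0 : ∀ w, ¬ (w ≤ s ∧ s % D = w % D) → g w = 0 := by
        intro w hw
        rw [hg]
        simp only
        rw [if_neg hw, zero_mul]
      have e3 : ∑ w ∈ range (B + 1), g w =
          ∑ w ∈ (range N).image (fun w' => r + D * w'), g w := by
        have e4 : ∑ w ∈ range (B + 1), g w =
            ∑ w ∈ range (B + 1) ∪ (range N).image (fun w' => r + D * w'), g w := by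
          refine Finset.sum_subset Finset.subset_union_left fun w _ hw => ?_
          refine hg0 w fun h => hw (Finset.mem_range.2 (by omega))
        rw [e4]
        symm
        refine Finset.sum_subset Finset.subset_union_right fun w _ hw => ?_
        refine hg0 w fun h => hw ?_
        rw [Finset.mem_image]
        refine ⟨w / D, Finset.mem_range.2 ?_, ?_⟩
        · rw [hN]
          exact Nat.lt_succ_of_le (Nat.div_le_div_right (h.1.trans hs))
        · rw [hr, h.2]
          exact Nat.mod_add_div w D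
      have e5 : ∑ w ∈ range (B + 1), g w = ∑ w' ∈ range N, g (r + D * w') := by
        rw [e3, Finset.sum_image]
        intro x _ y _ hxy
        have hxy' : r + D * x = r + D * y := hxy
        exact Nat.eq_of_mul_eq_mul_left hDpos (by omega)
      rw [hg] at e5
      rw [e5]
      refine Finset.sum_congr rfl fun w' _ => ?_
      have hw1 : (r + D * w') % D = r := by
        rw [Nat.add_mul_mod_self_left, Nat.mod_eq_of_lt hrD]
      have hw2 : (r + D * w') / D = w' := by
        rw [Nat.add_mul_div_left _ _ hDpos, Nat.div_eq_of_lt hrD, Nat.zero_add]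
      beta_reduce
      rw [hw1, hw2, ← hst, ← hr, ← hs', ← ht']
      by_cases h6 : w' ≤ s'
      · by_cases h7 : w' ≤ t'
        · rw [if_pos ⟨by rw [hs1]; exact Nat.add_le_add_left (Nat.mul_le_mul_left _ h6) _, rfl⟩,
            if_pos ⟨by rw [ht1]; exact Nat.add_le_add_left (Nat.mul_le_mul_left _ h7) _, rfl⟩]
          have h8 : (a⁻¹) ^ w' * a ^ w' = 1 := by
            rw [← mul_pow, inv_mul_cancel₀ ha, one_pow]
          calc a ^ (c * r + p * s') * (a⁻¹) ^ t' * (L r s' w' * U r w' t')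
              = a ^ (c * r + p * s') * L r s' w' * ((a⁻¹) ^ w' * a ^ w') * U r w' t' *
                  (a⁻¹) ^ t' := by rw [h8]; ring
            _ = _ := by ring
        · rw [h3 w' t' (by omega), mul_zero, mul_zero, if_neg (c := r + D * w' ≤ t ∧ r = r),
            mul_zero]
          rintro ⟨h8, _⟩
          rw [ht1] at h8
          have h9 : D * w' ≤ D * t' := by omega
          exact h7 (Nat.le_of_mul_le_mul_left h9 hDpos)
      · rw [h2 s' w' (by omega), zero_mul, mul_zero, if_neg (c := r + D * w' ≤ s ∧ r = r),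
          zero_mul]
        rintro ⟨h8, _⟩
        rw [hs1] at h8
        have h9 : D * w' ≤ D * s' := by omega
        exact h6 (Nat.le_of_mul_le_mul_left h9 hDpos)
    · -- different classes
      have e1 : M1 p D E a s t = 0 := by
        unfold M1
        rw [if_neg]
        rintro ⟨h1, h2⟩
        apply hst
        have h3 : t % D = (p * s) % D := (Nat.modEq_iff_dvd' h1).2 h2
        rw [h3, hpc, Nat.add_mul, Nat.one_mul, Nat.mul_assoc, Nat.add_mul_mod_self_left]
      rw [e1]
      symm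
      refine Finset.sum_eq_zero fun w _ => ?_
      beta_reduce
      by_cases h1 : s % D = w % D
      · rw [if_neg (c := w ≤ t ∧ t % D = w % D), mul_zero]
        rintro ⟨_, h2⟩
        exact hst (h1.trans h2.symm)
      · rw [if_neg (c := w ≤ s ∧ s % D = w % D), zero_mul]
        rintro ⟨_, h2⟩
        exact h1 h2
  · intro s w h
    have h1 : w ≤ s ∧ s % D = w % D := by
      by_contra h2
      exact h (if_neg h2)
    exact ⟨h1.1, (Nat.modEq_iff_dvd' h1.1).1 h1.2.symm⟩
  · intro w t h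
    have h1 : w ≤ t ∧ t % D = w % D := by
      by_contra h2
      exact h (if_neg h2)
    exact ⟨h1.1, (Nat.modEq_iff_dvd' h1.1).1 h1.2.symm⟩
  · intro t
    obtain ⟨h1, h2, h3, h4, h5⟩ := hLU (t % D) (hmod t)
    beta_reduce
    rw [if_pos ⟨le_rfl, rfl⟩, h4, mul_one, ← mul_pow, mul_inv_cancel₀ ha, one_pow]
  · intro s hs
    obtain ⟨h1, h2, h3, h4, h5⟩ := hLU (s % D) (hmod s)
    have hsN : s / D < N := by
      rw [hN]
      exact Nat.lt_succ_of_le (Nat.div_le_div_right hs)
    beta_reduce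
    rw [if_pos ⟨le_rfl, rfl⟩, h5 _ hsN]
    have h6 := onev_fact hE hp2 (c * (s % D)) (hcr _ (hmod s)) (by
      have := hcJ _ (hmod s)
      omega)
    have h7 : a ^ (c * (s % D) + p * (s / D)) * (a⁻¹) ^ (s / D) =
        a ^ (c * (s % D) + (p - 1) * (s / D)) := by
      rw [inv_pow, ← div_eq_mul_inv, div_eq_iff (pow_ne_zero _ ha), ← pow_add]
      congr 1
      obtain ⟨q, hq⟩ : ∃ q, p = q + 1 := ⟨p - 1, by omega⟩
      rw [hq, Nat.add_sub_cancel]
      ring
    calc a ^ (c * (s % D) + p * (s / D)) * ((-1) ^ (s / D) * E (c * (s % D))) *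
          (a⁻¹) ^ (s / D) * ((c * (s % D)).factorial : κ)
        = (a ^ (c * (s % D) + p * (s / D)) * (a⁻¹) ^ (s / D)) * (-1) ^ (s / D) *
          (((c * (s % D)).factorial : κ) * E (c * (s % D))) := by ring
      _ = _ := by rw [h6, h7, mul_one]

end AST
end

section
/-!
# MP_b685ef_ag, theorem AST: module PATHT (the path lemma on the torus)
-/
set_option linter.all false

namespace AST

open Finset ASur

private theorem pt_yy_add {n : ℕ} (W : Matrix (Fin n) (Fin n) ℤ) (u v : Fin n → ℤ) (j : Fin n) :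
    yy W (u + v) j = yy W u j + yy W v j := by
  unfold yy
  rw [← Finset.sum_add_distrib]
  exact Finset.sum_congr rfl fun i _ => by rw [Pi.add_apply]; ring

private theorem pt_yy_smul {n : ℕ} (W : Matrix (Fin n) (Fin n) ℤ) (l : ℕ) (v : Fin n → ℤ)
    (j : Fin n) : yy W (l • v) j = l * yy W v j := by
  unfold yy
  rw [Finset.mul_sum]
  apply Finset.sum_congr rfl
  intro i _
  simp only [Pi.smul_apply, nsmul_eq_mul]
  ring

section
variable {C : Type} [Field C] {n : ℕ}

private theorem pt_expand (q : ℕ) (A : AddMonoidAlgebra C (Fin n → ℤ)) :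
    AddMonoidAlgebra.mapDomainRingHom C (nsmulAddMonoidHom (α := Fin n → ℤ) q) A =
      ∑ w ∈ A.coeff.support, AddMonoidAlgebra.single (q • w) (A.coeff w) := by
  have h : A = ∑ w ∈ A.coeff.support, AddMonoidAlgebra.single w (A.coeff w) := by
    conv_lhs => rw [← AddMonoidAlgebra.sum_coeff_single A]
    rfl
  conv_lhs => rw [h]
  rw [map_sum]
  refine Finset.sum_congr rfl fun w _ => ?_
  rw [AddMonoidAlgebra.mapDomainRingHom_apply, AddMonoidAlgebra.mapDomain_single]
  rfl

private theorem pt_coeff (q : ℕ) (G A : AddMonoidAlgebra C (Fin n → ℤ)) (d : Fin n → ℤ) :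
    (G * AddMonoidAlgebra.mapDomainRingHom C (nsmulAddMonoidHom (α := Fin n → ℤ) q) A).coeff d =
      ∑ w ∈ A.coeff.support, A.coeff w * G.coeff (d - q • w) := by
  rw [pt_expand, Finset.mul_sum, AddMonoidAlgebra.coeff_sum, Finsupp.finsetSum_apply]
  refine Finset.sum_congr rfl fun w _ => ?_
  rw [AddMonoidAlgebra.coeff_mul_single_apply, mul_comm, sub_eq_add_neg]

private theorem pt_cone {W : Matrix (Fin n) (Fin n) ℤ} {B B' q : ℕ}
    {G A : AddMonoidAlgebra C (Fin n → ℤ)} (hG : InCone W B G) (hA : InCone W B' A) :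
    InCone W (B + q * B')
      (G * AddMonoidAlgebra.mapDomainRingHom C (nsmulAddMonoidHom (α := Fin n → ℤ) q) A) := by
  intro u hu j
  rw [pt_coeff] at hu
  obtain ⟨w, hw, hne⟩ := Finset.exists_ne_zero_of_sum_ne_zero hu
  have h1 := hA w (left_ne_zero_of_mul hne) j
  have h2 := hG (u - q • w) (right_ne_zero_of_mul hne) j
  have h3 : yy W u j = yy W (u - q • w) j + q * yy W w j := by
    rw [← pt_yy_smul, ← pt_yy_add, sub_add_cancel]
  have h4 : (0 : ℤ) ≤ q := Int.natCast_nonneg q
  rw [h3]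
  push_cast
  constructor
  · exact add_nonneg h2.1 (mul_nonneg h4 h1.1)
  · exact add_le_add h2.2 (mul_le_mul_of_nonneg_left h1.2 h4)

private theorem pt_GT_succ (p : ℕ) (F : ℕ → AddMonoidAlgebra C (Fin n → ℤ)) (m : ℕ) :
    GT p F (m + 1) = GT p F m *
      AddMonoidAlgebra.mapDomainRingHom C (nsmulAddMonoidHom (α := Fin n → ℤ) (p ^ m)) (F m) := by
  rw [GT, Finset.prod_range_succ, GT]

private theorem pt_GT_cone {p : ℕ} (hp : 1 ≤ p) {W : Matrix (Fin n) (Fin n) ℤ} {N : ℕ}
    {F : ℕ → AddMonoidAlgebra C (Fin n → ℤ)} (hF : ∀ i, InCone W ((p - 1) * (N - 1)) (F i))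
    (m : ℕ) : InCone W ((p ^ m - 1) * (N - 1)) (GT p F m) := by
  induction m with
  | zero =>
    intro u hu j
    have h0 : u = 0 := by
      by_contra hne
      apply hu
      rw [GT, Finset.range_zero, Finset.prod_empty, AddMonoidAlgebra.one_def,
        AddMonoidAlgebra.coeff_single_apply, if_neg (Ne.symm hne)]
    subst h0
    simp [yy]
  | succ m ih =>
    rw [pt_GT_succ]
    have h1 := pt_cone (q := p ^ m) ih (hF m)
    have h2 : (p ^ m - 1) * (N - 1) + p ^ m * ((p - 1) * (N - 1)) =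
        (p ^ (m + 1) - 1) * (N - 1) := by
      have h3 : p ^ (m + 1) - 1 = (p ^ m - 1) + p ^ m * (p - 1) := by
        have h4 : 1 ≤ p ^ m := Nat.one_le_pow _ _ hp
        rw [pow_succ]
        obtain ⟨a, ha⟩ := Nat.exists_eq_add_of_le' h4
        obtain ⟨b, hb⟩ := Nat.exists_eq_add_of_le' hp
        rw [ha, hb, Nat.add_sub_cancel, Nat.add_sub_cancel]
        have : (a + 1) * (b + 1) = a + (a + 1) * b + 1 := by ring
        rw [this, Nat.add_sub_cancel]
      rw [h3]
      ring
    rwa [h2] at h1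

private theorem pt_main {p : ℕ} (hp : 1 ≤ p) {W : Matrix (Fin n) (Fin n) ℤ} {N : ℕ}
    (hN : 1 ≤ N) {S : Finset (Fin n → ℤ)} (hS : IsBox W N S)
    {F : ℕ → AddMonoidAlgebra C (Fin n → ℤ)} (hF : ∀ i, InCone W ((p - 1) * (N - 1)) (F i))
    (m : ℕ) (u v : S) :
    Pmat (fun i => AT p S (F i)) m u v = (GT p F m).coeff (p ^ m • u.1 - v.1) := by
  classical
  induction m generalizing u v with
  | zero =>
    rw [GT, Finset.range_zero, Finset.prod_empty, AddMonoidAlgebra.one_def,
      AddMonoidAlgebra.coeff_single_apply, pow_zero, one_smul]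
    show (1 : Matrix S S C) u v = _
    by_cases huv : u = v
    · subst huv
      rw [Matrix.one_apply_eq, if_pos (sub_self _).symm]
    · rw [Matrix.one_apply_ne huv, if_neg]
      intro h
      exact huv (Subtype.ext (sub_eq_zero.1 h.symm))
  | succ m ih =>
    have hL : Pmat (fun i => AT p S (F i)) (m + 1) u v =
        ∑ w : S, AT p S (F m) u w * Pmat (fun i => AT p S (F i)) m w v := by
      simp only [Pmat, Matrix.mul_apply]
    rw [hL, pt_GT_succ, pt_coeff]
    obtain ⟨g, hg⟩ : ∃ g : (Fin n → ℤ) → C, g = fun x => (F m).coeff x *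
      (GT p F m).coeff (p ^ m • (p • u.1 - x) - v.1) := ⟨_, rfl⟩
    have e1 : ∑ w : S, AT p S (F m) u w * Pmat (fun i => AT p S (F i)) m w v =
        ∑ w ∈ S, g (p • u.1 - w) := by
      rw [← Finset.sum_coe_sort S (fun w => g (p • u.1 - w))]
      refine Finset.sum_congr rfl fun w _ => ?_
      rw [ih w v, hg]
      simp only [AT, Matrix.of_apply, sub_sub_cancel]
    have e2 : ∀ x ∈ (F m).coeff.support,
        (F m).coeff x * (GT p F m).coeff (p ^ (m + 1) • u.1 - v.1 - p ^ m • x) = g x := by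
      intro x _
      rw [hg]
      have h1 : p ^ (m + 1) • u.1 - v.1 - p ^ m • x = p ^ m • (p • u.1 - x) - v.1 := by
        rw [smul_sub, smul_smul, ← pow_succ]
        abel
      simp only [h1]
    rw [e1, Finset.sum_congr rfl e2,
      ← Finset.sum_image (s := S) (g := fun w : Fin n → ℤ => p • u.1 - w) (f := g)
        (fun w _ w' _ h => sub_right_injective h)]
    refine Finset.sum_congr_of_eq_on_inter ?_ ?_ (fun _ _ _ => rfl)
    · intro x _ hx
      rw [hg]
      simp only [Finsupp.notMem_support_iff.1 hx, zero_mul]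
    · intro x hx hxS
      by_contra hne
      rw [hg] at hne
      apply hxS
      rw [Finset.mem_image]
      refine ⟨p • u.1 - x, (hS _).2 fun j => ?_, sub_sub_cancel _ _⟩
      have h1 := pt_GT_cone hp hF m _ (right_ne_zero_of_mul hne) j
      have h2 := (hS v.1).1 v.2 j
      have h3 : (p ^ m : ℕ) * yy W (p • u.1 - x) j =
          yy W (p ^ m • (p • u.1 - x) - v.1) j + yy W v.1 j := by
        rw [← pt_yy_smul, ← pt_yy_add, sub_add_cancel]
      have h4 : 1 ≤ p ^ m := Nat.one_le_pow _ _ hp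
      obtain ⟨q, hq⟩ : ∃ q : ℕ, p ^ m = q + 1 := ⟨p ^ m - 1, by omega⟩
      obtain ⟨N', rfl⟩ : ∃ N', N = N' + 1 := ⟨N - 1, by omega⟩
      rw [hq] at h3
      rw [hq, Nat.add_sub_cancel, Nat.add_sub_cancel] at h1
      generalize yy W (p • u.1 - x) j = y at h3 ⊢
      generalize yy W ((q + 1) • (p • u.1 - x) - v.1) j = a at h1 h3
      generalize yy W v.1 j = b at h2 h3
      push_cast at h1 h2 h3 ⊢
      obtain ⟨h1a, h1b⟩ := h1
      obtain ⟨h2a, h2b⟩ := h2
      have h5 : (0 : ℤ) ≤ q := Int.natCast_nonneg q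
      constructor
      · by_contra hc
        rw [not_le] at hc
        nlinarith
      · by_contra hc
        rw [not_lt] at hc
        nlinarith

end

/-- **PATHT.** -/
theorem patht_thm : StmtPATHT := by
  intro p hp C _ n W N S hN hS F hF m
  refine ⟨pt_GT_cone hp hF m, ?_⟩
  rw [Matrix.trace, ← Finset.sum_coe_sort S (fun u => (GT p F m).coeff ((p ^ m - 1) • u))]
  refine Finset.sum_congr rfl fun u _ => ?_
  rw [Matrix.diag_apply, pt_main hp hN hS hF m u u]
  congr 1
  have h4 : 1 ≤ p ^ m := Nat.one_le_pow _ _ hp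
  obtain ⟨q, hq⟩ : ∃ q : ℕ, p ^ m = q + 1 := ⟨p ^ m - 1, by omega⟩
  rw [hq, Nat.add_sub_cancel, succ_nsmul, add_sub_cancel_right]

end AST
end

section
/-!
# MP_b685ef_ag, theorem AST, module PLAM
-/
set_option linter.all false

namespace AST

open Finset ASur

/-- **PLAM.** `p / (ζ - 1) ^ (p - 1)` is a unit with residue `-1`. -/
theorem plam_thm : StmtPLAM := by
  intro p hpF C _ _ _ hpC ζ hζ
  have hp : p.Prime := hpF.out
  haveI : CharP (KK C) p := charP_KK hpC
  have hn1 : ‖ζ‖ = 1 := by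
    have h1 : ‖ζ‖ ^ p = 1 := by rw [← norm_pow, hζ.pow_eq_one, norm_one]
    exact (pow_eq_one_iff_of_nonneg (norm_nonneg _) hp.ne_zero).1 h1
  have hrd : rd ζ = 1 := by
    have h1 : rd ζ ^ p = 1 := by rw [← rd_pow hn1.le, hζ.pow_eq_one, rd_one]
    have h2 : (rd ζ - 1) ^ p = 0 := by
      rw [sub_pow_char, h1]; simp
    have h3 := pow_eq_zero_iff (hp.ne_zero) |>.1 h2
    exact sub_eq_zero.1 h3
  have hz1 : ζ - 1 ≠ 0 := sub_ne_zero.2 (hζ.ne_one hp.one_lt)
  obtain ⟨n, hn⟩ : ∃ n, p = n + 1 := ⟨p - 1, (Nat.sub_add_cancel hp.one_lt.le).symm⟩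
  have hgeo : ∀ k : ℕ, ζ ^ (k + 1) - 1 = (ζ - 1) * ∑ j ∈ range (k + 1), ζ ^ j := by
    intro k
    rw [mul_comm, geom_sum_mul]
  have hG : ∀ k : ℕ, ‖∑ j ∈ range (k + 1), ζ ^ j‖ ≤ 1 := fun k =>
    norm_sum_le_one _ fun j _ => by rw [norm_pow, hn1, one_pow]
  have hGr : ∀ k : ℕ, rd (∑ j ∈ range (k + 1), ζ ^ j) = ((k + 1 : ℕ) : KK C) := by
    intro k
    rw [rd_sum _ fun j _ => by rw [norm_pow, hn1, one_pow]]
    rw [Finset.sum_congr rfl fun j _ => by rw [rd_pow hn1.le, hrd, one_pow]]
    simp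
  have hmain : (p : C) / (ζ - 1) ^ (p - 1) =
      (-1) ^ n * ∏ k ∈ range n, ∑ j ∈ range (k + 1), ζ ^ j := by
    have h1 : (-1) ^ n * ∏ k ∈ range n, (ζ ^ (k + 1) - 1) = (n : C) + 1 :=
      (hn ▸ hζ : IsPrimitiveRoot ζ (n + 1)).prod_pow_sub_one_eq_order
    rw [Finset.prod_congr rfl fun k _ => hgeo k, Finset.prod_mul_distrib, Finset.prod_const,
      Finset.card_range] at h1
    have h2 : (p : C) = (n : C) + 1 := by rw [hn]; push_cast; ring
    have h3 : p - 1 = n := by omega
    rw [h3, h2, ← h1]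
    field_simp
  have hPn : ‖∏ k ∈ range n, ∑ j ∈ range (k + 1), ζ ^ j‖ ≤ 1 :=
    norm_prod_le_one _ fun k _ => hG k
  have hr : rd ((p : C) / (ζ - 1) ^ (p - 1)) = -1 := by
    rw [hmain, rd_mul (by rw [norm_pow, norm_neg, norm_one, one_pow]) hPn,
      rd_pow (by rw [norm_neg, norm_one]), rd_neg, rd_one, rd_prod _ fun k _ => hG k,
      Finset.prod_congr rfl fun k _ => hGr k]
    have hf : (∏ k ∈ range n, ((k + 1 : ℕ) : KK C)) = ((n.factorial : ℕ) : KK C) := by
      rw [← Nat.cast_prod, Finset.prod_range_add_one_eq_factorial]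
    have hw : ((n.factorial : ℕ) : KK C) = -1 := by
      have h1 := ZMod.wilsons_lemma p
      have h2 : p - 1 = n := by omega
      rw [h2] at h1
      have h3 := congrArg (ZMod.castHom (dvd_refl p) (KK C)) h1
      simpa using h3
    rw [hf, hw]
    rcases hp.eq_two_or_odd' with h2 | h2
    · have h3 : n = 1 := by omega
      have h4 : (2 : KK C) = 0 := by
        have := CharP.cast_eq_zero (KK C) p
        rw [h2] at this
        exact_mod_cast this
      rw [h3]
      have h5 : (1 : KK C) + 1 = 0 := by rw [one_add_one_eq_two]; exact h4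
      have h6 : (1 : KK C) = -1 := eq_neg_of_add_eq_zero_left h5
      rw [pow_one, neg_one_mul, neg_neg]
      exact h6
    · have h3 : Even n := by
        rw [hn] at h2
        rcases Nat.even_or_odd n with h | h
        · exact h
        · exact absurd h.add_one (by rwa [Nat.not_even_iff_odd])
      rw [h3.neg_one_pow, one_mul]
  refine ⟨?_, hr⟩
  have hle : ‖(p : C) / (ζ - 1) ^ (p - 1)‖ ≤ 1 := by
    rw [hmain, norm_mul, norm_pow, norm_neg, norm_one, one_pow, one_mul]
    exact hPn
  rcases lt_or_eq_of_le hle with h | h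
  · exfalso
    rw [rd_of_lt h] at hr
    exact one_ne_zero (neg_eq_zero.1 hr.symm)
  · exact h

end AST
end

section
/-! # MP_b685ef_ag, AST: module PM (helper85) -/
set_option linter.all false

namespace AST

open Finset ASur

namespace PMAux

variable {κ : Type} [Field κ]

/-- `E` extended by zero to the integers. -/
noncomputable def EZ (E : ℕ → κ) (l : ℤ) : κ := if l < 0 then 0 else E l.toNat

/-- `x_0 = δ_0`, `x_{t+1}(t') = (t'-d) x_t(t') + x_t(t'-1)`. -/
noncomputable def xx (d : ℕ) : ℕ → ℕ → κ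
  | 0, t' => if t' = 0 then 1 else 0
  | t + 1, t' => ((t' : κ) - d) * xx d t t' + (if t' = 0 then 0 else xx d t (t' - 1))

/-- The inverse matrix. -/
noncomputable def ux (d : ℕ) : ℕ → ℕ → κ
  | 0, w => if w = 0 then 1 else 0
  | t + 1, w => (if w = 0 then 0 else ux d t (w - 1)) - ((t : κ) - d) * ux d t w

lemma xx_gt (d : ℕ) : ∀ t t' : ℕ, t < t' → (xx d t t' : κ) = 0 := by
  intro t
  induction t with
  | zero => intro t' h; simp [xx, Nat.pos_iff_ne_zero.1 h]
  | succ t ih =>
    intro t' h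
    rw [xx, ih t' (by omega), if_neg (by omega), ih (t' - 1) (by omega)]
    simp

lemma ux_gt (d : ℕ) : ∀ t w : ℕ, t < w → (ux d t w : κ) = 0 := by
  intro t
  induction t with
  | zero => intro w h; simp [ux, Nat.pos_iff_ne_zero.1 h]
  | succ t ih =>
    intro w h
    rw [ux, ih w (by omega), if_neg (by omega), ih (w - 1) (by omega)]
    simp

lemma ux_diag (d : ℕ) : ∀ t : ℕ, (ux d t t : κ) = 1 := by
  intro t
  induction t with
  | zero => simp [ux]
  | succ t ih =>
    rw [ux, ux_gt d t (t + 1) (by omega), if_neg (by omega), Nat.add_sub_cancel, ih]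
    simp

/-- The two matrices are inverse. -/
lemma orth (d : ℕ) : ∀ t K : ℕ, t < K → ∀ t' : ℕ,
    ∑ w ∈ range K, (ux d t w : κ) * xx d w t' = if t' = t then 1 else 0 := by
  intro t
  induction t with
  | zero =>
    intro K hK t'
    rw [Finset.sum_eq_single 0]
    · simp [ux, xx]
    · intro b _ hb; simp [ux, hb]
    · intro h; exact absurd (mem_range.2 hK) h
  | succ t ih =>
    intro K hK t'
    obtain ⟨K', rfl⟩ : ∃ K', K = K' + 1 := ⟨K - 1, by omega⟩
    have h1 : ∑ w ∈ range (K' + 1), (ux d (t + 1) w : κ) * xx d w t' =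
        ∑ w ∈ range (K' + 1), (if w = 0 then 0 else (ux d t (w - 1) : κ)) * xx d w t' -
          ((t : κ) - d) * ∑ w ∈ range (K' + 1), (ux d t w : κ) * xx d w t' := by
      rw [Finset.mul_sum, ← Finset.sum_sub_distrib]
      refine Finset.sum_congr rfl fun w _ => ?_
      rw [ux]; ring
    have h2 : ∑ w ∈ range (K' + 1), (if w = 0 then 0 else (ux d t (w - 1) : κ)) * xx d w t' =
        ∑ w ∈ range K', (ux d t w : κ) * xx d (w + 1) t' := by
      rw [Finset.sum_range_succ']
      simp
    have h3 : ∑ w ∈ range K', (ux d t w : κ) * xx d (w + 1) t' =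
        ((t' : κ) - d) * ∑ w ∈ range K', (ux d t w : κ) * xx d w t' +
          (if t' = 0 then 0 else ∑ w ∈ range K', (ux d t w : κ) * xx d w (t' - 1)) := by
      split_ifs with h
      · rw [Finset.mul_sum, add_zero]
        refine Finset.sum_congr rfl fun w _ => ?_
        rw [xx, if_pos h]; ring
      · rw [Finset.mul_sum, ← Finset.sum_add_distrib]
        refine Finset.sum_congr rfl fun w _ => ?_
        rw [xx, if_neg h]; ring
    rw [h1, h2, h3, ih K' (by omega), ih K' (by omega), ih (K' + 1) (by omega)]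
    rcases Nat.eq_zero_or_pos t' with h0 | h0
    · subst h0
      rcases Nat.eq_zero_or_pos t with h4 | h4
      · subst h4; simp
      · simp [h4.ne]
    · rw [if_neg h0.ne']
      by_cases h4 : t' = t
      · subst h4
        rw [if_pos rfl, if_neg (by omega), if_neg (by omega)]
        ring
      · rw [if_neg h4]
        by_cases h5 : t' = t + 1
        · subst h5; simp
        · rw [if_neg (by omega), if_neg h5]; ring

lemma EZ_neg (E : ℕ → κ) (l : ℤ) (h : l < 0) : EZ E l = 0 := if_pos h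

lemma EZ_nat (E : ℕ → κ) (n : ℕ) : EZ E (n : ℤ) = E n := by
  unfold EZ
  rw [if_neg (by omega), Int.toNat_natCast]

lemma EZ_rec (p J0 : ℕ) (hp : 2 ≤ p) (E : ℕ → κ) (h : IsAH p J0 E) (K : ℕ) (l : ℤ)
    (hl : l < J0) (hK : l < K) :
    (l : κ) * EZ E l = ∑ i ∈ range K, EZ E (l - (p : ℤ) ^ i) := by
  have hpos : ∀ i : ℕ, (0 : ℤ) < (p : ℤ) ^ i := fun i => by positivity
  rcases le_or_gt l 0 with h0 | h0
  · have h1 : ∑ i ∈ range K, EZ E (l - (p : ℤ) ^ i) = 0 :=
      Finset.sum_eq_zero fun i _ => EZ_neg E _ (by have := hpos i; omega)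
    rw [h1]
    rcases eq_or_lt_of_le h0 with h2 | h2
    · rw [h2]; simp
    · rw [EZ_neg E l h2, mul_zero]
  · obtain ⟨n, rfl⟩ : ∃ n : ℕ, l = (n : ℤ) := ⟨l.toNat, by omega⟩
    have h1 := h.2 n (by omega) (by omega)
    rw [EZ_nat, Int.cast_natCast, h1]
    rw [← Finset.sum_subset (Finset.range_mono (show n + 1 ≤ K by omega))]
    · refine Finset.sum_congr rfl fun i _ => ?_
      have e : ((p : ℤ) ^ i) = ((p ^ i : ℕ) : ℤ) := by push_cast; rfl
      split_ifs with h2
      · rw [e, ← Int.ofNat_sub h2, EZ_nat]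
      · rw [e, EZ_neg]
        omega
    · intro i _ hi
      have h2 : n + 1 ≤ i := by
        by_contra hc; exact hi (mem_range.2 (by omega))
      have h3 : i < p ^ i := Nat.lt_pow_self (by omega)
      have e : ((p : ℤ) ^ i) = ((p ^ i : ℕ) : ℤ) := by push_cast; rfl
      rw [e]
      exact EZ_neg E _ (by omega)

/-- `(M x_t)(s)`. -/
noncomputable def MX (E : ℕ → κ) (p d K t : ℕ) (s : ℤ) : κ :=
  ∑ t' ∈ range K, EZ E ((d : ℤ) + p * s - t') * xx d t t'

lemma MX_succ (p J0 : ℕ) [CharP κ p] (hp : 2 ≤ p) (E : ℕ → κ) (h : IsAH p J0 E) (d K t R : ℕ)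
    (hK : t + 1 < K) (s : ℤ) (hs : (d : ℤ) + p * s < J0) (hR : (d : ℤ) + p * s < R) :
    MX E p d K (t + 1) s = -∑ i ∈ range R, MX E p d K t (s - (p : ℤ) ^ i) := by
  obtain ⟨K', rfl⟩ : ∃ K', K = K' + 1 := ⟨K - 1, by omega⟩
  have key : ∀ t' : ℕ, ((t' : κ) - d) * EZ E ((d : ℤ) + p * s - t') +
      EZ E ((d : ℤ) + p * s - t' - 1) =
      -∑ i ∈ range R, EZ E ((d : ℤ) + p * (s - (p : ℤ) ^ i) - t') := by
    intro t'
    have h1 := EZ_rec p J0 hp E h (R + 1) ((d : ℤ) + p * s - t') (by omega) (by push_cast; omega)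
    rw [Finset.sum_range_succ'] at h1
    have h2 : (((d : ℤ) + p * s - t' : ℤ) : κ) = (d : κ) - t' := by
      push_cast
      rw [CharP.cast_eq_zero κ p]
      ring
    rw [h2, pow_zero] at h1
    have h3 : ∑ i ∈ range R, EZ E ((d : ℤ) + p * (s - (p : ℤ) ^ i) - t') =
        ∑ i ∈ range R, EZ E ((d : ℤ) + p * s - t' - (p : ℤ) ^ (i + 1)) := by
      refine Finset.sum_congr rfl fun i _ => ?_
      congr 1
      ring
    rw [h3]
    linear_combination (-1 : κ) * h1
  have e1 : MX E p d (K' + 1) (t + 1) s =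
      ∑ t' ∈ range (K' + 1), (((t' : κ) - d) * EZ E ((d : ℤ) + p * s - t')) * xx d t t' +
      ∑ t' ∈ range (K' + 1), EZ E ((d : ℤ) + p * s - t') *
        (if t' = 0 then 0 else xx d t (t' - 1)) := by
    unfold MX
    rw [← Finset.sum_add_distrib]
    refine Finset.sum_congr rfl fun t' _ => ?_
    rw [xx]; ring
  have e2 : ∑ t' ∈ range (K' + 1), EZ E ((d : ℤ) + p * s - t') *
        (if t' = 0 then 0 else xx d t (t' - 1)) =
      ∑ t' ∈ range (K' + 1), EZ E ((d : ℤ) + p * s - t' - 1) * (xx d t t' : κ) := by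
    rw [Finset.sum_range_succ', Finset.sum_range_succ, xx_gt d t K' (by omega)]
    simp only [Nat.add_eq_zero_iff, one_ne_zero, and_false, if_false, if_true, mul_zero, add_zero,
      Nat.add_sub_cancel]
    refine Finset.sum_congr rfl fun t' _ => ?_
    congr 2
    push_cast
    ring
  rw [e1, e2, ← Finset.sum_add_distrib]
  have e3 : ∀ t' ∈ range (K' + 1), ((t' : κ) - d) * EZ E ((d : ℤ) + p * s - t') * xx d t t' +
      EZ E ((d : ℤ) + p * s - t' - 1) * (xx d t t' : κ) =
      -∑ i ∈ range R, EZ E ((d : ℤ) + p * (s - (p : ℤ) ^ i) - t') * xx d t t' := by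
    intro t' _
    rw [← add_mul, key t', ← Finset.sum_mul]
    ring
  rw [Finset.sum_congr rfl e3, Finset.sum_neg_distrib, Finset.sum_comm]
  rfl

lemma MX_main (p J0 : ℕ) [CharP κ p] (hp : 2 ≤ p) (E : ℕ → κ) (h : IsAH p J0 E) (d N : ℕ)
    (hd : d < p) (hN : d + p * N < J0) : ∀ t : ℕ, t < N →
    (∀ s : ℤ, s < t → MX E p d (N + 1) t s = 0) ∧
      MX E p d (N + 1) t (t : ℤ) = (-1) ^ t * E d := by
  have hneg : ∀ (t : ℕ) (s : ℤ), s < 0 → MX E p d (N + 1) t s = 0 := by
    intro t s hs
    refine Finset.sum_eq_zero fun t' _ => ?_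
    rw [EZ_neg, zero_mul]
    have : (p : ℤ) * s ≤ p * (-1) := mul_le_mul_of_nonneg_left (by omega) (by omega)
    omega
  intro t
  induction t with
  | zero =>
    intro _
    refine ⟨fun s hs => hneg 0 s (by simpa using hs), ?_⟩
    unfold MX
    rw [Finset.sum_eq_single 0]
    · have := EZ_nat E d
      simp [xx, this]
    · intro b _ hb; simp [xx, hb]
    · intro h; exact absurd (mem_range.2 (by omega)) h
  | succ t ih =>
    intro ht
    obtain ⟨ih1, ih2⟩ := ih (by omega)
    have hb : ∀ s : ℤ, s ≤ t + 1 → (d : ℤ) + p * s < J0 := by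
      intro s hs
      have h1 : (p : ℤ) * s ≤ p * N := mul_le_mul_of_nonneg_left (by omega) (by omega)
      have h2 : (d : ℤ) + p * N < J0 := by exact_mod_cast hN
      omega
    have hpos : ∀ i : ℕ, (1 : ℤ) ≤ (p : ℤ) ^ i := fun i => by
      have : (0 : ℤ) < (p : ℤ) ^ i := by positivity
      omega
    constructor
    · intro s hs
      push_cast at hs
      rw [MX_succ p J0 hp E h d (N + 1) t J0 (by omega) s (hb s (by omega)) (hb s (by omega))]
      rw [Finset.sum_eq_zero, neg_zero]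
      intro i _
      exact ih1 _ (by have := hpos i; omega)
    · rw [MX_succ p J0 hp E h d (N + 1) t J0 (by omega) _ (hb _ (by push_cast; omega))
        (hb _ (by push_cast; omega))]
      obtain ⟨J, rfl⟩ : ∃ J, J0 = J + 1 := ⟨J0 - 1, by omega⟩
      rw [Finset.sum_range_succ', Finset.sum_eq_zero]
      · rw [zero_add, pow_zero, show ((t + 1 : ℕ) : ℤ) - 1 = t by push_cast; ring, ih2]
        ring
      · intro i _
        refine ih1 _ ?_
        have h1 : (p : ℤ) ^ (i + 1) = p * (p : ℤ) ^ i := by ring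
        have h2 : (p : ℤ) * 1 ≤ p * (p : ℤ) ^ i := mul_le_mul_of_nonneg_left (hpos i) (by omega)
        push_cast
        omega

end PMAux

open PMAux in
theorem pm_thm : StmtPM := by
  intro κ _ p hp _ J0 E h d N hd hN
  have hp2 : 2 ≤ p := hp.out.two_le
  have hmain := MX_main (κ := κ) p J0 hp2 E h d N hd hN
  refine ⟨fun s w => if s < w then 0 else MX E p d (N + 1) w (s : ℤ), fun w t => ux d t w,
    ?_, ?_, ?_, ?_, ?_⟩
  · intro s t hs ht
    have e1 : (if t ≤ d + p * s then E (d + p * s - t) else 0) = EZ E ((d : ℤ) + p * s - t) := by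
      split_ifs with h1
      · have e : ((d : ℤ) + p * s - t) = ((d + p * s - t : ℕ) : ℤ) := by
          push_cast [Nat.cast_sub h1]; ring
        rw [e, EZ_nat]
      · rw [EZ_neg]
        have : ((d + p * s : ℕ) : ℤ) < t := by exact_mod_cast (by omega : d + p * s < t)
        push_cast at this
        omega
    rw [e1]
    have e2 : EZ E ((d : ℤ) + p * s - t) = ∑ t' ∈ range (N + 1), EZ E ((d : ℤ) + p * s - t') *
        (if t' = t then 1 else 0) := by
      rw [Finset.sum_eq_single t]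
      · simp
      · intro b _ hb; simp [hb]
      · intro h1; exact absurd (mem_range.2 (by omega)) h1
    have e3 : ∀ t' ∈ range (N + 1), EZ E ((d : ℤ) + p * s - t') * (if t' = t then (1 : κ) else 0) =
        ∑ w ∈ range N, EZ E ((d : ℤ) + p * s - t') * xx d w t' * ux d t w := by
      intro t' _
      rw [← orth d t N ht t', Finset.mul_sum]
      refine Finset.sum_congr rfl fun w _ => ?_
      ring
    rw [e2, Finset.sum_congr rfl e3, Finset.sum_comm]
    refine Finset.sum_congr rfl fun w hw => ?_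
    rw [← Finset.sum_mul]
    have hw' := mem_range.1 hw
    have e4 : ∑ t' ∈ range (N + 1), EZ E ((d : ℤ) + p * s - t') * xx d w t' =
        MX E p d (N + 1) w (s : ℤ) := rfl
    rw [e4]
    dsimp only
    split_ifs with h1
    · rw [(hmain w hw').1 (s : ℤ) (by exact_mod_cast h1)]
    · rfl
  · intro s w hsw
    simp [hsw]
  · intro w t htw
    exact ux_gt d t w htw
  · intro t
    exact ux_diag d t
  · intro t ht
    dsimp only
    rw [if_neg (lt_irrefl t)]
    exact (hmain t ht).2

end AST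
end

section
/-!
# MP_b685ef_ag, theorem AST, module WGTT: the weight bound for the coefficients of `F_i`
-/
set_option linter.all false

namespace AST

open Finset ASur LEADTM

theorem wgtt_thm : StmtWGTT := by
  classical
  intro p hp D hD C _ _ ζ ρ ε Θ hΘ hlam hρ hρ1 k _ ι τ hτ n W f hpos hle i w
  have hc : ∀ u, ‖τ (f u) ^ (p ^ i)‖ ≤ 1 := by
    intro u
    rw [norm_pow]
    exact pow_le_one₀ (norm_nonneg _) (hτ.norm_le _)
  have h0 : ∀ u ∈ f.support, 0 ≤ wt W u := fun u hu =>
    Finset.sum_nonneg fun j _ => hpos u hu j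
  have h := Rel.prod f.support (W := W) (ρ := ρ) fun u hu =>
    factor hΘ hρ hρ1 hlam u (τ (f u) ^ (p ^ i)) (hc u) (h0 u hu) (hle u hu) (Θ.natDegree + 1)
      (Nat.lt_succ_self _)
  have h2 := (h w).2.1
  rw [show (∏ u ∈ f.support, Polynomial.aeval (AddMonoidAlgebra.single u (τ (f u) ^ (p ^ i)) :
    AddMonoidAlgebra C (Fin n → ℤ)) Θ) = FT p τ Θ f i from rfl, norm_div, norm_pow,
    div_le_one (pow_pos (norm_pos_iff.2 hρ) _)] at h2
  exact h2

end AST
end
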