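import Pool.Agent.Lib.MP_b685ef_ag.AST.Spec
import Pool.Agent.Lib.MP_b685ef_ag.AS.EDGES
import Pool.Agent.Lib.MP_b685ef_ag.AST.SUMT
import Pool.Agent.Lib.MP_b685ef_ag.AST.WGTT

section
/-!
# MP_b685ef_ag, theorem AST: module THETA2 (the splitting polynomial with recursion)

Adapted from `AS/THETA.lean`.
-/
set_option linter.all false

namespace AST

open Finset ASur

private theorem theta_add {C : Type} [NormedField C] [IsUltrametricDist C] {x y : C} {r : ℝ}
    (hx : ‖x‖ ≤ r) (hy : ‖y‖ ≤ r) : ‖x + y‖ ≤ r :=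
  (IsUltrametricDist.norm_add_le_max x y).trans (max_le hx hy)

private theorem theta_sub {C : Type} [NormedField C] [IsUltrametricDist C] {x y : C} {r : ℝ}
    (hx : ‖x‖ ≤ r) (hy : ‖y‖ ≤ r) : ‖x - y‖ ≤ r := by
  rw [sub_eq_add_neg]
  exact theta_add hx (by rwa [norm_neg])

private theorem theta_sum {C : Type} [NormedField C] [IsUltrametricDist C] {ι : Type*}
    {s : Finset ι} {f : ι → C} {r : ℝ} (hr : 0 ≤ r) (h : ∀ i ∈ s, ‖f i‖ ≤ r) :
    ‖∑ i ∈ s, f i‖ ≤ r :=
  IsUltrametricDist.norm_sum_le_of_forall_le_of_nonneg hr h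

/-- The residue of a Teichmüller trace is in the prime field. -/
private theorem theta_c0 (p : ℕ) [Fact p.Prime] {C : Type} [NormedField C]
    [IsUltrametricDist C] (hp : ‖(p : C)‖ < 1) (n : ℕ) (t : C) (ht : ‖t‖ ≤ 1)
    (htn : t ^ (p ^ n) = t) :
    ∃ c : ℕ, c < p ∧ ‖∑ i ∈ range n, t ^ (p ^ i) - (c : C)‖ < 1 := by
  haveI : CharP (KK C) p := charP_KK hp
  have hs1 : ∀ i ∈ range n, ‖t ^ (p ^ i)‖ ≤ 1 := fun i _ => by
    rw [norm_pow]
    exact pow_le_one₀ (norm_nonneg _) ht
  have hs : ‖∑ i ∈ range n, t ^ (p ^ i)‖ ≤ 1 := norm_sum_le_one _ hs1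
  have hrd : rd (∑ i ∈ range n, t ^ (p ^ i)) = ∑ i ∈ range n, rd t ^ (p ^ i) := by
    rw [rd_sum _ hs1]
    exact sum_congr rfl fun i _ => rd_pow ht _
  have hfix : (rd (∑ i ∈ range n, t ^ (p ^ i))) ^ p = rd (∑ i ∈ range n, t ^ (p ^ i)) := by
    rw [hrd, sum_pow_char p]
    have h1 : ∀ i ∈ range n, (rd t ^ (p ^ i)) ^ p = rd t ^ (p ^ (i + 1)) := fun i _ => by
      rw [← pow_mul, pow_succ]
    rw [sum_congr rfl h1]
    have h2 : rd t ^ (p ^ n) = rd t ^ (p ^ 0) := by
      rw [← rd_pow ht, htn, pow_zero, pow_one]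
    have h3 := Finset.sum_range_succ (fun i => rd t ^ (p ^ i)) n
    have h4 := Finset.sum_range_succ' (fun i => rd t ^ (p ^ i)) n
    rw [h3] at h4
    simp only [h2] at h4
    exact (add_right_cancel h4).symm
  have hbot : rd (∑ i ∈ range n, t ^ (p ^ i)) ∈ (⊥ : Subfield (KK C)) :=
    (Subfield.mem_bot_iff_pow_eq_self (KK C) p).2 hfix
  rw [← ZMod.fieldRange_castHom_eq_bot p] at hbot
  obtain ⟨c, hc⟩ := hbot
  refine ⟨c.val, ZMod.val_lt c, ?_⟩
  have hc' : rd (∑ i ∈ range n, t ^ (p ^ i)) = ((c.val : ℕ) : KK C) := by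
    rw [← hc, ZMod.castHom_apply, ZMod.cast_eq_val]
  rw [← rd_natCast (C := C)] at hc'
  exact (rd_eq_iff hs (norm_natCast_le _)).1 hc'

section
variable {C : Type} [NormedField C] [IsUltrametricDist C]

private theorem theta_ev_X (J : ℕ) (lam : C) (k : ℕ) (hk : k < J) :
    ev J lam (PowerSeries.X ^ k : PowerSeries C) = lam ^ k := by
  rw [ev, sum_eq_single k]
  · simp [PowerSeries.coeff_X_pow]
  · intro n _ hn
    simp [PowerSeries.coeff_X_pow, hn]
  · intro h
    exact absurd (mem_range.2 hk) h

private theorem theta_ev_add (J : ℕ) (lam : C) (f g : PowerSeries C) :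
    ev J lam (f + g) = ev J lam f + ev J lam g := by
  simp only [ev, map_add, add_mul, sum_add_distrib]

private theorem theta_ev_sub (J : ℕ) (lam : C) (f g : PowerSeries C) :
    ev J lam (f - g) = ev J lam f - ev J lam g := by
  simp only [ev, map_sub, sub_mul, sum_sub_distrib]

private theorem theta_ev_poly (J : ℕ) (lam : C) (P : Polynomial C) (hP : P.natDegree < J) :
    ev J lam (P : PowerSeries C) = P.eval lam := by
  rw [ev, Polynomial.eval_eq_sum_range' hP]
  exact sum_congr rfl fun n _ => by rw [Polynomial.coeff_coe]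

end

private theorem theta2_aux (hTOPG : StmtTOPG) (hDWL : StmtDWL) (hGSER : StmtGSER)
    (hPSI : StmtPSI) (hPRODF : StmtPRODF)
    (hLOW : StmtLOW) (hEVJ : StmtEVJ) (hZETA : StmtZETA) : StmtTHETA2 := by
  intro p hpp C _ _ _ _ hp j hj ζ hζ ε hε J1
  have hp2 : 2 ≤ p := (Fact.out : p.Prime).two_le
  obtain ⟨hlam0, hlam1, hlamp, hlast⟩ := hZETA p C hp ζ hζ
  obtain ⟨g, hg0, hgp, hgdeg, hgnat⟩ := hGSER p
  obtain ⟨F, hF0, hFdeg, hFeq⟩ := hDWL p g hg0 hgp hgdeg
  have hDS : DSer p g F := ⟨hgnat, hF0, hFdeg, hFeq⟩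
  obtain ⟨hlow1, hlow2⟩ := hLOW p g F hDS C j
  set lam : C := ζ - 1 with hlam
  have hlampos : 0 < ‖lam‖ := norm_pos_iff.2 hlam0
  have hlamle : ‖lam‖ ≤ 1 := hlam1.le
  -- the choice of `J`
  obtain ⟨J0, hJ0⟩ : ∃ J0 : ℕ, ‖lam‖ ^ J0 < ε * ‖lam‖ ^ (p - 1) :=
    exists_pow_lt_of_lt_one (mul_pos hε (pow_pos hlampos _)) hlam1
  obtain ⟨J, hJ1, hJ2, hJ3⟩ : ∃ J, J0 ≤ J ∧ p < J ∧ J1 ≤ J :=
    ⟨J0 + p + 1 + J1, by omega, by omega, by omega⟩
  have hJε : ‖lam‖ ^ J / ‖lam‖ ^ (p - 1) ≤ ε := by
    rw [div_le_iff₀ (pow_pos hlampos _)]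
    exact (pow_le_pow_of_le_one (norm_nonneg _) hlamle hJ1).trans hJ0.le
  have hJε' : ‖lam‖ ^ J ≤ ε := by
    refine le_trans ?_ hJε
    rw [le_div_iff₀ (pow_pos hlampos _)]
    exact mul_le_of_le_one_right (pow_nonneg (norm_nonneg _) _)
      (pow_le_one₀ (norm_nonneg _) hlamle)
  -- the polynomial
  set Θ : Polynomial C := ∑ m ∈ range J,
    Polynomial.C (lam ^ m) * (PowerSeries.coeff m F).map j with hΘ
  have hcoeff : ∀ k, Θ.coeff k = ∑ m ∈ range J, lam ^ m * j ((PowerSeries.coeff m F).coeff k) := by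
    intro k
    rw [hΘ, Polynomial.finsetSum_coeff]
    exact sum_congr rfl fun m _ => by rw [Polynomial.coeff_C_mul, Polynomial.coeff_map]
  have hzero : ∀ m k, m < k → (PowerSeries.coeff m F).coeff k = 0 := fun m k h =>
    Polynomial.coeff_eq_zero_of_natDegree_lt ((hFdeg m).trans_lt h)
  have hterm : ∀ m k, k ≤ m → ‖lam ^ m * j ((PowerSeries.coeff m F).coeff k)‖ ≤ ‖lam‖ ^ k := by
    intro m k h
    rw [norm_mul, norm_pow]
    exact (mul_le_of_le_one_right (pow_nonneg (norm_nonneg _) _) (hj _)).trans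
      (pow_le_pow_of_le_one (norm_nonneg _) hlamle h)
  have hEE : ∀ l, l < J → EE ζ Θ l = rd (j ((PowerSeries.coeff l F).coeff l)) := by
    intro l hl
    have hll : lam ^ l ≠ 0 := pow_ne_zero _ hlam0
    have hlpos : 0 < ‖lam‖ ^ l := pow_pos hlampos _
    have h1 : Θ.coeff l - lam ^ l * j ((PowerSeries.coeff l F).coeff l) =
        ∑ m ∈ (range J).erase l, lam ^ m * j ((PowerSeries.coeff m F).coeff l) := by
      rw [hcoeff, ← Finset.add_sum_erase _ _ (mem_range.2 hl), add_sub_cancel_left]
    have h2 : ‖Θ.coeff l - lam ^ l * j ((PowerSeries.coeff l F).coeff l)‖ ≤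
        ‖lam‖ ^ (l + 1) := by
      rw [h1]
      refine theta_sum (pow_nonneg (norm_nonneg _) _) fun m hm => ?_
      rw [mem_erase] at hm
      rcases Nat.lt_or_ge m l with h | h
      · rw [hzero m l h, map_zero, mul_zero, norm_zero]
        exact pow_nonneg (norm_nonneg _) _
      · have h2 : l + 1 ≤ m := by
          have := hm.1
          omega
        rw [norm_mul, norm_pow]
        exact (mul_le_of_le_one_right (pow_nonneg (norm_nonneg _) _) (hj _)).trans
          (pow_le_pow_of_le_one (norm_nonneg _) hlamle h2)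
    have h3 : ‖Θ.coeff l / lam ^ l - j ((PowerSeries.coeff l F).coeff l)‖ < 1 := by
      have h4 : Θ.coeff l / lam ^ l - j ((PowerSeries.coeff l F).coeff l) =
          (Θ.coeff l - lam ^ l * j ((PowerSeries.coeff l F).coeff l)) / lam ^ l := by
        rw [sub_div, mul_div_cancel_left₀ _ hll]
      rw [h4, norm_div, norm_pow, div_lt_one hlpos]
      refine h2.trans_lt ?_
      rw [pow_succ]
      exact mul_lt_of_lt_one_right hlpos hlam1
    have h5 : ‖Θ.coeff l / lam ^ l‖ ≤ 1 := by
      have h6 : Θ.coeff l / lam ^ l = (Θ.coeff l / lam ^ l -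
          j ((PowerSeries.coeff l F).coeff l)) + j ((PowerSeries.coeff l F).coeff l) := by ring
      rw [h6]
      exact theta_add h3.le (hj _)
    rw [EE, ← hlam]
    exact (rd_eq_iff h5 (hj _)).2 h3
  refine ⟨Θ, ⟨?_, ?_, ?_, ?_⟩, ?_⟩
  · -- constant coefficient
    rw [hcoeff, sum_eq_single 0]
    · rw [pow_zero, one_mul, PowerSeries.coeff_zero_eq_constantCoeff_apply, hF0,
        Polynomial.coeff_one_zero, map_one]
    · intro m _ hm
      rw [hlow2 m (Nat.one_le_iff_ne_zero.2 hm), mul_zero]
    · intro h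
      exact absurd (mem_range.2 (by omega)) h
  · -- bound
    intro k
    rw [hcoeff]
    refine theta_sum (pow_nonneg (norm_nonneg _) _) fun m _ => ?_
    rcases Nat.lt_or_ge m k with h | h
    · rw [hzero m k h, map_zero, mul_zero, norm_zero]
      exact pow_nonneg (norm_nonneg _) _
    · exact hterm m k h
  · -- low coefficients
    intro k hk
    have hfac : ((k.factorial : ℕ) : C) ≠ 0 := Nat.cast_ne_zero.2 (Nat.factorial_ne_zero k)
    have hkJ : k ∈ range J := mem_range.2 (by omega)
    rw [hcoeff, ← Finset.add_sum_erase _ _ hkJ]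
    have h1 : j ((PowerSeries.coeff k F).coeff k) = 1 / (k.factorial : C) := by
      rw [eq_div_iff hfac]
      exact hlow1 k hk
    rw [h1, mul_one_div, add_sub_cancel_left]
    refine theta_sum (pow_nonneg (norm_nonneg _) _) fun m hm => ?_
    rw [mem_erase] at hm
    rcases Nat.lt_or_ge m k with h | h
    · rw [hzero m k h, map_zero, mul_zero, norm_zero]
      exact pow_nonneg (norm_nonneg _) _
    · have h2 : k + 1 ≤ m := by
        have := hm.1
        omega
      rw [norm_mul, norm_pow]
      exact (mul_le_of_le_one_right (pow_nonneg (norm_nonneg _) _) (hj _)).trans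
        (pow_le_pow_of_le_one (norm_nonneg _) hlamle h2)
  · -- splitting
    intro n t htn
    rcases Nat.eq_zero_or_pos n with rfl | hn
    · refine ⟨0, by omega, ?_, ?_⟩
      · simp
      · simp [hε.le]
    have ht : ‖t‖ ≤ 1 := by
      by_contra hcon
      rw [not_le] at hcon
      have h1 : ‖t‖ ^ (p ^ n) = ‖t‖ := by rw [← norm_pow, htn]
      have h2 : 1 < p ^ n := Nat.one_lt_pow (by omega) (by omega)
      have h3 : ‖t‖ ^ 1 < ‖t‖ ^ (p ^ n) := pow_lt_pow_right₀ hcon h2
      rw [h1, pow_one] at h3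
      exact lt_irrefl _ h3
    obtain ⟨c, hc, hcs⟩ := theta_c0 p hp n t ht htn
    refine ⟨c, hc, hcs, ?_⟩
    set s : C := ∑ i ∈ range n, t ^ (p ^ i) with hs
    have hti : ∀ i : ℕ, ‖t ^ (p ^ i)‖ ≤ 1 := fun i => by
      rw [norm_pow]
      exact pow_le_one₀ (norm_nonneg _) ht
    -- the series `F(t^{p^i}, Y)`
    have hFi : ∀ i ∈ range n, ∀ m, ‖PowerSeries.coeff m
        (PowerSeries.map (Polynomial.eval₂RingHom j (t ^ (p ^ i))) F)‖ ≤ 1 := by
      intro i _ m
      rw [PowerSeries.coeff_map, Polynomial.coe_eval₂RingHom, Polynomial.eval₂_eq_sum_range]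
      refine norm_sum_le_one _ fun l _ => ?_
      rw [norm_mul, norm_pow]
      exact mul_le_one₀ (hj _) (pow_nonneg (norm_nonneg _) _)
        (pow_le_one₀ (norm_nonneg _) (hti i))
    obtain ⟨hb1, hb2⟩ := hEVJ C J lam hlamle ℕ (range n) _ hFi
    rw [hPRODF p g F hDS C j n t htn] at hb1 hb2
    have heval : ∀ i, ev J lam (PowerSeries.map (Polynomial.eval₂RingHom j (t ^ (p ^ i))) F) =
        Θ.eval (t ^ (p ^ i)) := by
      intro i
      rw [ev, hΘ, Polynomial.eval_finsetSum]
      refine sum_congr rfl fun m _ => ?_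
      rw [PowerSeries.coeff_map, Polynomial.coe_eval₂RingHom, Polynomial.eval_mul,
        Polynomial.eval_C, Polynomial.eval_map, mul_comm]
    simp only [heval] at hb2
    set b : PowerSeries C := PowerSeries.binomialSeries C s with hb
    have hbc : ∀ k, PowerSeries.coeff k b = Ring.choose s k := fun k => by
      rw [hb, PowerSeries.binomialSeries_coeff, smul_eq_mul, mul_one]
    have hch : ∀ k, ‖Ring.choose s k‖ ≤ 1 := fun k => by
      rw [← hbc]
      exact hb1 k
    set z' : C := ev J lam b with hz'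
    -- `z' = 1 + s λ mod λ²`
    have h12 : ‖z' - (1 + s * (ζ - 1))‖ ≤ ‖ζ - 1‖ ^ 2 := by
      rw [← hlam, hz', ev]
      obtain ⟨J', rfl⟩ : ∃ J', J = J' + 2 := ⟨J - 2, by omega⟩
      rw [sum_range_succ', sum_range_succ', hbc, hbc]
      simp only [zero_add, Ring.choose_zero_right, Ring.choose_one_right, pow_zero, pow_one,
        mul_one]
      have : ∀ x : C, x + s * lam + 1 - (1 + s * lam) = x := fun x => by ring
      rw [this]
      refine theta_sum (pow_nonneg (norm_nonneg _) _) fun m _ => ?_
      rw [norm_mul, norm_pow, hbc]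
      exact (mul_le_of_le_one_left (pow_nonneg (norm_nonneg _) _) (hch _)).trans
        (pow_le_pow_of_le_one (norm_nonneg _) hlamle (by omega))
    -- `z'^p` is close to `1`
    have hzp : ‖z' ^ p - 1‖ ≤ ‖lam‖ ^ J := by
      have h1 := (hEVJ C J lam hlamle ℕ (range p) (fun _ => b) (fun _ _ => hb1)).2
      rw [prod_const, card_range, prod_const, card_range, ← hz'] at h1
      -- the polynomial `Ψ`
      set Ψ : Polynomial C := (1 + Polynomial.X) ^ p - 1 with hΨ
      have hΨc : ((Ψ : Polynomial C) : PowerSeries C) = (1 + PowerSeries.X) ^ p - 1 := by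
        rw [hΨ, Polynomial.coe_sub, Polynomial.coe_pow, Polynomial.coe_add, Polynomial.coe_one,
          Polynomial.coe_X]
      have hΨint : ∀ m, ‖PowerSeries.coeff m (Ψ : PowerSeries C)‖ ≤ 1 := by
        intro m
        rw [Polynomial.coeff_coe, hΨ, Polynomial.coeff_sub, Polynomial.coeff_one_add_X_pow,
          Polynomial.coeff_one]
        refine theta_sub (norm_natCast_le _) ?_
        split_ifs <;> simp
      have hΨ0 : ev J lam (Ψ : PowerSeries C) = 0 := by
        rw [theta_ev_poly]
        · rw [hΨ]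
          simp only [Polynomial.eval_sub, Polynomial.eval_pow, Polynomial.eval_add,
            Polynomial.eval_one, Polynomial.eval_X]
          rw [hlam, add_sub_cancel, hζ.pow_eq_one, sub_self]
        · refine lt_of_le_of_lt ?_ hJ2
          rw [hΨ]
          refine (Polynomial.natDegree_sub_le _ _).trans (max_le ?_ (by simp))
          refine (Polynomial.natDegree_pow_le).trans ?_
          have : (1 + Polynomial.X : Polynomial C).natDegree ≤ 1 :=
            (Polynomial.natDegree_add_le _ _).trans (by simp)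
          calc p * (1 + Polynomial.X : Polynomial C).natDegree ≤ p * 1 :=
            Nat.mul_le_mul_left _ this
            _ = p := mul_one p
      have hk : ∀ k, 1 ≤ k → ‖ev J lam ((Ψ : PowerSeries C) ^ k)‖ ≤ ‖lam‖ ^ J := by
        intro k hk
        have := (hEVJ C J lam hlamle ℕ (range k) (fun _ => (Ψ : PowerSeries C))
          (fun _ _ => hΨint)).2
        rw [prod_const, card_range, prod_const, card_range, hΨ0, zero_pow (by omega),
          sub_zero] at this
        exact this
      have hlow : ∀ k m, m < k → PowerSeries.coeff m ((Ψ : PowerSeries C) ^ k) = 0 := by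
        intro k m hm
        have hdvd : (PowerSeries.X : PowerSeries C) ∣ (Ψ : PowerSeries C) := by
          rw [PowerSeries.X_dvd_iff, hΨc]
          simp
        have h2 : (PowerSeries.X : PowerSeries C) ^ k ∣ (Ψ : PowerSeries C) ^ k :=
          pow_dvd_pow_of_dvd hdvd k
        exact PowerSeries.X_pow_dvd_iff.1 h2 m hm
      have h2 : ev J lam (b ^ p) = ∑ k ∈ range J, Ring.choose s k *
          ev J lam ((Ψ : PowerSeries C) ^ k) := by
        rw [ev]
        have h3 : ∀ m ∈ range J, PowerSeries.coeff m (b ^ p) * lam ^ m =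
            ∑ k ∈ range J, Ring.choose s k *
              (PowerSeries.coeff m ((Ψ : PowerSeries C) ^ k) * lam ^ m) := by
          intro m hm
          rw [hb, hPSI C p s m, sum_mul, hΨc]
          rw [mem_range] at hm
          rw [← Finset.sum_subset (Finset.range_mono (show m + 1 ≤ J by omega))]
          · exact sum_congr rfl fun k _ => by ring
          · intro k _ hk2
            rw [← hΨc, hlow k m (by rw [mem_range] at hk2; omega), zero_mul, mul_zero]
        rw [sum_congr rfl h3, sum_comm]
        refine sum_congr rfl fun k _ => ?_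
        rw [ev, mul_sum]
      have h4 : ‖ev J lam (b ^ p) - 1‖ ≤ ‖lam‖ ^ J := by
        rw [h2]
        obtain ⟨J', hJ'⟩ : ∃ J', J = J' + 1 := ⟨J - 1, by omega⟩
        have h5 : ∑ k ∈ range J, Ring.choose s k * ev J lam ((Ψ : PowerSeries C) ^ k) - 1 =
            ∑ k ∈ range J', Ring.choose s (k + 1) *
              ev J lam ((Ψ : PowerSeries C) ^ (k + 1)) := by
          conv_lhs => rw [show range J = range (J' + 1) by rw [hJ']]
          rw [sum_range_succ']
          have h6 : ev J lam ((Ψ : PowerSeries C) ^ 0) = 1 := by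
            have := theta_ev_X J lam 0 (by omega)
            rw [pow_zero] at this ⊢
            rw [this, pow_zero]
          rw [h6, Ring.choose_zero_right]
          ring
        rw [h5]
        refine theta_sum (pow_nonneg (norm_nonneg _) _) fun k _ => ?_
        rw [norm_mul]
        exact (mul_le_of_le_one_left (norm_nonneg _) (hch _)).trans (hk _ (by omega))
      have h7 : z' ^ p - 1 = (ev J lam (b ^ p) - 1) - (ev J lam (b ^ p) - z' ^ p) := by ring
      rw [h7]
      exact theta_sub h4 h1
    have hfin := hlast z' s c (‖lam‖ ^ J) hc hcs h12 hzp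
    have h8 : ∏ i ∈ range n, Θ.eval (t ^ (p ^ i)) - ζ ^ c =
        (z' - ζ ^ c) - (z' - ∏ i ∈ range n, Θ.eval (t ^ (p ^ i))) := by ring
    rw [h8]
    exact theta_sub (hfin.trans hJε) (hb2.trans hJε')
  · -- the recursion
    refine ⟨?_, ?_⟩
    · rw [hEE 0 (by omega), PowerSeries.coeff_zero_eq_constantCoeff_apply, hF0,
        Polynomial.coeff_one_zero, map_one, rd_one]
    · intro l hl1 hlJ
      have htop := hTOPG p g F hDS hgdeg l hl1
      have h1 : (l : C) * j ((PowerSeries.coeff l F).coeff l) =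
          ∑ i ∈ range (l + 1), if p ^ i ≤ l then
            j ((PowerSeries.coeff (l - p ^ i) F).coeff (l - p ^ i)) else 0 := by
        have := congrArg j htop
        rw [map_mul, map_natCast, map_sum] at this
        rw [this]
        refine sum_congr rfl fun i _ => ?_
        split_ifs
        · rfl
        · exact map_zero j
      have h2 := congrArg rd h1
      rw [rd_mul (norm_natCast_le _) (hj _), rd_natCast, rd_sum _ (fun i _ => by
        split_ifs
        · exact hj _
        · simp)] at h2
      rw [hEE l (by omega), h2]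
      refine sum_congr rfl fun i _ => ?_
      split_ifs with hi
      · rw [hEE (l - p ^ i) (by omega)]
      · exact rd_zero

/-- **THETA2.** -/
theorem THETA2_thm (hTOPG : StmtTOPG) : StmtTHETA2 :=
  theta2_aux hTOPG DWL_thm gser_thm PSI_thm main_PRODF (LOW_thm main_PRODF) EVJ_thm zeta_thm

end AST
end

section
/-!
# MP_b685ef_ag, theorem AST: module TLU

The tensor product of the one variable factorizations, on the box.
-/
set_option linter.all false

namespace AST

open Finset ASur

theorem tlu_yy {n : ℕ} (W : Matrix (Fin n) (Fin n) ℤ) (u : Fin n → ℤ) :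
    yy W u = W.mulVec u := by
  ext j
  simp [yy, Matrix.mulVec, dotProduct]

theorem tlu_inj {n D : ℕ} (hD : 1 ≤ D) {W W' : Matrix (Fin n) (Fin n) ℤ}
    (h : W' * W = (D : ℤ) • (1 : Matrix (Fin n) (Fin n) ℤ)) {u v : Fin n → ℤ}
    (huv : ∀ j, yy W u j = yy W v j) : u = v := by
  have e : W.mulVec u = W.mulVec v := by
    rw [← tlu_yy, ← tlu_yy]
    exact funext huv
  have e2 : W'.mulVec (W.mulVec u) = W'.mulVec (W.mulVec v) := by rw [e]
  rw [Matrix.mulVec_mulVec, Matrix.mulVec_mulVec, h, Matrix.smul_mulVec, Matrix.smul_mulVec,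
    Matrix.one_mulVec, Matrix.one_mulVec] at e2
  funext j
  have e3 := congrFun e2 j
  simp only [Pi.smul_apply, smul_eq_mul] at e3
  have hD' : (D : ℤ) ≠ 0 := by exact_mod_cast (by omega : D ≠ 0)
  exact mul_left_cancel₀ hD' e3

/-- The shifted exponent. -/
theorem tlu_shift {n D : ℕ} {W W' : Matrix (Fin n) (Fin n) ℤ}
    (h : W * W' = (D : ℤ) • (1 : Matrix (Fin n) (Fin n) ℤ)) (u : Fin n → ℤ) (z : Fin n → ℤ)
    (j : Fin n) : yy W (u - W'.mulVec z) j = yy W u j - D * z j := by
  rw [tlu_yy, tlu_yy, Matrix.mulVec_sub, Matrix.mulVec_mulVec, h, Matrix.smul_mulVec,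
    Matrix.one_mulVec]
  simp

theorem tlu_le {n : ℕ} {W : Matrix (Fin n) (Fin n) ℤ} {u : Fin n → ℤ} {m : ℕ}
    (h0 : ∀ j, 0 ≤ yy W u j) (h : wt W u ≤ m) (j : Fin n) : (yy W u j).toNat ≤ m := by
  have h1 : yy W u j ≤ wt W u := by
    unfold wt
    exact Finset.single_le_sum (f := fun j => yy W u j) (fun i _ => h0 i) (Finset.mem_univ j)
  omega

theorem tlu_lt {n D : ℕ} (hD : 1 ≤ D) {W W' : Matrix (Fin n) (Fin n) ℤ}
    (h : W' * W = (D : ℤ) • (1 : Matrix (Fin n) (Fin n) ℤ)) {u v : Fin n → ℤ}
    (hu : ∀ j, 0 ≤ yy W u j) (hv : ∀ j, 0 ≤ yy W v j)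
    (huv : ∀ j, (yy W u j).toNat ≤ (yy W v j).toNat) : u = v ∨ wt W u < wt W v := by
  by_cases hall : ∀ j, yy W u j = yy W v j
  · left
    exact tlu_inj hD h hall
  · right
    push Not at hall
    obtain ⟨j, hj⟩ := hall
    unfold wt
    refine Finset.sum_lt_sum (fun i _ => ?_) ⟨j, Finset.mem_univ j, ?_⟩
    · have := huv i
      have := hu i
      have := hv i
      omega
    · have := huv j
      have := hu j
      have := hv j
      omega

theorem tlu_thm (h1 : StmtONEV) : StmtTLU := by
  intro κ _ p _ _ J0 E hE D hDp n W W' hW hW' a ha m N S hS hmN hJ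
  have hp2 : 2 ≤ p := (Fact.out : p.Prime).two_le
  have hD : 1 ≤ D := Nat.pos_of_dvd_of_pos hDp (by omega)
  choose L U hM hL hU hU1 hL1 using fun j => h1 κ p J0 E hE D hDp (a j) (ha j) m hJ
  have hS0 : ∀ u : S, ∀ j, 0 ≤ yy W u.1 j := fun u j => ((hS u.1).1 u.2 j).1
  refine ⟨fun u w => ∏ j, L j (yy W u.1 j).toNat (yy W w.1 j).toNat,
    fun w v => ∏ j, U j (yy W w.1 j).toNat (yy W v.1 j).toNat, ?_, ?_, ?_, ?_, ?_⟩
  · intro u v hu hv
    have hMM : MM p D W E a u.1 v.1 = ∑ w ∈ Fintype.piFinset (fun _ : Fin n => range (m + 1)),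
        ∏ j, L j (yy W u.1 j).toNat (w j) * U j (w j) (yy W v.1 j).toNat := by
      rw [← Finset.prod_univ_sum (fun _ : Fin n => range (m + 1))
        (fun j w => L j (yy W u.1 j).toNat w * U j w (yy W v.1 j).toNat)]
      unfold MM
      apply Finset.prod_congr rfl
      intro j _
      exact hM j _ _ (tlu_le (hS0 u) hu j) (tlu_le (hS0 v) hv j)
    rw [hMM]
    symm
    refine Finset.sum_of_injOn (fun w : S => fun j => (yy W w.1 j).toNat) ?_ ?_ ?_ ?_
    · intro w hw w' hw' hww
      apply Subtype.ext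
      apply tlu_inj hD hW'
      intro j
      have h3 := congrFun hww j
      have h4 := hS0 w j
      have h5 := hS0 w' j
      simp only at h3
      omega
    · intro w hw
      simp only [Finset.coe_filter, Finset.mem_univ, true_and, Set.mem_setOf_eq] at hw
      simp only [Finset.mem_coe, Fintype.mem_piFinset, Finset.mem_range]
      intro j
      have := tlu_le (hS0 w) hw j
      omega
    · intro w hw hnot
      by_contra hne
      apply hnot
      have hne' := (Finset.prod_ne_zero_iff.1 hne)
      have hLj : ∀ j, w j ≤ (yy W u.1 j).toNat ∧ D ∣ (yy W u.1 j).toNat - w j := fun j =>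
        hL j _ _ (left_ne_zero_of_mul (hne' j (Finset.mem_univ j)))
      choose z hz using fun j => (hLj j).2
      have hy : ∀ j, yy W (u.1 - W'.mulVec (fun i => (z i : ℤ))) j = w j := by
        intro j
        rw [tlu_shift hW]
        have h3 := hz j
        have h4 := (hLj j).1
        have h5 := hS0 u j
        have h6 : ((yy W u.1 j).toNat : ℤ) - w j = D * z j := by
          have : (((yy W u.1 j).toNat - w j : ℕ) : ℤ) = ((D * z j : ℕ) : ℤ) := by rw [h3]
          push_cast [Nat.cast_sub h4] at this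
          exact this
        rw [← h6]
        omega
      have hin : u.1 - W'.mulVec (fun i => (z i : ℤ)) ∈ S := by
        rw [hS]
        intro j
        rw [hy]
        have h3 := tlu_le (hS0 u) hu j
        have h4 := (hLj j).1
        constructor
        · omega
        · have : w j < N := by omega
          exact_mod_cast this
      refine ⟨⟨_, hin⟩, ?_, ?_⟩
      · simp only [Finset.coe_filter, Finset.mem_univ, true_and, Set.mem_setOf_eq]
        refine le_trans ?_ hu
        unfold wt
        apply Finset.sum_le_sum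
        intro j _
        rw [hy]
        have h4 := (hLj j).1
        have h5 := hS0 u j
        omega
      · funext j
        simp only
        rw [hy]
        simp
    · intro w _
      simp only
      rw [← Finset.prod_mul_distrib]
  · intro u w hne
    have hne' := (Finset.prod_ne_zero_iff.1 hne)
    exact Or.imp_left Subtype.ext (tlu_lt hD hW' (hS0 w) (hS0 u)
      fun j => (hL j _ _ (hne' j (Finset.mem_univ j))).1)
  · intro w v hne
    have hne' := (Finset.prod_ne_zero_iff.1 hne)
    exact Or.imp_left Subtype.ext (tlu_lt hD hW' (hS0 w) (hS0 v)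
      fun j => (hU j _ _ (hne' j (Finset.mem_univ j))).1)
  · intro u
    exact Finset.prod_eq_one fun j _ => hU1 j _
  · intro u hu
    rw [← Finset.prod_mul_distrib]
    apply Finset.prod_congr rfl
    intro j _
    exact hL1 j _ (tlu_le (hS0 u) hu j)

end AST
end

section
/-!
# MP_b685ef_ag, theorem AST, module TOPG: the recursion for the top coefficients
-/
set_option linter.all false

namespace AST
open Finset ASur

private noncomputable def tp {R : Type*} [CommRing R] (H : PowerSeries (Polynomial R)) :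
    PowerSeries R :=
  PowerSeries.mk fun n => (PowerSeries.coeff n H).coeff n

private lemma tp_coeff {R : Type*} [CommRing R] (H : PowerSeries (Polynomial R)) (n : ℕ) :
    PowerSeries.coeff n (tp H) = (PowerSeries.coeff n H).coeff n := by
  rw [tp, PowerSeries.coeff_mk]

private lemma tp_mul {R : Type*} [CommRing R] (H K : PowerSeries (Polynomial R))
    (hH : ∀ n, (PowerSeries.coeff n H).natDegree ≤ n)
    (hK : ∀ n, (PowerSeries.coeff n K).natDegree ≤ n) : tp (H * K) = tp H * tp K := by
  ext n
  rw [tp_coeff, PowerSeries.coeff_mul, PowerSeries.coeff_mul, Polynomial.finset_sum_coeff]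
  refine Finset.sum_congr rfl fun x hx => ?_
  rw [HasAntidiagonal.mem_antidiagonal] at hx
  rw [← hx, Polynomial.coeff_mul_add_eq_of_natDegree_le (hH _) (hK _), tp_coeff, tp_coeff]

private lemma deg_mul {R : Type*} [CommRing R] (H K : PowerSeries (Polynomial R))
    (hH : ∀ n, (PowerSeries.coeff n H).natDegree ≤ n)
    (hK : ∀ n, (PowerSeries.coeff n K).natDegree ≤ n) (n : ℕ) :
    (PowerSeries.coeff n (H * K)).natDegree ≤ n := by
  rw [PowerSeries.coeff_mul]
  refine Polynomial.natDegree_sum_le_of_forall_le _ _ fun x hx => ?_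
  rw [HasAntidiagonal.mem_antidiagonal] at hx
  refine Polynomial.natDegree_mul_le.trans ?_
  have h1 := hH x.1
  have h2 := hK x.2
  omega

private lemma tp_one {R : Type*} [CommRing R] : tp (1 : PowerSeries (Polynomial R)) = 1 := by
  ext n
  rw [tp_coeff, PowerSeries.coeff_one, PowerSeries.coeff_one]
  split_ifs with h
  · subst h; simp
  · simp

private lemma deg_one {R : Type*} [CommRing R] (n : ℕ) :
    (PowerSeries.coeff n (1 : PowerSeries (Polynomial R))).natDegree ≤ n := by
  rw [PowerSeries.coeff_one]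
  split_ifs with h <;> simp

private lemma deg_pow {R : Type*} [CommRing R] (H : PowerSeries (Polynomial R))
    (hH : ∀ n, (PowerSeries.coeff n H).natDegree ≤ n) (k : ℕ) :
    ∀ n, (PowerSeries.coeff n (H ^ k)).natDegree ≤ n := by
  induction k with
  | zero => intro n; rw [pow_zero]; exact deg_one n
  | succ k ih => rw [pow_succ]; exact deg_mul _ _ ih hH

private lemma tp_pow {R : Type*} [CommRing R] (H : PowerSeries (Polynomial R))
    (hH : ∀ n, (PowerSeries.coeff n H).natDegree ≤ n) (k : ℕ) : tp (H ^ k) = tp H ^ k := by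
  induction k with
  | zero => rw [pow_zero, pow_zero, tp_one]
  | succ k ih => rw [pow_succ, pow_succ, tp_mul _ _ (deg_pow H hH k) hH, ih]

private lemma tp_map {R S : Type*} [CommRing R] [CommRing S] (j : R →+* S)
    (H : PowerSeries (Polynomial R)) :
    tp (PowerSeries.map (Polynomial.mapRingHom j) H) = PowerSeries.map j (tp H) := by
  ext n
  rw [tp_coeff, PowerSeries.coeff_map, PowerSeries.coeff_map, tp_coeff, Polynomial.coe_mapRingHom,
    Polynomial.coeff_map]

private lemma tp_expand {R : Type*} [CommRing R] (p : ℕ) (hp : p ≠ 0)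
    (H : PowerSeries (Polynomial R)) :
    tp (PowerSeries.expand p hp (PowerSeries.map (Polynomial.expand R p).toRingHom H)) =
      PowerSeries.expand p hp (tp H) := by
  ext n
  rw [tp_coeff]
  by_cases h : p ∣ n
  · obtain ⟨m, rfl⟩ := h
    rw [PowerSeries.coeff_expand_mul, PowerSeries.coeff_expand_mul, PowerSeries.coeff_map, tp_coeff]
    change ((Polynomial.expand R p) (PowerSeries.coeff m H)).coeff (p * m) = _
    rw [mul_comm, Polynomial.coeff_expand_mul (Nat.pos_of_ne_zero hp)]
  · rw [PowerSeries.coeff_expand_of_not_dvd _ _ _ h, PowerSeries.coeff_expand_of_not_dvd _ _ _ h]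
    simp

private noncomputable def ee (C : Type) [Field C] : PowerSeries C :=
  PowerSeries.mk fun n => (n.factorial : C)⁻¹

private lemma tp_bin (C : Type) [Field C] [CharZero C] :
    tp (PowerSeries.mk (bin_P C)) = ee C := by
  ext n
  rw [tp_coeff, PowerSeries.coeff_mk, ee, PowerSeries.coeff_mk, bin_P, Polynomial.coeff_C_mul]
  have h : (descPochhammer C n).coeff n = 1 := by
    have h1 := monic_descPochhammer C n
    have h2 := descPochhammer_natDegree C n
    rw [Polynomial.Monic, Polynomial.leadingCoeff, h2] at h1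
    exact h1
  rw [h, mul_one]

private lemma deg_bin (C : Type) [Field C] [CharZero C] (n : ℕ) :
    (PowerSeries.coeff n (PowerSeries.mk (bin_P C))).natDegree ≤ n := by
  rw [PowerSeries.coeff_mk, bin_P]
  refine (Polynomial.natDegree_C_mul_le _ _).trans ?_
  rw [descPochhammer_natDegree]

private lemma tp_expand_bin (C : Type) [Field C] [CharZero C] (p : ℕ) (hp : 2 ≤ p) :
    tp (PowerSeries.expand p (by omega) (PowerSeries.mk (bin_P C))) = 1 := by
  ext n
  rw [tp_coeff, PowerSeries.coeff_one]
  by_cases h0 : n = 0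
  · subst h0
    rw [if_pos rfl]
    have h : PowerSeries.coeff 0 (PowerSeries.expand p (by omega) (PowerSeries.mk (bin_P C))) =
        bin_P C 0 := by
      have := PowerSeries.coeff_expand_mul (p := p) (by omega) (PowerSeries.mk (bin_P C)) 0
      rw [mul_zero] at this
      rw [this, PowerSeries.coeff_mk]
    rw [h, bin_P]
    simp
  · rw [if_neg h0]
    by_cases h : p ∣ n
    · obtain ⟨m, rfl⟩ := h
      rw [PowerSeries.coeff_expand_mul, PowerSeries.coeff_mk]
      apply Polynomial.coeff_eq_zero_of_natDegree_lt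
      have h1 : (bin_P C m).natDegree ≤ m := by
        rw [bin_P]
        refine (Polynomial.natDegree_C_mul_le _ _).trans ?_
        rw [descPochhammer_natDegree]
      have hm : 0 < m := Nat.pos_of_ne_zero (by rintro rfl; simp at h0)
      nlinarith
    · rw [PowerSeries.coeff_expand_of_not_dvd _ _ _ h]
      simp

private lemma bin_key (p : ℕ) [hp : Fact p.Prime] (g : PowerSeries (Polynomial ℤ_[p]))
    (hg : ∀ s : ℕ, ((1 : PowerSeries ℤ_[p]) + PowerSeries.X ^ p) ^ s =
    (1 + PowerSeries.X) ^ (p * s) *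
      PowerSeries.map (Polynomial.evalRingHom (s : ℤ_[p])) g)
    (C : Type) [Field C] [CharZero C] (j : ℤ_[p] →+* C) :
    PowerSeries.expand p hp.out.ne_zero (PowerSeries.mk (bin_P C)) =
      (PowerSeries.mk (bin_P C)) ^ p * PowerSeries.map (Polynomial.mapRingHom j) g := by
  apply bin_ext
  intro m
  have h1 := congrArg (PowerSeries.map j) (hg m)
  simp only [map_mul, map_pow, map_add, map_one, PowerSeries.map_X] at h1
  rw [PowerSeries.map_expand, map_mul, map_pow, bin_map, PowerSeries.binomialSeries_nat,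
    map_pow, map_add, map_one, PowerSeries.expand_X, h1, ← pow_mul, mul_comm m p]
  congr 1
  ext n
  simp only [PowerSeries.coeff_map, Polynomial.coe_evalRingHom, Polynomial.coe_mapRingHom]
  rw [Polynomial.eval_map, Polynomial.eval₂_at_natCast]

private lemma ee_gamma (p : ℕ) [hp : Fact p.Prime] (g : PowerSeries (Polynomial ℤ_[p]))
    (hg : ∀ s : ℕ, ((1 : PowerSeries ℤ_[p]) + PowerSeries.X ^ p) ^ s =
    (1 + PowerSeries.X) ^ (p * s) *
      PowerSeries.map (Polynomial.evalRingHom (s : ℤ_[p])) g)
    (hd : ∀ n, (PowerSeries.coeff n g).natDegree ≤ n)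
    (C : Type) [Field C] [CharZero C] (j : ℤ_[p] →+* C) :
    ee C ^ p * PowerSeries.map j (tp g) = 1 := by
  have h := congrArg tp (bin_key p g hg C j)
  rw [tp_expand_bin C p hp.out.two_le, tp_mul _ _ (deg_pow _ (deg_bin C) p), tp_pow _ (deg_bin C),
    tp_bin, tp_map] at h
  · exact h.symm
  · intro n
    rw [PowerSeries.coeff_map, Polynomial.coe_mapRingHom]
    exact Polynomial.natDegree_map_le.trans (hd n)


/-! ## The Euler operator -/

private noncomputable def th {C : Type} [Field C] (H : PowerSeries C) : PowerSeries C :=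
  PowerSeries.mk fun n => (n : C) * PowerSeries.coeff n H

private lemma th_coeff {C : Type} [Field C] (H : PowerSeries C) (n : ℕ) :
    PowerSeries.coeff n (th H) = (n : C) * PowerSeries.coeff n H := by
  rw [th, PowerSeries.coeff_mk]

private lemma th_mul {C : Type} [Field C] (H K : PowerSeries C) :
    th (H * K) = th H * K + H * th K := by
  ext n
  rw [th_coeff, map_add, PowerSeries.coeff_mul, PowerSeries.coeff_mul, PowerSeries.coeff_mul,
    Finset.mul_sum, ← Finset.sum_add_distrib]
  refine Finset.sum_congr rfl fun x hx => ?_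
  rw [HasAntidiagonal.mem_antidiagonal] at hx
  rw [← hx, th_coeff, th_coeff]
  push_cast
  ring

private lemma th_pow {C : Type} [Field C] (H : PowerSeries C) (k : ℕ) :
    th (H ^ (k + 1)) = (k + 1 : PowerSeries C) * H ^ k * th H := by
  induction k with
  | zero => simp
  | succ k ih =>
    rw [pow_succ H (k + 1), th_mul, ih]
    push_cast
    ring

private lemma th_expand {C : Type} [Field C] (p : ℕ) (hp : p ≠ 0) (H : PowerSeries C) :
    th (PowerSeries.expand p hp H) = (p : PowerSeries C) * PowerSeries.expand p hp (th H) := by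
  ext n
  rw [th_coeff, ← nsmul_eq_mul p, map_nsmul, nsmul_eq_mul]
  by_cases h : p ∣ n
  · obtain ⟨m, rfl⟩ := h
    rw [PowerSeries.coeff_expand_mul, PowerSeries.coeff_expand_mul, th_coeff]
    push_cast
    ring
  · rw [PowerSeries.coeff_expand_of_not_dvd _ _ _ h, PowerSeries.coeff_expand_of_not_dvd _ _ _ h]
    simp

private lemma th_ee (C : Type) [Field C] [CharZero C] : th (ee C) = PowerSeries.X * ee C := by
  ext n
  rw [th_coeff]
  cases n with
  | zero => simp
  | succ n =>
    rw [PowerSeries.coeff_succ_X_mul, ee, PowerSeries.coeff_mk, PowerSeries.coeff_mk,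
      Nat.factorial_succ]
    push_cast
    have h1 : ((n : C) + 1) ≠ 0 := by exact_mod_cast Nat.succ_ne_zero n
    rw [mul_inv, ← mul_assoc, mul_inv_cancel₀ h1, one_mul]

private lemma th_one {C : Type} [Field C] : th (1 : PowerSeries C) = 0 := by
  ext n
  rw [th_coeff, PowerSeries.coeff_one]
  split_ifs with h
  · subst h; simp
  · simp

private lemma th_gamma (C : Type) [Field C] [CharZero C] (p : ℕ) (hp : 1 ≤ p) (γ : PowerSeries C)
    (h : ee C ^ p * γ = 1) : th γ = - ((p : PowerSeries C) * PowerSeries.X * γ) := by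
  obtain ⟨k, rfl⟩ : ∃ k, p = k + 1 := ⟨p - 1, by omega⟩
  have h1 : th (ee C ^ (k + 1) * γ) = 0 := by rw [h, th_one]
  rw [th_mul, th_pow, th_ee] at h1
  have h2 : ee C ^ (k + 1) * (th γ + ((k + 1 : ℕ) : PowerSeries C) * PowerSeries.X * γ) = 0 := by
    rw [← h1]
    push_cast
    ring
  have h3 : γ * (ee C ^ (k + 1) * (th γ + ((k + 1 : ℕ) : PowerSeries C) * PowerSeries.X * γ)) = 0 := by
    rw [h2, mul_zero]
  rw [← mul_assoc, mul_comm γ, h, one_mul] at h3
  exact eq_neg_of_add_eq_zero_left h3

private lemma main_K (C : Type) [Field C] [CharZero C] (p : ℕ) (hp : 2 ≤ p) (G γ : PowerSeries C)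
    (hG0 : PowerSeries.constantCoeff G = 1) (hγ : ee C ^ p * γ = 1)
    (hE : PowerSeries.expand p (by omega) G = G ^ p * γ) (l : ℕ) :
    (l : C) * PowerSeries.coeff l G =
      ∑ i ∈ range (l + 1), if p ^ i ≤ l then PowerSeries.coeff (l - p ^ i) G else 0 := by
  have hp0 : p ≠ 0 := by omega
  have hpC : (p : PowerSeries C) ≠ 0 := by
    intro h
    have := congrArg PowerSeries.constantCoeff h
    rw [map_natCast, map_zero] at this
    exact hp0 (by exact_mod_cast this)
  have hGne : G ≠ 0 := by
    intro h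
    rw [h, map_zero] at hG0
    exact zero_ne_one hG0
  have hEne : PowerSeries.expand p hp0 G ≠ 0 := by
    intro h
    have h1 := congrArg PowerSeries.constantCoeff h
    rw [PowerSeries.constantCoeff_expand, hG0, map_zero] at h1
    exact one_ne_zero h1
  have hinv : G * G⁻¹ = 1 := PowerSeries.mul_inv_cancel G (by rw [hG0]; exact one_ne_zero)
  -- differentiate
  have h1 : (p : PowerSeries C) * PowerSeries.expand p hp0 (th G) * G =
      (p : PowerSeries C) * (PowerSeries.expand p hp0 G * (th G - PowerSeries.X * G)) := by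
    rw [← th_expand, hE, th_mul, th_gamma C p (by omega) γ hγ]
    obtain ⟨k, rfl⟩ : ∃ k, p = k + 1 := ⟨p - 1, by omega⟩
    rw [th_pow]
    push_cast
    ring
  have h2 : PowerSeries.expand p hp0 (th G) * G =
      PowerSeries.expand p hp0 G * (th G - PowerSeries.X * G) := by
    rw [mul_assoc] at h1
    exact mul_left_cancel₀ hpC h1
  set y : PowerSeries C := th G * G⁻¹ with hy
  have hyG : y * G = th G := by
    rw [hy, mul_assoc, mul_comm G⁻¹, hinv, mul_one]
  have h3 : PowerSeries.expand p hp0 y = y - PowerSeries.X := by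
    have h4 : PowerSeries.expand p hp0 y * PowerSeries.expand p hp0 G =
        PowerSeries.expand p hp0 (th G) := by rw [← map_mul, hyG]
    have h5 : (PowerSeries.expand p hp0 G * G) * PowerSeries.expand p hp0 y =
        (PowerSeries.expand p hp0 G * G) * (y - PowerSeries.X) := by
      calc (PowerSeries.expand p hp0 G * G) * PowerSeries.expand p hp0 y
          = (PowerSeries.expand p hp0 y * PowerSeries.expand p hp0 G) * G := by ring
        _ = PowerSeries.expand p hp0 G * (th G - PowerSeries.X * G) := by rw [h4, h2]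
        _ = PowerSeries.expand p hp0 G * (y * G - PowerSeries.X * G) := by rw [hyG]
        _ = _ := by ring
    exact mul_left_cancel₀ (mul_ne_zero hEne hGne) h5
  have hy0 : PowerSeries.coeff 0 y = 0 := by
    have h6 : PowerSeries.constantCoeff (th G) = 0 := by
      rw [← PowerSeries.coeff_zero_eq_constantCoeff_apply, th_coeff]; simp
    rw [hy, PowerSeries.coeff_zero_eq_constantCoeff_apply, map_mul, h6, zero_mul]
  have hyn : ∀ n, (∀ i, p ^ i ≠ n) → PowerSeries.coeff n y = 0 := by
    intro n
    induction n using Nat.strong_induction_on with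
    | _ n ih =>
      intro hn
      by_cases h0 : n = 0
      · rw [h0]; exact hy0
      have h7 := congrArg (PowerSeries.coeff n) h3
      rw [map_sub, PowerSeries.coeff_X] at h7
      have hn1 : n ≠ 1 := fun h => hn 0 (by rw [h, pow_zero])
      rw [if_neg hn1, sub_zero] at h7
      rw [← h7]
      by_cases h : p ∣ n
      · obtain ⟨m, rfl⟩ := h
        rw [PowerSeries.coeff_expand_mul]
        have hm : 0 < m := Nat.pos_of_ne_zero (by rintro rfl; simp at h0)
        refine ih m (by nlinarith) fun i hi => hn (i + 1) ?_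
        rw [pow_succ, hi, mul_comm]
      · exact PowerSeries.coeff_expand_of_not_dvd _ _ _ h
  have hy1 : ∀ i, PowerSeries.coeff (p ^ i) y = 1 := by
    intro i
    induction i with
    | zero =>
      have h7 := congrArg (PowerSeries.coeff 1) h3
      rw [map_sub, PowerSeries.coeff_X, if_pos rfl, PowerSeries.coeff_expand_of_not_dvd _ _ _
        (by rw [Nat.dvd_one]; omega)] at h7
      rw [pow_zero]
      exact (sub_eq_zero.mp h7.symm)
    | succ i ih =>
      have h7 := congrArg (PowerSeries.coeff (p ^ (i + 1))) h3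
      have h8 : p ^ (i + 1) ≠ 1 := by
        have : 1 < p ^ (i + 1) := Nat.one_lt_pow (by omega) (by omega)
        omega
      rw [map_sub, PowerSeries.coeff_X, if_neg h8, sub_zero] at h7
      rw [← h7, pow_succ, mul_comm, PowerSeries.coeff_expand_mul, ih]
  have hfin : (l : C) * PowerSeries.coeff l G = ∑ a ∈ range (l + 1),
      PowerSeries.coeff a y * PowerSeries.coeff (l - a) G := by
    rw [← th_coeff, ← hyG, PowerSeries.coeff_mul]
    exact Finset.Nat.sum_antidiagonal_eq_sum_range_succ
      (fun a b => PowerSeries.coeff a y * PowerSeries.coeff b G) l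
  rw [hfin]
  have hys : ∀ a ∈ range (l + 1), PowerSeries.coeff a y * PowerSeries.coeff (l - a) G =
      ∑ i ∈ range (l + 1), if p ^ i = a then PowerSeries.coeff (l - a) G else 0 := by
    intro a ha
    by_cases h : ∃ i, p ^ i = a
    · obtain ⟨i, rfl⟩ := h
      have hi : i < p ^ i := Nat.lt_pow_self (by omega)
      rw [mem_range] at ha
      rw [hy1, one_mul, Finset.sum_eq_single i, if_pos rfl]
      · intro b _ hb
        rw [if_neg]
        intro h9
        exact hb (Nat.pow_right_injective hp h9)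
      · intro h9
        exact absurd (mem_range.mpr (by omega)) h9
    · push Not at h
      rw [hyn a h, zero_mul]
      symm
      exact Finset.sum_eq_zero fun i _ => if_neg (h i)
  rw [Finset.sum_congr rfl hys, Finset.sum_comm]
  refine Finset.sum_congr rfl fun i hi => ?_
  rw [Finset.sum_ite_eq]
  simp only [mem_range, Nat.lt_succ_iff]

theorem topg_thm : StmtTOPG := by
  intro p hp g F hF hd l hl
  let j : ℤ_[p] →+* ℚ_[p] := PadicInt.Coe.ringHom
  have hj : Function.Injective j := Subtype.coe_injective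
  have hG0 : PowerSeries.constantCoeff (PowerSeries.map j (tp F)) = 1 := by
    rw [← PowerSeries.coeff_zero_eq_constantCoeff_apply, PowerSeries.coeff_map, tp_coeff,
      PowerSeries.coeff_zero_eq_constantCoeff_apply, hF.F0]
    simp
  have hE : PowerSeries.expand p hp.out.ne_zero (PowerSeries.map j (tp F)) =
      (PowerSeries.map j (tp F)) ^ p * PowerSeries.map j (tp g) := by
    have h := congrArg tp hF.Feq
    rw [tp_expand, tp_mul _ _ (deg_pow F hF.Fdeg p) hd, tp_pow F hF.Fdeg] at h
    rw [← PowerSeries.map_expand, h, map_mul, map_pow]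
  have h := main_K ℚ_[p] p hp.out.two_le _ _ hG0 (ee_gamma p g hF.gnat hd ℚ_[p] j) hE l
  apply hj
  rw [map_mul, map_natCast, map_sum]
  rw [PowerSeries.coeff_map, tp_coeff] at h
  rw [h]
  refine Finset.sum_congr rfl fun i _ => ?_
  split_ifs with h1
  · rw [PowerSeries.coeff_map, tp_coeff]
  · rw [map_zero]

end AST
end

section
/-!
# MP_b685ef_ag, theorem AST: the trace formula on the torus
-/
set_option linter.all false

namespace AST

open Finset ASur

private theorem trft_period {p : ℕ} [Fact p.Prime] {C : Type} [NormedField C]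
    [IsUltrametricDist C] (Θ : Polynomial C) {k : Type} [Field k] [Fintype k] [Algebra (ZMod p) k]
    (τ : k →*₀ C) {n : ℕ} (f : (Fin n → ℤ) →₀ k) (i : ℕ) :
    FT p τ Θ f (i + Module.finrank (ZMod p) k) = FT p τ Θ f i := by
  unfold FT
  refine Finset.prod_congr rfl fun m _ => ?_
  have hc : Fintype.card k = p ^ Module.finrank (ZMod p) k := by
    have := Module.card_eq_pow_finrank (K := ZMod p) (V := k)
    rwa [ZMod.card] at this
  have h : τ (f m) ^ p ^ (i + Module.finrank (ZMod p) k) = τ (f m) ^ p ^ i := by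
    rw [add_comm i, pow_add, pow_mul, ← hc, ← map_pow, FiniteField.pow_card]
  rw [h]

theorem trft_thm (hTEXT : ASur.StmtTEXT) (hCHST : StmtCHST) (hSUMT : StmtSUMT)
    (hPATHT : StmtPATHT) (hPER : ASur.StmtPER) : StmtTRFT := by
  intro p _ C _ _ _ _ hp ψ ε Θ hε hΘ k _ _ _ ι τ hτ n f W N S hN hS hF E _ _ _ _
  have hp1 : 1 ≤ p := (Fact.out : p.Prime).one_lt.le
  obtain ⟨ιE, τE, hτE, hext⟩ := hTEXT p C hp k ι τ hτ E
  have hT : IsScalarTower (ZMod p) k E := by
    refine IsScalarTower.of_algebraMap_eq' ?_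
    exact Subsingleton.elim _ _
  have hcardk : Fintype.card k = p ^ Module.finrank (ZMod p) k := by
    have := Module.card_eq_pow_finrank (K := ZMod p) (V := k)
    rwa [ZMod.card] at this
  have hn : Module.finrank (ZMod p) E = Module.finrank (ZMod p) k * Module.finrank k E :=
    (Module.finrank_mul_finrank (ZMod p) k E).symm
  have hcardE : Fintype.card E = p ^ (Module.finrank (ZMod p) k * Module.finrank k E) := by
    have := Module.card_eq_pow_finrank (K := ZMod p) (V := E)
    rw [ZMod.card, hn] at this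
    exact this
  have hQ : (Fintype.card E : C) = (Fintype.card k : C) ^ Module.finrank k E := by
    rw [hcardE, pow_mul, ← hcardk]
    push_cast
    rfl
  have hchs := hCHST p C hp ψ ε Θ hε hΘ k τ E ιE τE hτE hext n f
  rw [hn] at hchs
  obtain ⟨hdeg, htr⟩ := hPATHT p hp1 C n W N S hN hS (FT p τ Θ f) hF
    (Module.finrank (ZMod p) k * Module.finrank k E)
  have hsum := hSUMT C E ιE τE hτE n W N S hN hS
    (GT p (FT p τ Θ f) (Module.finrank (ZMod p) k * Module.finrank k E))
    (by rw [hcardE]; exact hdeg)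
  rw [hcardE, ← htr, hPER S C (fun i => AT p S (FT p τ Θ f i)) (Module.finrank (ZMod p) k) (by
      intro i
      simp only [trft_period]) (Module.finrank k E)] at hsum
  have hQ' : ((p ^ (Module.finrank (ZMod p) k * Module.finrank k E) : ℕ) : C) =
      (Fintype.card k : C) ^ Module.finrank k E := by rw [← hcardE, hQ]
  rw [hQ'] at hsum
  rw [← hsum]
  exact hchs

end AST
end

section
/-!
# MP_b685ef_ag, theorem AST: assembly of the modules
-/
set_option linter.all false

namespace AST

open ASur

universe u v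

theorem main_TLU : StmtTLU := tlu_thm (onev_thm pm_thm)

theorem main_TRFT : StmtTRFT :=
  trft_thm (TEXT_thm KAC_thm TUN_thm (TEX_thm TUN_thm)) (chst_thm ttr_thm) sumt_thm patht_thm
    PER_thm

theorem main_EDGET : StmtEDGET := edget_thm wgtt_thm leadt_thm main_TLU edgelu_thm

theorem main_EDGE4 : StmtEDGE4 :=
  edge4_thm (THETA2_thm topg_thm) main_TRFT degt_thm boxs_thm main_EDGET eprod_thm ecanc_thm
    escal_thm emult_thm newt_thm (model_thm plam_thm) wgtt_thm

theorem main_FINT : StmtFINT.{u, v} :=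
  fint_thm (ENUM_thm main_EDGE4 (eres_thm emult_thm eprod_thm)) K2C_thm linalg_thm ext_thm

end AST
end
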