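import Pool.Agent.Lib.MP_b685ef_ag.AS.Main

/-!
# MP_b685ef_ag, theorem AST (all dimensions, torus, diagonal leading part): definitions

Paper: /team-store/b685_AST_paper.txt (v1).  The namespace `ASur` (folder `AS`) is reused:
`rd`, `KK`, `IsSplit`, `IsTeich`, `Pmat`, `NR`, `revP`, `Edge`, `cyc`, ...
Exponents are the elements of `Fin n → ℤ`; Laurent polynomials over `C` are the elements of
`AddMonoidAlgebra C (Fin n → ℤ)` (coefficient: `F.coeff u`).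
-/

set_option linter.all false

namespace AST

open Finset ASur

/-! ## Exponents -/

/-- The coordinates `y = W u`. -/
def yy {n : ℕ} (W : Matrix (Fin n) (Fin n) ℤ) (u : Fin n → ℤ) (j : Fin n) : ℤ :=
  ∑ i, W j i * u i

/-- The weight `|W u|`. -/
def wt {n : ℕ} (W : Matrix (Fin n) (Fin n) ℤ) (u : Fin n → ℤ) : ℤ := ∑ j, yy W u j

/-- The box `{u : 0 ≤ (W u)_j < N}` as a property. -/
def InBox {n : ℕ} (W : Matrix (Fin n) (Fin n) ℤ) (N : ℕ) (u : Fin n → ℤ) : Prop :=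
  ∀ j, 0 ≤ yy W u j ∧ yy W u j < N

/-- `S` is the box `{u : 0 ≤ (W u)_j < N}`. -/
def IsBox {n : ℕ} (W : Matrix (Fin n) (Fin n) ℤ) (N : ℕ) (S : Finset (Fin n → ℤ)) : Prop :=
  ∀ u, u ∈ S ↔ InBox W N u

/-- The support of `F` lies in `{0 ≤ (W u)_j ≤ B}`. -/
def InCone {n : ℕ} {C : Type} [Semiring C] (W : Matrix (Fin n) (Fin n) ℤ) (B : ℕ)
    (F : AddMonoidAlgebra C (Fin n → ℤ)) : Prop :=
  ∀ u, F.coeff u ≠ 0 → ∀ j, 0 ≤ yy W u j ∧ yy W u j ≤ B

/-! ## Exponential sums on the torus -/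

/-- The value `x^u` of a monomial at a point of the torus. -/
def mono {n : ℕ} {E : Type} [Field E] (x : Fin n → Eˣ) (u : Fin n → ℤ) : Eˣ := ∏ i, x i ^ u i

/-- The value of a Laurent polynomial `f = ∑ f(u) x^u` at a point of the torus. -/
noncomputable def lval {n : ℕ} {k E : Type} [Field k] [Field E] [Algebra k E]
    (f : (Fin n → ℤ) →₀ k) (x : Fin n → Eˣ) : E :=
  ∑ u ∈ f.support, algebraMap k E (f u) * (mono x u : Eˣ)

open Classical in
/-- The sum over the points of the torus. -/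
noncomputable def sumT {n : ℕ} {E : Type} [Field E] [Fintype E] {K : Type*} [Field K]
    (g : (Fin n → Eˣ) → K) : K :=
  ∑ x : Fin n → Eˣ, g x

/-- The exponential sum over the points of the torus. -/
noncomputable def ST {n : ℕ} {p : ℕ} [Fact p.Prime] {k : Type} [Field k] {K : Type*} [Field K]
    (ψ : AddChar (ZMod p) K) (f : (Fin n → ℤ) →₀ k)
    (E : Type) [Field E] [Fintype E] [Algebra (ZMod p) E] [Algebra k E] : K :=
  sumT fun x : Fin n → Eˣ => ψ (Algebra.trace (ZMod p) E (lval f x))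

/-! ## Objects over `C` -/

/-- `F_i = ∏_u Θ(τ(c_u)^{p^i} x^u)`. -/
noncomputable def FT (p : ℕ) {n : ℕ} {k C : Type} [Field k] [CommRing C] (τ : k → C)
    (Θ : Polynomial C) (f : (Fin n → ℤ) →₀ k) (i : ℕ) : AddMonoidAlgebra C (Fin n → ℤ) :=
  ∏ u ∈ f.support, Polynomial.aeval
    (AddMonoidAlgebra.single u (τ (f u) ^ (p ^ i)) : AddMonoidAlgebra C (Fin n → ℤ)) Θ

/-- `G_m = ∏_{i<m} F_i(x^{p^i})`. -/
noncomputable def GT (p : ℕ) {n : ℕ} {C : Type} [CommRing C]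
    (F : ℕ → AddMonoidAlgebra C (Fin n → ℤ)) (m : ℕ) : AddMonoidAlgebra C (Fin n → ℤ) :=
  ∏ i ∈ range m, AddMonoidAlgebra.mapDomainRingHom C
    (nsmulAddMonoidHom (α := Fin n → ℤ) (p ^ i)) (F i)

/-- `A(F) = (coeff_{pu - v} F)_{u,v ∈ S}`. -/
noncomputable def AT (p : ℕ) {n : ℕ} {C : Type} [CommRing C] (S : Finset (Fin n → ℤ))
    (F : AddMonoidAlgebra C (Fin n → ℤ)) : Matrix S S C :=
  Matrix.of fun u v => F.coeff (p • u.1 - v.1)

/-- The value of `G` at the Teichmüller lift of `x`. -/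
noncomputable def evC {n : ℕ} {C E : Type} [Field C] [Field E] (τ : E →*₀ C)
    (x : Fin n → Eˣ) (G : AddMonoidAlgebra C (Fin n → ℤ)) : C :=
  ∑ u ∈ G.coeff.support, G.coeff u * τ ((mono x u : Eˣ) : E)

/-- The scaled matrix `C(F)`. -/
noncomputable def CT (p : ℕ) {n : ℕ} {C : Type} [NormedField C] (W : Matrix (Fin n) (Fin n) ℤ)
    (ρ : C) (S : Finset (Fin n → ℤ)) (F : AddMonoidAlgebra C (Fin n → ℤ)) : Matrix S S C :=
  Matrix.of fun u v => F.coeff (p • u.1 - v.1) / ρ ^ (wt W (p • u.1 - v.1)).toNat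

/-! ## The matrices modulo the maximal ideal -/

/-- The recursion `l E_l = ∑_{i ≥ 0} E_{l - p^i}` for `1 ≤ l < J` and `E_0 = 1`. -/
def IsAH {κ : Type} [Field κ] (p J : ℕ) (E : ℕ → κ) : Prop :=
  E 0 = 1 ∧ ∀ l, 1 ≤ l → l < J →
    (l : κ) * E l = ∑ i ∈ range (l + 1), if p ^ i ≤ l then E (l - p ^ i) else 0

/-- The coefficients of the reduction of the splitting polynomial. -/
noncomputable def EE {C : Type} [NormedField C] [IsUltrametricDist C] (ζ : C) (Θ : Polynomial C)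
    (l : ℕ) : KK C := rd (Θ.coeff l / (ζ - 1) ^ l)

/-- `M^a(s,t) = E_{(ps-t)/D} a^{(ps-t)/D}` if `D ∣ ps - t` and `t ≤ ps`, else `0`. -/
noncomputable def M1 {κ : Type} [Field κ] (p D : ℕ) (E : ℕ → κ) (a : κ) (s t : ℕ) : κ :=
  if t ≤ p * s ∧ D ∣ p * s - t then E ((p * s - t) / D) * a ^ ((p * s - t) / D) else 0

/-- `∏_j M^{a_j}(y_j(u), y_j(v))`. -/
noncomputable def MM {n : ℕ} {κ : Type} [Field κ] (p D : ℕ) (W : Matrix (Fin n) (Fin n) ℤ)
    (E : ℕ → κ) (a : Fin n → κ) (u v : Fin n → ℤ) : κ :=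
  ∏ j, M1 p D E (a j) (yy W u j).toNat (yy W v j).toNat

/-! ## Residues -/

/-- `R(u) = ∏_j ((c r_j)!)^{-h} (α_j^{(q-1)/D})^{r_j}`, `r_j` the residue of `y_j(u)` modulo `D`,
`c = (p-1)/D`, `q = p^h`. -/
noncomputable def RR {n : ℕ} {k : Type} [Field k] (p D h : ℕ) (W : Matrix (Fin n) (Fin n) ℤ)
    (α : Fin n → k) (u : Fin n → ℤ) : k :=
  ∏ j, ((((p - 1) / D * ((yy W u j).toNat % D)).factorial : k)⁻¹) ^ h *
    (α j ^ ((p ^ h - 1) / D)) ^ ((yy W u j).toNat % D)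

/-- `l(u) = ι(R(u)) (-1)^{h ∑ s_j}`, `s_j` the quotient of `y_j(u)` by `D`. -/
noncomputable def ll {n : ℕ} {k κ : Type} [Field k] [Field κ] (ι : k →+* κ) (p D h : ℕ)
    (W : Matrix (Fin n) (Fin n) ℤ) (α : Fin n → k) (u : Fin n → ℤ) : κ :=
  ι (RR p D h W α u) * ∏ j, ((-1) ^ h) ^ ((yy W u j).toNat / D)

/-- The hypotheses on the data `W, W', f, α`: `W W' = W' W = D`; all exponents `u` of `f` have
`W u ≥ 0`, `|W u| ≤ D`, with `|W u| = D` only for the columns `V_j` of `W'`; `f(V_j) = α_j ≠ 0`. -/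
structure Data {n : ℕ} {k : Type} [Field k] (D : ℕ) (W W' : Matrix (Fin n) (Fin n) ℤ)
    (f : (Fin n → ℤ) →₀ k) (α : Fin n → k) : Prop where
  mul : W * W' = (D : ℤ) • (1 : Matrix (Fin n) (Fin n) ℤ)
  mul' : W' * W = (D : ℤ) • (1 : Matrix (Fin n) (Fin n) ℤ)
  nonneg : ∀ u ∈ f.support, ∀ j, 0 ≤ yy W u j
  le : ∀ u ∈ f.support, wt W u ≤ D
  eq : ∀ u ∈ f.support, wt W u = D → ∃ j, u = fun i => W' i j
  lead : ∀ j, f (fun i => W' i j) = α j
  ne : ∀ j, α j ≠ 0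

end AST
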