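import Pool.Agent.Lib.MP_b685ef_ag.AST.Defs

/-!
# MP_b685ef_ag, theorem AST: statements of all modules

Paper: /team-store/b685_AST_paper.txt .  Module NAME proves `StmtNAME` in
`Pool/Agent/Lib/MP_b685ef_ag/AST/NAME.lean` (import `...AST.Spec`, `namespace AST`), as
`theorem name_thm (dependencies as hypotheses) : StmtNAME`.  Many modules are adaptations of the
module of the folder `AS` named in the docstring.
-/

set_option linter.all false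

namespace AST

open Finset ASur

universe u v

/-! ## Part A: the splitting polynomial with recursion -/

/-- **TOPG.** `G_l = [X^l]F_l`. On series `∑ h_n(X) Y^n` with `deg h_n ≤ n`, taking the coefficient
of `X^n` in `h_n` is a ring homomorphism `top`. With `b_X = ∑ binom(X,n) Y^n` (over `ℚ_p[X]` or via
natural numbers `s`), `b_X(Y^p) = b_X(Y)^p g(Y)` gives `1 = exp(pZ) top(g)`, and
`F(X^p)(Y^p) = F^p g` gives `G(Z^p) = G(Z)^p exp(-pZ)`. The coefficient of `Z^l` in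
`p Z^p G'(Z^p)/G(Z^p) = p Z G'/G - pZ`: `y = ZG'/G` satisfies `y(Z) = Z + y(Z^p)`, so
`y = ∑_i Z^{p^i}` and `l G_l = ∑_i G_{l-p^i}`. (Needed first: `n! [X^n]g_n = (-p)^n`, from `gnat`
by comparing the coefficients of `s^n` in the coefficient of `Y^n`.) -/
def StmtTOPG : Prop := ∀ (p : ℕ) [Fact p.Prime] (g F : PowerSeries (Polynomial ℤ_[p])),
  DSer p g F → (∀ n, (PowerSeries.coeff n g).natDegree ≤ n) → ∀ l : ℕ, 1 ≤ l →
  (l : ℤ_[p]) * (PowerSeries.coeff l F).coeff l =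
    ∑ i ∈ range (l + 1), if p ^ i ≤ l then (PowerSeries.coeff (l - p ^ i) F).coeff (l - p ^ i) else 0

/-- **THETA2** (from TOPG): `AS/THETA.lean` again, keeping that `Θ = ∑_{j<J} λ^j j(F_j)(T)` with
`J ≥ J0`: `Θ_l/λ^l = j(G_l) mod 𝔪` for `l < J0`. -/
def StmtTHETA2 : Prop := ∀ (p : ℕ) [Fact p.Prime] (C : Type) [NormedField C]
  [IsUltrametricDist C] [CharZero C] [IsAlgClosed C], ‖(p : C)‖ < 1 →
  ∀ j : ℤ_[p] →+* C, (∀ x, ‖j x‖ ≤ 1) → ∀ ζ : C, IsPrimitiveRoot ζ p →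
  ∀ ε : ℝ, 0 < ε → ∀ J0 : ℕ, ∃ Θ : Polynomial C, IsSplit p ζ ε Θ ∧ IsAH p J0 (EE ζ Θ)

/-- **PLAM.** `p = ∏_{0<i<p}(1 - ζ^i)`, `1 - ζ^i = -i λ (1 + 𝔪)`, `(p-1)! = -1 mod p`
(`ZMod.wilsons_lemma`), `(-1)^{p-1} = 1` or `p = 2`. -/
def StmtPLAM : Prop := ∀ (p : ℕ) [Fact p.Prime] (C : Type) [NormedField C]
  [IsUltrametricDist C] [CharZero C], ‖(p : C)‖ < 1 → ∀ ζ : C, IsPrimitiveRoot ζ p →
  ‖(p : C) / (ζ - 1) ^ (p - 1)‖ = 1 ∧ rd ((p : C) / (ζ - 1) ^ (p - 1)) = -1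

/-! ## Part B: linear algebra modulo `𝔪` -/

/-- **PM**: section 3 of the paper. `x_0 = δ_0`, `x_{t+1}(t') = (t'-d) x_t(t') + x_t(t'-1)`;
`(M x_{t+1})(s) = -∑_{i≥0} (M x_t)(s-p^i)` by the recursion (`l = d+ps-t'`, `t'-d = -l` in `κ`);
so `(M x_t)(s) = 0` for `s < t` and `(M x_t)(t) = (-1)^t E_d`. `X = (x_t(t'))` is upper
unitriangular and `M X` lower triangular: `M = (M X) X⁻¹`. -/
def StmtPM : Prop := ∀ (κ : Type) [Field κ] (p : ℕ) [Fact p.Prime] [CharP κ p] (J0 : ℕ)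
  (E : ℕ → κ), IsAH p J0 E → ∀ d N : ℕ, d < p → d + p * N < J0 →
  ∃ L U : ℕ → ℕ → κ,
    (∀ s t, s < N → t < N →
      (if t ≤ d + p * s then E (d + p * s - t) else 0) = ∑ w ∈ range N, L s w * U w t) ∧
    (∀ s w, s < w → L s w = 0) ∧ (∀ w t, t < w → U w t = 0) ∧ (∀ t, U t t = 1) ∧
    (∀ t, t < N → L t t = (-1) ^ t * E d)

/-- **ONEV** (from PM): one variable. `D ∣ ps - t` iff `s = t mod D`; for `s = r+Ds'`,
`t = r+Dt'`: `(ps-t)/D = cr + ps' - t'` and `M^a(s,t) = a^{cr} (a^p)^{s'} M(s',t') a^{-t'}` with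
`d = cr ≤ p - 1`. -/
def StmtONEV : Prop := ∀ (κ : Type) [Field κ] (p : ℕ) [Fact p.Prime] [CharP κ p] (J0 : ℕ)
  (E : ℕ → κ), IsAH p J0 E → ∀ (D : ℕ), D ∣ p - 1 → ∀ (a : κ), a ≠ 0 → ∀ B : ℕ,
  p * (B + 2) < J0 →
  ∃ L U : ℕ → ℕ → κ,
    (∀ s t, s ≤ B → t ≤ B → M1 p D E a s t = ∑ w ∈ range (B + 1), L s w * U w t) ∧
    (∀ s w, L s w ≠ 0 → w ≤ s ∧ D ∣ s - w) ∧ (∀ w t, U w t ≠ 0 → w ≤ t ∧ D ∣ t - w) ∧
    (∀ t, U t t = 1) ∧
    (∀ s, s ≤ B → L s s * (((p - 1) / D * (s % D)).factorial : κ) =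
      a ^ ((p - 1) / D * (s % D) + (p - 1) * (s / D)) * (-1) ^ (s / D))

/-- **TLU** (from ONEV): the tensor product. A nonzero term has `w_j ≤ y_j(u)` and
`w = W u mod D`, so `w = W u'` with `u' = u - W'((W u - w)/D)` integral, `|w| ≤ m`, and `u'` in the
box (`m < N`). `L u w ≠ 0` gives `y_j(w) ≤ y_j(u)` for all `j`, so `w = u` (`W` is injective) or
`|w| < |u|`. -/
def StmtTLU : Prop := ∀ (κ : Type) [Field κ] (p : ℕ) [Fact p.Prime] [CharP κ p] (J0 : ℕ)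
  (E : ℕ → κ), IsAH p J0 E → ∀ (D : ℕ), D ∣ p - 1 → ∀ (n : ℕ)
  (W W' : Matrix (Fin n) (Fin n) ℤ), W * W' = (D : ℤ) • (1 : Matrix (Fin n) (Fin n) ℤ) →
  W' * W = (D : ℤ) • (1 : Matrix (Fin n) (Fin n) ℤ) →
  ∀ (a : Fin n → κ), (∀ j, a j ≠ 0) → ∀ (m N : ℕ) (S : Finset (Fin n → ℤ)), IsBox W N S →
  m < N → p * (m + 2) < J0 →
  ∃ L U : S → S → κ,
    (∀ u v : S, wt W u.1 ≤ m → wt W v.1 ≤ m → MM p D W E a u.1 v.1 =
      ∑ w ∈ univ.filter (fun w : S => wt W w.1 ≤ m), L u w * U w v) ∧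
    (∀ u w : S, L u w ≠ 0 → w = u ∨ wt W w.1 < wt W u.1) ∧
    (∀ w v : S, U w v ≠ 0 → w = v ∨ wt W w.1 < wt W v.1) ∧
    (∀ u : S, U u u = 1) ∧
    (∀ u : S, wt W u.1 ≤ m → L u u *
        ∏ j, (((p - 1) / D * ((yy W u.1 j).toNat % D)).factorial : κ) =
      ∏ j, (a j ^ ((p - 1) / D * ((yy W u.1 j).toNat % D) + (p - 1) * ((yy W u.1 j).toNat / D)) *
        (-1) ^ ((yy W u.1 j).toNat / D)))

/-- **EDGELU**: (E6) of the paper; adapt `AS/EDGEM.lean`. `A = WΔC W⁻¹`,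
`S = diag(s_u)`, `s_u = ρ^{(p-1)(m-e(u))}` if `e(u) < m`, else `1`. The reduction of
`det(S)^h det(1-(X/ϖ) Pmat A h)` is the determinant over `{e ≤ m}` of
`cyc h S̄ (X C₀, C₁, ...)`, `S̄` the projection on `{e = m}`, `C_i = L_i U_i`. Multiply by the
inverses of the (block) triangular matrices: the entry `(u,v)` of `L_{i-1}⁻¹ S̄ U_i⁻¹` is nonzero
only if `u = v`, `e(u) = m`. So the determinant is a nonzero constant times
`X^{#{e<m}} ∏_{e(u)=m} (1 - (∏_i L_i(u,u)) X)`. (One can also order by `e`, ties broken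
arbitrarily.) -/
def StmtEDGELU : Prop := ∀ (C : Type) [NormedField C] [IsUltrametricDist C]
  (ι : Type) [Fintype ι] [DecidableEq ι] (e : ι → ℕ) (p h m : ℕ) (ρ : C)
  (A Cm : ℕ → Matrix ι ι C) (L U : ℕ → ι → ι → KK C), 2 ≤ p → 1 ≤ h → ρ ≠ 0 → ‖ρ‖ < 1 →
  (∀ i u v, ‖Cm i u v‖ ≤ 1) →
  (∀ i u v, A i u v * ρ ^ e v = ρ ^ (p * e u) * Cm i u v) →
  (∀ i, i < h → ∀ u v, e u ≤ m → e v ≤ m →
    rd (Cm i u v) = ∑ w ∈ univ.filter (fun w => e w ≤ m), L i u w * U i w v) →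
  (∀ i u w, L i u w ≠ 0 → w = u ∨ e w < e u) →
  (∀ i w v, U i w v ≠ 0 → w = v ∨ e w < e v) →
  (∀ i u, U i u u = 1) → (∀ i, i < h → ∀ u, e u ≤ m → L i u u ≠ 0) →
  ∀ m0 : ℕ, Edge ((Pmat A h).charpolyRev : PowerSeries C) (ρ ^ ((p - 1) * m * h))
    (Fintype.card {u // e u < m})
    (∏ u ∈ univ.filter (fun u => e u = m),
      (1 - Polynomial.C (∏ i ∈ range h, L i u u) * Polynomial.X)) m0

/-! ## Part C: the trace formula on the torus -/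

/-- **BOXS.** The box exists as a `Finset` (`W' W = D ≠ 0` gives a bound for `u`). -/
def StmtBOXS : Prop := ∀ (n D : ℕ) (W W' : Matrix (Fin n) (Fin n) ℤ), 1 ≤ D →
  W' * W = (D : ℤ) • (1 : Matrix (Fin n) (Fin n) ℤ) → ∀ N : ℕ, ∃ S, IsBox W N S

/-- **PATHT**: adapt `AS/PATH.lean`. `(Pmat (AT F) m)_{u,v} = coeff_{p^m u - v} G_m`. A nonzero
term of `∑_{u'} coeff_{pu-u'}(F_m) coeff_{p^m u'-v}(G_m)` has
`0 ≤ (W(p^m u' - v))_j ≤ (p^m - 1)(N-1)`, so `u'` is in the box. -/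
def StmtPATHT : Prop := ∀ (p : ℕ), 1 ≤ p → ∀ (C : Type) [Field C] (n : ℕ)
  (W : Matrix (Fin n) (Fin n) ℤ) (N : ℕ) (S : Finset (Fin n → ℤ)), 1 ≤ N → IsBox W N S →
  ∀ (F : ℕ → AddMonoidAlgebra C (Fin n → ℤ)), (∀ i, InCone W ((p - 1) * (N - 1)) (F i)) →
  ∀ m : ℕ, InCone W ((p ^ m - 1) * (N - 1)) (GT p F m) ∧
    Matrix.trace (Pmat (fun i => AT p S (F i)) m) =
      ∑ u ∈ S, (GT p F m).coeff ((p ^ m - 1) • u)

/-- **SUMT**. `∑_x τ(x^u) = (Q-1)^n` if all `u_i` are divisible by `Q - 1`, else `0`. If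
`coeff_{u} G ≠ 0` and `u = (Q-1) u'`, then `u'` is in the box. -/
def StmtSUMT : Prop := ∀ (C : Type) [NormedField C] [IsUltrametricDist C]
  (E : Type) [Field E] [Fintype E] (ι : E →+* KK C) (τ : E →*₀ C), IsTeich ι τ →
  ∀ (n : ℕ) (W : Matrix (Fin n) (Fin n) ℤ) (N : ℕ) (S : Finset (Fin n → ℤ)), 1 ≤ N →
  IsBox W N S → ∀ (G : AddMonoidAlgebra C (Fin n → ℤ)),
  InCone W ((Fintype.card E - 1) * (N - 1)) G →
  sumT (fun x : Fin n → Eˣ => evC τ x G) =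
    ((Fintype.card E : C) - 1) ^ n * ∑ u ∈ S, G.coeff ((Fintype.card E - 1) • u)

/-- **CHST** (from `ASur.StmtTTR`): adapt `AS/CHS.lean`. `evC τ x` is multiplicative and
`evC τ x (single u c) = c τ(x^u)`. -/
def StmtCHST : Prop := ∀ (p : ℕ) [Fact p.Prime] (C : Type) [NormedField C]
  [IsUltrametricDist C], ‖(p : C)‖ < 1 →
  ∀ (ψ : AddChar (ZMod p) C) (ε : ℝ) (Θ : Polynomial C), 0 < ε → IsSplit p (ψ 1) ε Θ →
  ∀ (k : Type) [Field k] [Fintype k] (τ : k →*₀ C) (E : Type) [Field E] [Fintype E]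
    [Algebra (ZMod p) E] [Algebra k E] (ιE : E →+* KK C) (τE : E →*₀ C), IsTeich ιE τE →
  (∀ x, τE (algebraMap k E x) = τ x) →
  ∀ (n : ℕ) (f : (Fin n → ℤ) →₀ k),
  ‖ST ψ f E - sumT (fun x : Fin n → Eˣ => evC τE x
    (GT p (FT p τ Θ f) (Module.finrank (ZMod p) E)))‖ ≤ ε

/-- **TRFT** (from `ASur.StmtTEXT`, CHST, SUMT, PATHT, `ASur.StmtPER`): adapt `AS/TRF.lean`. -/
def StmtTRFT : Prop := ∀ (p : ℕ) [Fact p.Prime] (C : Type) [NormedField C]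
  [IsUltrametricDist C] [CharZero C] [IsAlgClosed C], ‖(p : C)‖ < 1 →
  ∀ (ψ : AddChar (ZMod p) C) (ε : ℝ) (Θ : Polynomial C), 0 < ε → IsSplit p (ψ 1) ε Θ →
  ∀ (k : Type) [Field k] [Fintype k] [Algebra (ZMod p) k] (ι : k →+* KK C) (τ : k →*₀ C),
  IsTeich ι τ → ∀ (n : ℕ) (f : (Fin n → ℤ) →₀ k) (W : Matrix (Fin n) (Fin n) ℤ) (N : ℕ)
    (S : Finset (Fin n → ℤ)), 1 ≤ N → IsBox W N S →
  (∀ i, InCone W ((p - 1) * (N - 1)) (FT p τ Θ f i)) →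
  ∀ (E : Type) [Field E] [Fintype E] [Algebra (ZMod p) E] [Algebra k E],
  ‖ST ψ f E - ((Fintype.card k : C) ^ Module.finrank k E - 1) ^ n *
    Matrix.trace ((Pmat (fun i => AT p S (FT p τ Θ f i)) (Module.finrank (ZMod p) k)) ^
      Module.finrank k E)‖ ≤ ε

/-- **DEGT.** The support of `F_i` is in the cone and bounded, uniformly in `i`. -/
def StmtDEGT : Prop := ∀ (p : ℕ), 2 ≤ p → ∀ (C : Type) [Field C] (k : Type) [Field k]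
  (τ : k → C) (Θ : Polynomial C) (n : ℕ) (W : Matrix (Fin n) (Fin n) ℤ)
  (f : (Fin n → ℤ) →₀ k), (∀ u ∈ f.support, ∀ j, 0 ≤ yy W u j) →
  ∃ N0, 1 ≤ N0 ∧ ∀ N, N0 ≤ N → ∀ i, InCone W ((p - 1) * (N - 1)) (FT p τ Θ f i)

/-! ## Part D: weights and reduction -/

/-- **WGTT**: adapt `AS/WGT.lean`. -/
def StmtWGTT : Prop := ∀ (p : ℕ) [Fact p.Prime] (D : ℕ), 1 ≤ D →
  ∀ (C : Type) [NormedField C] [IsUltrametricDist C] (ζ ρ : C) (ε : ℝ) (Θ : Polynomial C),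
  IsSplit p ζ ε Θ → ρ ^ D = ζ - 1 → ρ ≠ 0 → ‖ρ‖ < 1 →
  ∀ (k : Type) [Field k] (ι : k →+* KK C) (τ : k →*₀ C), IsTeich ι τ →
  ∀ (n : ℕ) (W : Matrix (Fin n) (Fin n) ℤ) (f : (Fin n → ℤ) →₀ k),
  (∀ u ∈ f.support, ∀ j, 0 ≤ yy W u j) → (∀ u ∈ f.support, wt W u ≤ D) →
  ∀ (i : ℕ) (w : Fin n → ℤ), ‖(FT p τ Θ f i).coeff w‖ ≤ ‖ρ‖ ^ (wt W w).toNat

/-- **LEADT**: adapt `AS/LEADC.lean`. Scaling by the additive function `wt` (go through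
`AddMonoidAlgebra (OO C)`); terms with `|W u| < D` reduce to `1` (in particular `u = 0`); the
others give `∏_j E((ι α_j)^{p^i} x^{V_j})`, whose coefficient at `w` is
`∏_j E_{l_j} (..)^{l_j}` if `W w = D (l_j)`, `l_j ≥ 0` (the `V_j` are independent). -/
def StmtLEADT : Prop := ∀ (p : ℕ) [Fact p.Prime] (D : ℕ), 1 ≤ D →
  ∀ (C : Type) [NormedField C] [IsUltrametricDist C] (ζ ρ : C) (ε : ℝ) (Θ : Polynomial C),
  IsSplit p ζ ε Θ → ρ ^ D = ζ - 1 → ρ ≠ 0 → ‖ρ‖ < 1 →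
  ∀ (k : Type) [Field k] (ι : k →+* KK C) (τ : k →*₀ C), IsTeich ι τ →
  ∀ (n : ℕ) (W W' : Matrix (Fin n) (Fin n) ℤ) (f : (Fin n → ℤ) →₀ k) (α : Fin n → k),
  Data D W W' f α → ∀ (i : ℕ) (w : Fin n → ℤ),
  rd ((FT p τ Θ f i).coeff w / ρ ^ (wt W w).toNat) =
    if ∀ j, 0 ≤ yy W w j ∧ (D : ℤ) ∣ yy W w j then
      ∏ j, EE ζ Θ ((yy W w j).toNat / D) * (ι (α j) ^ (p ^ i)) ^ ((yy W w j).toNat / D)
    else 0

/-- **EDGET** (from WGTT, LEADT, TLU, EDGELU): the edges of `det(1 - XB)`. The pivots: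
`∏_{i<h} L_i(u,u) = ll ι ...` by `∏_{i<h} a^{p^i (cr + (p-1)s)} = (a^{(q-1)/D})^r a^{(q-1)s}` and
`a^{q-1} = 1` (`k` has `q = p^h` elements), `(x^{p^i} = x` for `x` in the prime field). -/
def StmtEDGET : Prop := ∀ (p : ℕ) [Fact p.Prime] (D : ℕ), D ∣ p - 1 →
  ∀ (C : Type) [NormedField C] [IsUltrametricDist C], ‖(p : C)‖ < 1 →
  ∀ (ζ ρ : C) (ε : ℝ) (Θ : Polynomial C) (J0 : ℕ),
  IsSplit p ζ ε Θ → IsAH p J0 (EE ζ Θ) → ρ ^ D = ζ - 1 → ρ ≠ 0 → ‖ρ‖ < 1 →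
  ∀ (k : Type) [Field k] [Fintype k] [Algebra (ZMod p) k] (ι : k →+* KK C) (τ : k →*₀ C),
  IsTeich ι τ →
  ∀ (n : ℕ) (W W' : Matrix (Fin n) (Fin n) ℤ) (f : (Fin n → ℤ) →₀ k) (α : Fin n → k),
  Data D W W' f α → ∀ (m N : ℕ) (S : Finset (Fin n → ℤ)), IsBox W N S → m < N →
  p * (m + 2) < J0 → ∀ m0 : ℕ,
  Edge ((Pmat (fun i => AT p S (FT p τ Θ f i)) (Module.finrank (ZMod p) k)).charpolyRev :
      PowerSeries C) (ρ ^ ((p - 1) * m * Module.finrank (ZMod p) k))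
    (S.filter (fun u => wt W u < m)).card
    (∏ u ∈ S.filter (fun u => wt W u = m), (1 - Polynomial.C
      (ll ι p D (Module.finrank (ZMod p) k) W α u) * Polynomial.X)) m0

/-! ## Part E: calculus of edges -/

/-- **EPROD** (E1), and uniqueness (EUNI). -/
def StmtEPROD : Prop := ∀ (C : Type) [NormedField C] [IsUltrametricDist C]
  (P P' : PowerSeries C) (w : C) (M M' : ℕ) (χ χ' : Polynomial (KK C)) (m0 : ℕ), w ≠ 0 →
  (Edge P w M χ m0 → Edge P' w M' χ' m0 → Edge (P * P') w (M + M') (χ * χ') m0) ∧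
  (Edge P w M χ m0 → Edge P w M' χ' m0 → χ.coeff 0 = 1 → χ'.coeff 0 = 1 →
    M + χ.natDegree ≤ m0 → M' + χ'.natDegree ≤ m0 → M = M' ∧ χ = χ')

/-- **ECANC** (E2). `P` a polynomial. Scale `P(X/w)` to be primitive. The products agree up to
degree `m0` up to a unit scalar, because both have a nonzero coefficient of index `≤ m0` in the
reduction. -/
def StmtECANC : Prop := ∀ (C : Type) [NormedField C] [IsUltrametricDist C]
  (P : Polynomial C) (A : PowerSeries C) (w : C) (MP MA : ℕ) (χP χA : Polynomial (KK C))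
  (m0 : ℕ), w ≠ 0 → P.coeff 0 = 1 → χP.coeff 0 = 1 → χA.coeff 0 = 1 →
  MA + P.natDegree ≤ m0 → MA + MP + χP.natDegree ≤ m0 →
  Edge ((P : PowerSeries C) * A) w (MP + MA) (χP * χA) m0 → Edge A w MA χA m0 →
  Edge (P : PowerSeries C) w MP χP (m0 - MA)

/-- **ESCAL** (E4). -/
def StmtESCAL : Prop := ∀ (C : Type) [NormedField C] [IsUltrametricDist C]
  (P : PowerSeries C) (m0 : ℕ),
  (∀ t w : C, w ≠ 0 → ‖t‖ < ‖w‖ → PowerSeries.constantCoeff P = 1 →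
    (∀ n, ‖PowerSeries.coeff n P‖ ≤ 1) → Edge (PowerSeries.rescale t P) w 0 1 m0) ∧
  (∀ (t w' η : C) (M : ℕ) (χ : Polynomial (KK C)), t ≠ 0 → w' ≠ 0 → ‖η‖ = 1 →
    Edge P w' M χ m0 → Edge (PowerSeries.rescale t P) (t * w' * η) M
      (χ.comp (Polynomial.C (rd η)⁻¹ * Polynomial.X)) m0)

/-- **EMULT** (E5). -/
def StmtEMULT : Prop := ∀ (C : Type) [NormedField C] [IsUltrametricDist C]
  (β : Multiset C) (w : C), w ≠ 0 → ‖w‖ ≤ 1 → ∀ m0 : ℕ,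
  Edge (revP β : PowerSeries C) w (Multiset.card (β.filter fun x => ‖w‖ < ‖x‖))
    (((β.filter fun x => ‖x‖ = ‖w‖).map fun x =>
      1 - Polynomial.C (rd (x / w)) * Polynomial.X).prod) m0

/-- **ERES** (from EMULT, EPROD): the edge gives the residues. Two multisets of nonzero elements of
a field with the same `∏(1 - xX)` are equal. -/
def StmtERES : Prop := ∀ (C : Type) [NormedField C] [IsUltrametricDist C]
  (β : Multiset C) (w : C) (M : ℕ) (R : Multiset (KK C)) (m0 : ℕ), w ≠ 0 → ‖w‖ ≤ 1 →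
  (∀ r ∈ R, r ≠ 0) → Multiset.card β ≤ m0 → M + Multiset.card R ≤ m0 →
  Edge (revP β : PowerSeries C) w M
    ((R.map fun r => 1 - Polynomial.C r * Polynomial.X).prod) m0 →
  Multiset.card (β.filter fun x => ‖w‖ < ‖x‖) = M ∧
  (β.filter fun x => ‖x‖ = ‖w‖).map (fun x => rd (x / w)) = R

/-- Products over the subsets of `[n]` of odd (even) cardinality. -/
noncomputable def Odd' {C : Type} [Field C] (n : ℕ) (q : C) (T : PowerSeries C) : PowerSeries C :=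
  ∏ Z ∈ (univ : Finset (Finset (Fin n))).filter (fun Z => Z.card % 2 = 1),
    PowerSeries.rescale (q ^ Z.card) T

/-- Products over the subsets of `[n]` of even cardinality. -/
noncomputable def Even' {C : Type} [Field C] (n : ℕ) (q : C) (T : PowerSeries C) : PowerSeries C :=
  ∏ Z ∈ (univ : Finset (Finset (Fin n))).filter (fun Z => Z.card % 2 = 0),
    PowerSeries.rescale (q ^ Z.card) T

/-- **NEWT** (from `ASur.StmtNRM`, `ASur.StmtNCL`): formula (3).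
`∑_Z (-1)^{|Z|} q^{|Z|k} = (1-q^k)^n`; `rescale t P` has power sums `t^k s_k`. -/
def StmtNEWT : Prop := ∀ (C : Type) [NormedField C] [IsUltrametricDist C] [CharZero C]
  (n : ℕ) (q : C) (s t : ℕ → C) (P T : PowerSeries C) (ε : ℝ), 0 ≤ ε → ‖q‖ ≤ 1 →
  NR s P → NR t T → (∀ m, ‖PowerSeries.coeff m T‖ ≤ 1) → (∀ i, 1 ≤ i → ‖s i‖ ≤ 1) →
  (∀ i, 1 ≤ i → ‖t i‖ ≤ 1) → (∀ i, 1 ≤ i → ‖s i - (1 - q ^ i) ^ n * t i‖ ≤ ε) →
  ∀ m, ‖PowerSeries.coeff m (P * Odd' n q T) - PowerSeries.coeff m (Even' n q T)‖ ≤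
    ε / ‖(m.factorial : C)‖

/-! ## Part F: the model -/

/-- **MODEL** (from PLAM): section 7. `g_j(r)` a lift of the residue times `ρ^{(p-1)rh}`,
`γ(u) = ∏_j g_j(r_j) q^{s_j}`. The box `N = D N'` is `{r + D s}`, `r` in the box `D`, i.e.
`u = u_0 + W' s`, `s ∈ [0,N')^n`. -/
def StmtMODEL : Prop := ∀ (p : ℕ) [Fact p.Prime] (D : ℕ), D ∣ p - 1 →
  ∀ (C : Type) [NormedField C] [IsUltrametricDist C] [CharZero C], ‖(p : C)‖ < 1 →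
  ∀ (ζ ρ : C), IsPrimitiveRoot ζ p → ρ ^ D = ζ - 1 → ρ ≠ 0 → ‖ρ‖ < 1 →
  ∀ (k : Type) [Field k] [Fintype k] [Algebra (ZMod p) k] (ι : k →+* KK C)
    (n : ℕ) (W W' : Matrix (Fin n) (Fin n) ℤ) (f : (Fin n → ℤ) →₀ k) (α : Fin n → k),
  Data D W W' f α → ∃ γ : (Fin n → ℤ) → C,
    (∀ u, (∀ j, 0 ≤ yy W u j) →
      ‖γ u‖ = ‖ρ‖ ^ ((p - 1) * (wt W u).toNat * Module.finrank (ZMod p) k) ∧
      rd (γ u / ρ ^ ((p - 1) * (wt W u).toNat * Module.finrank (ZMod p) k)) =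
        ll ι p D (Module.finrank (ZMod p) k) W α u) ∧
    ∀ (N' : ℕ) (S Pi : Finset (Fin n → ℤ)), 1 ≤ N' → IsBox W (D * N') S → IsBox W D Pi →
      ∀ i, 1 ≤ i → ‖∑ u ∈ Pi, γ u ^ i - (1 - (Fintype.card k : C) ^ i) ^ n * ∑ u ∈ S, γ u ^ i‖ ≤
        ‖(Fintype.card k : C)‖ ^ N'

/-- **EDGE4** (from everything above): formula (4). -/
def StmtEDGE4 : Prop := ∀ (p : ℕ) [Fact p.Prime] (D : ℕ), D ∣ p - 1 →
  ∀ (C : Type) [NormedField C] [IsUltrametricDist C] [CharZero C] [IsAlgClosed C],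
  ‖(p : C)‖ < 1 → ∀ j : ℤ_[p] →+* C, (∀ x, ‖j x‖ ≤ 1) →
  ∀ (k : Type) [Field k] [Fintype k] [Algebra (ZMod p) k] (ι : k →+* KK C)
    (n : ℕ) (W W' : Matrix (Fin n) (Fin n) ℤ) (f : (Fin n → ℤ) →₀ k) (α : Fin n → k),
  Data D W W' f α → ∀ (Pi : Finset (Fin n → ℤ)), IsBox W D Pi →
  ∀ (ψ : AddChar (ZMod p) C), ψ ≠ 1 → ∀ β : Multiset C,
  (∀ (E : Type) [Field E] [Fintype E] [Algebra (ZMod p) E] [Algebra k E],
    (-1) ^ n * (β.map fun x => x ^ Module.finrank k E).sum = ST ψ f E) →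
  ∀ ρ : C, ρ ^ D = ψ 1 - 1 → ∀ m m0 : ℕ,
    Edge (revP β : PowerSeries C) (ρ ^ ((p - 1) * m * Module.finrank (ZMod p) k))
      (Pi.filter (fun u => wt W u < m)).card
      (∏ u ∈ Pi.filter (fun u => wt W u = m), (1 - Polynomial.C
        (ι (RR p D (Module.finrank (ZMod p) k) W α u)) * Polynomial.X)) m0

/-- **ENUM** (from EDGE4, ERES, `ASur.StmtZETA`, `ASur.StmtTEMB`): section 8 over `C`. -/
def StmtENUM : Prop := ∀ (p : ℕ) [Fact p.Prime] (D : ℕ), D ∣ p - 1 →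
  ∀ (C : Type) [NormedField C] [IsUltrametricDist C] [CharZero C] [IsAlgClosed C],
  ‖(p : C)‖ < 1 → ∀ j : ℤ_[p] →+* C, (∀ x, ‖j x‖ ≤ 1) →
  ∀ (k : Type) [Field k] [Fintype k] [Algebra (ZMod p) k]
    (n : ℕ) (W W' : Matrix (Fin n) (Fin n) ℤ) (f : (Fin n → ℤ) →₀ k) (α : Fin n → k),
  Data D W W' f α → ∀ (Pi : Finset (Fin n → ℤ)), IsBox W D Pi →
  ∀ (ψ : AddChar (ZMod p) C), ψ ≠ 1 → ∀ β : Multiset C, (∀ x ∈ β, x ≠ 0) →
  (∀ (E : Type) [Field E] [Fintype E] [Algebra (ZMod p) E] [Algebra k E],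
    (-1) ^ n * (β.map fun x => x ^ Module.finrank k E).sum = ST ψ f E) →
  ∃ b : (Fin n → ℤ) → C, Pi.val.map b = β ∧ ∀ u ∈ Pi, ∀ v ∈ Pi, b u = b v →
    wt W u = wt W v ∧ RR p D (Module.finrank (ZMod p) k) W α u =
      RR p D (Module.finrank (ZMod p) k) W α v

/-- **FINT** (from ENUM, `ASur.StmtK2C`, `ASur.StmtLINALG`, `ASur.StmtEXT`): adapt
`AS/FINAL.lean`. -/
def StmtFINT : Prop := ∀ (p : ℕ) [Fact p.Prime] (D : ℕ), D ∣ p - 1 →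
  ∀ (k : Type) [Field k] [Fintype k] [Algebra (ZMod p) k]
    (n : ℕ) (W W' : Matrix (Fin n) (Fin n) ℤ) (f : (Fin n → ℤ) →₀ k) (α : Fin n → k),
  Data D W W' f α → ∀ (Pi : Finset (Fin n → ℤ)), IsBox W D Pi →
  ∀ (K : Type u) [Field K] [IsAlgClosed K] [CharZero K] (ψ : AddChar (ZMod p) K), ψ ≠ 1 →
  ∀ (V : Type v) [AddCommGroup V] [Module K V] [FiniteDimensional K V] (φ : V ≃ₗ[K] V),
  (∀ (E : Type) [Field E] [Fintype E] [Algebra (ZMod p) E] [Algebra k E],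
    (-1) ^ n * LinearMap.trace K V ((φ : V →ₗ[K] V) ^ Module.finrank k E) = ST ψ f E) →
  ∃ b : (Fin n → ℤ) → K, Pi.val.map b = (LinearMap.charpoly (φ : V →ₗ[K] V)).roots ∧
    ∀ u ∈ Pi, ∀ v ∈ Pi, b u = b v →
      wt W u = wt W v ∧ RR p D (Module.finrank (ZMod p) k) W α u =
        RR p D (Module.finrank (ZMod p) k) W α v

/-- **CYCLIC.** Section 9: `p - 1 ∣ h` makes the factorials disappear
(`(x^{p-1} = 1` in the prime field, `c r < p`), and `R(u) = ∏ ζ_j^{y_j(u)}`. -/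
def StmtCYCLIC : Prop := ∀ (p : ℕ) [Fact p.Prime] (D : ℕ), D ∣ p - 1 →
  ∀ (k : Type) [Field k] [Algebra (ZMod p) k] (n h : ℕ) (W : Matrix (Fin n) (Fin n) ℤ)
    (α : Fin n → k) (Pi : Finset (Fin n → ℤ)), IsBox W D Pi → p - 1 ∣ h →
  ∀ u ∈ Pi, RR p D h W α u = ∏ j, (α j ^ ((p ^ h - 1) / D)) ^ (yy W u j).toNat

end AST
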